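import Mathlib

/-! The circulant matrices over `ℤ[√5]` used for the Gaussian double Markovian model on 11
vertices. -/

open Matrix

namespace Pool.Agent.R950.DM

abbrev Z5 := ℤ√5

/-- first column of `2 Σ` -/
def sv : Fin 11 → Z5 :=
  ![⟨2, 0⟩, ⟨1, -1⟩, ⟨-4, 2⟩, 0, 0, 0, 0, 0, 0, ⟨-4, 2⟩, ⟨1, -1⟩]

/-- first column of `2 K` -/
def kv : Fin 11 → Z5 :=
  ![⟨6, 0⟩, ⟨1, 1⟩, 0, ⟨1, -1⟩, ⟨-3, 1⟩, 0, 0, ⟨-3, 1⟩, ⟨1, -1⟩, 0, ⟨1, 1⟩]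

/-- first column of `4 B` -/
def bv : Fin 11 → Z5 :=
  ![⟨4, 0⟩, 0, 0, 0, 0, 0, 0, 0, 0, ⟨4, 0⟩, ⟨-3, -1⟩]

def SZ : Matrix (Fin 11) (Fin 11) Z5 := circulant sv
def KZ : Matrix (Fin 11) (Fin 11) Z5 := circulant kv
def BZ : Matrix (Fin 11) (Fin 11) Z5 := circulant bv

lemma SK : SZ * KZ = (4 : Z5) • (1 : Matrix (Fin 11) (Fin 11) Z5) := by
  decide +kernel

lemma SB : (8 : Z5) • SZ = (⟨-2, 1⟩ : Z5) • (BZᵀ * BZ) +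
    (⟨78, -34⟩ : Z5) • (1 : Matrix (Fin 11) (Fin 11) Z5) := by
  decide +kernel

/-- the 22 × 22 matrix of the linearised system; rows `(z, j)`, columns `(h, i)` -/
def Lmat {R : Type*} [CommRing R] (A B : Matrix (Fin 11) (Fin 11) R) :
    Matrix (Fin 2 × Fin 11) (Fin 2 × Fin 11) R :=
  fun p q =>
    let z : Fin 11 := ![2, 5] p.1
    let h : Fin 11 := ![1, 2] q.1
    A p.2 q.2 * B (q.2 + h) (p.2 + z) + A p.2 (q.2 + h) * B q.2 (p.2 + z)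

/-- `ℤ[√5] → 𝔽₁₁`, `√5 ↦ 4` -/
def red : Z5 →+* ZMod 11 := Zsqrtd.lift ⟨4, by decide⟩

def tau : Fin 2 → Fin 2 → Fin 11 → ZMod 11 :=
  ![![![0, 0, 6, 3, 6, 9, 2, 9, 6, 3, 6], ![4, 10, 9, 10, 4, 10, 6, 7, 7, 6, 10]],
    ![![5, 9, 4, 7, 5, 8, 8, 5, 7, 4, 9], ![1, 9, 9, 1, 5, 9, 6, 2, 6, 9, 5]]]

/-- the inverse matrix mod 11 -/
def Tmat : Matrix (Fin 2 × Fin 11) (Fin 2 × Fin 11) (ZMod 11) :=
  fun q p => tau q.1 p.1 (q.2 - p.2)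

def kred : Fin 11 → ZMod 11 := ![6, 5, 0, 8, 1, 0, 0, 1, 8, 0, 5]

lemma kred_eq : ∀ i, red (kv i) = kred i := by
  decide +kernel

lemma TL : Tmat * Lmat (circulant kred) (circulant kred) = 1 := by
  decide +kernel

end Pool.Agent.R950.DM
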