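import Pool.Agent.R950.DMA

/-! The Gaussian double Markovian model; an isolated point of a correlation model with
11 vertices. -/

open Matrix Topology Filter

namespace Pool.Agent.R950.DM

/-- The Gaussian double Markovian model `M(G,H)`. -/
def Model {n : ℕ} (G H : SimpleGraph (Fin n)) : Set (Matrix (Fin n) (Fin n) ℝ) :=
  {S | S.PosDef ∧ (∀ i j, i ≠ j → ¬ G.Adj i j → S⁻¹ i j = 0) ∧
    (∀ i j, i ≠ j → ¬ H.Adj i j → S i j = 0)}

/-- The double Markovian correlation model `M₁(G,H)`. -/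
def CorrModel {n : ℕ} (G H : SimpleGraph (Fin n)) : Set (Matrix (Fin n) (Fin n) ℝ) :=
  {S | S ∈ Model G H ∧ ∀ i, S i i = 1}

def G11 : SimpleGraph (Fin 11) := SimpleGraph.fromRel fun i j => j - i = 1 ∨ j - i = 3 ∨ j - i = 4
def H11 : SimpleGraph (Fin 11) := SimpleGraph.fromRel fun i j => j - i = 1 ∨ j - i = 2

noncomputable section

def toR : Z5 →+* ℝ := Zsqrtd.lift ⟨√5, by norm_num⟩

lemma toR_inj : Function.Injective toR := by
  apply Zsqrtd.lift_injective
  intro n hn
  have h1 : n.natAbs * n.natAbs = 5 := by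
    have := congrArg Int.natAbs hn
    rw [Int.natAbs_mul] at this
    simpa using this.symm
  have h2 : n.natAbs < 3 := by nlinarith
  interval_cases n.natAbs <;> omega

lemma toR_apply (a b : ℤ) : toR ⟨a, b⟩ = a + b * √5 := by
  simp [toR, Zsqrtd.lift]

def S0 : Matrix (Fin 11) (Fin 11) ℝ := (1 / 2 : ℝ) • toR.mapMatrix SZ
def K0 : Matrix (Fin 11) (Fin 11) ℝ := (1 / 2 : ℝ) • toR.mapMatrix KZ

lemma map_smulZ (a : Z5) (M : Matrix (Fin 11) (Fin 11) Z5) :
    toR.mapMatrix (a • M) = toR a • toR.mapMatrix M := by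
  ext i j; simp

lemma S0K0 : S0 * K0 = 1 := by
  have h := congrArg toR.mapMatrix SK
  rw [map_mul, map_smulZ, map_one] at h
  unfold S0 K0
  rw [smul_mul_smul_comm, h, smul_smul]
  have : toR (4 : Z5) = 4 := map_ofNat _ _
  rw [this]; norm_num

lemma S0_eq : S0 = (1 / 16 : ℝ) • ((√5 - 2) • ((toR.mapMatrix BZ)ᵀ * (toR.mapMatrix BZ)) +
    (78 - 34 * √5) • (1 : Matrix (Fin 11) (Fin 11) ℝ)) := by
  have h := congrArg toR.mapMatrix SB
  rw [map_add, map_smulZ, map_smulZ, map_smulZ, map_mul, map_one, toR_apply (-2) 1, toR_apply 78 (-34)] at h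
  have h8 : toR (8 : Z5) = 8 := map_ofNat _ _
  rw [h8] at h
  have e : S0 = (1 / 16 : ℝ) • ((8 : ℝ) • toR.mapMatrix SZ) := by
    unfold S0; rw [smul_smul]; norm_num
  rw [e, h]
  congr 1
  have e1 : toR.mapMatrix BZᵀ = (toR.mapMatrix BZ)ᵀ := by ext i j; rfl
  rw [e1]
  push_cast
  congr 1
  · congr 1; ring
  · congr 1; ring

lemma sqrt5_lt : √5 < 2.25 := by
  rw [Real.sqrt_lt' (by norm_num)]; norm_num

lemma sqrt5_gt : 2.2 < √5 := by
  rw [Real.lt_sqrt (by norm_num)]; norm_num

lemma S0_posDef : S0.PosDef := by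
  rw [S0_eq]
  have h1 := sqrt5_gt
  have h2 : √5 < 2.29 := by rw [Real.sqrt_lt' (by norm_num)]; norm_num
  have h3 : √5 * √5 = 5 := Real.mul_self_sqrt (by norm_num)
  apply PosDef.smul _ (by norm_num)
  apply PosDef.posSemidef_add
  · apply PosSemidef.smul _ (by linarith)
    have := posSemidef_conjTranspose_mul_self (toR.mapMatrix BZ)
    rwa [conjTranspose_eq_transpose_of_trivial] at this
  · apply PosDef.smul PosDef.one
    nlinarith

lemma Lmat_map {R T : Type*} [CommRing R] [CommRing T] (f : R →+* T)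
    (A B : Matrix (Fin 11) (Fin 11) R) :
    (Lmat A B).map f = Lmat (A.map f) (B.map f) := by
  ext p q
  simp [Lmat]

lemma det_LZ : (Lmat KZ KZ).det ≠ 0 := by
  intro h
  have : Nontrivial (ZMod 11) := ⟨⟨0, 1, by decide⟩⟩
  have h1 : (Lmat (circulant kred) (circulant kred)).det ≠ 0 :=
    det_ne_zero_of_left_inverse TL
  apply h1
  have h2 : (Lmat KZ KZ).map red = Lmat (circulant kred) (circulant kred) := by
    rw [Lmat_map]
    have : KZ.map red = circulant kred := by
      ext i j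
      simp only [KZ, map_apply, circulant_apply, kred_eq]
    rw [this]
  rw [← h2]
  have h3 := RingHom.map_det red (Lmat KZ KZ)
  rw [h, map_zero] at h3
  exact h3.symm

lemma det_L0 : (Lmat K0 K0).det ≠ 0 := by
  have e : Lmat K0 K0 = (1 / 4 : ℝ) • (Lmat KZ KZ).map toR := by
    rw [Lmat_map]
    ext p q
    simp only [Lmat, K0, Matrix.smul_apply, smul_eq_mul, RingHom.mapMatrix_apply]
    ring
  rw [e, det_smul]
  apply mul_ne_zero (by positivity)
  have h3 := RingHom.map_det toR (Lmat KZ KZ)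
  rw [RingHom.mapMatrix_apply] at h3
  rw [← h3]
  exact (map_ne_zero_iff toR toR_inj).2 det_LZ

lemma K0_zero (j : Fin 11) (z : Fin 2) : K0 j (j + ![2, 5] z) = 0 := by
  have : KZ j (j + ![2, 5] z) = 0 := by
    revert j z; decide +kernel
  simp only [K0, Matrix.smul_apply, RingHom.mapMatrix_apply, map_apply, this, map_zero, smul_zero]

lemma sum4 (F : Fin 11 → ℝ) (h : ∀ d, d ≠ 1 → d ≠ 2 → d ≠ 9 → d ≠ 10 → F d = 0) :
    ∑ d, F d = F 1 + F 2 + F 9 + F 10 := by
  have : ∑ d, F d = ∑ d ∈ ({1, 2, 9, 10} : Finset (Fin 11)), F d := by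
    symm
    apply Finset.sum_subset (Finset.subset_univ _)
    intro d _ hd
    simp only [Finset.mem_insert, Finset.mem_singleton, not_or] at hd
    exact h d hd.1 hd.2.1 hd.2.2.1 hd.2.2.2
  rw [this, Finset.sum_insert (by decide), Finset.sum_insert (by decide),
    Finset.sum_insert (by decide), Finset.sum_singleton]
  ring

/-- the linear system -/
lemma lin (A B X : Matrix (Fin 11) (Fin 11) ℝ) (hs : ∀ i j, X i j = X j i)
    (h0 : ∀ i d, d ≠ 1 → d ≠ 2 → d ≠ 9 → d ≠ 10 → X i (i + d) = 0) (p : Fin 2 × Fin 11) :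
    (A * X * B) p.2 (p.2 + ![2, 5] p.1) =
      (Lmat A B *ᵥ fun q => X q.2 (q.2 + ![1, 2] q.1)) p := by
  obtain ⟨z, j⟩ := p
  set t := j + ![2, 5] z with ht
  have e1 : (A * X * B) j t = ∑ d, ∑ a, A j a * X a (a + d) * B (a + d) t := by
    rw [mul_apply]
    simp only [mul_apply, Finset.sum_mul]
    rw [Finset.sum_comm]
    have : ∀ a, ∑ b, A j a * X a b * B b t = ∑ d, A j a * X a (a + d) * B (a + d) t := by
      intro a
      exact (Equiv.sum_comp (Equiv.addLeft a) (fun b => A j a * X a b * B b t)).symm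
    rw [Finset.sum_congr rfl fun a _ => this a]
    exact Finset.sum_comm
  have e2 : ∑ d, ∑ a, A j a * X a (a + d) * B (a + d) t =
      (∑ a, A j a * X a (a + 1) * B (a + 1) t) + (∑ a, A j a * X a (a + 2) * B (a + 2) t) +
      (∑ a, A j a * X a (a + 9) * B (a + 9) t) + (∑ a, A j a * X a (a + 10) * B (a + 10) t) := by
    apply sum4
    intro d h1 h2 h3 h4
    apply Finset.sum_eq_zero
    intro a _
    rw [h0 a d h1 h2 h3 h4]; ring
  have e9 : ∑ a, A j a * X a (a + 9) * B (a + 9) t =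
      ∑ a, A j (a + 2) * X a (a + 2) * B a t := by
    rw [← Equiv.sum_comp (Equiv.addRight (2 : Fin 11))]
    apply Finset.sum_congr rfl
    intro a _
    have : a + 2 + 9 = a := by rw [add_assoc]; exact add_zero a
    simp only [Equiv.coe_addRight, this]
    rw [hs (a + 2) a]
  have e10 : ∑ a, A j a * X a (a + 10) * B (a + 10) t =
      ∑ a, A j (a + 1) * X a (a + 1) * B a t := by
    rw [← Equiv.sum_comp (Equiv.addRight (1 : Fin 11))]
    apply Finset.sum_congr rfl
    intro a _
    have : a + 1 + 10 = a := by rw [add_assoc]; exact add_zero a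
    simp only [Equiv.coe_addRight, this]
    rw [hs (a + 1) a]
  rw [e1, e2, e9, e10, mulVec, dotProduct, Fintype.sum_prod_type, Fin.sum_univ_two]
  simp only [Lmat, Matrix.cons_val_zero, Matrix.cons_val_one]
  rw [← Finset.sum_add_distrib, ← Finset.sum_add_distrib, ← Finset.sum_add_distrib,
    ← Finset.sum_add_distrib]
  apply Finset.sum_congr rfl
  intro a _
  rw [← ht]
  ring

lemma S0_mem : S0 ∈ CorrModel G11 H11 := by
  refine ⟨⟨S0_posDef, ?_, ?_⟩, ?_⟩
  · intro i j hij h
    have hinv : S0⁻¹ = K0 := Matrix.inv_eq_right_inv S0K0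
    rw [hinv]
    have hz : KZ i j = 0 := by
      have hz' : ¬ (i ≠ j ∧ ((j - i = 1 ∨ j - i = 3 ∨ j - i = 4) ∨
        (i - j = 1 ∨ i - j = 3 ∨ i - j = 4))) := by
        intro h'
        apply h
        rw [G11, SimpleGraph.fromRel_adj]
        exact h'
      clear h; revert i j; decide +kernel
    simp only [K0, Matrix.smul_apply, RingHom.mapMatrix_apply, map_apply, hz, map_zero, smul_zero]
  · intro i j hij h
    have hz : SZ i j = 0 := by
      have hz' : ¬ (i ≠ j ∧ ((j - i = 1 ∨ j - i = 2) ∨ (i - j = 1 ∨ i - j = 2))) := by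
        intro h'
        apply h
        rw [H11, SimpleGraph.fromRel_adj]
        exact h'
      clear h; revert i j; decide +kernel
    simp only [S0, Matrix.smul_apply, RingHom.mapMatrix_apply, map_apply, hz, map_zero, smul_zero]
  · intro i
    have hz : SZ i i = 2 := by revert i; decide +kernel
    have h2 : toR (2 : Z5) = 2 := map_ofNat _ _
    simp only [S0, Matrix.smul_apply, RingHom.mapMatrix_apply, map_apply, hz, h2, smul_eq_mul]
    norm_num

lemma one_mem {n : ℕ} (G H : SimpleGraph (Fin n)) : 1 ∈ CorrModel G H := by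
  refine ⟨⟨PosDef.one, ?_, ?_⟩, ?_⟩
  · intro i j hij _
    rw [inv_one, one_apply_ne hij]
  · intro i j hij _
    exact one_apply_ne hij
  · intro i; exact one_apply_eq i

lemma S0_ne_one : S0 ≠ 1 := by
  intro h
  have h1 := congrFun (congrFun h 0) 1
  have hz : SZ 0 1 = ⟨1, -1⟩ := by decide +kernel
  rw [one_apply_ne (by decide)] at h1
  simp only [S0, Matrix.smul_apply, RingHom.mapMatrix_apply, map_apply, hz, toR_apply,
    smul_eq_mul] at h1
  have := sqrt5_gt
  push_cast at h1
  linarith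

/-- `S0` is an isolated point of the correlation model. -/
lemma isolated : ∀ᶠ S in 𝓝 S0, S ∈ CorrModel G11 H11 → S = S0 := by
  have hdet0 : IsUnit S0.det := (Matrix.isUnit_det_of_right_inverse S0K0)
  have hinv : S0⁻¹ = K0 := Matrix.inv_eq_right_inv S0K0
  have hc1 : ContinuousAt (fun S : Matrix (Fin 11) (Fin 11) ℝ => S⁻¹) S0 := by
    apply continuousAt_matrix_inv
    rw [Ring.inverse_eq_inv']
    exact continuousAt_inv₀ hdet0.ne_zero
  have hc2 : Continuous fun B : Matrix (Fin 11) (Fin 11) ℝ => (Lmat K0 B).det := by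
    apply Continuous.matrix_det
    apply continuous_matrix
    intro p q
    simp only [Lmat]
    fun_prop
  have hc3 : ContinuousAt (fun S : Matrix (Fin 11) (Fin 11) ℝ => (Lmat K0 S⁻¹).det) S0 :=
    hc2.continuousAt.comp hc1
  have hne : (Lmat K0 S0⁻¹).det ≠ 0 := by rw [hinv]; exact det_L0
  filter_upwards [hc3.eventually_ne hne] with S hS hmem
  obtain ⟨⟨hpd, hG, hH⟩, hdiag⟩ := hmem
  obtain ⟨⟨_, _, hH0⟩, hdiag0⟩ := S0_mem
  set X := S - S0 with hX
  have hsym : ∀ i j, X i j = X j i := by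
    intro i j
    have h1 := hpd.isHermitian.apply j i
    have h2 := S0_posDef.isHermitian.apply j i
    simp only [star_trivial] at h1 h2
    simp only [hX, Matrix.sub_apply, h1, h2]
  have h0 : ∀ i d, d ≠ 1 → d ≠ 2 → d ≠ 9 → d ≠ 10 → X i (i + d) = 0 := by
    intro i d h1 h2 h9 h10
    by_cases hd : d = 0
    · subst hd
      simp only [hX, Matrix.sub_apply, add_zero, hdiag, hdiag0, sub_self]
    · have hne : i ≠ i + d := by
        intro h; apply hd; exact (left_eq_add.1 h)
      have hnadj : ¬ H11.Adj i (i + d) := by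
        rw [H11, SimpleGraph.fromRel_adj]
        rintro ⟨_, (h | h) | (h | h)⟩
        · rw [add_sub_cancel_left] at h; exact h1 h
        · rw [add_sub_cancel_left] at h; exact h2 h
        · rw [sub_add_cancel_left] at h; apply h10; rw [← neg_neg d, h]; rfl
        · rw [sub_add_cancel_left] at h; apply h9; rw [← neg_neg d, h]; rfl
      simp only [hX, Matrix.sub_apply, hH _ _ hne hnadj, hH0 _ _ hne hnadj, sub_self]
  have hSdet : IsUnit S.det := by
    rw [isUnit_iff_ne_zero]; exact hpd.det_pos.ne'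
  have hKX : K0 * X * S⁻¹ = K0 - S⁻¹ := by
    have h1 : S * S⁻¹ = 1 := Matrix.mul_nonsing_inv S hSdet
    have h2 : K0 * S0 = 1 := by
      rw [← hinv]; exact Matrix.nonsing_inv_mul S0 hdet0
    rw [hX, mul_sub, sub_mul, mul_assoc, h1, mul_one, h2, one_mul]
  have hzero : (Lmat K0 S⁻¹) *ᵥ (fun q => X q.2 (q.2 + ![1, 2] q.1)) = 0 := by
    funext p
    rw [← lin K0 S⁻¹ X hsym h0 p, hKX, Matrix.sub_apply, K0_zero, Pi.zero_apply, zero_sub,
      neg_eq_zero]
    have hne : p.2 ≠ p.2 + ![2, 5] p.1 := by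
      obtain ⟨z, j⟩ := p; revert z j; decide
    apply hG _ _ hne
    rw [G11, SimpleGraph.fromRel_adj]
    obtain ⟨z, j⟩ := p; revert z j; decide
  have hx := Matrix.eq_zero_of_mulVec_eq_zero hS hzero
  have hx' : ∀ (h : Fin 2) (i : Fin 11), X i (i + ![1, 2] h) = 0 := fun h i => congrFun hx (h, i)
  have hall : ∀ i d, X i (i + d) = 0 := by
    intro i d
    by_cases h1 : d = 1
    · subst h1; exact hx' 0 i
    by_cases h2 : d = 2
    · subst h2; exact hx' 1 i
    by_cases h9 : d = 9
    · subst h9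
      rw [hsym]
      have := hx' 1 (i + 9)
      have e : i + 9 + ![1, 2] (1 : Fin 2) = i := by
        rw [add_assoc]; exact add_zero i
      rwa [e] at this
    by_cases h10 : d = 10
    · subst h10
      rw [hsym]
      have := hx' 0 (i + 10)
      have e : i + 10 + ![1, 2] (0 : Fin 2) = i := by
        rw [add_assoc]; exact add_zero i
      rwa [e] at this
    exact h0 i d h1 h2 h9 h10
  have hX0 : X = 0 := by
    ext i j
    have := hall i (j - i)
    rwa [add_sub_cancel] at this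
  rwa [hX, sub_eq_zero] at hX0

theorem corr_not_preconnected : ¬ IsPreconnected (CorrModel G11 H11) := by
  intro h
  obtain ⟨U, hU1, hU2, hU3⟩ := eventually_nhds_iff.1 isolated
  have h1 := h U {S0}ᶜ hU2 isOpen_compl_singleton ?_ ⟨S0, S0_mem, hU3⟩
    ⟨1, one_mem _ _, fun h => S0_ne_one h.symm⟩
  · obtain ⟨S, hS, hSU, hne⟩ := h1
    exact hne (hU1 S hSU hS)
  · intro S hS
    by_cases hSS : S = S0
    · left; rw [hSS]; exact hU3
    · right; exact hSS

end

end Pool.Agent.R950.DM
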