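import Pool.Agent.R950.DMB

/-! Mixed parametrisation: the trace inequality, openness of positive definiteness, and
maximum determinant completions. -/

open Matrix Topology Filter

namespace Pool.Agent.R950.DM

variable {n : ℕ}

lemma trace_pos {A B X : Matrix (Fin n) (Fin n) ℝ} (hA : A.PosDef) (hB : B.PosDef)
    (hX : Xᵀ = X) (hne : X ≠ 0) : 0 < trace (X * A * X * B) := by
  obtain ⟨R, hR⟩ : ∃ R : Matrix (Fin n) (Fin n) ℝ, B = Rᵀ * R := by
    open scoped MatrixOrder Matrix.Norms.L2Operator in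
    obtain ⟨R, hR⟩ := CStarAlgebra.nonneg_iff_eq_star_mul_self.mp hB.posSemidef.nonneg
    exact ⟨R, by rw [hR, star_eq_conjTranspose, conjTranspose_eq_transpose_of_trivial]⟩
  have hRdet : R.det ≠ 0 := by
    intro h
    have := hB.det_pos
    rw [hR, det_mul, h, mul_zero] at this
    exact lt_irrefl _ this
  have hY : X * Rᵀ ≠ 0 := by
    intro h
    apply hne
    have h1 : IsUnit (Rᵀ).det := by rw [det_transpose]; exact hRdet.isUnit
    calc X = X * Rᵀ * (Rᵀ)⁻¹ := by rw [mul_assoc, mul_nonsing_inv _ h1, mul_one]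
      _ = 0 := by rw [h, zero_mul]
  have e1 : trace (X * A * X * B) = trace ((X * Rᵀ)ᵀ * A * (X * Rᵀ)) := by
    rw [hR, ← mul_assoc, trace_mul_comm, transpose_mul, transpose_transpose, hX]
    congr 1
    simp only [mul_assoc]
  rw [e1]
  set Y := X * Rᵀ with hYdef
  have hcol : ∀ j, (Yᵀ * A * Y) j j = star (fun i => Y i j) ⬝ᵥ (A *ᵥ fun i => Y i j) := by
    intro j
    simp only [mul_apply, dotProduct, mulVec, star_trivial, transpose_apply, Finset.sum_mul,
      Finset.mul_sum]
    rw [Finset.sum_comm]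
    apply Finset.sum_congr rfl
    intro a _
    apply Finset.sum_congr rfl
    intro b _
    ring
  obtain ⟨j, hj⟩ : ∃ j, (fun i => Y i j) ≠ 0 := by
    by_contra hcon
    push Not at hcon
    apply hY
    ext i j
    exact congrFun (hcon j) i
  rw [trace]
  apply Finset.sum_pos'
  · intro k _
    rw [diag_apply, hcol]
    exact hA.posSemidef.dotProduct_mulVec_nonneg _
  · refine ⟨j, Finset.mem_univ _, ?_⟩
    rw [diag_apply, hcol]
    exact hA.dotProduct_mulVec_pos hj

lemma eq_of_supports {S T : Matrix (Fin n) (Fin n) ℝ} (hS : S.PosDef) (hT : T.PosDef)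
    (h : ∀ i j, (S - T) i j = 0 ∨ (S⁻¹ - T⁻¹) j i = 0) : S = T := by
  by_contra hne
  have hX : (S - T)ᵀ = S - T := by
    have h1 := hS.isHermitian
    have h2 := hT.isHermitian
    rw [IsHermitian, conjTranspose_eq_transpose_of_trivial] at h1 h2
    rw [transpose_sub, h1, h2]
  have hXne : S - T ≠ 0 := sub_ne_zero.2 hne
  have h0 : trace ((S - T) * (S⁻¹ - T⁻¹)) = 0 := by
    rw [trace]
    apply Finset.sum_eq_zero
    intro i _
    rw [diag_apply, mul_apply]
    apply Finset.sum_eq_zero
    intro j _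
    rcases h i j with h | h
    · rw [h, zero_mul]
    · rw [h, mul_zero]
  have hSu : IsUnit S.det := hS.det_pos.ne'.isUnit
  have hTu : IsUnit T.det := hT.det_pos.ne'.isUnit
  have e : S⁻¹ - T⁻¹ = -(S⁻¹ * (S - T) * T⁻¹) := by
    rw [mul_sub, nonsing_inv_mul _ hSu, sub_mul, one_mul, mul_assoc, mul_nonsing_inv _ hTu,
      mul_one, neg_sub]
  rw [e, mul_neg, trace_neg, neg_eq_zero, ← mul_assoc, ← mul_assoc] at h0
  have := trace_pos hS.inv hT.inv hX hXne
  rw [h0] at this
  exact lt_irrefl _ this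

lemma posDef_eventually {S : Matrix (Fin n) (Fin n) ℝ} (hS : S.PosDef) :
    ∀ᶠ T in 𝓝 S, Tᵀ = T → T.PosDef := by
  have hK : IsCompact (Metric.sphere (0 : Fin n → ℝ) 1) := isCompact_sphere _ _
  have hc : Continuous fun z : Matrix (Fin n) (Fin n) ℝ × (Fin n → ℝ) =>
      star z.2 ⬝ᵥ (z.1 *ᵥ z.2) := by
    apply Continuous.dotProduct
    · exact continuous_snd.star
    · exact continuous_fst.matrix_mulVec continuous_snd
  have h1 := hK.eventually_forall_of_forall_eventually (x₀ := S)
    (P := fun T x => 0 < star x ⬝ᵥ (T *ᵥ x)) (by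
      intro x hx
      have hx0 : x ≠ 0 := by
        rintro rfl
        simp at hx
      exact hc.continuousAt.eventually (lt_mem_nhds (hS.dotProduct_mulVec_pos hx0)))
  filter_upwards [h1] with T hT hTs
  apply PosDef.of_dotProduct_mulVec_pos
  · rw [IsHermitian, conjTranspose_eq_transpose_of_trivial]; exact hTs
  · intro x hx
    have hn : 0 < ‖x‖ := norm_pos_iff.2 hx
    have h2 := hT (‖x‖⁻¹ • x) (by
      rw [mem_sphere_zero_iff_norm, norm_smul, norm_inv, norm_norm, inv_mul_cancel₀ hn.ne'])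
    have h3 : star (‖x‖⁻¹ • x) ⬝ᵥ (T *ᵥ (‖x‖⁻¹ • x)) =
        ‖x‖⁻¹ * ‖x‖⁻¹ * (star x ⬝ᵥ (T *ᵥ x)) := by
      simp only [star_trivial, mulVec_smul, smul_dotProduct, dotProduct_smul, smul_eq_mul]
      ring
    rw [h3] at h2
    exact (pos_iff_pos_of_mul_pos h2).1 (by positivity)

/-- symmetric matrix units -/
def U (e : Sym2 (Fin n)) : Matrix (Fin n) (Fin n) ℝ := fun i j => if s(i, j) = e then 1 else 0

lemma U_symm (e : Sym2 (Fin n)) : (U e)ᵀ = U e := by
  ext i j
  simp only [transpose_apply, U, Sym2.eq_swap]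

/-- maximum determinant completion -/
lemma exists_max {S0 : Matrix (Fin n) (Fin n) ℝ} (h0 : S0.PosDef) (hd : ∀ i, S0 i i = 1)
    (B : Set (Sym2 (Fin n))) (hB : ∀ e ∈ B, ¬ e.IsDiag) :
    ∃ S : Matrix (Fin n) (Fin n) ℝ, S.PosDef ∧ (∀ i j, s(i, j) ∉ B → S i j = S0 i j) ∧
      ∀ i j, s(i, j) ∈ B → S⁻¹ i j = 0 := by
  set F : Set (Matrix (Fin n) (Fin n) ℝ) :=
    {S | (Sᵀ = S ∧ ∀ x : Fin n → ℝ, 0 ≤ star x ⬝ᵥ (S *ᵥ x)) ∧
      ∀ i j, s(i, j) ∉ B → S i j = S0 i j} with hF
  have hpsd : ∀ S ∈ F, S.PosSemidef := by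
    intro S hS
    apply PosSemidef.of_dotProduct_mulVec_nonneg
    · rw [IsHermitian, conjTranspose_eq_transpose_of_trivial]; exact hS.1.1
    · exact hS.1.2
  have hclosed : IsClosed F := by
    apply IsClosed.inter
    · apply IsClosed.inter
      · exact isClosed_eq (continuous_id.matrix_transpose) continuous_id
      · have : {S : Matrix (Fin n) (Fin n) ℝ | ∀ x : Fin n → ℝ, 0 ≤ star x ⬝ᵥ (S *ᵥ x)} =
            ⋂ x : Fin n → ℝ, {S | 0 ≤ star x ⬝ᵥ (S *ᵥ x)} := by
          ext S; simp
        show IsClosed {S : Matrix (Fin n) (Fin n) ℝ | ∀ x : Fin n → ℝ, 0 ≤ star x ⬝ᵥ (S *ᵥ x)}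
        rw [this]
        apply isClosed_iInter
        intro x
        apply isClosed_le continuous_const
        exact Continuous.dotProduct continuous_const (continuous_id.matrix_mulVec continuous_const)
    · have : {S : Matrix (Fin n) (Fin n) ℝ | ∀ i j, s(i, j) ∉ B → S i j = S0 i j} =
          ⋂ i, ⋂ j, ⋂ (_ : s(i, j) ∉ B), {S | S i j = S0 i j} := by
        ext S; simp
      show IsClosed {S : Matrix (Fin n) (Fin n) ℝ | ∀ i j, s(i, j) ∉ B → S i j = S0 i j}
      rw [this]
      refine isClosed_iInter fun i => isClosed_iInter fun j => isClosed_iInter fun _ => ?_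
      exact isClosed_eq (continuous_id.matrix_elem i j) continuous_const
  have hdiag : ∀ S ∈ F, ∀ i, S i i = 1 := by
    intro S hS i
    rw [hS.2 i i (fun h => hB _ h (by simp)), hd]
  have hbound : ∀ S ∈ F, ∀ i j, |S i j| ≤ 1 := by
    intro S hS i j
    by_cases hij : i = j
    · subst hij; rw [hdiag S hS]; simp
    have hsym : S j i = S i j := congrFun (congrFun hS.1.1 i) j
    have key : ∀ c : ℝ, star (Pi.single i (1 : ℝ) + Pi.single j c : Fin n → ℝ) ⬝ᵥ
        (S *ᵥ (Pi.single i (1 : ℝ) + Pi.single j c)) = 1 + 2 * c * S i j + c * c := by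
      intro c
      rw [star_trivial, mulVec_add, add_dotProduct, dotProduct_add, dotProduct_add]
      simp only [mulVec_single, single_dotProduct, Pi.smul_apply, MulOpposite.smul_eq_mul_unop,
        MulOpposite.unop_op, col_apply]
      rw [hdiag S hS, hdiag S hS, hsym]
      ring
    have h1 := hS.1.2 (Pi.single i (1 : ℝ) + Pi.single j 1)
    have h2 := hS.1.2 (Pi.single i (1 : ℝ) + Pi.single j (-1))
    rw [key] at h1 h2
    rw [abs_le]; constructor <;> linarith
  have hcompact : IsCompact F := by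
    have hK : IsCompact (Set.pi Set.univ fun _ : Fin n => Set.pi Set.univ fun _ : Fin n =>
        Set.Icc (-1 : ℝ) 1) :=
      isCompact_univ_pi fun _ => isCompact_univ_pi fun _ => isCompact_Icc
    refine IsCompact.of_isClosed_subset hK hclosed ?_
    intro S hS i _ j _
    exact abs_le.1 (hbound S hS i j)
  have hS0F : S0 ∈ F := by
    refine ⟨⟨?_, fun x => h0.posSemidef.dotProduct_mulVec_nonneg x⟩, fun i j _ => rfl⟩
    have := h0.isHermitian
    rwa [IsHermitian, conjTranspose_eq_transpose_of_trivial] at this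
  obtain ⟨S, hSF, hmax⟩ := hcompact.exists_isMaxOn ⟨S0, hS0F⟩
    (continuous_id.matrix_det.continuousOn)
  have hdet : 0 < S.det := lt_of_lt_of_le h0.det_pos (hmax hS0F)
  have hSpd : S.PosDef := (hpsd S hSF).posDef_iff_det_ne_zero.2 hdet.ne'
  refine ⟨S, hSpd, hSF.2, ?_⟩
  intro i j hij
  have hne : i ≠ j := fun h => hB _ hij (by simp [h])
  -- the function `t ↦ det (S + t U)` has a local maximum at `0`
  set V : Matrix (Fin n) (Fin n) ℝ := U s(i, j) with hV
  have hloc : IsLocalMax (fun t : ℝ => (S + t • V).det) 0 := by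
    have hc : ContinuousAt (fun t : ℝ => S + t • V) 0 := by fun_prop
    have hc0 : S + (0 : ℝ) • V = S := by simp
    rw [ContinuousAt, hc0] at hc
    filter_upwards [hc.eventually (posDef_eventually hSpd)] with t ht
    have hsymm : (S + t • V)ᵀ = S + t • V := by
      rw [transpose_add, transpose_smul, hV, U_symm, hSF.1.1]
    have hpd := ht hsymm
    have hmem : S + t • V ∈ F := by
      refine ⟨⟨hsymm, fun x => hpd.posSemidef.dotProduct_mulVec_nonneg x⟩, ?_⟩
      intro a b hab
      have : V a b = 0 := by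
        rw [hV, U, if_neg]
        intro h; apply hab; rw [h]; exact hij
      rw [Matrix.add_apply, Matrix.smul_apply, this, smul_zero, add_zero, hSF.2 a b hab]
    have := hmax hmem
    simpa using this
  have hunit : IsUnit S.det := hdet.ne'.isUnit
  set P : Polynomial ℝ := det (1 + (Polynomial.X : Polynomial ℝ) • (S⁻¹ * V).map Polynomial.C)
    with hP
  have hfun : (fun t : ℝ => (S + t • V).det) = fun t => S.det * P.eval t := by
    funext t
    have e1 : S + t • V = S * (1 + t • (S⁻¹ * V)) := by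
      rw [mul_add, mul_one, Matrix.mul_smul, ← mul_assoc, mul_nonsing_inv _ hunit, one_mul]
    rw [e1, det_mul]
    congr 1
    have e2 := RingHom.map_det (Polynomial.evalRingHom t)
      (1 + (Polynomial.X : Polynomial ℝ) • (S⁻¹ * V).map Polynomial.C)
    rw [Polynomial.coe_evalRingHom] at e2
    rw [hP, e2]
    congr 1
    ext a b
    have e3 : ((Polynomial.evalRingHom t).mapMatrix
        (1 + (Polynomial.X : Polynomial ℝ) • (S⁻¹ * V).map Polynomial.C)) a b =
        Polynomial.eval t ((1 : Matrix (Fin n) (Fin n) (Polynomial ℝ)) a b +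
          Polynomial.X * Polynomial.C ((S⁻¹ * V) a b)) := rfl
    rw [e3, Matrix.add_apply, Matrix.smul_apply, Matrix.one_apply, Matrix.one_apply,
      Polynomial.eval_add, Polynomial.eval_mul, Polynomial.eval_X, Polynomial.eval_C, smul_eq_mul]
    split_ifs <;> simp
  have hder : HasDerivAt (fun t : ℝ => (S + t • V).det) (S.det * (Polynomial.derivative P).eval 0) 0 := by
    rw [hfun]
    exact (P.hasDerivAt 0).const_mul _
  have h3 := hloc.hasDerivAt_eq_zero hder
  rw [hP, derivative_det_one_add_X_smul] at h3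
  have h4 : trace (S⁻¹ * V) = 0 := (mul_eq_zero.1 h3).resolve_left hdet.ne'
  have h5 : trace (S⁻¹ * V) = S⁻¹ i j + S⁻¹ j i := by
    have hV2 : V = Matrix.single i j 1 + Matrix.single j i 1 := by
      ext a b
      simp only [hV, U, Matrix.add_apply, Matrix.single_apply, Sym2.eq_iff]
      by_cases h1 : a = i ∧ b = j
      · obtain ⟨rfl, rfl⟩ := h1
        simp [hne, hne.symm]
      · by_cases h2 : a = j ∧ b = i
        · obtain ⟨rfl, rfl⟩ := h2
          simp [hne, hne.symm]
        · have h1' : ¬ (i = a ∧ j = b) := fun h => h1 ⟨h.1.symm, h.2.symm⟩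
          have h2' : ¬ (j = a ∧ i = b) := fun h => h2 ⟨h.1.symm, h.2.symm⟩
          simp [h1, h2, h1', h2']
    rw [hV2, mul_add, trace_add]
    simp [Matrix.trace_mul_single, add_comm]
  have hsymi : S⁻¹ j i = S⁻¹ i j := by
    have := hSpd.inv.isHermitian.apply i j
    simpa using this
  rw [h5, hsymi] at h4
  linarith

end Pool.Agent.R950.DM
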