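import Pool.Agent.R950.DMC

/-! Mixed parametrisation of the double Markovian correlation models. -/

open Matrix Topology Filter
open scoped ContDiff

namespace Pool.Agent.R950.DM

variable {n : ℕ} (G H : SimpleGraph (Fin n))

def CS : Set (Sym2 (Fin n)) := G.edgeSet ∩ H.edgeSet
def BS : Set (Sym2 (Fin n)) := H.edgeSet \ G.edgeSet

/-- The model `M₁(G ∪ (neither), H)`. -/
def MM : Set (Matrix (Fin n) (Fin n) ℝ) :=
  {S | S.PosDef ∧ (∀ i, S i i = 1) ∧ (∀ i j, i ≠ j → s(i, j) ∉ H.edgeSet → S i j = 0) ∧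
    (∀ i j, s(i, j) ∈ BS G H → S⁻¹ i j = 0)}

lemma corr_sub : CorrModel G H ⊆ MM G H := by
  rintro S ⟨⟨h1, h2, h3⟩, h4⟩
  refine ⟨h1, h4, fun i j hij h => h3 i j hij h, ?_⟩
  intro i j h
  exact h2 i j (SimpleGraph.ne_of_adj H h.1) h.2

noncomputable section

abbrev dC : ℕ := (CS G H).ncard
abbrev dB : ℕ := (BS G H).ncard

def eC : Fin (dC G H) ≃ CS G H := (Finite.equivFinOfCardEq (Nat.card_coe_set_eq _)).symm
def eB : Fin (dB G H) ≃ BS G H := (Finite.equivFinOfCardEq (Nat.card_coe_set_eq _)).symm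

abbrev PP := (Fin (dC G H) → ℝ) × (Fin (dB G H) → ℝ)

def rp (e : Sym2 (Fin n)) : Fin n × Fin n := Quot.out e

lemma rp_spec (e : Sym2 (Fin n)) : s((rp e).1, (rp e).2) = e := by
  unfold rp
  exact Quot.out_eq e

lemma sym_rp {S : Matrix (Fin n) (Fin n) ℝ} (hS : Sᵀ = S) (i j : Fin n) :
    S (rp s(i, j)).1 (rp s(i, j)).2 = S i j := by
  have h := rp_spec s(i, j)
  rw [Sym2.eq_iff] at h
  rcases h with ⟨h1, h2⟩ | ⟨h1, h2⟩
  · rw [h1, h2]
  · rw [h1, h2]
    exact congrFun (congrFun hS i) j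

def coC (S : Matrix (Fin n) (Fin n) ℝ) : Fin (dC G H) → ℝ :=
  fun k => S (rp (eC G H k).1).1 (rp (eC G H k).1).2

def coB (S : Matrix (Fin n) (Fin n) ℝ) : Fin (dB G H) → ℝ :=
  fun k => S (rp (eB G H k).1).1 (rp (eB G H k).1).2

def Lin (p : PP G H) : Matrix (Fin n) (Fin n) ℝ :=
  (∑ k, p.1 k • U (eC G H k).1) + ∑ l, p.2 l • U (eB G H l).1

def Sg (p : PP G H) : Matrix (Fin n) (Fin n) ℝ := 1 + Lin G H p

variable {G H}

lemma Lin_symm (p : PP G H) : (Lin G H p)ᵀ = Lin G H p := by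
  unfold Lin
  rw [transpose_add, transpose_sum, transpose_sum]
  simp only [transpose_smul, U_symm]

lemma Sg_symm (p : PP G H) : (Sg G H p)ᵀ = Sg G H p := by
  unfold Sg
  rw [transpose_add, transpose_one, Lin_symm]

lemma Lin_C (p : PP G H) {i j : Fin n} (k : Fin (dC G H)) (h : s(i, j) = (eC G H k).1) :
    Lin G H p i j = p.1 k := by
  unfold Lin
  rw [Matrix.add_apply, Matrix.sum_apply, Matrix.sum_apply]
  have h1 : ∑ k', (p.1 k' • U (eC G H k').1) i j = p.1 k := by
    rw [Finset.sum_eq_single k]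
    · simp [U, h]
    · intro k' _ hk'
      rw [Matrix.smul_apply, U, if_neg, smul_zero]
      intro h'
      apply hk'
      apply (eC G H).injective
      apply Subtype.ext
      rw [← h', h]
    · simp
  have h2 : ∑ l, (p.2 l • U (eB G H l).1) i j = 0 := by
    apply Finset.sum_eq_zero
    intro l _
    rw [Matrix.smul_apply, U, if_neg, smul_zero]
    intro h'
    have h3 := (eB G H l).2.2
    rw [← h', h] at h3
    exact h3 (eC G H k).2.1
  rw [h1, h2, add_zero]

lemma Lin_B (p : PP G H) {i j : Fin n} (l : Fin (dB G H)) (h : s(i, j) = (eB G H l).1) :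
    Lin G H p i j = p.2 l := by
  unfold Lin
  rw [Matrix.add_apply, Matrix.sum_apply, Matrix.sum_apply]
  have h1 : ∑ l', (p.2 l' • U (eB G H l').1) i j = p.2 l := by
    rw [Finset.sum_eq_single l]
    · simp [U, h]
    · intro k' _ hk'
      rw [Matrix.smul_apply, U, if_neg, smul_zero]
      intro h'
      apply hk'
      apply (eB G H).injective
      apply Subtype.ext
      rw [← h', h]
    · simp
  have h2 : ∑ k, (p.1 k • U (eC G H k).1) i j = 0 := by
    apply Finset.sum_eq_zero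
    intro k _
    rw [Matrix.smul_apply, U, if_neg, smul_zero]
    intro h'
    have h3 := (eB G H l).2.2
    rw [← h, h'] at h3
    exact h3 (eC G H k).2.1
  rw [h1, h2, zero_add]

lemma Lin_zero (p : PP G H) {i j : Fin n} (h : s(i, j) ∉ H.edgeSet) : Lin G H p i j = 0 := by
  unfold Lin
  rw [Matrix.add_apply, Matrix.sum_apply, Matrix.sum_apply]
  rw [Finset.sum_eq_zero, Finset.sum_eq_zero, add_zero]
  · intro l _
    rw [Matrix.smul_apply, U, if_neg, smul_zero]
    intro h'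
    apply h; rw [h']; exact (eB G H l).2.1
  · intro k _
    rw [Matrix.smul_apply, U, if_neg, smul_zero]
    intro h'
    apply h; rw [h']; exact (eC G H k).2.2

lemma not_diag (i : Fin n) : s(i, i) ∉ H.edgeSet := by
  intro h
  exact SimpleGraph.ne_of_adj H h rfl

lemma Sg_diag (p : PP G H) (i : Fin n) : Sg G H p i i = 1 := by
  rw [Sg, Matrix.add_apply, one_apply_eq, Lin_zero p (not_diag i), add_zero]

lemma Sg_off (p : PP G H) {i j : Fin n} (hij : i ≠ j) : Sg G H p i j = Lin G H p i j := by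
  rw [Sg, Matrix.add_apply, one_apply_ne hij, zero_add]

lemma ne_of_mem {i j : Fin n} (h : s(i, j) ∈ H.edgeSet) : i ≠ j := SimpleGraph.ne_of_adj H h

lemma coC_Sg (p : PP G H) : coC G H (Sg G H p) = p.1 := by
  funext k
  have h := rp_spec (eC G H k).1
  have h1 : s((rp (eC G H k).1).1, (rp (eC G H k).1).2) ∈ H.edgeSet := by
    rw [h]; exact (eC G H k).2.2
  rw [coC, Sg_off p (ne_of_mem h1), Lin_C p k h]

lemma coB_Sg (p : PP G H) : coB G H (Sg G H p) = p.2 := by
  funext k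
  have h := rp_spec (eB G H k).1
  have h1 : s((rp (eB G H k).1).1, (rp (eB G H k).1).2) ∈ H.edgeSet := by
    rw [h]; exact (eB G H k).2.1
  rw [coB, Sg_off p (ne_of_mem h1), Lin_B p k h]

lemma mem_cases {i j : Fin n} (h : s(i, j) ∈ H.edgeSet) :
    (∃ k, s(i, j) = (eC G H k).1) ∨ (∃ l, s(i, j) = (eB G H l).1) := by
  by_cases hG : s(i, j) ∈ G.edgeSet
  · left
    refine ⟨(eC G H).symm ⟨_, hG, h⟩, ?_⟩
    rw [Equiv.apply_symm_apply]
  · right
    refine ⟨(eB G H).symm ⟨_, h, hG⟩, ?_⟩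
    rw [Equiv.apply_symm_apply]

lemma recon {S : Matrix (Fin n) (Fin n) ℝ} (hs : Sᵀ = S) (hd : ∀ i, S i i = 1)
    (h0 : ∀ i j, i ≠ j → s(i, j) ∉ H.edgeSet → S i j = 0) :
    Sg G H (coC G H S, coB G H S) = S := by
  ext i j
  by_cases hij : i = j
  · subst hij; rw [Sg_diag, hd]
  rw [Sg_off _ hij]
  by_cases h : s(i, j) ∈ H.edgeSet
  · rcases mem_cases (G := G) h with ⟨k, hk⟩ | ⟨l, hl⟩
    · rw [Lin_C _ k hk]
      show S (rp (eC G H k).1).1 (rp (eC G H k).1).2 = _
      rw [← hk, sym_rp hs]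
    · rw [Lin_B _ l hl]
      show S (rp (eB G H l).1).1 (rp (eB G H l).1).2 = _
      rw [← hl, sym_rp hs]
  · rw [Lin_zero _ h, h0 i j hij h]

lemma posDef_symm {S : Matrix (Fin n) (Fin n) ℝ} (h : S.PosDef) : Sᵀ = S := by
  have := h.isHermitian
  rwa [IsHermitian, conjTranspose_eq_transpose_of_trivial] at this

lemma uniq {S T : Matrix (Fin n) (Fin n) ℝ} (hS : S ∈ MM G H) (hT : T ∈ MM G H)
    (h : coC G H S = coC G H T) : S = T := by
  apply eq_of_supports hS.1 hT.1
  intro i j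
  by_cases hij : i = j
  · left; subst hij; rw [Matrix.sub_apply, hS.2.1, hT.2.1, sub_self]
  by_cases hH : s(i, j) ∈ H.edgeSet
  · rcases mem_cases (G := G) hH with ⟨k, hk⟩ | ⟨l, hl⟩
    · left
      have h1 := congrFun h k
      simp only [coC] at h1
      rw [← hk, sym_rp (posDef_symm hS.1), sym_rp (posDef_symm hT.1)] at h1
      rw [Matrix.sub_apply, h1, sub_self]
    · right
      have hB : s(j, i) ∈ BS G H := by rw [Sym2.eq_swap, hl]; exact (eB G H l).2
      rw [Matrix.sub_apply, hS.2.2.2 _ _ hB, hT.2.2.2 _ _ hB, sub_self]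
  · left
    rw [Matrix.sub_apply, hS.2.2.1 i j hij hH, hT.2.2.1 i j hij hH, sub_self]

variable (G H) in
/-- the parameter domain -/
def Om : Set (Fin (dC G H) → ℝ) := {c | ∃ S ∈ MM G H, coC G H S = c}

lemma Om_of_posDef {S : Matrix (Fin n) (Fin n) ℝ} (hS : S.PosDef) (hd : ∀ i, S i i = 1)
    (h0 : ∀ i j, i ≠ j → s(i, j) ∉ H.edgeSet → S i j = 0) : coC G H S ∈ Om G H := by
  obtain ⟨T, hT1, hT2, hT3⟩ := exists_max hS hd (BS G H) (by
    intro e he hdiag
    exact (H.not_isDiag_of_mem_edgeSet he.1) hdiag)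
  refine ⟨T, ⟨hT1, ?_, ?_, hT3⟩, ?_⟩
  · intro i
    rw [hT2 i i (fun h => not_diag i h.1), hd]
  · intro i j hij h
    rw [hT2 i j (fun h' => h h'.1), h0 i j hij h]
  · funext k
    apply hT2
    rw [rp_spec]
    intro h
    exact h.2 (eC G H k).2.1

lemma Om_convex : Convex ℝ (Om G H) := by
  rintro _ ⟨S, hS, rfl⟩ _ ⟨T, hT, rfl⟩ a b ha hb hab
  have hpd : (a • S + b • T).PosDef := by
    rcases eq_or_lt_of_le ha with ha | ha
    · have : b = 1 := by linarith
      rw [← ha, this, zero_smul, one_smul, zero_add]; exact hT.1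
    · rcases eq_or_lt_of_le hb with hb | hb
      · have : a = 1 := by linarith
        rw [← hb, this, zero_smul, one_smul, add_zero]; exact hS.1
      · exact (hS.1.smul ha).add (hT.1.smul hb)
  have h := Om_of_posDef (G := G) (H := H) hpd (by
      intro i
      rw [Matrix.add_apply, Matrix.smul_apply, Matrix.smul_apply, hS.2.1, hT.2.1]
      simpa using hab) (by
      intro i j hij h
      rw [Matrix.add_apply, Matrix.smul_apply, Matrix.smul_apply, hS.2.2.1 i j hij h,
        hT.2.2.1 i j hij h]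
      simp)
  convert h using 1
  funext k
  simp [coC]

end

end Pool.Agent.R950.DM
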