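import Pool.Agent.R950.DMD

/-! Analyticity of the mixed parametrisation. -/

open Matrix Topology Filter
open scoped ContDiff

namespace Pool.Agent.R950.DM

section gen

variable {m : ℕ} {E : Type*} [NormedAddCommGroup E] [NormedSpace ℝ E]

lemma contDiffAt_det {M : E → Matrix (Fin m) (Fin m) ℝ} {x : E}
    (h : ∀ i j, ContDiffAt ℝ ω (fun p => M p i j) x) :
    ContDiffAt ℝ ω (fun p => (M p).det) x := by
  simp_rw [det_apply]
  apply ContDiffAt.sum
  intro σ _
  apply ContDiffAt.const_smul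
  apply contDiffAt_prod
  intro i _
  exact h _ _

lemma contDiffAt_adj {M : E → Matrix (Fin m) (Fin m) ℝ} {x : E}
    (h : ∀ i j, ContDiffAt ℝ ω (fun p => M p i j) x) (i j : Fin m) :
    ContDiffAt ℝ ω (fun p => (M p).adjugate i j) x := by
  simp_rw [adjugate_apply]
  apply contDiffAt_det
  intro k l
  by_cases hk : k = j
  · subst hk
    simp only [updateRow_self]
    exact contDiffAt_const
  · simp only [updateRow_ne hk]
    exact h k l

lemma contDiffAt_inv {M : E → Matrix (Fin m) (Fin m) ℝ} {x : E}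
    (h : ∀ i j, ContDiffAt ℝ ω (fun p => M p i j) x) (hdet : (M x).det ≠ 0) (i j : Fin m) :
    ContDiffAt ℝ ω (fun p => (M p)⁻¹ i j) x := by
  have e : (fun p => (M p)⁻¹ i j) = fun p => ((M p).det)⁻¹ * (M p).adjugate i j := by
    funext p
    rw [inv_def, Matrix.smul_apply, smul_eq_mul, Ring.inverse_eq_inv']
  rw [e]
  exact ((contDiffAt_det h).inv hdet).mul (contDiffAt_adj h i j)

end gen

variable {n : ℕ} {G H : SimpleGraph (Fin n)}

noncomputable section

variable (G H) in
def LinL (i j : Fin n) : PP G H →ₗ[ℝ] ℝ where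
  toFun p := Lin G H p i j
  map_add' p q := by
    simp only [Lin, Matrix.add_apply, Matrix.sum_apply, Matrix.smul_apply, Prod.fst_add,
      Prod.snd_add, Pi.add_apply, smul_eq_mul, add_mul, Finset.sum_add_distrib]
    ring
  map_smul' c p := by
    simp only [Lin, Matrix.add_apply, Matrix.sum_apply, Matrix.smul_apply, Prod.smul_fst,
      Prod.smul_snd, Pi.smul_apply, smul_eq_mul, RingHom.id_apply, mul_add, Finset.mul_sum,
      mul_assoc]

variable (G H) in
def LinC (i j : Fin n) : PP G H →L[ℝ] ℝ := LinearMap.toContinuousLinearMap (LinL G H i j)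

lemma LinC_apply (i j : Fin n) (p : PP G H) : LinC G H i j p = Lin G H p i j := rfl

lemma Sg_entry (i j : Fin n) : (fun p => Sg G H p i j) =
    fun p => (1 : Matrix (Fin n) (Fin n) ℝ) i j + LinC G H i j p := rfl

lemma Sg_contDiffAt (i j : Fin n) (p : PP G H) : ContDiffAt ℝ ω (fun p => Sg G H p i j) p := by
  rw [Sg_entry]
  exact contDiffAt_const.add (LinC G H i j).contDiff.contDiffAt

lemma Sg_hasFDerivAt (i j : Fin n) (p : PP G H) :
    HasFDerivAt (fun p => Sg G H p i j) (LinC G H i j) p := by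
  rw [Sg_entry]
  exact ((LinC G H i j).hasFDerivAt).const_add _

variable (G H) in
def Phi (p : PP G H) : PP G H := (p.1, coB G H (Sg G H p)⁻¹)

lemma Phi_contDiffAt {p : PP G H} (hp : (Sg G H p).det ≠ 0) : ContDiffAt ℝ ω (Phi G H) p := by
  apply contDiffAt_fst.prodMk
  rw [contDiffAt_pi]
  intro l
  exact contDiffAt_inv (fun i j => Sg_contDiffAt i j p) hp _ _

/-- the derivative of the inverse along `v` -/
lemma deriv_inv {p : PP G H} (hp : (Sg G H p).det ≠ 0) (v : PP G H) :
    (Matrix.of fun i j => fderiv ℝ (fun p => (Sg G H p)⁻¹ i j) p v) =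
      -((Sg G H p)⁻¹ * Lin G H v * (Sg G H p)⁻¹) := by
  set D : Matrix (Fin n) (Fin n) ℝ :=
    Matrix.of fun i j => fderiv ℝ (fun p => (Sg G H p)⁻¹ i j) p v with hD
  have hu : IsUnit (Sg G H p).det := hp.isUnit
  have hdet : ContinuousAt (fun q => (Sg G H q).det) p :=
    (contDiffAt_det fun i j => Sg_contDiffAt i j p).continuousAt
  have hK : ∀ i j, HasFDerivAt (fun q => (Sg G H q)⁻¹ i j)
      (fderiv ℝ (fun q => (Sg G H q)⁻¹ i j) p) p := fun i j =>
    ((contDiffAt_inv (fun i j => Sg_contDiffAt i j p) hp i j).differentiableAt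
      (by simp)).hasFDerivAt
  have key : Lin G H v * (Sg G H p)⁻¹ + Sg G H p * D = 0 := by
    ext i j
    have h1 : (fun q => ∑ k, Sg G H q i k * (Sg G H q)⁻¹ k j) =ᶠ[𝓝 p]
        fun _ => (1 : Matrix (Fin n) (Fin n) ℝ) i j := by
      filter_upwards [hdet.eventually_ne hp] with q hq
      rw [← mul_apply, mul_nonsing_inv _ hq.isUnit]
    have h2 : HasFDerivAt (fun q => ∑ k, Sg G H q i k * (Sg G H q)⁻¹ k j)
        (∑ k, (Sg G H p i k • fderiv ℝ (fun q => (Sg G H q)⁻¹ k j) p +
          (Sg G H p)⁻¹ k j • LinC G H i k)) p := by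
      apply HasFDerivAt.fun_sum
      intro k _
      exact (Sg_hasFDerivAt i k p).mul (hK k j)
    have h3 : HasFDerivAt (fun q => ∑ k, Sg G H q i k * (Sg G H q)⁻¹ k j)
        (0 : PP G H →L[ℝ] ℝ) p :=
      (hasFDerivAt_const _ p).congr_of_eventuallyEq h1
    have h4 := h2.unique h3
    have h5 := congrArg (fun f : PP G H →L[ℝ] ℝ => f v) h4
    simp only [ContinuousLinearMap.sum_apply, ContinuousLinearMap.add_apply,
      ContinuousLinearMap.smul_apply, LinC_apply, smul_eq_mul, ContinuousLinearMap.zero_apply] at h5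
    rw [Matrix.add_apply, mul_apply, mul_apply, ← Finset.sum_add_distrib, Matrix.zero_apply, ← h5]
    apply Finset.sum_congr rfl
    intro k _
    rw [hD, Matrix.of_apply]
    ring
  have h6 : Sg G H p * D = -(Lin G H v * (Sg G H p)⁻¹) := by
    rw [← sub_eq_zero, sub_neg_eq_add, add_comm]; exact key
  calc D = (Sg G H p)⁻¹ * (Sg G H p * D) := by
        rw [← mul_assoc, nonsing_inv_mul _ hu, one_mul]
    _ = _ := by rw [h6, mul_neg, mul_assoc]

lemma Phi_fderiv_inj {p : PP G H} (hp : (Sg G H p).PosDef) (v : PP G H)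
    (hv : fderiv ℝ (Phi G H) p v = 0) : v = 0 := by
  have hdet : (Sg G H p).det ≠ 0 := hp.det_pos.ne'
  have hd1 : DifferentiableAt ℝ (fun q : PP G H => q.1) p := differentiableAt_fst
  have hK : ∀ i j, DifferentiableAt ℝ (fun q => (Sg G H q)⁻¹ i j) p := fun i j =>
    (contDiffAt_inv (fun i j => Sg_contDiffAt i j p) hdet i j).differentiableAt (by simp)
  have hd2 : DifferentiableAt ℝ (fun q => coB G H (Sg G H q)⁻¹) p := by
    rw [differentiableAt_pi]
    intro l
    exact hK _ _
  have e1 : fderiv ℝ (Phi G H) p = (fderiv ℝ (fun q : PP G H => q.1) p).prod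
      (fderiv ℝ (fun q => coB G H (Sg G H q)⁻¹) p) := hd1.fderiv_prodMk hd2
  rw [e1, ContinuousLinearMap.prod_apply, Prod.mk_eq_zero] at hv
  obtain ⟨hv1, hv2⟩ := hv
  have hv1' : v.1 = 0 := by
    have : fderiv ℝ (fun q : PP G H => q.1) p = ContinuousLinearMap.fst ℝ _ _ := fderiv_fst
    rw [this] at hv1
    exact hv1
  set D : Matrix (Fin n) (Fin n) ℝ :=
    Matrix.of fun i j => fderiv ℝ (fun p => (Sg G H p)⁻¹ i j) p v with hD
  have hDeq := deriv_inv hdet v
  rw [← hD] at hDeq
  have hDs : ∀ i j, D i j = D j i := by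
    intro i j
    have : (fun q => (Sg G H q)⁻¹ i j) = fun q => (Sg G H q)⁻¹ j i := by
      funext q
      have h1 : ((Sg G H q)⁻¹)ᵀ = (Sg G H q)⁻¹ := by
        rw [transpose_nonsing_inv, Sg_symm]
      exact congrFun (congrFun h1 j) i
    simp only [hD, Matrix.of_apply, this]
  have hDB : ∀ i j, s(i, j) ∈ BS G H → D i j = 0 := by
    intro i j hij
    obtain ⟨l, hl⟩ : ∃ l, (eB G H l).1 = s(i, j) :=
      ⟨(eB G H).symm ⟨_, hij⟩, by rw [Equiv.apply_symm_apply]⟩
    have h1 : D (rp (eB G H l).1).1 (rp (eB G H l).1).2 = 0 := by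
      have h2 := congrFun hv2 l
      have h3 : fderiv ℝ (fun q => coB G H (Sg G H q)⁻¹) p v l =
          fderiv ℝ (fun q => coB G H (Sg G H q)⁻¹ l) p v := by
        have h4 := ((hasFDerivAt_pi'.1 hd2.hasFDerivAt) l).fderiv
        rw [h4]
        rfl
      rw [h3] at h2
      exact h2
    rw [hl] at h1
    have hDs' : Dᵀ = D := by ext a b; exact hDs b a
    rwa [sym_rp hDs'] at h1
  have hV : Lin G H v = 0 := by
    by_contra hne
    have h1 := trace_pos hp.inv hp.inv (Lin_symm v) hne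
    have h2 : trace (Lin G H v * D) = 0 := by
      rw [trace]
      apply Finset.sum_eq_zero
      intro i _
      rw [diag_apply, mul_apply]
      apply Finset.sum_eq_zero
      intro j _
      by_cases hH : s(i, j) ∈ H.edgeSet
      · rcases mem_cases (G := G) hH with ⟨k, hk⟩ | ⟨l, hl⟩
        · rw [Lin_C v k hk, hv1', Pi.zero_apply, zero_mul]
        · rw [hDB j i, mul_zero]
          rw [Sym2.eq_swap, hl]; exact (eB G H l).2
      · rw [Lin_zero v hH, zero_mul]
    rw [hDeq, mul_neg, trace_neg, neg_eq_zero, ← mul_assoc, ← mul_assoc] at h2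
    rw [h2] at h1
    exact lt_irrefl _ h1
  have hv2' : v.2 = 0 := by
    funext l
    have h := rp_spec (eB G H l).1
    have := Lin_B v l h
    rw [hV] at this
    simpa using this.symm
  exact Prod.ext hv1' hv2'

/-- local parametrisation by the implicit function theorem -/
lemma local_param {S0 : Matrix (Fin n) (Fin n) ℝ} (hS0 : S0 ∈ MM G H) :
    ∃ g : (Fin (dC G H) → ℝ) → PP G H, ContDiffAt ℝ ω g (coC G H S0) ∧
      ∀ᶠ c in 𝓝 (coC G H S0), Sg G H (g c) ∈ MM G H ∧ coC G H (Sg G H (g c)) = c := by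
  set p0 : PP G H := (coC G H S0, coB G H S0) with hp0
  have hSg0 : Sg G H p0 = S0 := recon (posDef_symm hS0.1) hS0.2.1 hS0.2.2.1
  have hpd : (Sg G H p0).PosDef := by rw [hSg0]; exact hS0.1
  have hC := Phi_contDiffAt hpd.det_pos.ne'
  set A := fderiv ℝ (Phi G H) p0 with hA
  have hinj : Function.Injective (A : PP G H →ₗ[ℝ] PP G H) := by
    rw [injective_iff_map_eq_zero]
    intro v hv
    exact Phi_fderiv_inj hpd v hv
  set Ae : PP G H ≃L[ℝ] PP G H :=
    (LinearEquiv.ofInjectiveEndo (A : PP G H →ₗ[ℝ] PP G H) hinj).toContinuousLinearEquiv with hAe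
  have hAeA : (Ae : PP G H →L[ℝ] PP G H) = A := by
    exact ContinuousLinearMap.ext fun v => rfl
  have hder : HasFDerivAt (Phi G H) (Ae : PP G H →L[ℝ] PP G H) p0 := by
    rw [hAeA]
    exact (hC.differentiableAt (by simp)).hasFDerivAt
  have hPhi0 : Phi G H p0 = (coC G H S0, 0) := by
    unfold Phi
    rw [hSg0]
    congr 1
    funext l
    have h := rp_spec (eB G H l).1
    apply hS0.2.2.2
    rw [h]
    exact (eB G H l).2
  have hω : (ω : WithTop ℕ∞) ≠ 0 := by simp
  set gg := hC.localInverse hder hω with hgg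
  have hgg0 : gg (coC G H S0, 0) = p0 := by
    rw [← hPhi0]; exact hC.localInverse_apply_image hder hω
  have hggC : ContDiffAt ℝ ω gg (coC G H S0, 0) := by
    rw [← hPhi0]; exact hC.to_localInverse hder hω
  have hright : ∀ᶠ q in 𝓝 (coC G H S0, (0 : Fin (dB G H) → ℝ)), Phi G H (gg q) = q := by
    rw [← hPhi0]
    exact (hC.hasStrictFDerivAt' hder hω).eventually_right_inverse
  have hι : Continuous fun c : Fin (dC G H) → ℝ => (c, (0 : Fin (dB G H) → ℝ)) := by fun_prop
  refine ⟨fun c => gg (c, 0), ?_, ?_⟩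
  · have h1 : ContDiffAt ℝ ω (fun c : Fin (dC G H) → ℝ => (c, (0 : Fin (dB G H) → ℝ)))
        (coC G H S0) := contDiffAt_id.prodMk contDiffAt_const
    exact ContDiffAt.comp (coC G H S0) hggC h1
  · have hcont : ContinuousAt (fun c => Sg G H (gg (c, 0))) (coC G H S0) := by
      apply ContinuousAt.comp (g := Sg G H)
      · rw [hgg0]
        apply continuousAt_pi.2
        intro i
        apply continuousAt_pi.2
        intro j
        exact (Sg_contDiffAt i j p0).continuousAt
      · exact ContinuousAt.comp (g := gg) hggC.continuousAt hι.continuousAt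
    have hval : Sg G H (gg (coC G H S0, 0)) = S0 := by rw [hgg0, hSg0]
    have hev : ∀ᶠ c in 𝓝 (coC G H S0), (Sg G H (gg (c, 0)))ᵀ = Sg G H (gg (c, 0)) →
        (Sg G H (gg (c, 0))).PosDef := by
      have h5 : ∀ᶠ T in 𝓝 (Sg G H (gg (coC G H S0, 0))), Tᵀ = T → T.PosDef := by
        rw [hval]
        exact posDef_eventually hS0.1
      exact hcont.eventually h5
    filter_upwards [hev, hι.continuousAt.eventually hright] with c h1 h2
    have hpd' := h1 (Sg_symm _)
    have h3 : (gg (c, 0)).1 = c := congrArg Prod.fst h2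
    have h4 : coB G H (Sg G H (gg (c, 0)))⁻¹ = 0 := congrArg Prod.snd h2
    refine ⟨⟨hpd', fun i => Sg_diag _ i, ?_, ?_⟩, ?_⟩
    · intro i j hij h
      rw [Sg_off _ hij, Lin_zero _ h]
    · intro i j hij
      obtain ⟨l, hl⟩ : ∃ l, (eB G H l).1 = s(i, j) :=
        ⟨(eB G H).symm ⟨_, hij⟩, by rw [Equiv.apply_symm_apply]⟩
      have h5 := congrFun h4 l
      simp only [coB] at h5
      rw [hl] at h5
      have hs : ((Sg G H (gg (c, 0)))⁻¹)ᵀ = (Sg G H (gg (c, 0)))⁻¹ := by
        rw [transpose_nonsing_inv, Sg_symm]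
      rw [← sym_rp hs i j]
      exact h5
    · rw [coC_Sg, h3]

end

end Pool.Agent.R950.DM
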