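import Pool.Agent.R950.DME

/-! The global parametrisation `psi`, submanifolds, Zariski closures. -/

open Matrix Topology Filter
open scoped ContDiff

namespace Pool.Agent.R950.DM

/-- A smooth embedded submanifold of a real normed space: near each of its points the set is the
zero set of a smooth submersion to some `ℝ^k`. -/
def IsSmoothSubmanifold {E : Type*} [NormedAddCommGroup E] [NormedSpace ℝ E] (S : Set E) : Prop :=
  ∀ x ∈ S, ∃ (k : ℕ) (W : Set E) (f : E → (Fin k → ℝ)), IsOpen W ∧ x ∈ W ∧ ContDiffOn ℝ ∞ f W ∧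
    (∀ y ∈ W, Function.Surjective (fderiv ℝ f y)) ∧ S ∩ W = {y ∈ W | f y = 0}

/-- evaluation of a polynomial in the matrix entries -/
noncomputable def ev {n : ℕ} (S : Matrix (Fin n) (Fin n) ℝ)
    (p : MvPolynomial (Fin n × Fin n) ℝ) : ℝ :=
  MvPolynomial.eval (fun ij => S ij.1 ij.2) p

/-- Zariski closed sets of real matrices -/
def ZariskiClosed {n : ℕ} (Z : Set (Matrix (Fin n) (Fin n) ℝ)) : Prop :=
  ∃ I : Set (MvPolynomial (Fin n × Fin n) ℝ), Z = {S | ∀ p ∈ I, ev S p = 0}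

/-- The Zariski closure of a set of real matrices. -/
def zariskiClosure {n : ℕ} (S : Set (Matrix (Fin n) (Fin n) ℝ)) :
    Set (Matrix (Fin n) (Fin n) ℝ) :=
  ⋂₀ {Z | ZariskiClosed Z ∧ S ⊆ Z}

/-- Irreducibility in the Zariski topology. -/
def ZariskiIrreducible {n : ℕ} (Z : Set (Matrix (Fin n) (Fin n) ℝ)) : Prop :=
  Z.Nonempty ∧ ∀ Z₁ Z₂ : Set (Matrix (Fin n) (Fin n) ℝ), ZariskiClosed Z₁ → ZariskiClosed Z₂ →
    Z ⊆ Z₁ ∪ Z₂ → Z ⊆ Z₁ ∨ Z ⊆ Z₂

lemma irreducible_of_prime {n : ℕ} {S : Set (Matrix (Fin n) (Fin n) ℝ)} (hne : S.Nonempty)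
    (h : ∀ p q : MvPolynomial (Fin n × Fin n) ℝ, (∀ M ∈ S, ev M (p * q) = 0) →
      (∀ M ∈ S, ev M p = 0) ∨ (∀ M ∈ S, ev M q = 0)) :
    ZariskiIrreducible (zariskiClosure S) := by
  have hsub : S ⊆ zariskiClosure S := fun M hM Z hZ => hZ.2 hM
  have key : ∀ Z, ZariskiClosed Z → S ⊆ Z → zariskiClosure S ⊆ Z :=
    fun Z hZ hS => Set.sInter_subset_of_mem ⟨hZ, hS⟩
  refine ⟨hne.mono hsub, ?_⟩
  intro Z₁ Z₂ h1 h2 h12
  by_contra hcon
  rw [not_or] at hcon
  have hn1 : ¬ S ⊆ Z₁ := fun hS => hcon.1 (key _ h1 hS)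
  have hn2 : ¬ S ⊆ Z₂ := fun hS => hcon.2 (key _ h2 hS)
  obtain ⟨I₁, rfl⟩ := h1
  obtain ⟨I₂, rfl⟩ := h2
  rw [Set.not_subset] at hn1 hn2
  obtain ⟨M₁, hM₁, hM₁'⟩ := hn1
  obtain ⟨M₂, hM₂, hM₂'⟩ := hn2
  rw [Set.mem_ofPred_eq] at hM₁' hM₂'
  push Not at hM₁' hM₂'
  obtain ⟨p, hp, hpne⟩ := hM₁'
  obtain ⟨q, hq, hqne⟩ := hM₂'
  rcases h p q (by
    intro M hM
    have hM12 := h12 (hsub hM)
    unfold ev at *
    rw [map_mul]
    rcases hM12 with h | h
    · rw [h p hp, zero_mul]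
    · rw [h q hq, mul_zero]) with h | h
  · exact hpne (h _ hM₁)
  · exact hqne (h _ hM₂)

variable {n : ℕ} {G H : SimpleGraph (Fin n)}

noncomputable section

open Classical in
variable (G H) in
def psi (c : Fin (dC G H) → ℝ) : Matrix (Fin n) (Fin n) ℝ :=
  if h : c ∈ Om G H then h.choose else 1

lemma psi_mem {c : Fin (dC G H) → ℝ} (h : c ∈ Om G H) : psi G H c ∈ MM G H := by
  rw [psi, dif_pos h]; exact h.choose_spec.1

lemma coC_psi {c : Fin (dC G H) → ℝ} (h : c ∈ Om G H) : coC G H (psi G H c) = c := by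
  rw [psi, dif_pos h]; exact h.choose_spec.2

lemma coC_mem {S : Matrix (Fin n) (Fin n) ℝ} (h : S ∈ MM G H) : coC G H S ∈ Om G H :=
  ⟨S, h, rfl⟩

lemma psi_coC {S : Matrix (Fin n) (Fin n) ℝ} (h : S ∈ MM G H) : psi G H (coC G H S) = S :=
  uniq (psi_mem (coC_mem h)) h (coC_psi (coC_mem h))

lemma psi_eventually {c : Fin (dC G H) → ℝ} (h : c ∈ Om G H) :
    ∃ g : (Fin (dC G H) → ℝ) → PP G H, ContDiffAt ℝ ω g c ∧
      ∀ᶠ c' in 𝓝 c, c' ∈ Om G H ∧ psi G H c' = Sg G H (g c') := by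
  obtain ⟨g, hg1, hg2⟩ := local_param (psi_mem h)
  rw [coC_psi h] at hg1 hg2
  refine ⟨g, hg1, ?_⟩
  filter_upwards [hg2] with c' hc'
  have h1 : c' ∈ Om G H := ⟨_, hc'.1, hc'.2⟩
  refine ⟨h1, ?_⟩
  have h2 := psi_coC hc'.1
  rwa [hc'.2] at h2

lemma Om_open : IsOpen (Om G H) := by
  rw [isOpen_iff_mem_nhds]
  intro c hc
  obtain ⟨g, _, hg⟩ := psi_eventually hc
  exact hg.mono fun c' h => h.1

lemma psi_contDiffAt {c : Fin (dC G H) → ℝ} (h : c ∈ Om G H) (i j : Fin n) :
    ContDiffAt ℝ ω (fun c => psi G H c i j) c := by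
  obtain ⟨g, hg1, hg2⟩ := psi_eventually h
  have h1 : ContDiffAt ℝ ω (fun c => Sg G H (g c) i j) c :=
    ContDiffAt.comp (g := fun p => Sg G H p i j) c (Sg_contDiffAt i j (g c)) hg1
  apply h1.congr_of_eventuallyEq
  filter_upwards [hg2] with c' hc'
  rw [hc'.2]

lemma one_mem_MM : (1 : Matrix (Fin n) (Fin n) ℝ) ∈ MM G H := corr_sub G H (one_mem G H)

/-- identity principle on the parameter domain -/
lemma identity {f : (Fin (dC G H) → ℝ) → ℝ} (hf : ∀ c ∈ Om G H, ContDiffAt ℝ ω f c)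
    {c0 : Fin (dC G H) → ℝ} (hc0 : c0 ∈ Om G H) (h0 : ∀ᶠ c in 𝓝 c0, f c = 0) :
    ∀ c ∈ Om G H, f c = 0 := by
  have h1 : AnalyticOnNhd ℝ f (Om G H) := fun c hc =>
    (hf c hc).analyticAt
  intro c hc
  exact h1.eqOn_zero_of_preconnected_of_eventuallyEq_zero Om_convex.isPreconnected hc0 h0 hc

lemma ev_contDiffAt (p : MvPolynomial (Fin n × Fin n) ℝ) {c : Fin (dC G H) → ℝ}
    (h : c ∈ Om G H) : ContDiffAt ℝ ω (fun c => ev (psi G H c) p) c := by
  unfold ev
  induction p using MvPolynomial.induction_on with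
  | C a => simp only [MvPolynomial.eval_C]; exact contDiffAt_const
  | add p q hp hq => simp only [map_add]; exact hp.add hq
  | mul_X p i hp =>
    simp only [map_mul, MvPolynomial.eval_X]
    exact hp.mul (psi_contDiffAt h _ _)

lemma MM_irreducible : ZariskiIrreducible (zariskiClosure (MM G H)) := by
  apply irreducible_of_prime ⟨1, one_mem_MM⟩
  intro p q hpq
  by_cases hp : ∀ M ∈ MM G H, ev M p = 0
  · left; exact hp
  right
  push Not at hp
  obtain ⟨M, hM, hMp⟩ := hp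
  have hc := coC_mem hM
  have h1 : ∀ᶠ c in 𝓝 (coC G H M), ev (psi G H c) p ≠ 0 := by
    apply (ev_contDiffAt p hc).continuousAt.eventually_ne
    rwa [psi_coC hM]
  have h2 : ∀ᶠ c in 𝓝 (coC G H M), ev (psi G H c) q = 0 := by
    filter_upwards [h1, Om_open.mem_nhds hc] with c hc1 hc2
    have h3 := hpq _ (psi_mem hc2)
    unfold ev at *
    rw [map_mul] at h3
    exact (mul_eq_zero.1 h3).resolve_left hc1
  have h3 := identity (fun c hc => ev_contDiffAt q hc) hc h2
  intro N hN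
  have := h3 _ (coC_mem hN)
  rwa [psi_coC hN] at this

variable (G H) in
def coCL : (Fin n → Fin n → ℝ) →L[ℝ] (Fin (dC G H) → ℝ) :=
  LinearMap.toContinuousLinearMap
    { toFun := fun S => coC G H S
      map_add' := fun S T => rfl
      map_smul' := fun c S => rfl }

lemma coCL_apply (S : Fin n → Fin n → ℝ) : coCL G H S = coC G H S := rfl

variable (G H) in
/-- positions other than the chosen representatives -/
abbrev RR : Type := {ij : Fin n × Fin n // ∀ k, ij ≠ rp (eC G H k).1}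

lemma MM_smooth : IsSmoothSubmanifold (E := Fin n → Fin n → ℝ) (MM G H) := by
  classical
  intro S0 hS0
  set e : Fin (Fintype.card (RR G H)) ≃ RR G H := (Fintype.equivFin _).symm with he
  set W : Set (Fin n → Fin n → ℝ) := coCL G H ⁻¹' Om G H with hW
  set f : (Fin n → Fin n → ℝ) → (Fin (Fintype.card (RR G H)) → ℝ) :=
    fun S r => S (e r).1.1 (e r).1.2 - psi G H (coCL G H S) (e r).1.1 (e r).1.2 with hf
  have hWopen : IsOpen W := Om_open.preimage (coCL G H).continuous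
  have hent : ∀ i j : Fin n, ContDiff ℝ ω (fun S : Fin n → Fin n → ℝ => S i j) := by
    intro i j; fun_prop
  have hpsi : ∀ y ∈ W, ∀ i j, ContDiffAt ℝ ω (fun S => psi G H (coCL G H S) i j) y := by
    intro y hy i j
    exact ContDiffAt.comp y (psi_contDiffAt hy i j) (coCL G H).contDiff.contDiffAt
  refine ⟨Fintype.card (RR G H), W, f, hWopen, coC_mem hS0, ?_, ?_, ?_⟩
  · intro y hy
    apply ContDiffAt.contDiffWithinAt
    rw [contDiffAt_pi]
    intro r
    exact ((hent _ _).contDiffAt.sub (hpsi y hy _ _)).of_le (by simp)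
  · intro y hy w
    -- the tangent vector supported on the remaining positions
    set X : Fin n → Fin n → ℝ := fun i j =>
      if h : ∀ k, (i, j) ≠ rp (eC G H k).1 then w (e.symm ⟨(i, j), h⟩) else 0 with hX
    refine ⟨X, ?_⟩
    have hco : coCL G H X = 0 := by
      funext k
      show X (rp (eC G H k).1).1 (rp (eC G H k).1).2 = 0
      simp only [hX]
      rw [dif_neg]
      intro h; exact h k rfl
    have hdiff : ∀ r, HasFDerivAt (fun S : Fin n → Fin n → ℝ =>
        S (e r).1.1 (e r).1.2 - psi G H (coCL G H S) (e r).1.1 (e r).1.2)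
        ((ContinuousLinearMap.proj (R := ℝ) (e r).1.2 ∘L
          ContinuousLinearMap.proj (R := ℝ) (φ := fun _ : Fin n => Fin n → ℝ) (e r).1.1) -
          (fderiv ℝ (fun c => psi G H c (e r).1.1 (e r).1.2) (coCL G H y)) ∘L coCL G H) y := by
      intro r
      apply HasFDerivAt.sub
      · exact (ContinuousLinearMap.proj (R := ℝ) (e r).1.2 ∘L
          ContinuousLinearMap.proj (R := ℝ) (φ := fun _ : Fin n => Fin n → ℝ) (e r).1.1).hasFDerivAt
      · exact HasFDerivAt.comp y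
          ((psi_contDiffAt hy (e r).1.1 (e r).1.2).differentiableAt (by simp)).hasFDerivAt
          (coCL G H).hasFDerivAt
    have hfd := (hasFDerivAt_pi.2 hdiff).fderiv
    rw [hfd]
    funext r
    rw [ContinuousLinearMap.pi_apply, _root_.sub_apply, ContinuousLinearMap.comp_apply,
      ContinuousLinearMap.comp_apply, hco, map_zero, sub_zero]
    show X (e r).1.1 (e r).1.2 = w r
    simp only [hX]
    rw [dif_pos (e r).2]
    congr 1
    rw [Equiv.symm_apply_eq]
  · ext S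
    simp only [Set.mem_inter_iff, Set.mem_ofPred_eq]
    constructor
    · rintro ⟨h1, h2⟩
      refine ⟨h2, ?_⟩
      funext r
      simp only [hf]
      rw [coCL_apply, psi_coC h1]
      exact sub_self _
    · rintro ⟨h1, h2⟩
      refine ⟨?_, h1⟩
      have h3 : psi G H (coCL G H S) = S := by
        ext i j
        by_cases hij : ∀ k, (i, j) ≠ rp (eC G H k).1
        · have h4 := congrFun h2 (e.symm ⟨(i, j), hij⟩)
          simp only [hf, Equiv.apply_symm_apply, Pi.zero_apply] at h4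
          linarith
        · push Not at hij
          obtain ⟨k, hk⟩ := hij
          have h4 := congrFun (coC_psi (G := G) (H := H) h1) k
          have h5 : i = (rp (eC G H k).1).1 := congrArg Prod.fst hk
          have h6 : j = (rp (eC G H k).1).2 := congrArg Prod.snd hk
          rw [h5, h6]
          exact h4
      have h4 := psi_mem (G := G) (H := H) h1
      rw [h3] at h4
      exact h4

lemma eq_MM_of (h : ∀ i j, i ≠ j → ¬ G.Adj i j → ∀ c ∈ Om G H, (psi G H c).adjugate i j = 0) :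
    CorrModel G H = MM G H := by
  apply Set.Subset.antisymm (corr_sub G H)
  intro S hS
  refine ⟨⟨hS.1, ?_, fun i j hij h' => hS.2.2.1 i j hij h'⟩, hS.2.1⟩
  intro i j hij h'
  have h1 := h i j hij h' _ (coC_mem hS)
  rw [psi_coC hS] at h1
  rw [inv_def, Matrix.smul_apply, h1, smul_zero]

lemma adj_zero {S : Matrix (Fin n) (Fin n) ℝ} (hS : S ∈ CorrModel G H) {i j : Fin n}
    (hij : i ≠ j) (h : ¬ G.Adj i j) : S.adjugate i j = 0 := by
  have h1 := hS.1.2.1 i j hij h
  rw [inv_def, Matrix.smul_apply, smul_eq_mul, Ring.inverse_eq_inv'] at h1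
  exact (mul_eq_zero.1 h1).resolve_left (inv_ne_zero hS.1.1.det_pos.ne')

end

end Pool.Agent.R950.DM
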