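import Pool.Agent.R950.DMN

/-! The two questions on double Markovian correlation models. -/

open Matrix Topology Filter MeasureTheory
open scoped ContDiff

namespace Pool.Agent.R950.DM

/-- The dimension of a (semialgebraic) set `S` of real `n × n` matrices: the largest `d` such
that the projection of `S` onto some `d` of the matrix entries has nonempty interior. -/
noncomputable def semialgDim {n : ℕ} (S : Set (Matrix (Fin n) (Fin n) ℝ)) : ℕ :=
  sSup {d | ∃ J : Finset (Fin n × Fin n), J.card = d ∧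
    (interior ((fun (M : Matrix (Fin n) (Fin n) ℝ) (p : J) => M p.1.1 p.1.2) '' S)).Nonempty}

variable {n : ℕ} {G H : SimpleGraph (Fin n)}

noncomputable section

lemma eq_of_proj (J : Finset (Fin n × Fin n)) (hJ : J.card = dC G H)
    (hint : (interior ((fun (M : Matrix (Fin n) (Fin n) ℝ) (p : J) => M p.1.1 p.1.2) ''
      CorrModel G H)).Nonempty) : CorrModel G H = MM G H := by
  by_contra hcon
  have hcon' : ¬ ∀ i j, i ≠ j → ¬ G.Adj i j → ∀ c ∈ Om G H, (psi G H c).adjugate i j = 0 :=
    fun h => hcon (eq_MM_of h)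
  push Not at hcon'
  obtain ⟨i, j, hij, hG, c1, hc1, hne⟩ := hcon'
  have hf : ∀ c ∈ Om G H, ContDiffAt ℝ ω (fun c => (psi G H c).adjugate i j) c :=
    fun c hc => contDiffAt_adj (fun a b => psi_contDiffAt hc a b) i j
  have hnull := analytic_null (dC G H) (Om G H) (fun c => (psi G H c).adjugate i j) Om_open
    Om_convex.isPreconnected (fun c hc => (hf c hc).analyticAt) ⟨c1, hc1, hne⟩
  set Z : Set (Fin (dC G H) → ℝ) := Om G H ∩ {x | (psi G H x).adjugate i j = 0} with hZ
  set e : Fin (dC G H) ≃ J := (Fintype.equivFinOfCardEq (by simpa using hJ)).symm with he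
  set F : (Fin (dC G H) → ℝ) → (Fin (dC G H) → ℝ) :=
    fun c k => psi G H c (e k).1.1 (e k).1.2 with hF
  have hFd : DifferentiableOn ℝ F Z := by
    intro c hc
    apply DifferentiableAt.differentiableWithinAt
    rw [differentiableAt_pi]
    intro k
    exact (psi_contDiffAt hc.1 _ _).differentiableAt (by simp)
  have hFnull : volume (F '' Z) = 0 :=
    addHaar_image_eq_zero_of_differentiableOn_of_addHaar_eq_zero volume hFd hnull
  -- reindexing
  set T : (J → ℝ) ≃ₜ (Fin (dC G H) → ℝ) :=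
    (ContinuousLinearEquiv.piCongrLeft ℝ (fun _ : J => ℝ) e).symm.toHomeomorph with hT
  have hTapp : ∀ x k, T x k = x (e k) := by
    intro x k
    rfl
  have hsub : T '' ((fun (M : Matrix (Fin n) (Fin n) ℝ) (p : J) => M p.1.1 p.1.2) ''
      CorrModel G H) ⊆ F '' Z := by
    rintro _ ⟨_, ⟨M, hM, rfl⟩, rfl⟩
    have hMM := corr_sub G H hM
    refine ⟨coC G H M, ⟨coC_mem hMM, ?_⟩, ?_⟩
    · show (psi G H (coC G H M)).adjugate i j = 0
      rw [psi_coC hMM]
      exact adj_zero hM hij hG
    · funext k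
      rw [hTapp]
      show psi G H (coC G H M) (e k).1.1 (e k).1.2 = _
      rw [psi_coC hMM]
  obtain ⟨x, hx⟩ := hint
  have h1 : IsOpen (T '' interior ((fun (M : Matrix (Fin n) (Fin n) ℝ) (p : J) =>
      M p.1.1 p.1.2) '' CorrModel G H)) := T.isOpenMap _ isOpen_interior
  have h2 := h1.measure_pos volume ⟨T x, ⟨x, hx, rfl⟩⟩
  have h3 := measure_mono_null ((Set.image_mono interior_subset).trans hsub) hFnull
  rw [h3] at h2
  exact lt_irrefl _ h2

lemma eq_of_dim (h : semialgDim (CorrModel G H) = dC G H) : CorrModel G H = MM G H := by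
  set A : Set ℕ := {d | ∃ J : Finset (Fin n × Fin n), J.card = d ∧
    (interior ((fun (M : Matrix (Fin n) (Fin n) ℝ) (p : J) => M p.1.1 p.1.2) ''
      CorrModel G H)).Nonempty} with hA
  have hne : A.Nonempty := by
    refine ⟨0, ∅, rfl, ?_⟩
    have : ((fun (M : Matrix (Fin n) (Fin n) ℝ) (p : (∅ : Finset (Fin n × Fin n))) =>
        M p.1.1 p.1.2) '' CorrModel G H) = Set.univ := by
      rw [Set.eq_univ_iff_forall]
      intro x
      refine ⟨1, one_mem G H, ?_⟩
      funext p
      exact absurd p.2 (Finset.notMem_empty _)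
    rw [this, interior_univ]
    exact ⟨fun _ => 0, trivial⟩
  have hbdd : BddAbove A := by
    refine ⟨(Finset.univ : Finset (Fin n × Fin n)).card, ?_⟩
    rintro d ⟨J, rfl, _⟩
    exact Finset.card_le_card (Finset.subset_univ _)
  have hmem := Nat.sSup_mem hne hbdd
  have h' : sSup A = dC G H := h
  rw [h'] at hmem
  obtain ⟨J, hJ1, hJ2⟩ := hmem
  exact eq_of_proj J hJ1 hJ2

/-- the line `1 + t U_e` in the model -/
lemma line_mem {e : Sym2 (Fin n)} (he : e ∈ CS G H) :
    ∀ᶠ t in 𝓝 (0 : ℝ), (1 + t • U e : Matrix (Fin n) (Fin n) ℝ) ∈ CorrModel G H := by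
  have hc : Continuous fun t : ℝ => (1 + t • U e : Matrix (Fin n) (Fin n) ℝ) := by fun_prop
  have hev : ∀ᶠ T in 𝓝 ((fun t : ℝ => (1 + t • U e : Matrix (Fin n) (Fin n) ℝ)) 0),
      Tᵀ = T → T.PosDef := by
    have : (fun t : ℝ => (1 + t • U e : Matrix (Fin n) (Fin n) ℝ)) 0 = 1 := by simp
    rw [this]
    exact posDef_eventually PosDef.one
  have h1 : ∀ᶠ t in 𝓝 (0 : ℝ), |t| < 1 := by
    have : ContinuousAt (fun t : ℝ => |t|) 0 := continuous_abs.continuousAt
    exact this.eventually (gt_mem_nhds (by simp))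
  filter_upwards [hc.continuousAt.eventually hev, h1] with t ht ht1
  have hpd : (1 + t • U e : Matrix (Fin n) (Fin n) ℝ).PosDef := ht (by
    rw [transpose_add, transpose_one, transpose_smul, U_symm])
  induction e using Sym2.ind with
  | _ a b =>
  have hab : a ≠ b := ne_of_mem he.2
  have hU : (U s(a, b) : Matrix (Fin n) (Fin n) ℝ) = Matrix.single a b 1 + Matrix.single b a 1 := by
    ext i j
    simp only [U, Matrix.add_apply, Matrix.single_apply, Sym2.eq_iff]
    by_cases h1 : i = a ∧ j = b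
    · obtain ⟨rfl, rfl⟩ := h1
      simp [hab, hab.symm]
    · by_cases h2 : i = b ∧ j = a
      · obtain ⟨rfl, rfl⟩ := h2
        simp [hab, hab.symm]
      · have h1' : ¬ (a = i ∧ b = j) := fun h => h1 ⟨h.1.symm, h.2.symm⟩
        have h2' : ¬ (b = i ∧ a = j) := fun h => h2 ⟨h.1.symm, h.2.symm⟩
        simp [h1, h2, h1', h2']
  set D : Matrix (Fin n) (Fin n) ℝ := Matrix.single a a 1 + Matrix.single b b 1 with hD
  have hUU : (U s(a, b) : Matrix (Fin n) (Fin n) ℝ) * U s(a, b) = D := by
    rw [hU, add_mul, mul_add, mul_add]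
    simp [Matrix.single_mul_single_same, Matrix.single_mul_single_of_ne, hab, hab.symm, hD]
  have hUD : (U s(a, b) : Matrix (Fin n) (Fin n) ℝ) * D = U s(a, b) := by
    rw [hU, add_mul, hD, mul_add, mul_add]
    simp [Matrix.single_mul_single_same, Matrix.single_mul_single_of_ne, hab, hab.symm]
  have hden : 1 - t ^ 2 ≠ 0 := by
    have : t ^ 2 < 1 := by
      rw [← sq_abs]; nlinarith [abs_nonneg t]
    linarith
  have hinv : (1 + t • U s(a, b) : Matrix (Fin n) (Fin n) ℝ)⁻¹ =
      1 + (t ^ 2 / (1 - t ^ 2)) • D - (t / (1 - t ^ 2)) • U s(a, b) := by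
    apply Matrix.inv_eq_right_inv
    rw [add_mul, one_mul, mul_sub, mul_add, mul_one, Matrix.mul_smul, Matrix.mul_smul,
      Matrix.smul_mul, Matrix.smul_mul, hUD, hUU]
    ext i j
    simp only [Matrix.add_apply, Matrix.sub_apply, Matrix.smul_apply, smul_eq_mul]
    field_simp
    ring
  refine ⟨⟨hpd, ?_, ?_⟩, ?_⟩
  · intro i j hij hG
    have hne : s(i, j) ≠ s(a, b) := by
      intro h
      apply hG
      have := he.1
      rw [← h] at this
      exact this
    have h1 : (U s(a, b) : Matrix (Fin n) (Fin n) ℝ) i j = 0 := by rw [U, if_neg hne]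
    have h2 : D i j = 0 := by
      rw [hD, Matrix.add_apply, Matrix.single_apply, Matrix.single_apply, if_neg, if_neg, add_zero]
      · rintro ⟨rfl, rfl⟩; exact hij rfl
      · rintro ⟨rfl, rfl⟩; exact hij rfl
    rw [hinv]
    simp only [Matrix.add_apply, Matrix.sub_apply, Matrix.smul_apply, h1, h2, one_apply_ne hij]
    simp
  · intro i j hij hH
    have hne : s(i, j) ≠ s(a, b) := by
      intro h
      apply hH
      have := he.2
      rw [← h] at this
      exact this
    have h1 : (U s(a, b) : Matrix (Fin n) (Fin n) ℝ) i j = 0 := by rw [U, if_neg hne]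
    rw [Matrix.add_apply, Matrix.smul_apply, h1, one_apply_ne hij]; simp
  · intro i
    have h1 : (U s(a, b) : Matrix (Fin n) (Fin n) ℝ) i i = 0 := by
      rw [U, if_neg]
      intro h
      apply not_diag (H := H) i
      rw [h]; exact he.2
    rw [Matrix.add_apply, Matrix.smul_apply, h1, one_apply_eq]; simp

lemma eq_of_smooth (h : IsSmoothSubmanifold (E := Fin n → Fin n → ℝ) (CorrModel G H)) :
    CorrModel G H = MM G H := by
  let o : Fin n → Fin n → ℝ := fun i j => (1 : Matrix (Fin n) (Fin n) ℝ) i j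
  obtain ⟨k, W, f, hW, h1W, hfs, hsurj, hzero⟩ := h o (one_mem G H)
  have hmemf : ∀ y : Fin n → Fin n → ℝ, y ∈ W → (f y = 0 ↔ Matrix.of y ∈ CorrModel G H) := by
    intro y hy
    have := Set.ext_iff.1 hzero y
    exact ⟨fun h0 => (this.2 ⟨hy, h0⟩).1, fun h0 => (this.1 ⟨h0, hy⟩).2⟩
  have hfa : ContDiffAt ℝ ∞ f o := hfs.contDiffAt (hW.mem_nhds h1W)
  have hst : HasStrictFDerivAt f (fderiv ℝ f o) o := hfa.hasStrictFDerivAt (by simp)
  set f' := fderiv ℝ f o with hf'
  have hrange : f'.range = ⊤ := LinearMap.range_eq_top.2 (hsurj o h1W)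
  have hf1 : f o = 0 := (hmemf o h1W).2 (one_mem G H)
  -- the tangent space contains the coordinate directions
  let uu : Sym2 (Fin n) → (Fin n → Fin n → ℝ) := fun e i j => U e i j
  have hker : ∀ e ∈ CS G H, f' (uu e) = 0 := by
    intro e he
    have hline := line_mem he
    have hcur : HasDerivAt (fun t : ℝ => o + t • uu e) (uu e) 0 := by
      have := ((hasDerivAt_id (0 : ℝ)).smul_const (uu e)).const_add o
      simpa using this
    have hcomp : HasDerivAt (fun t : ℝ => f (o + t • uu e)) (f' (uu e)) 0 := by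
      have h0 : HasFDerivAt f f' (o + (0 : ℝ) • uu e) := by
        rw [zero_smul, add_zero]; exact hst.hasFDerivAt
      exact h0.comp_hasDerivAt (0 : ℝ) hcur
    have hz : (fun t : ℝ => f (o + t • uu e)) =ᶠ[𝓝 0] fun _ => 0 := by
      have hcW : ∀ᶠ t in 𝓝 (0 : ℝ), o + t • uu e ∈ W := by
        have hc0 : W ∈ 𝓝 (o + (0 : ℝ) • uu e) := by
          rw [zero_smul, add_zero]
          exact hW.mem_nhds h1W
        exact hcur.continuousAt.eventually hc0
      filter_upwards [hline, hcW] with t h1 h2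
      exact (hmemf _ h2).2 h1
    have hd0 : HasDerivAt (fun t : ℝ => f (o + t • uu e)) (0 : Fin k → ℝ) 0 :=
      (hasDerivAt_const _ _).congr_of_eventuallyEq hz
    exact hcomp.unique hd0
  let ll : (Fin (dC G H) → ℝ) → (Fin n → Fin n → ℝ) := fun x i j => Lin G H (x, 0) i j
  have hkerL : ∀ x : Fin (dC G H) → ℝ, f' (ll x) = 0 := by
    intro x
    have e1 : ll x = ∑ k, x k • uu (eC G H k).1 := by
      funext i j
      show Lin G H (x, 0) i j = _
      simp only [Lin, Pi.zero_apply, zero_smul, Finset.sum_const_zero, add_zero,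
        Finset.sum_apply, Pi.smul_apply, smul_eq_mul, Matrix.sum_apply, Matrix.smul_apply, uu]
    rw [e1, map_sum]
    apply Finset.sum_eq_zero
    intro k _
    rw [map_smul, hker _ (eC G H k).2, smul_zero]
  -- the implicit function
  set θ := hst.implicitFunction f f' hrange (f o) with hθ
  have hθ0 : θ 0 = o := hst.implicitFunction_apply_image hrange
  have hθd : HasStrictFDerivAt θ f'.ker.subtypeL 0 := hst.to_implicitFunction hrange
  have hθf : ∀ᶠ t in 𝓝 (0 : f'.ker), f (θ t) = 0 := by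
    have h1 := hst.map_implicitFunction_eq hrange
    have h2 : Continuous fun t : f'.ker => (f o, t) := by fun_prop
    have h3 := (h2.continuousAt (x := (0 : f'.ker))).eventually h1
    filter_upwards [h3] with t ht
    rw [hθ, ht, hf1]
  have hθW : ∀ᶠ t in 𝓝 (0 : f'.ker), θ t ∈ W := by
    have hc0 : W ∈ 𝓝 (θ 0) := by
      rw [hθ0]
      exact hW.mem_nhds h1W
    exact hθd.hasFDerivAt.continuousAt.eventually hc0
  have hθM : ∀ᶠ t in 𝓝 (0 : f'.ker), Matrix.of (θ t) ∈ CorrModel G H := by
    filter_upwards [hθf, hθW] with t h1 h2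
    exact (hmemf _ h2).1 h1
  have hcd : HasStrictFDerivAt (fun t => coCL G H (θ t)) (coCL G H ∘L f'.ker.subtypeL) 0 :=
    (coCL G H).hasStrictFDerivAt.comp (0 : f'.ker) hθd
  have hsur : (coCL G H ∘L f'.ker.subtypeL).range = ⊤ := by
    apply LinearMap.range_eq_top.2
    intro x
    refine ⟨⟨ll x, hkerL x⟩, ?_⟩
    show coC G H (Lin G H (x, 0)) = x
    funext k
    exact Lin_C (G := G) (H := H) (x, 0) k (rp_spec _)
  have hmap := hcd.map_nhds_eq_of_surj hsur
  rw [hθ0] at hmap
  have hnhds : ∀ᶠ c in 𝓝 (coCL G H o), ∃ t, Matrix.of (θ t) ∈ CorrModel G H ∧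
      coCL G H (θ t) = c := by
    rw [← hmap, eventually_map]
    filter_upwards [hθM] with t ht
    exact ⟨t, ht, rfl⟩
  apply eq_MM_of
  intro i j hij hG
  apply identity (c0 := coCL G H o)
    (fun c hc => contDiffAt_adj (fun a b => psi_contDiffAt hc a b) i j) (coC_mem one_mem_MM)
  filter_upwards [hnhds] with c hc
  obtain ⟨t, ht1, ht2⟩ := hc
  have h1 : psi G H c = Matrix.of (θ t) := by
    rw [← ht2]
    exact psi_coC (corr_sub G H ht1)
  rw [h1]
  exact adj_zero ht1 hij hG

end

end Pool.Agent.R950.DM
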