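import Pool.Agent.R950.DMF

/-!
# Zero sets of real analytic functions are null sets

(Copied from the starting file `Pool/Agent/W417/GP/AZ.lean`.)
-/

open MeasureTheory Set Filter Topology

namespace Pool.Agent.R950.DM

/-- Zeros on a segment. -/
theorem seg_ae {N : ℕ} {U : Set (Fin N → ℝ)} {f : (Fin N → ℝ) → ℝ} (hf : AnalyticOnNhd ℝ f U)
    (x₁ x : Fin N → ℝ) (hx₁ : f x₁ ≠ 0) (hseg : ∀ s ∈ Icc (0 : ℝ) 1, x₁ + s • (x - x₁) ∈ U) :
    ∀ᵐ s : ℝ, ¬ (s ∈ Ioc (0 : ℝ) 1 ∧ f (x₁ + s • (x - x₁)) = 0) := by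
  set F : ℝ → ℝ := fun s => f (x₁ + s • (x - x₁)) with hF
  have hFan : AnalyticOnNhd ℝ F (Icc 0 1) := by
    intro s hs
    have h1 : AnalyticAt ℝ (fun s : ℝ => x₁ + s • (x - x₁)) s :=
      analyticAt_const.add (analyticAt_id.smul analyticAt_const)
    exact AnalyticAt.fun_comp (hf _ (hseg s hs)) h1
  have h0 : F 0 ≠ 0 := by
    simp only [hF, zero_smul, add_zero]
    exact hx₁
  have h1 : F ⁻¹' {0}ᶜ ∈ codiscreteWithin (Icc (0 : ℝ) 1) :=
    hFan.preimage_zero_mem_codiscreteWithin h0 (by simp) (isConnected_Icc zero_le_one)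
  have h2 : (Icc (0 : ℝ) 1 \ F ⁻¹' {0}ᶜ).Finite := isCompact_Icc.finite_sdiff_of_mem_codiscreteWithin h1
  have h3 : volume (Icc (0 : ℝ) 1 \ F ⁻¹' {0}ᶜ) = 0 := h2.measure_zero _
  rw [ae_iff]
  refine measure_mono_null ?_ h3
  intro s hs
  simp only [not_not] at hs
  refine ⟨⟨hs.1.1.le, hs.1.2⟩, ?_⟩
  intro h4
  exact h4 hs.2

theorem analytic_null (N : ℕ) (U : Set (Fin N → ℝ)) (f : (Fin N → ℝ) → ℝ) (hU : IsOpen U)
    (hUc : IsPreconnected U) (hf : AnalyticOnNhd ℝ f U) (hne : ∃ x ∈ U, f x ≠ 0) :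
    volume (U ∩ {x | f x = 0}) = 0 := by
  obtain ⟨xn, hxnU, hxn⟩ := hne
  apply measure_null_of_locally_null
  rintro x₀ ⟨hx₀U, -⟩
  obtain ⟨r, hr, hrU⟩ := Metric.isOpen_iff.1 hU x₀ hx₀U
  -- a point close to `x₀` at which `f` does not vanish
  obtain ⟨x₁, hx₁b, hx₁⟩ : ∃ x₁ ∈ Metric.ball x₀ (r / 4), f x₁ ≠ 0 := by
    by_contra hcon
    push Not at hcon
    have h1 : ∀ᶠ y in 𝓝 x₀, f y = 0 := by
      filter_upwards [Metric.ball_mem_nhds x₀ (by positivity : 0 < r / 4)] with y hy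
      exact hcon y hy
    have h2 := hf.eqOn_zero_of_preconnected_of_eventuallyEq_zero hUc hx₀U h1
    exact hxn (h2 hxnU)
  rw [Metric.mem_ball] at hx₁b
  have hballU : Metric.ball x₁ (r / 2) ⊆ U := by
    intro y hy
    apply hrU
    rw [Metric.mem_ball] at hy ⊢
    calc dist y x₀ ≤ dist y x₁ + dist x₁ x₀ := dist_triangle _ _ _
      _ < r / 2 + r / 4 := add_lt_add hy hx₁b
      _ ≤ r := by linarith
  have hseg : ∀ x ∈ Metric.ball x₁ (r / 2), ∀ s ∈ Icc (0 : ℝ) 1,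
      x₁ + s • (x - x₁) ∈ Metric.ball x₁ (r / 2) := by
    intro x hx s hs
    rw [Metric.mem_ball, dist_eq_norm] at hx ⊢
    rw [add_sub_cancel_left, norm_smul, Real.norm_eq_abs, abs_of_nonneg hs.1]
    calc s * ‖x - x₁‖ ≤ 1 * ‖x - x₁‖ := mul_le_mul_of_nonneg_right hs.2 (norm_nonneg _)
      _ < r / 2 := by rw [one_mul]; exact hx
  -- measurability
  have hZm : MeasurableSet (U ∩ {x | f x = 0}) := by
    have h1 : IsOpen (U ∩ f ⁻¹' {0}ᶜ) :=
      hf.continuousOn.isOpen_inter_preimage hU isOpen_compl_singleton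
    have h2 : U ∩ {x | f x = 0} = U \ (U ∩ f ⁻¹' {0}ᶜ) := by
      ext y
      simp only [mem_inter_iff, mem_ofPred_eq, Set.mem_sdiff, mem_preimage, mem_compl_iff,
        mem_singleton_iff]
      tauto
    rw [h2]
    exact hU.measurableSet.diff h1.measurableSet
  have hmeas : MeasurableSet {p : (Fin N → ℝ) × ℝ | ¬ (p.2 ∈ Ioc (0 : ℝ) 1 ∧
      p.1 ∈ Metric.ball x₁ (r / 2) ∧ x₁ + p.2 • (p.1 - x₁) ∈ U ∩ {x | f x = 0})} := by
    apply MeasurableSet.compl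
    apply MeasurableSet.inter
    · exact measurable_snd measurableSet_Ioc
    apply MeasurableSet.inter
    · exact measurable_fst Metric.isOpen_ball.measurableSet
    · have hc : Measurable (fun p : (Fin N → ℝ) × ℝ => x₁ + p.2 • (p.1 - x₁)) := by
        have : Continuous (fun p : (Fin N → ℝ) × ℝ => x₁ + p.2 • (p.1 - x₁)) := by fun_prop
        exact this.measurable
      exact hc hZm
  have h1 : ∀ᵐ x : Fin N → ℝ, ∀ᵐ s : ℝ, ¬ (s ∈ Ioc (0 : ℝ) 1 ∧ x ∈ Metric.ball x₁ (r / 2) ∧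
      x₁ + s • (x - x₁) ∈ U ∩ {x | f x = 0}) := by
    refine Eventually.of_forall fun x => ?_
    by_cases hx : x ∈ Metric.ball x₁ (r / 2)
    · filter_upwards [seg_ae hf x₁ x hx₁ (fun s hs => hballU (hseg x hx s hs))] with s hs h
      exact hs ⟨h.1, h.2.2.2⟩
    · exact Eventually.of_forall fun s h => hx h.2.1
  have h2 := (Measure.ae_ae_comm (μ := (volume : Measure (Fin N → ℝ))) (ν := (volume : Measure ℝ))
    (p := fun x s => ¬ (s ∈ Ioc (0 : ℝ) 1 ∧ x ∈ Metric.ball x₁ (r / 2) ∧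
      x₁ + s • (x - x₁) ∈ U ∩ {x | f x = 0})) hmeas).1 h1
  obtain ⟨s, hs, h3⟩ := Measure.exists_mem_of_measure_ne_zero_of_ae
    (μ := (volume : Measure ℝ)) (s := Ioo (1 / 2 : ℝ) 1)
    (by rw [Real.volume_Ioo]; norm_num) (ae_restrict_of_ae h2)
  have hs0 : s ≠ 0 := by
    have := hs.1
    intro h
    rw [h] at this
    norm_num at this
  -- the zero set in a smaller ball
  refine ⟨Metric.ball x₁ (r / 4) ∩ (U ∩ {x | f x = 0}), ?_, ?_⟩
  · apply Filter.inter_mem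
    · apply mem_nhdsWithin_of_mem_nhds
      apply Metric.isOpen_ball.mem_nhds
      rw [Metric.mem_ball, dist_comm]
      exact hx₁b
    · exact self_mem_nhdsWithin
  · have h4 : volume {x | x ∈ Metric.ball x₁ (r / 2) ∧ x₁ + s • (x - x₁) ∈ U ∩ {x | f x = 0}} = 0 := by
      rw [ae_iff] at h3
      refine measure_mono_null ?_ h3
      intro x hx
      show ¬ ¬ _
      rw [not_not]
      exact ⟨⟨by linarith [hs.1], hs.2.le⟩, hx⟩
    have h5 : Metric.ball x₁ (r / 4) ∩ (U ∩ {x | f x = 0}) ⊆ (fun x => x₁ + s • (x - x₁)) ''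
        {x | x ∈ Metric.ball x₁ (r / 2) ∧ x₁ + s • (x - x₁) ∈ U ∩ {x | f x = 0}} := by
      rintro y ⟨hy1, hy2⟩
      have h6 : x₁ + s • ((x₁ + s⁻¹ • (y - x₁)) - x₁) = y := by
        rw [add_sub_cancel_left, smul_smul, mul_inv_cancel₀ hs0, one_smul, add_sub_cancel]
      refine ⟨x₁ + s⁻¹ • (y - x₁), ⟨?_, ?_⟩, h6⟩
      · rw [Metric.mem_ball, dist_eq_norm] at hy1 ⊢
        rw [add_sub_cancel_left, norm_smul, norm_inv, Real.norm_eq_abs,
          abs_of_pos (by linarith [hs.1] : 0 < s)]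
        have h7 : s⁻¹ ≤ 2 := by
          rw [inv_le_comm₀ (by linarith [hs.1]) (by norm_num)]
          linarith [hs.1]
        calc s⁻¹ * ‖y - x₁‖ ≤ 2 * ‖y - x₁‖ := mul_le_mul_of_nonneg_right h7 (norm_nonneg _)
          _ < 2 * (r / 4) := by linarith
          _ = r / 2 := by ring
      · rw [h6]
        exact hy2
    refine measure_mono_null h5 ?_
    apply addHaar_image_eq_zero_of_differentiableOn_of_addHaar_eq_zero volume _ h4
    fun_prop

end Pool.Agent.R950.DM
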