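import Mathlib

/-!
# Loop groups, Schubert closures and sheaf quotients by the first congruence subgroup (`GL_2`)
-/

set_option autoImplicit false

universe u

namespace Pool.Agent.R950.LoopQ

open CategoryTheory AlgebraicGeometry HahnSeries

section Maps

variable {R S T : Type u} [CommRing R] [CommRing S] [CommRing T]

/-- The ring homomorphism `R((t)) → S((t))` induced by a ring homomorphism `R → S`. -/
noncomputable def lmap (f : R →+* S) : LaurentSeries R →+* LaurentSeries S where
  toFun x := x.map f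
  map_zero' := by ext; simp
  map_one' := by
    ext m
    by_cases h : m = 0
    · subst h; simp
    · simp [HahnSeries.coeff_one, h]
  map_add' x y := by ext; simp
  map_mul' x y := by
    ext m
    simp only [HahnSeries.map_coeff, HahnSeries.coeff_mul, map_sum, map_mul]
    symm
    apply Finset.sum_subset
    · intro p hp
      rw [Finset.mem_antidiagonal] at hp ⊢
      refine ⟨?_, ?_, hp.2.2⟩
      · intro h0
        exact hp.1 (by rw [HahnSeries.map_coeff, h0, map_zero])
      · intro h0
        exact hp.2.1 (by rw [HahnSeries.map_coeff, h0, map_zero])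
    · intro p hp hp'
      rw [Finset.mem_antidiagonal] at hp hp'
      by_contra hne
      apply hp'
      refine ⟨?_, ?_, hp.2.2⟩
      · intro h0
        exact hne (by rw [HahnSeries.map_coeff] at h0; rw [h0, zero_mul])
      · intro h0
        exact hne (by rw [HahnSeries.map_coeff] at h0; rw [h0, mul_zero])

@[simp] theorem lmap_coeff (f : R →+* S) (x : LaurentSeries R) (m : ℤ) :
    (lmap f x).coeff m = f (x.coeff m) := rfl

@[simp] theorem lmap_single (f : R →+* S) (m : ℤ) (r : R) :
    lmap f (single m r) = single m (f r) := by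
  ext j
  rw [lmap_coeff]
  by_cases h : j = m
  · subst h; simp
  · simp [HahnSeries.coeff_single_of_ne h]

theorem lmap_comp (f : R →+* S) (g : S →+* T) (x : LaurentSeries R) :
    lmap g (lmap f x) = lmap (g.comp f) x := by
  ext; simp

theorem lmap_id (x : LaurentSeries R) : lmap (RingHom.id R) x = x := by
  ext; simp

theorem lmap_ofPowerSeries (f : R →+* S) (x : PowerSeries R) :
    lmap f (ofPowerSeries ℤ R x) = ofPowerSeries ℤ S (PowerSeries.map f x) := by
  ext m
  rw [lmap_coeff, PowerSeries.coeff_coe, PowerSeries.coeff_coe]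
  split_ifs <;> simp

end Maps

section Core

variable {k K : Type u} [Field k] [Field K] [Algebra k K]

/-- Let `f₁ : Spec K[[s]] → Y` and `f₀ : Spec k((s)) → Y` agree on `Spec K((s))`. Then the
restriction of `f₁` to `Spec K` (at `s = 0`) comes from a `k`-point of `Y`. -/
theorem core (Y : Scheme.{u}) (f₁ : Spec (.of (PowerSeries K)) ⟶ Y)
    (f₀ : Spec (.of (LaurentSeries k)) ⟶ Y)
    (h : Spec.map (CommRingCat.ofHom (ofPowerSeries ℤ K)) ≫ f₁ =
      Spec.map (CommRingCat.ofHom (lmap (algebraMap k K))) ≫ f₀) :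
    ∃ y : Spec (.of k) ⟶ Y, Spec.map (CommRingCat.ofHom (PowerSeries.constantCoeff (R := K))) ≫ f₁ =
      Spec.map (CommRingCat.ofHom (algebraMap k K)) ≫ y := by
  -- an affine neighbourhood of the image of the closed point
  let x : Spec (.of (PowerSeries K)) := IsLocalRing.closedPoint (PowerSeries K)
  obtain ⟨V, hV, hxV, -⟩ := exists_isAffineOpen_mem_and_subset
    (x := f₁ x) (U := ⊤) trivial
  have h1 : f₁ ⁻¹ᵁ V = ⊤ := by
    apply (IsLocalRing.closed_point_mem_iff (R := PowerSeries K)).1
    exact hxV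
  have hr1 : Set.range f₁ ⊆ Set.range hV.fromSpec := by
    rw [hV.range_fromSpec]
    rintro _ ⟨p, rfl⟩
    have : p ∈ f₁ ⁻¹ᵁ V := by rw [h1]; trivial
    exact this
  have hr0 : Set.range f₀ ⊆ Set.range hV.fromSpec := by
    rw [hV.range_fromSpec]
    rintro _ ⟨p, rfl⟩
    let p' : Spec (.of (LaurentSeries K)) := (⊥ : PrimeSpectrum (LaurentSeries K))
    have hp : Spec.map (CommRingCat.ofHom (lmap (algebraMap k K))) p' = p := by
      apply Subsingleton.elim (α := PrimeSpectrum (LaurentSeries k))
    rw [← hp, ← Scheme.Hom.comp_apply, ← h, Scheme.Hom.comp_apply]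
    have := hr1 ⟨Spec.map (CommRingCat.ofHom (ofPowerSeries ℤ K)) p', rfl⟩
    rw [hV.range_fromSpec] at this
    exact this
  let g₁ := IsOpenImmersion.lift hV.fromSpec f₁ hr1
  let g₀ := IsOpenImmersion.lift hV.fromSpec f₀ hr0
  have hg₁ : g₁ ≫ hV.fromSpec = f₁ := IsOpenImmersion.lift_fac _ _ _
  have hg₀ : g₀ ≫ hV.fromSpec = f₀ := IsOpenImmersion.lift_fac _ _ _
  let φ := Spec.preimage g₁
  let ψ := Spec.preimage g₀
  have hφ : Spec.map φ = g₁ := Spec.map_preimage _
  have hψ : Spec.map ψ = g₀ := Spec.map_preimage _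
  have h2 : φ ≫ CommRingCat.ofHom (ofPowerSeries ℤ K) =
      ψ ≫ CommRingCat.ofHom (lmap (algebraMap k K)) := by
    apply Spec.map_injective
    rw [Spec.map_comp, Spec.map_comp, hφ, hψ, ← cancel_mono hV.fromSpec, Category.assoc,
      Category.assoc, hg₁, hg₀, h]
  have h3 : ∀ b : Γ(Y, V), ofPowerSeries ℤ K (φ.hom b) = lmap (algebraMap k K) (ψ.hom b) := by
    intro b
    exact congrArg (fun (g : Γ(Y, V) ⟶ CommRingCat.of (LaurentSeries K)) => g.hom b) h2
  have h4 : ∀ b : Γ(Y, V), PowerSeries.constantCoeff (φ.hom b) =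
      algebraMap k K ((ψ.hom b).coeff 0) := by
    intro b
    have := congrArg (fun z => HahnSeries.coeff z (0 : ℤ)) (h3 b)
    simp only [lmap_coeff] at this
    rw [← this, PowerSeries.coeff_coe]
    simp
  have hinj := (algebraMap k K).injective
  let χ : Γ(Y, V) →+* k :=
    { toFun := fun b => (ψ.hom b).coeff 0
      map_zero' := by simp
      map_one' := by simp
      map_add' := fun a b => by simp
      map_mul' := fun a b => by
        apply hinj
        rw [← h4 (a * b), map_mul, map_mul, map_mul, h4, h4] }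
  have h5 : φ ≫ CommRingCat.ofHom (PowerSeries.constantCoeff (R := K)) =
      CommRingCat.ofHom χ ≫ CommRingCat.ofHom (algebraMap k K) := by
    ext b
    exact h4 b
  refine ⟨Spec.map (CommRingCat.ofHom χ) ≫ hV.fromSpec, ?_⟩
  rw [← hg₁, ← hφ, ← Category.assoc, ← Category.assoc, ← Spec.map_comp, ← Spec.map_comp, h5]

end Core

section Loop

open Matrix

variable (R S : Type u) [CommRing R] [CommRing S]

/-- The group of `R`-points of the loop group of `GL_2`: `LG(R) = GL_2(R((t)))`. -/
abbrev Loop := GL (Fin 2) (LaurentSeries R)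

/-- The group `L⁺G(R) = GL_2(R[[t]])`, as a subgroup of `LG(R)`. -/
noncomputable def posLoop : Subgroup (Loop R) :=
  (GeneralLinearGroup.map (n := Fin 2) (ofPowerSeries ℤ R)).range

/-- The first congruence subgroup `K₁(R)`: the kernel of `GL_2(R[[t]]) → GL_2(R)`, `t ↦ 0`, as a
subgroup of `LG(R)`. -/
noncomputable def congr₁ : Subgroup (Loop R) :=
  (GeneralLinearGroup.map (n := Fin 2) (PowerSeries.constantCoeff (R := R))).ker.map
    (GeneralLinearGroup.map (n := Fin 2) (ofPowerSeries ℤ R))

/-- The element `t^μ = diag(t^(μ 0), t^(μ 1))` of `LG(R)`. -/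
noncomputable def tpow (μ : Fin 2 → ℤ) : Loop R where
  val := diagonal fun i => single (μ i) 1
  inv := diagonal fun i => single (-μ i) 1
  val_inv := by
    rw [diagonal_mul_diagonal, ← diagonal_one]
    congr 1
    funext i
    rw [single_mul_single, add_neg_cancel, mul_one]
    rfl
  inv_val := by
    rw [diagonal_mul_diagonal, ← diagonal_one]
    congr 1
    funext i
    rw [single_mul_single, neg_add_cancel, mul_one]
    rfl

/-- The `R`-points `L⁺G(R) t^μ L⁺G(R)` of the Cartan stratum (before sheafification). -/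
def cell (μ : Fin 2 → ℤ) : Set (Loop R) :=
  {g | ∃ a ∈ posLoop R, ∃ b ∈ posLoop R, g = a * tpow R μ * b}

variable {R S}

/-- The map `LG(R) → LG(S)` induced by `R → S`. -/
noncomputable def loopMap (f : R →+* S) : Loop R →* Loop S :=
  GeneralLinearGroup.map (n := Fin 2) (lmap f)

theorem loopMap_apply (f : R →+* S) (g : Loop R) (i j : Fin 2) :
    loopMap f g i j = lmap f (g i j) := rfl

theorem loopMap_id (g : Loop R) : loopMap (RingHom.id R) g = g := by
  apply Matrix.GeneralLinearGroup.ext
  intro i j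
  exact lmap_id _

end Loop

section Sub

variable (k : Type u) [Field k]

/-- A closed subfunctor of the loop group `LG` of `GL_2` over `k`: a family of subsets of the `LG(R)`
for all commutative `k`-algebras `R` such that for every `g ∈ LG(R)` the condition that the image of
`g` in `LG(S)` lies in the subset is given by the vanishing of an ideal of `R` in `S`. -/
structure ClosedSub where
  /-- the `R`-points -/
  pts : ∀ (R : Type u) [CommRing R] [Algebra k R], Set (Loop R)
  closed : ∀ (R : Type u) [CommRing R] [Algebra k R] (g : Loop R), ∃ I : Ideal R,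
    ∀ (S : Type u) [CommRing S] [Algebra k S] (f : R →ₐ[k] S),
      loopMap (f : R →+* S) g ∈ pts S ↔ ∀ r ∈ I, f r = 0

/-- The closure `C^{≤μ}` of the Cartan stratum of `μ`: the smallest closed subfunctor of `LG` which
contains `L⁺G t^μ L⁺G`. -/
def schubert (μ : Fin 2 → ℤ) (R : Type u) [CommRing R] [Algebra k R] : Set (Loop R) :=
  {g | ∀ Z : ClosedSub k, (∀ (S : Type u) [CommRing S] [Algebra k S], cell S μ ⊆ Z.pts S) →
    g ∈ Z.pts R}

variable {k}

theorem schubert_map (μ : Fin 2 → ℤ) {R S : Type u} [CommRing R] [Algebra k R] [CommRing S]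
    [Algebra k S] (f : R →ₐ[k] S) {g : Loop R} (hg : g ∈ schubert k μ R) :
    loopMap (f : R →+* S) g ∈ schubert k μ S := by
  intro Z hZ
  obtain ⟨I, hI⟩ := Z.closed R g
  rw [hI S f]
  have h1 := (hI R (AlgHom.id k R)).1 (by
    have : loopMap ((AlgHom.id k R : R →ₐ[k] R) : R →+* R) g = g := by
      apply Matrix.GeneralLinearGroup.ext
      intro i j
      exact lmap_id _
    rw [this]
    exact hg Z hZ)
  intro r hr
  have := h1 r hr
  rw [AlgHom.id_apply] at this
  rw [this, map_zero]

/-- A `k`-scheme `p : Y → Spec k` represents the fpqc sheaf quotient `K₁ \ C^{≤μ} / K₁` (for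
`G = GL_2`): there is a natural map `q` from `C^{≤μ}` to the functor of points of `Y` such that two
elements have the same image if and only if fpqc-locally they are in the same orbit of `K₁ × K₁`, and
such that every point of `Y` is fpqc-locally in the image. -/
structure SheafQuotient (μ : Fin 2 → ℤ) (Y : Scheme.{u}) (p : Y ⟶ Spec (.of k)) where
  /-- the map `C^{≤μ}(R) → Y(R)` -/
  q : ∀ (R : Type u) [CommRing R] [Algebra k R], schubert k μ R → (Spec (.of R) ⟶ Y)
  q_over : ∀ (R : Type u) [CommRing R] [Algebra k R] (x : schubert k μ R),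
    q R x ≫ p = Spec.map (CommRingCat.ofHom (algebraMap k R))
  q_natural : ∀ (R S : Type u) [CommRing R] [Algebra k R] [CommRing S] [Algebra k S]
    (f : R →ₐ[k] S) (x : schubert k μ R),
    q S ⟨loopMap (f : R →+* S) x.1, schubert_map μ f x.2⟩ =
      Spec.map (CommRingCat.ofHom (f : R →+* S)) ≫ q R x
  q_eq_iff : ∀ (R : Type u) [CommRing R] [Algebra k R] (x x' : schubert k μ R),
    q R x = q R x' ↔ ∃ (S : Type u) (_ : CommRing S) (_ : Algebra k S) (f : R →ₐ[k] S),
      (f : R →+* S).FaithfullyFlat ∧ ∃ κ ∈ congr₁ S, ∃ κ' ∈ congr₁ S,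
        loopMap (f : R →+* S) x'.1 = κ * loopMap (f : R →+* S) x.1 * κ'
  q_surj : ∀ (R : Type u) [CommRing R] [Algebra k R] (y : Spec (.of R) ⟶ Y),
    y ≫ p = Spec.map (CommRingCat.ofHom (algebraMap k R)) →
      ∃ (S : Type u) (_ : CommRing S) (_ : Algebra k S) (f : R →ₐ[k] S),
        (f : R →+* S).FaithfullyFlat ∧ ∃ x : schubert k μ S,
          q S x = Spec.map (CommRingCat.ofHom (f : R →+* S)) ≫ y

end Sub

section Mats

open Matrix

variable {R S : Type u} [CommRing R] [CommRing S]

/-- the matrix `(a t^(m-1), s t^n; 0, a⁻¹ t^(n+1))` -/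
noncomputable def mat (m n : ℤ) (a : Rˣ) (s : R) : Loop R where
  val := !![single (m - 1) (a : R), single n s; 0, single (n + 1) ((a⁻¹ : Rˣ) : R)]
  inv := !![single (1 - m) ((a⁻¹ : Rˣ) : R), - single (-m) s; 0, single (-n - 1) (a : R)]
  val_inv := by
    ext i j
    fin_cases i <;> fin_cases j <;>
      simp [Matrix.mul_apply, Fin.sum_univ_two, single_mul_single, mul_comm] 
    all_goals ring_nf
  inv_val := by
    ext i j
    fin_cases i <;> fin_cases j <;>
      simp [Matrix.mul_apply, Fin.sum_univ_two, single_mul_single, mul_comm] 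
    all_goals ring_nf

/-- the matrix `(1, 0; c t^m, 1)` -/
noncomputable def low (m : ℤ) (c : R) : Loop R where
  val := !![1, 0; single m c, 1]
  inv := !![1, 0; - single m c, 1]
  val_inv := by
    ext i j
    fin_cases i <;> fin_cases j <;> simp [Matrix.mul_apply, Fin.sum_univ_two]
  inv_val := by
    ext i j
    fin_cases i <;> fin_cases j <;> simp [Matrix.mul_apply, Fin.sum_univ_two]

/-- the matrix `(0, s; - s⁻¹, 0)` -/
noncomputable def wey (s : Rˣ) : Loop R where
  val := !![0, single 0 (s : R); - single 0 ((s⁻¹ : Rˣ) : R), 0]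
  inv := !![0, - single 0 (s : R); single 0 ((s⁻¹ : Rˣ) : R), 0]
  val_inv := by
    ext i j
    fin_cases i <;> fin_cases j <;> simp [Matrix.mul_apply, Fin.sum_univ_two]
  inv_val := by
    ext i j
    fin_cases i <;> fin_cases j <;> simp [Matrix.mul_apply, Fin.sum_univ_two]

theorem map_mat (f : R →+* S) (m n : ℤ) (a : Rˣ) (s : R) :
    loopMap f (mat m n a s) = mat m n (Units.map (f : R →* S) a) (f s) := by
  apply Matrix.GeneralLinearGroup.ext
  intro i j
  rw [loopMap_apply]
  fin_cases i <;> fin_cases j <;> simp [mat] 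

theorem ofPS_monomial (m : ℕ) (c : R) :
    ofPowerSeries ℤ R (PowerSeries.monomial m c) = single (m : ℤ) c := by
  ext j
  rw [PowerSeries.coeff_coe]
  split_ifs with h
  · rw [HahnSeries.coeff_single_of_ne]
    rintro rfl
    omega
  · rw [PowerSeries.coeff_monomial]
    split_ifs with h'
    · rw [← h', Int.natAbs_of_nonneg (not_lt.1 h), HahnSeries.coeff_single_same]
    · rw [HahnSeries.coeff_single_of_ne]
      rintro rfl
      simp at h'

theorem low_mem_pos (m : ℕ) (c : R) : low (m : ℤ) c ∈ posLoop R := by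
  refine ⟨⟨!![1, 0; PowerSeries.monomial m c, 1], !![1, 0; - PowerSeries.monomial m c, 1], ?_, ?_⟩,
    ?_⟩
  · ext i j
    fin_cases i <;> fin_cases j <;> simp [Matrix.mul_apply, Fin.sum_univ_two]
  · ext i j
    fin_cases i <;> fin_cases j <;> simp [Matrix.mul_apply, Fin.sum_univ_two]
  · apply Matrix.GeneralLinearGroup.ext
    intro i j
    fin_cases i <;> fin_cases j <;> simp [low, ofPS_monomial]

theorem low_mem_congr (m : ℕ) (hm : m ≠ 0) (c : R) : low (m : ℤ) c ∈ congr₁ R := by
  refine ⟨⟨!![1, 0; PowerSeries.monomial m c, 1], !![1, 0; - PowerSeries.monomial m c, 1], ?_, ?_⟩,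
    ?_, ?_⟩
  · ext i j
    fin_cases i <;> fin_cases j <;> simp [Matrix.mul_apply, Fin.sum_univ_two]
  · ext i j
    fin_cases i <;> fin_cases j <;> simp [Matrix.mul_apply, Fin.sum_univ_two]
  · apply Matrix.GeneralLinearGroup.ext
    intro i j
    fin_cases i <;> fin_cases j <;> simp
    rw [← PowerSeries.coeff_zero_eq_constantCoeff_apply, PowerSeries.coeff_monomial,
      if_neg (Ne.symm hm)]
  · apply Matrix.GeneralLinearGroup.ext
    intro i j
    fin_cases i <;> fin_cases j <;> simp [low, ofPS_monomial]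

theorem wey_mem_pos (s : Rˣ) : wey s ∈ posLoop R := by
  refine ⟨⟨!![0, PowerSeries.C (s : R); - PowerSeries.C ((s⁻¹ : Rˣ) : R), 0],
    !![0, - PowerSeries.C (s : R); PowerSeries.C ((s⁻¹ : Rˣ) : R), 0], ?_, ?_⟩, ?_⟩
  · ext i j
    fin_cases i <;> fin_cases j <;> simp [Matrix.mul_apply, Fin.sum_univ_two, ← map_mul]
  · ext i j
    fin_cases i <;> fin_cases j <;> simp [Matrix.mul_apply, Fin.sum_univ_two, ← map_mul]
  · apply Matrix.GeneralLinearGroup.ext
    intro i j
    fin_cases i <;> fin_cases j <;> simp [wey] 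

theorem sgl (m : ℤ) (c : R) : (single m c : LaurentSeries R) = single m 1 * single 0 c := by
  rw [single_mul_single, add_zero, one_mul]

theorem sgl_add (m n : ℤ) : (single (m + n) 1 : LaurentSeries R) = single m 1 * single n 1 := by
  rw [single_mul_single, one_mul]

theorem sgl0_mul (a b : R) : (single 0 (a * b) : LaurentSeries R) = single 0 a * single 0 b := by
  rw [single_mul_single, add_zero]

theorem sgl0_sub (a b : R) : (single 0 (a - b) : LaurentSeries R) = single 0 a - single 0 b :=
  map_sub (HahnSeries.C : R →+* LaurentSeries R) a b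

theorem unit_sgl (a : Rˣ) : (single 0 (a : R) : LaurentSeries R) * single 0 ((a⁻¹ : Rˣ) : R) = 1 := by
  rw [single_mul_single, add_zero, Units.mul_inv]
  rfl

theorem rel_cell (n e : ℤ) (a s : Rˣ) :
    mat (n + (e + 1)) n a (s : R) = low 1 (((a⁻¹ : Rˣ) : R) * ((s⁻¹ : Rˣ) : R)) * wey s *
      tpow R ![n + (e + 1), n] * low e ((a : R) * ((s⁻¹ : Rˣ) : R)) := by
  have ha := unit_sgl a
  have hs := unit_sgl s
  have h1 : (single 0 (1 : R) : LaurentSeries R) = 1 := rfl
  have e1 : n + (e + 1) - 1 = n + e := by ring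
  apply Matrix.GeneralLinearGroup.ext
  intro i j
  rw [Units.val_mul, Units.val_mul, Units.val_mul]
  simp only [mat, low, wey, tpow, e1]
  rw [sgl (n + e), sgl n, sgl (n + 1), sgl 1 (_ * _), sgl e (_ * _), sgl0_mul, sgl0_mul]
  have hd : (diagonal fun i : Fin 2 => (single (![n + (e + 1), n] i) 1 : LaurentSeries R)) =
      !![single (n + (e + 1)) 1, 0; 0, single n 1] := by
    ext i j
    fin_cases i <;> fin_cases j <;> simp
  rw [hd]
  simp only [sgl_add, Matrix.mul_fin_two]
  fin_cases i <;> fin_cases j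
  · show _ = _
    simp only [Fin.zero_eta, Fin.mk_one, of_apply, cons_val', cons_val_zero, cons_val_one,
      cons_val_fin_one]
    linear_combination (- (single n 1 : LaurentSeries R) * single e 1 * single 0 (a : R)) * hs
  · simp only [Fin.zero_eta, Fin.mk_one, of_apply, cons_val', cons_val_zero, cons_val_one,
      cons_val_fin_one]
    ring
  · simp only [Fin.zero_eta, Fin.mk_one, of_apply, cons_val', cons_val_zero, cons_val_one,
      cons_val_fin_one]
    linear_combination (- (single n 1 : LaurentSeries R) * single e 1 * single 1 1 *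
      single 0 ((s⁻¹ : Rˣ) : R) * (single 0 (a : R) * single 0 ((a⁻¹ : Rˣ) : R))) * hs -
      ((single n 1 : LaurentSeries R) * single e 1 * single 1 1 * single 0 ((s⁻¹ : Rˣ) : R)) * ha
  · simp only [Fin.zero_eta, Fin.mk_one, of_apply, cons_val', cons_val_zero, cons_val_one,
      cons_val_fin_one]
    linear_combination (- (single n 1 : LaurentSeries R) * single 1 1 *
      single 0 ((a⁻¹ : Rˣ) : R)) * hs

theorem rel_congr (n e : ℤ) (a s : Rˣ) :
    mat (n + (e + 1)) n 1 (s : R) = low 1 ((1 - ((a⁻¹ : Rˣ) : R)) * ((s⁻¹ : Rˣ) : R)) *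
      mat (n + (e + 1)) n a (s : R) * low e ((1 - (a : R)) * ((s⁻¹ : Rˣ) : R)) := by
  have ha := unit_sgl a
  have hs := unit_sgl s
  have h1 : (single 0 (1 : R) : LaurentSeries R) = 1 := rfl
  have e1 : n + (e + 1) - 1 = n + e := by ring
  apply Matrix.GeneralLinearGroup.ext
  intro i j
  rw [Units.val_mul, Units.val_mul]
  simp only [mat, low, e1]
  rw [sgl (n + e) (a : R), sgl n (s : R), sgl (n + 1) ((a⁻¹ : Rˣ) : R), sgl 1 (_ * _),
    sgl e (_ * _), sgl0_mul, sgl0_mul, sgl0_sub, sgl0_sub, h1, inv_one, Units.val_one]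
  simp only [sgl_add, Matrix.mul_fin_two]
  fin_cases i <;> fin_cases j
  · simp only [Fin.zero_eta, Fin.mk_one, of_apply, cons_val', cons_val_zero, cons_val_one,
      cons_val_fin_one]
    linear_combination (- (single n 1 : LaurentSeries R) * single e 1 * (1 - single 0 (a : R))) * hs
  · simp only [Fin.zero_eta, Fin.mk_one, of_apply, cons_val', cons_val_zero, cons_val_one,
      cons_val_fin_one]
    ring
  · simp only [Fin.zero_eta, Fin.mk_one, of_apply, cons_val', cons_val_zero, cons_val_one,
      cons_val_fin_one]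
    linear_combination ((single n 1 : LaurentSeries R) * single e 1 * single 1 1 *
      single 0 ((s⁻¹ : Rˣ) : R)) * ha -
      ((single n 1 : LaurentSeries R) * single e 1 * single 1 1 *
      single 0 ((s⁻¹ : Rˣ) : R) * (1 - single 0 ((a⁻¹ : Rˣ) : R)) * (1 - single 0 (a : R))) * hs
  · simp only [Fin.zero_eta, Fin.mk_one, of_apply, cons_val', cons_val_zero, cons_val_one,
      cons_val_fin_one]
    linear_combination (- (single n 1 : LaurentSeries R) * single 1 1 *
      (1 - single 0 ((a⁻¹ : Rˣ) : R))) * hs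

/-- The diagonal entry is an invariant of the double coset. -/
theorem eq_of_congr [Nontrivial R] (m n : ℤ) (a b : Rˣ) (κ κ' : Loop R) (hκ : κ ∈ congr₁ R)
    (hκ' : κ' ∈ congr₁ R) (h : mat m n b (0 : R) = κ * mat m n a 0 * κ') : (a : R) = b := by
  obtain ⟨κ₀, h0, rfl⟩ := hκ
  obtain ⟨κ₁, h1, h1'⟩ := (congr₁ R).inv_mem hκ'
  have h' : mat m n b (0 : R) * κ'⁻¹ =
      GeneralLinearGroup.map (n := Fin 2) (ofPowerSeries ℤ R) κ₀ * mat m n a 0 := by
    rw [h]
    group
  rw [← h1'] at h'
  have h2 := congrArg (fun g : Loop R => (g 0 0).coeff (m - 1)) h'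
  have c0 : PowerSeries.constantCoeff (κ₀ 0 0) = 1 := by
    have := congrArg (fun g : GL (Fin 2) R => g 0 0) (MonoidHom.mem_ker.1 h0)
    simpa using this
  have c1 : PowerSeries.constantCoeff (κ₁ 0 0) = 1 := by
    have := congrArg (fun g : GL (Fin 2) R => g 0 0) (MonoidHom.mem_ker.1 h1)
    simpa using this
  have e1 : ((mat m n b (0 : R) * GeneralLinearGroup.map (n := Fin 2) (ofPowerSeries ℤ R) κ₁ :
      Loop R) 0 0) = single (m - 1) (b : R) * ofPowerSeries ℤ R (κ₁ 0 0) := by
    rw [Units.val_mul, Matrix.mul_apply, Fin.sum_univ_two]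
    simp [mat]
  have e2 : ((GeneralLinearGroup.map (n := Fin 2) (ofPowerSeries ℤ R) κ₀ * mat m n a 0 :
      Loop R) 0 0) = single (m - 1) (a : R) * ofPowerSeries ℤ R (κ₀ 0 0) := by
    rw [Units.val_mul, Matrix.mul_apply, Fin.sum_univ_two]
    simp [mat, mul_comm]
  simp only [e1, e2] at h2
  have key : ∀ (c : R) (x : PowerSeries R), (single (m - 1) c * ofPowerSeries ℤ R x).coeff (m - 1) =
      c * PowerSeries.constantCoeff x := by
    intro c x
    have := HahnSeries.coeff_single_mul_add (r := c) (x := ofPowerSeries ℤ R x) (a := 0)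
      (b := m - 1)
    rw [zero_add] at this
    rw [this, PowerSeries.coeff_coe]
    simp
  rw [key, key, c0, c1, mul_one, mul_one] at h2
  exact h2.symm

end Mats

section Main

variable {k : Type u} [Field k]

/-- The elements `mat` lie in the closure of the Cartan stratum if the parameter `s` is a unit. -/
theorem mat_mem_of_unit (n : ℤ) (e : ℕ) (R : Type u) [CommRing R] [Algebra k R] (a s : Rˣ) :
    mat (n + ((e : ℤ) + 1)) n a (s : R) ∈ cell R ![n + ((e : ℤ) + 1), n] := by
  rw [rel_cell]
  refine ⟨_, mul_mem (low_mem_pos 1 _) (wey_mem_pos s), _, low_mem_pos e _, rfl⟩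

/-- They lie in the closure of the Cartan stratum if the parameter becomes a unit in an extension
of the ring. -/
theorem mat_mem (n : ℤ) (e : ℕ) (R S : Type u) [CommRing R] [Algebra k R] [CommRing S] [Algebra k S]
    (f : R →ₐ[k] S) (hf : Function.Injective f) (a : Rˣ) (s : R) (u : Sˣ) (hu : f s = u) :
    mat (n + ((e : ℤ) + 1)) n a s ∈ schubert k ![n + ((e : ℤ) + 1), n] R := by
  intro Z hZ
  obtain ⟨I, hI⟩ := Z.closed R (mat (n + ((e : ℤ) + 1)) n a s)
  have h1 := (hI S f).1 (by
    rw [map_mat]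
    apply hZ
    show mat (n + ((e : ℤ) + 1)) n _ (f s) ∈ _
    rw [hu]
    exact mat_mem_of_unit (k := k) n e S _ u)
  have h2 := (hI R (AlgHom.id k R)).2 (by
    intro r hr
    rw [AlgHom.id_apply]
    apply hf
    rw [h1 r hr, map_zero])
  have : loopMap ((AlgHom.id k R : R →ₐ[k] R) : R →+* R) (mat (n + ((e : ℤ) + 1)) n a s) =
      mat (n + ((e : ℤ) + 1)) n a s := by
    apply Matrix.GeneralLinearGroup.ext
    intro i j
    exact lmap_id _
  rwa [this] at h2

/-- There are a field extension `K` of `k`, a unit `a` of `K` and a `k`-algebra endomorphism of `K`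
which moves `a`. -/
theorem exists_moved (k : Type u) [Field k] : ∃ (K : Type u) (_ : Field K) (_ : Algebra k K)
    (σ : K →ₐ[k] K) (a : Kˣ), σ a ≠ (a : K) := by
  let F := FractionRing (Polynomial k)
  have hinj : Function.Injective (algebraMap (Polynomial k) F) :=
    IsFractionRing.injective (Polynomial k) F
  let g : Polynomial k →ₐ[k] F := (IsScalarTower.toAlgHom k (Polynomial k) F).comp
    (Polynomial.algEquivAevalXAddC (1 : k)).toAlgHom
  have hg : Function.Injective g :=
    hinj.comp (Polynomial.algEquivAevalXAddC (1 : k)).injective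
  let σ : F →ₐ[k] F := IsFractionRing.liftAlgHom (K := F) hg
  have hX : (Polynomial.X : Polynomial k) ≠ 0 := Polynomial.X_ne_zero
  have hu : algebraMap (Polynomial k) F Polynomial.X ≠ 0 := by
    rw [Ne, map_eq_zero_iff _ hinj]
    exact hX
  refine ⟨F, inferInstance, inferInstance, σ, Units.mk0 _ hu, ?_⟩
  rw [Units.val_mk0]
  have h1 : σ (algebraMap (Polynomial k) F Polynomial.X) = g Polynomial.X := by
    simp [σ, IsFractionRing.liftAlgHom_apply]
  rw [h1]
  show algebraMap (Polynomial k) F (Polynomial.algEquivAevalXAddC (1 : k) Polynomial.X) ≠ _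
  intro h
  have h2 := hinj h
  simp at h2

theorem main (n : ℤ) (e : ℕ) (he : e ≠ 0) (Y : Scheme.{u}) (p : Y ⟶ Spec (.of k))
    (Q : SheafQuotient ![n + ((e : ℤ) + 1), n] Y p) : False := by
  obtain ⟨K, _, _, σ, a, hσ⟩ := exists_moved k
  let a₁ : (PowerSeries K)ˣ := Units.map (PowerSeries.C : K →+* PowerSeries K) a
  let f₁ : PowerSeries K →ₐ[k] LaurentSeries K :=
    { ofPowerSeries ℤ K with
      commutes' := fun r => rfl }
  let s₀ : (LaurentSeries k)ˣ := Units.mk0 (single 1 1) (by simp)
  let s₁ : (LaurentSeries K)ˣ := Units.mk0 (single 1 1) (by simp)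
  let f₀ : LaurentSeries k →ₐ[k] LaurentSeries K :=
    { lmap (algebraMap k K) with
      commutes' := fun r => by
        show lmap (algebraMap k K) (ofPowerSeries ℤ k (algebraMap k (PowerSeries k) r)) =
          ofPowerSeries ℤ K (algebraMap k (PowerSeries K) r)
        rw [lmap_ofPowerSeries]
        congr 1 }
  have hf₁ : Function.Injective f₁ := HahnSeries.ofPowerSeries_injective
  have hs₁ : f₁ PowerSeries.X = s₁ := by
    show ofPowerSeries ℤ K PowerSeries.X = _
    rw [ofPowerSeries_X]
    rfl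
  have hs₀ : f₀ s₀ = s₁ := by
    show lmap (algebraMap k K) (single 1 1) = single 1 1
    rw [lmap_single, map_one]
  let x₁ : schubert k ![n + ((e : ℤ) + 1), n] (PowerSeries K) :=
    ⟨_, mat_mem n e _ _ f₁ hf₁ a₁ PowerSeries.X s₁ hs₁⟩
  let x₀ : schubert k ![n + ((e : ℤ) + 1), n] (LaurentSeries k) :=
    ⟨_, mat_mem n e _ _ (AlgHom.id k _) (fun _ _ h => h) 1 _ s₀ rfl⟩
  have h1 : Spec.map (CommRingCat.ofHom (f₁ : PowerSeries K →+* LaurentSeries K)) ≫ Q.q _ x₁ =
      Spec.map (CommRingCat.ofHom (f₀ : LaurentSeries k →+* LaurentSeries K)) ≫ Q.q _ x₀ := by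
    rw [← Q.q_natural, ← Q.q_natural, Q.q_eq_iff]
    let a₂ : (LaurentSeries K)ˣ := Units.map (f₁ : PowerSeries K →* LaurentSeries K) a₁
    refine ⟨LaurentSeries K, inferInstance, inferInstance, AlgHom.id k _,
      RingHom.FaithfullyFlat.of_bijective Function.bijective_id,
      low ((1 : ℕ) : ℤ) ((1 - ((a₂⁻¹ : (LaurentSeries K)ˣ) : LaurentSeries K)) *
        ((s₁⁻¹ : (LaurentSeries K)ˣ) : LaurentSeries K)), low_mem_congr 1 one_ne_zero _,
      low (e : ℤ) ((1 - (a₂ : LaurentSeries K)) * ((s₁⁻¹ : (LaurentSeries K)ˣ) : LaurentSeries K)),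
      low_mem_congr e he _, ?_⟩
    show loopMap (RingHom.id _) (loopMap _ _) = _ * loopMap (RingHom.id _) (loopMap _ _) * _
    rw [loopMap_id, loopMap_id, map_mat, map_mat]
    show mat _ _ _ (f₀ (s₀ : LaurentSeries k)) = _ * mat _ _ _ (f₁ PowerSeries.X) * _
    rw [hs₀, hs₁, map_one, Nat.cast_one]
    exact rel_congr n e a₂ s₁
  obtain ⟨y, hy⟩ := core Y (Q.q _ x₁) (Q.q _ x₀) h1
  -- the point `diag(a t^(m-1), a⁻¹ t^(n+1))`
  let g₁ : PowerSeries K →ₐ[k] K :=
    { PowerSeries.constantCoeff (R := K) with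
      commutes' := fun r => by
        show PowerSeries.constantCoeff (algebraMap k (PowerSeries K) r) = _
        rw [PowerSeries.algebraMap_apply, PowerSeries.constantCoeff_C] }
  let z : schubert k ![n + ((e : ℤ) + 1), n] K :=
    ⟨loopMap (g₁ : PowerSeries K →+* K) x₁.1, schubert_map _ g₁ x₁.2⟩
  have hz : Q.q K z = Spec.map (CommRingCat.ofHom (algebraMap k K)) ≫ y := by
    rw [← hy]
    exact Q.q_natural _ _ g₁ x₁
  have hz1 : z.1 = mat (n + ((e : ℤ) + 1)) n a 0 := by
    show loopMap _ (mat _ _ _ _) = _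
    rw [map_mat]
    have e1 : Units.map ((g₁ : PowerSeries K →+* K) : PowerSeries K →* K) a₁ = a := by
      apply Units.ext
      show PowerSeries.constantCoeff (PowerSeries.C (a : K)) = a
      simp
    have e2 : (g₁ : PowerSeries K →+* K) PowerSeries.X = 0 := by
      show PowerSeries.constantCoeff (PowerSeries.X : PowerSeries K) = 0
      simp
    rw [e1, e2]
  let z' : schubert k ![n + ((e : ℤ) + 1), n] K :=
    ⟨loopMap (σ : K →+* K) z.1, schubert_map _ σ z.2⟩
  have hz' : Q.q K z' = Q.q K z := by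
    have := Q.q_natural _ _ σ z
    rw [this, hz, ← Category.assoc, ← Spec.map_comp, ← CommRingCat.ofHom_comp]
    congr 3
    exact σ.comp_algebraMap
  obtain ⟨S, _, _, f, hf, κ, hκ, κ', hκ', hrel⟩ := (Q.q_eq_iff K z z').1 hz'.symm
  have : Nontrivial S := hf.injective.nontrivial
  have h2 : z'.1 = mat (n + ((e : ℤ) + 1)) n (Units.map (σ : K →* K) a) 0 := by
    show loopMap _ z.1 = _
    rw [hz1, map_mat]
    congr 1
    exact map_zero _
  rw [hz1, h2, map_mat, map_mat] at hrel
  have h3 : (f : K →+* S) 0 = 0 := map_zero _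
  rw [h3] at hrel
  have h4 := eq_of_congr _ _ _ _ κ κ' hκ hκ' hrel
  apply hσ
  have h5 : f (a : K) = f (σ a) := h4
  exact (hf.injective h5).symm

end Main

end Pool.Agent.R950.LoopQ
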