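import Mathlib

/-! Positivity certificates on the line over `ℚ`: Bernstein's theorem. -/

open Polynomial

namespace Pool.Agent.R950.PS

/-- `C(k,j)/C(n,j)` is close to `(k/n)^j`. -/
lemma choose_ratio {d n k : ℕ} (hn : d < n) (hk : k ≤ n) : ∀ j : ℕ, j ≤ d →
    |((k.choose j : ℝ)) / (n.choose j) - ((k : ℝ) / n) ^ j| ≤ j * d / ((n : ℝ) - d) := by
  have hn0 : (0 : ℝ) < n := by exact_mod_cast (Nat.zero_le d).trans_lt hn
  have hnd : (0 : ℝ) < (n : ℝ) - d := by
    have : (d : ℝ) < n := by exact_mod_cast hn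
    linarith
  intro j
  induction j with
  | zero => intro _; simp
  | succ j ih =>
    intro hj
    have hj' : j ≤ d := by omega
    have ih := ih hj'
    have hjn : j < n := by omega
    have hcn : (0 : ℝ) < n.choose j := by exact_mod_cast Nat.choose_pos hjn.le
    have hnj : (0 : ℝ) < (n : ℝ) - j := by
      have : (j : ℝ) < n := by exact_mod_cast hjn
      linarith
    -- recursion
    have hrec : ((k.choose (j + 1) : ℝ)) / (n.choose (j + 1)) =
        ((k.choose j : ℝ) / (n.choose j)) * (((k : ℝ) - j) / ((n : ℝ) - j)) := by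
      have e1 : ((k.choose (j + 1) : ℝ)) * (j + 1) = (k.choose j) * ((k : ℝ) - j) := by
        rcases Nat.lt_or_ge k j with h | h
        · rw [Nat.choose_eq_zero_of_lt h, Nat.choose_eq_zero_of_lt (by omega)]; simp
        · have := Nat.choose_succ_right_eq k j
          have h2 : ((k.choose (j + 1) * (j + 1) : ℕ) : ℝ) = ((k.choose j * (k - j) : ℕ) : ℝ) := by
            rw [this]
          push_cast [Nat.cast_sub h] at h2
          exact h2
      have e2 : ((n.choose (j + 1) : ℝ)) * (j + 1) = (n.choose j) * ((n : ℝ) - j) := by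
        have := Nat.choose_succ_right_eq n j
        have h2 : ((n.choose (j + 1) * (j + 1) : ℕ) : ℝ) = ((n.choose j * (n - j) : ℕ) : ℝ) := by
          rw [this]
        push_cast [Nat.cast_sub hjn.le] at h2
        exact h2
      have hj1 : (0 : ℝ) < (j : ℝ) + 1 := by positivity
      have hc1 : (0 : ℝ) < n.choose (j + 1) := by exact_mod_cast Nat.choose_pos (by omega)
      rw [div_mul_div_comm, div_eq_div_iff hc1.ne' (mul_pos hcn hnj).ne', ← e1, ← e2]
      ring
    rw [hrec]
    set r := (k.choose j : ℝ) / (n.choose j) with hr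
    have hr0 : 0 ≤ r := by positivity
    have hr1 : r ≤ 1 := by
      rw [hr, div_le_one hcn]
      exact_mod_cast Nat.choose_le_choose j hk
    have hkn : (k : ℝ) / n ≤ 1 := by
      rw [div_le_one hn0]; exact_mod_cast hk
    have hkn0 : 0 ≤ (k : ℝ) / n := by positivity
    have hdiff : |r * (((k : ℝ) - j) / ((n : ℝ) - j) - (k : ℝ) / n)| ≤ d / ((n : ℝ) - d) := by
      have hb : 0 ≤ (d : ℝ) / ((n : ℝ) - d) := by positivity
      have e3 : ((k : ℝ) - j) / ((n : ℝ) - j) - (k : ℝ) / n =
          - ((j : ℝ) * (n - k) / (n * ((n : ℝ) - j))) := by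
        field_simp
        ring
      rw [e3, abs_mul, abs_neg, abs_of_nonneg hr0]
      have hnk : (0 : ℝ) ≤ (n : ℝ) - k := by
        have : (k : ℝ) ≤ n := by exact_mod_cast hk
        linarith
      rw [abs_of_nonneg (by positivity)]
      have e4 : (j : ℝ) * (n - k) / (n * ((n : ℝ) - j)) ≤ d / ((n : ℝ) - d) := by
        have hjd : (j : ℝ) ≤ d := by exact_mod_cast hj'
        rw [div_le_div_iff₀ (by positivity) hnd]
        have k0 : (0 : ℝ) ≤ k := by positivity
        have j0 : (0 : ℝ) ≤ j := by positivity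
        have s1 : (j : ℝ) * (n - k) ≤ d * n := by nlinarith
        have s2 : ((n : ℝ) - d) ≤ ((n : ℝ) - j) := by linarith
        calc (j : ℝ) * (n - k) * ((n : ℝ) - d) ≤ (d * n) * ((n : ℝ) - j) := by
              apply mul_le_mul s1 s2 hnd.le (by positivity)
          _ = _ := by ring
      calc r * _ ≤ 1 * (d / ((n : ℝ) - d)) := by
            apply mul_le_mul hr1 e4 (by positivity) (by norm_num)
        _ = _ := one_mul _
    have hsplit : r * (((k : ℝ) - j) / ((n : ℝ) - j)) - ((k : ℝ) / n) ^ (j + 1) =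
        r * (((k : ℝ) - j) / ((n : ℝ) - j) - (k : ℝ) / n) + (r - ((k : ℝ) / n) ^ j) * ((k : ℝ) / n) := by
      ring
    rw [hsplit]
    refine (abs_add_le _ _).trans ?_
    have h5 : |(r - ((k : ℝ) / n) ^ j) * ((k : ℝ) / n)| ≤ j * d / ((n : ℝ) - d) := by
      rw [abs_mul, abs_of_nonneg hkn0]
      calc _ ≤ j * d / ((n : ℝ) - d) * 1 := by
            apply mul_le_mul ih hkn hkn0 (by positivity)
        _ = _ := mul_one _
    calc _ ≤ d / ((n : ℝ) - d) + j * d / ((n : ℝ) - d) := add_le_add hdiff h5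
      _ = _ := by push_cast; ring

/-- `C(n,j) X^j` in the Bernstein basis -/
lemma monomial_bernstein {n j : ℕ} (hj : j ≤ n) : ((n.choose j : ℕ) : ℚ[X]) * X ^ j =
    ∑ k ∈ Finset.range (n + 1), ((k.choose j : ℕ) : ℚ[X]) *
      (((n.choose k : ℕ) : ℚ[X]) * X ^ k * (1 - X) ^ (n - k)) := by
  have h1 : (1 : ℚ[X]) = (X + (1 - X)) ^ (n - j) := by
    rw [add_sub_cancel, one_pow]
  calc ((n.choose j : ℕ) : ℚ[X]) * X ^ j = ((n.choose j : ℕ) : ℚ[X]) * X ^ j * (X + (1 - X)) ^ (n - j) := by
        rw [← h1, mul_one]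
    _ = ∑ m ∈ Finset.range (n - j + 1), ((n.choose j : ℕ) : ℚ[X]) * X ^ j *
          (X ^ m * (1 - X) ^ (n - j - m) * (((n - j).choose m : ℕ) : ℚ[X])) := by
        rw [add_pow, Finset.mul_sum]
    _ = ∑ m ∈ Finset.range (n - j + 1), (((j + m).choose j : ℕ) : ℚ[X]) *
      (((n.choose (j + m) : ℕ) : ℚ[X]) * X ^ (j + m) * (1 - X) ^ (n - (j + m))) := by
        apply Finset.sum_congr rfl
        intro m hm
        rw [Finset.mem_range] at hm
        have e1 : n.choose (j + m) * (j + m).choose j = n.choose j * (n - j).choose m := by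
          have := Nat.choose_mul (n := n) (k := j + m) (s := j) (by omega)
          simpa using this
        have e2 : (((n.choose (j + m) * (j + m).choose j : ℕ)) : ℚ[X]) =
          ((n.choose j * (n - j).choose m : ℕ) : ℚ[X]) := by rw [e1]
        push_cast at e2
        have e3 : n - (j + m) = n - j - m := by omega
        rw [e3, pow_add]
        linear_combination (-(X ^ j * X ^ m * (1 - X) ^ (n - j - m))) * e2
    _ = ∑ k ∈ Finset.Ico j (n + 1), ((k.choose j : ℕ) : ℚ[X]) *
      (((n.choose k : ℕ) : ℚ[X]) * X ^ k * (1 - X) ^ (n - k)) := by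
        rw [Finset.sum_Ico_eq_sum_range]
        have : n + 1 - j = n - j + 1 := by omega
        rw [this]
    _ = _ := by
        rw [Finset.range_eq_Ico]
        symm
        rw [← Finset.sum_Ico_consecutive _ (Nat.zero_le j) (by omega : j ≤ n + 1)]
        rw [Finset.sum_eq_zero, zero_add]
        intro k hk
        rw [Finset.mem_Ico] at hk
        rw [Nat.choose_eq_zero_of_lt hk.2]
        simp

/-- Bernstein coefficients -/
noncomputable def bc (H : ℚ[X]) (n k : ℕ) : ℚ :=
  ∑ j ∈ Finset.range (H.natDegree + 1), H.coeff j * ((k.choose j : ℚ) / (n.choose j))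

lemma bernstein_repr (H : ℚ[X]) {n : ℕ} (hn : H.natDegree ≤ n) :
    H = ∑ k ∈ Finset.range (n + 1), C (bc H n k) *
      (((n.choose k : ℕ) : ℚ[X]) * X ^ k * (1 - X) ^ (n - k)) := by
  have h1 : ∀ j ∈ Finset.range (H.natDegree + 1), C (H.coeff j) * X ^ j =
      ∑ k ∈ Finset.range (n + 1), C (H.coeff j * ((k.choose j : ℚ) / (n.choose j))) *
      (((n.choose k : ℕ) : ℚ[X]) * X ^ k * (1 - X) ^ (n - k)) := by
    intro j hj
    rw [Finset.mem_range] at hj
    have hjn : j ≤ n := by omega
    have hc : ((n.choose j : ℕ) : ℚ) ≠ 0 := by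
      exact_mod_cast (Nat.choose_pos hjn).ne'
    have h2 := monomial_bernstein hjn
    have h3 : C (H.coeff j) * X ^ j = C (H.coeff j / (n.choose j : ℕ)) *
        (((n.choose j : ℕ) : ℚ[X]) * X ^ j) := by
      rw [← mul_assoc]
      congr 1
      rw [← C_eq_natCast, ← C_mul]
      congr 1
      field_simp
    rw [h3, h2, Finset.mul_sum]
    apply Finset.sum_congr rfl
    intro k _
    rw [← mul_assoc]
    congr 1
    rw [← C_eq_natCast, ← C_mul]
    congr 1
    field_simp
  conv_lhs => rw [H.as_sum_range_C_mul_X_pow]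
  rw [Finset.sum_congr rfl h1, Finset.sum_comm]
  apply Finset.sum_congr rfl
  intro k _
  rw [← Finset.sum_mul]
  congr 1
  rw [bc, map_sum]

/-- a polynomial positive on `[0,1]` has positive Bernstein coefficients -/
lemma bernstein_pos (H : ℚ[X]) (hpos : ∀ t ∈ Set.Icc (0 : ℝ) 1, 0 < aeval t H) :
    ∃ n, H.natDegree ≤ n ∧ ∀ k ∈ Finset.range (n + 1), 0 < bc H n k := by
  obtain ⟨t0, ht0, hmin⟩ := isCompact_Icc.exists_isMinOn (Set.nonempty_Icc.2 zero_le_one)
    (f := fun t : ℝ => aeval t H) (H.continuous_aeval.continuousOn)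
  set m := aeval t0 H with hm
  have hm0 : 0 < m := hpos t0 ht0
  set d := H.natDegree with hd
  set A : ℝ := ∑ j ∈ Finset.range (d + 1), |(H.coeff j : ℝ)| * (d * d) with hA
  have hA0 : 0 ≤ A := Finset.sum_nonneg fun j _ => by positivity
  obtain ⟨n, hn⟩ := exists_nat_gt ((A + 1) / m + d)
  have hdn' : (d : ℝ) < n := by
    have : 0 ≤ (A + 1) / m := by positivity
    linarith
  have hdn : d < n := by exact_mod_cast hdn'
  have hnd : (0 : ℝ) < (n : ℝ) - d := by linarith
  have hAm : A / ((n : ℝ) - d) < m := by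
    rw [div_lt_iff₀ hnd]
    have : (A + 1) / m < (n : ℝ) - d := by linarith
    rw [div_lt_iff₀ hm0] at this
    linarith
  refine ⟨n, hdn.le, fun k hk => ?_⟩
  have hkn : k ≤ n := by rw [Finset.mem_range] at hk; omega
  have hn0 : (0 : ℝ) < n := by
    have : (0 : ℝ) ≤ d := by positivity
    linarith
  have hmem : (k : ℝ) / n ∈ Set.Icc (0 : ℝ) 1 := by
    constructor
    · positivity
    · rw [div_le_one hn0]; exact_mod_cast hkn
  have h1 : m ≤ aeval ((k : ℝ) / n) H := hmin hmem
  have h2 : aeval ((k : ℝ) / n) H = ∑ j ∈ Finset.range (d + 1), (H.coeff j : ℝ) * ((k : ℝ) / n) ^ j := by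
    rw [aeval_eq_sum_range]
    apply Finset.sum_congr rfl
    intro j _
    rw [Algebra.smul_def]
    rfl
  have h3 : ((bc H n k : ℚ) : ℝ) = ∑ j ∈ Finset.range (d + 1),
      (H.coeff j : ℝ) * ((k.choose j : ℝ) / (n.choose j)) := by
    rw [bc]
    push_cast
    rfl
  have h4 : |((bc H n k : ℚ) : ℝ) - aeval ((k : ℝ) / n) H| ≤ A / ((n : ℝ) - d) := by
    rw [h2, h3, ← Finset.sum_sub_distrib, hA, Finset.sum_div]
    refine (Finset.abs_sum_le_sum_abs _ _).trans ?_
    apply Finset.sum_le_sum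
    intro j hj
    rw [← mul_sub, abs_mul, mul_div_assoc]
    apply mul_le_mul_of_nonneg_left _ (abs_nonneg _)
    have hjd : j ≤ d := by rw [Finset.mem_range] at hj; omega
    refine (choose_ratio hdn hkn j hjd).trans ?_
    have : (j : ℝ) ≤ d := by exact_mod_cast hjd
    gcongr
  have h5 := (abs_le.1 h4).1
  have h6 : (0 : ℝ) < ((bc H n k : ℚ) : ℝ) := by linarith
  exact_mod_cast h6

/-- Bernstein's theorem on `[-N, N]`. -/
theorem bernstein_cert (T : Subsemiring ℚ[X]) (hC : ∀ a : ℚ, 0 ≤ a → C a ∈ T) {N : ℚ} (hN : 0 < N)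
    (h1 : C N + X ∈ T) (h2 : C N - X ∈ T) (h : ℚ[X])
    (hpos : ∀ t : ℝ, t ∈ Set.Icc (-(N : ℝ)) N → 0 < aeval t h) : h ∈ T := by
  set L : ℚ[X] := C (2 * N) * X - C N with hL
  set u : ℚ[X] := C (1 / (2 * N)) * (C N + X) with hu
  have hLu : L.comp u = X := by
    rw [hL, hu]
    simp only [sub_comp, mul_comp, C_comp, X_comp]
    rw [← mul_assoc, ← C_mul]
    have : 2 * N * (1 / (2 * N)) = 1 := by field_simp
    rw [this, C_1, one_mul]
    ring
  have hN' : (0 : ℝ) < N := by exact_mod_cast hN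
  obtain ⟨n, hn, hb⟩ := bernstein_pos (h.comp L) (by
    intro t ht
    rw [aeval_comp]
    apply hpos
    have : aeval t L = 2 * N * t - N := by
      rw [hL]; simp
    rw [this]
    constructor <;> nlinarith [ht.1, ht.2])
  have hrep := congrArg (fun p => p.comp u) (bernstein_repr (h.comp L) hn)
  simp only [comp_assoc, hLu, comp_X] at hrep
  rw [hrep]
  rw [Polynomial.sum_comp]
  have hu1 : u ∈ T := T.mul_mem (hC _ (by positivity)) h1
  have hu2 : 1 - u ∈ T := by
    have : 1 - u = C (1 / (2 * N)) * (C N - X) := by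
      rw [hu]
      have h3 : (1 : ℚ[X]) = C (1 / (2 * N)) * C (2 * N) := by
        rw [← C_mul, ← C_1]
        congr 1
        field_simp
      rw [h3, ← mul_sub]
      congr 1
      rw [show (2 * N : ℚ) = N + N by ring, C_add]
      ring
    rw [this]
    exact T.mul_mem (hC _ (by positivity)) h2
  apply T.sum_mem
  intro k hk
  simp only [mul_comp, C_comp, pow_comp, X_comp, sub_comp, one_comp, natCast_comp]
  refine T.mul_mem (hC _ (hb k hk).le) (T.mul_mem (T.mul_mem ?_ (T.pow_mem hu1 _))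
    (T.pow_mem hu2 _))
  exact natCast_mem T _

end Pool.Agent.R950.PS
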