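import Pool.Agent.R950.PSA

/-! Strictly positive polynomials on compact subsets of the line. -/

open Polynomial

namespace Pool.Agent.R950.PS

/-- rational polynomials are dense in real polynomials, uniformly on `[-B,B]` -/
lemma rat_approx (p : ℝ[X]) (B : ℝ) {ε : ℝ} (hε : 0 < ε) :
    ∃ q : ℚ[X], ∀ t ∈ Set.Icc (-B) B, |aeval t q - p.eval t| < ε := by
  induction p using Polynomial.induction_on' generalizing ε with
  | add p1 p2 h1 h2 =>
    obtain ⟨q1, hq1⟩ := h1 (half_pos hε)
    obtain ⟨q2, hq2⟩ := h2 (half_pos hε)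
    refine ⟨q1 + q2, fun t ht => ?_⟩
    have e : aeval t (q1 + q2) - (p1 + p2).eval t =
        (aeval t q1 - p1.eval t) + (aeval t q2 - p2.eval t) := by
      rw [map_add, eval_add]; ring
    rw [e]
    refine (abs_add_le _ _).trans_lt ?_
    have := hq1 t ht
    have := hq2 t ht
    linarith
  | monomial n a =>
    have hD : 0 < |B| ^ n + 1 := by positivity
    obtain ⟨c, hc1, hc2⟩ := exists_rat_btwn (show a - ε / (|B| ^ n + 1) < a by
      have : 0 < ε / (|B| ^ n + 1) := by positivity
      linarith)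
    refine ⟨monomial n c, fun t ht => ?_⟩
    rw [eval_monomial, aeval_monomial]
    have e : (algebraMap ℚ ℝ) c * t ^ n - a * t ^ n = (c - a) * t ^ n := by
      rw [← sub_mul]; rfl
    rw [e, abs_mul, abs_pow]
    have ht' : |t| ≤ |B| := (abs_le.2 ht).trans (le_abs_self B)
    have h3 : |t| ^ n ≤ |B| ^ n := pow_le_pow_left₀ (abs_nonneg _) ht' n
    have h4 : |(c : ℝ) - a| ≤ ε / (|B| ^ n + 1) := by
      rw [abs_le]; constructor <;> linarith
    calc |(c : ℝ) - a| * |t| ^ n ≤ ε / (|B| ^ n + 1) * |B| ^ n := by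
          apply mul_le_mul h4 h3 (by positivity) (by positivity)
      _ < ε / (|B| ^ n + 1) * (|B| ^ n + 1) := by
          apply mul_lt_mul_of_pos_left _ (by positivity)
          linarith
      _ = ε := by field_simp

/-- Weierstrass with rational coefficients -/
lemma weierstrass (f : ℝ → ℝ) (B : ℝ) (hf : ContinuousOn f (Set.Icc (-B) B)) {ε : ℝ} (hε : 0 < ε) :
    ∃ q : ℚ[X], ∀ t ∈ Set.Icc (-B) B, |aeval t q - f t| < ε := by
  obtain ⟨p, hp⟩ := exists_polynomial_near_of_continuousOn (-B) B f hf (ε / 2) (half_pos hε)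
  obtain ⟨q, hq⟩ := rat_approx p B (half_pos hε)
  refine ⟨q, fun t ht => ?_⟩
  have e : aeval t q - f t = (aeval t q - p.eval t) + (p.eval t - f t) := by ring
  rw [e]
  refine (abs_add_le _ _).trans_lt ?_
  have := hp t ht
  have := hq t ht
  linarith

/-- Strictly positive polynomials on `{t ∈ [-N,N] : g(t) ≥ 0 for g ∈ S}` belong to every semiring which
contains the nonnegative constants, the squares, `S` and `N ± X`. -/
theorem strict_cert (T : Subsemiring ℚ[X]) (hC : ∀ a : ℚ, 0 ≤ a → C a ∈ T)
    (hsq : ∀ p : ℚ[X], p ^ 2 ∈ T) {N : ℚ} (hN : 0 < N)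
    (h1 : C N + X ∈ T) (h2 : C N - X ∈ T) (S : Finset ℚ[X]) (hS : ∀ g ∈ S, g ∈ T) (f : ℚ[X])
    (hpos : ∀ t : ℝ, t ∈ Set.Icc (-(N : ℝ)) N → (∀ g ∈ S, 0 ≤ aeval t g) → 0 < aeval t f) :
    f ∈ T := by
  classical
  set B : ℝ := (N : ℝ) with hB
  have hB0 : 0 < B := by rw [hB]; exact_mod_cast hN
  have hne : (Set.Icc (-B) B).Nonempty := Set.nonempty_Icc.2 (by linarith)
  -- the penalty function
  set pen : ℝ → ℝ := fun t => ∑ g ∈ S, (max (-(aeval t g)) 0) ^ 2 with hpen
  have hpenc : Continuous pen := by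
    apply continuous_finsetSum
    intro g _
    have : Continuous fun t : ℝ => aeval t g := g.continuous_aeval
    fun_prop
  have hpen0 : ∀ t, 0 ≤ pen t := fun t => Finset.sum_nonneg fun g _ => by positivity
  have hfc : Continuous fun t : ℝ => aeval t f := f.continuous_aeval
  -- a constant `M` with `f + M pen > 0`
  obtain ⟨M, hM0, hM⟩ : ∃ M : ℝ, 0 ≤ M ∧ ∀ t ∈ Set.Icc (-B) B, 0 < aeval t f + M * pen t := by
    set A : Set ℝ := Set.Icc (-B) B ∩ {t | aeval t f ≤ 0} with hA
    have hAc : IsCompact A := isCompact_Icc.inter_right (isClosed_le hfc continuous_const)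
    rcases A.eq_empty_or_nonempty with hAe | hAne
    · refine ⟨0, le_refl _, fun t ht => ?_⟩
      rw [zero_mul, add_zero]
      by_contra hcon
      have : t ∈ A := ⟨ht, not_lt.1 hcon⟩
      rw [hAe] at this
      exact this
    · obtain ⟨t1, ht1, hmin⟩ := hAc.exists_isMinOn hAne hpenc.continuousOn
      obtain ⟨t2, ht2, hmin2⟩ := isCompact_Icc.exists_isMinOn hne hfc.continuousOn
      have hd : 0 < pen t1 := by
        rcases (hpen0 t1).eq_or_lt with h | h
        · exfalso
          have h3 : ∀ g ∈ S, (max (-(aeval t1 g)) 0) ^ 2 = 0 :=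
            (Finset.sum_eq_zero_iff_of_nonneg (fun g _ => by positivity)).1 h.symm
          have h4 : 0 < aeval t1 f := by
            apply hpos t1 ht1.1
            intro g hg
            have := pow_eq_zero_iff (two_ne_zero) |>.1 (h3 g hg)
            have h5 := le_max_left (-(aeval t1 g)) 0
            rw [this] at h5
            linarith
          exact absurd ht1.2 (not_le.2 h4)
        · exact h
      refine ⟨(|aeval t2 f| + 1) / pen t1, by positivity, fun t ht => ?_⟩
      by_cases htA : aeval t f ≤ 0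
      · have h6 : pen t1 ≤ pen t := hmin ⟨ht, htA⟩
        have h7 : aeval t2 f ≤ aeval t f := hmin2 ht
        have h8 : |aeval t2 f| + 1 ≤ (|aeval t2 f| + 1) / pen t1 * pen t := by
          rw [div_mul_eq_mul_div, le_div_iff₀ hd]
          apply mul_le_mul_of_nonneg_left h6 (by positivity)
        have h9 := neg_abs_le (aeval t2 f)
        linarith
      · have : 0 ≤ (|aeval t2 f| + 1) / pen t1 * pen t := by
          have := hpen0 t
          positivity
        linarith [not_le.1 htA]
  -- minimum of `f + M pen`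
  obtain ⟨t3, ht3, hmin3⟩ := isCompact_Icc.exists_isMinOn hne
    (f := fun t : ℝ => aeval t f + M * pen t) (by fun_prop)
  set m := aeval t3 f + M * pen t3 with hm
  have hm0 : 0 < m := hM t3 ht3
  -- bound for all |g| on [-B,B]
  obtain ⟨G, hG0, hG⟩ : ∃ G : ℝ, 0 < G ∧ ∀ g ∈ S, ∀ t ∈ Set.Icc (-B) B, |aeval t g| ≤ G := by
    have : ∀ g : ℚ[X], ∃ c : ℝ, ∀ t ∈ Set.Icc (-B) B, |aeval t g| ≤ c := by
      intro g
      obtain ⟨c, hc⟩ := isCompact_Icc.exists_bound_of_continuousOn
        (f := fun t : ℝ => aeval t g) (s := Set.Icc (-B) B) (g.continuous_aeval.continuousOn)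
      exact ⟨c, fun t ht => by simpa using hc t ht⟩
    choose c hc using this
    refine ⟨∑ g ∈ S, |c g| + 1, by positivity, fun g hg t ht => ?_⟩
    have h10 : |c g| ≤ ∑ g ∈ S, |c g| :=
      Finset.single_le_sum (f := fun g => |c g|) (fun _ _ => abs_nonneg _) hg
    have := hc g t ht
    have := le_abs_self (c g)
    linarith
  -- square roots
  set ψ : ℚ[X] → ℝ → ℝ := fun g t => Real.sqrt (M * max (-(aeval t g)) 0) with hψ
  have hψc : ∀ g, Continuous (ψ g) := by
    intro g
    have : Continuous fun t : ℝ => aeval t g := g.continuous_aeval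
    have h11 : Continuous fun t : ℝ => M * max (-(aeval t g)) 0 := by fun_prop
    exact Real.continuous_sqrt.comp h11
  have hψsq : ∀ g t, (ψ g t) ^ 2 = M * max (-(aeval t g)) 0 := by
    intro g t
    rw [hψ]
    exact Real.sq_sqrt (by positivity)
  have hψb : ∀ g ∈ S, ∀ t ∈ Set.Icc (-B) B, |ψ g t| ≤ M * G + 1 := by
    intro g hg t ht
    have h12 : (ψ g t) ^ 2 ≤ M * G := by
      rw [hψsq]
      apply mul_le_mul_of_nonneg_left _ hM0
      apply max_le _ hG0.le
      have := hG g hg t ht
      have := neg_abs_le (aeval t g)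
      linarith
    have h13 : 0 ≤ M * G := by positivity
    rw [← sq_abs] at h12
    nlinarith [abs_nonneg (ψ g t)]
  set D : ℝ := 2 * (M * G + 1) + 1 with hD
  have hMG : 0 ≤ M * G := by positivity
  have hD0 : 0 < D := by positivity
  set δ : ℝ := min 1 (m / (2 * (S.card + 1) * (D * G))) with hδ
  have hδ0 : 0 < δ := by positivity
  choose q hq using fun g : ℚ[X] => weierstrass (ψ g) B (hψc g).continuousOn hδ0
  -- the strictly positive polynomial on the interval
  have hmain : f - ∑ g ∈ S, (q g) ^ 2 * g ∈ T := by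
    apply bernstein_cert T hC hN h1 h2
    intro t ht
    have e1 : aeval t (f - ∑ g ∈ S, (q g) ^ 2 * g) =
        (aeval t f + M * pen t) - ∑ g ∈ S, ((aeval t (q g)) ^ 2 - (ψ g t) ^ 2) * aeval t g := by
      have e2 : M * pen t = - ∑ g ∈ S, (ψ g t) ^ 2 * aeval t g := by
        rw [hpen]
        simp only
        rw [Finset.mul_sum, ← Finset.sum_neg_distrib]
        apply Finset.sum_congr rfl
        intro g _
        rw [hψsq]
        rcases le_total (-(aeval t g)) 0 with h | h
        · rw [max_eq_right h]; ring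
        · rw [max_eq_left h]; ring
      rw [e2, map_sub, map_sum]
      simp only [map_mul, map_pow, sub_mul, Finset.sum_sub_distrib]
      ring
    rw [e1]
    have h14 : m ≤ aeval t f + M * pen t := hmin3 ht
    have h15 : |∑ g ∈ S, ((aeval t (q g)) ^ 2 - (ψ g t) ^ 2) * aeval t g| ≤ S.card * (δ * D * G) := by
      refine (Finset.abs_sum_le_sum_abs _ _).trans ?_
      have : ∀ g ∈ S, |((aeval t (q g)) ^ 2 - (ψ g t) ^ 2) * aeval t g| ≤ δ * D * G := by
        intro g hg
        have a1 : |aeval t (q g) - ψ g t| ≤ δ := (hq g t ht).le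
        have a2 := hψb g hg t ht
        have a3 : |aeval t (q g) + ψ g t| ≤ D := by
          have e3 : aeval t (q g) + ψ g t = (aeval t (q g) - ψ g t) + 2 * ψ g t := by ring
          rw [e3]
          refine (abs_add_le _ _).trans ?_
          rw [abs_mul, abs_two]
          have : δ ≤ 1 := min_le_left _ _
          linarith
        have e4 : (aeval t (q g)) ^ 2 - (ψ g t) ^ 2 =
          (aeval t (q g) - ψ g t) * (aeval t (q g) + ψ g t) := by ring
        rw [e4, abs_mul, abs_mul]
        apply mul_le_mul (mul_le_mul a1 a3 (abs_nonneg _) hδ0.le) (hG g hg t ht) (abs_nonneg _)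
          (by positivity)
      refine (Finset.sum_le_sum this).trans ?_
      rw [Finset.sum_const, nsmul_eq_mul]
    have h16 : (S.card : ℝ) * (δ * D * G) < m := by
      have h17 : δ ≤ m / (2 * (S.card + 1) * (D * G)) := min_le_right _ _
      have h18 : δ * (2 * (S.card + 1) * (D * G)) ≤ m := by
        rwa [le_div_iff₀ (by positivity)] at h17
      have h19 : 0 < δ * (D * G) := by positivity
      have h20 : (0 : ℝ) ≤ (S.card : ℝ) := by positivity
      nlinarith
    have h21 := (abs_le.1 h15).2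
    linarith
  have hfin : f = (f - ∑ g ∈ S, (q g) ^ 2 * g) + ∑ g ∈ S, (q g) ^ 2 * g := by ring
  rw [hfin]
  exact T.add_mem hmain (T.sum_mem fun g hg => T.mul_mem (hsq _) (hS g hg))

end Pool.Agent.R950.PS
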