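import Pool.Agent.R950.PSB

/-! Preorderings of `ℚ[X]` and saturation for compact intervals. -/

open Polynomial

noncomputable section

namespace Pool.Agent.R950.PS

/-- `Σ`: finite sums `∑ a_j h_j²` with `a_j ∈ ℚ`, `a_j ≥ 0`, `h_j ∈ ℚ[x]`. -/
def Sos : AddSubmonoid ℚ[X] :=
  AddSubmonoid.closure {p | ∃ (a : ℚ) (h : ℚ[X]), 0 ≤ a ∧ p = C a * h ^ 2}

/-- The preordering `T_S` generated by the finite set `S`: the sums
`∑_{e ⊆ S} σ_e ∏_{g ∈ e} g` with all `σ_e ∈ Σ`. -/
def Preord (S : Finset ℚ[X]) : Set ℚ[X] :=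
  {f | ∃ σ : Finset ℚ[X] → ℚ[X], (∀ e, σ e ∈ Sos) ∧ f = ∑ e ∈ S.powerset, σ e * ∏ g ∈ e, g}

/-- `Pos(K)`: the polynomials with rational coefficients which are nonnegative on `K ⊆ ℝ`. -/
def Pos (K : Set ℝ) : Set ℚ[X] := {f | ∀ t ∈ K, 0 ≤ aeval t f}

lemma sos_mul {p q : ℚ[X]} (hp : p ∈ Sos) (hq : q ∈ Sos) : p * q ∈ Sos := by
  unfold Sos at *
  induction hp using AddSubmonoid.closure_induction with
  | mem x hx =>
    obtain ⟨a, h, ha, rfl⟩ := hx
    induction hq using AddSubmonoid.closure_induction with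
    | mem y hy =>
      obtain ⟨b, k, hb, rfl⟩ := hy
      apply AddSubmonoid.subset_closure
      exact ⟨a * b, h * k, mul_nonneg ha hb, by rw [C_mul]; ring⟩
    | zero => rw [mul_zero]; exact AddSubmonoid.zero_mem _
    | add y z _ _ ihy ihz => rw [mul_add]; exact AddSubmonoid.add_mem _ ihy ihz
  | zero => rw [zero_mul]; exact AddSubmonoid.zero_mem _
  | add y z _ _ ihy ihz => rw [add_mul]; exact AddSubmonoid.add_mem _ ihy ihz

lemma sq_mem (p : ℚ[X]) : p ^ 2 ∈ Sos :=
  AddSubmonoid.subset_closure ⟨1, p, zero_le_one, by simp⟩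

lemma const_mem {a : ℚ} (ha : 0 ≤ a) : C a ∈ Sos :=
  AddSubmonoid.subset_closure ⟨a, 1, ha, by simp⟩

lemma one_mem : (1 : ℚ[X]) ∈ Sos := by
  have := sq_mem (1 : ℚ[X]); simpa using this

lemma preord_zero (S : Finset ℚ[X]) : (0 : ℚ[X]) ∈ Preord S :=
  ⟨fun _ => 0, fun _ => Sos.zero_mem, by simp⟩

lemma preord_add {S : Finset ℚ[X]} {f g : ℚ[X]} (hf : f ∈ Preord S) (hg : g ∈ Preord S) :
    f + g ∈ Preord S := by
  obtain ⟨σ, hσ, rfl⟩ := hf
  obtain ⟨τ, hτ, rfl⟩ := hg
  refine ⟨fun e => σ e + τ e, fun e => Sos.add_mem (hσ e) (hτ e), ?_⟩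
  rw [← Finset.sum_add_distrib]
  apply Finset.sum_congr rfl
  intro e _
  ring

lemma preord_term {S e : Finset ℚ[X]} (he : e ⊆ S) {σ : ℚ[X]} (hσ : σ ∈ Sos) :
    σ * ∏ g ∈ e, g ∈ Preord S := by
  classical
  refine ⟨fun e' => if e' = e then σ else 0, fun e' => ?_, ?_⟩
  · dsimp only
    split_ifs
    · exact hσ
    · exact Sos.zero_mem
  · rw [Finset.sum_eq_single e]
    · simp
    · intro b _ hb; simp [hb]
    · intro h; exact absurd (Finset.mem_powerset.2 he) h

lemma preord_sum {S : Finset ℚ[X]} {ι : Type} (s : Finset ι) (F : ι → ℚ[X])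
    (h : ∀ i ∈ s, F i ∈ Preord S) : ∑ i ∈ s, F i ∈ Preord S := by
  classical
  induction s using Finset.induction_on with
  | empty => simpa using preord_zero S
  | insert a s ha ih =>
    rw [Finset.sum_insert ha]
    exact preord_add (h a (Finset.mem_insert_self _ _))
      (ih fun i hi => h i (Finset.mem_insert_of_mem hi))

lemma preord_mul {S : Finset ℚ[X]} {f g : ℚ[X]} (hf : f ∈ Preord S) (hg : g ∈ Preord S) :
    f * g ∈ Preord S := by
  classical
  obtain ⟨σ, hσ, rfl⟩ := hf
  obtain ⟨τ, hτ, rfl⟩ := hg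
  rw [Finset.sum_mul_sum]
  apply preord_sum
  intro e he
  apply preord_sum
  intro e' he'
  rw [Finset.mem_powerset] at he he'
  have key : (∏ g ∈ e, g) * (∏ g ∈ e', g) =
      (∏ g ∈ e ∩ e', g) ^ 2 * ∏ g ∈ symmDiff e e', g := by
    rw [← Finset.prod_union_inter]
    have h1 : e ∪ e' = symmDiff e e' ∪ (e ∩ e') := by
      ext x; simp only [Finset.mem_union, Finset.mem_symmDiff, Finset.mem_inter]; tauto
    have h2 : Disjoint (symmDiff e e') (e ∩ e') := by
      rw [Finset.disjoint_left]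
      intro x hx
      simp only [Finset.mem_symmDiff, Finset.mem_inter] at *
      tauto
    rw [h1, Finset.prod_union h2]
    ring
  have e1 : σ e * (∏ g ∈ e, g) * (τ e' * ∏ g ∈ e', g) =
      (σ e * τ e' * (∏ g ∈ e ∩ e', g) ^ 2) * ∏ g ∈ symmDiff e e', g := by
    calc _ = σ e * τ e' * ((∏ g ∈ e, g) * (∏ g ∈ e', g)) := by ring
      _ = _ := by rw [key]; ring
  rw [e1]
  apply preord_term
  · intro x hx
    simp only [Finset.mem_symmDiff] at hx
    rcases hx with h | h
    · exact he h.1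
    · exact he' h.1
  · exact sos_mul (sos_mul (hσ e) (hτ e')) (sq_mem _)

lemma sos_preord {S : Finset ℚ[X]} {σ : ℚ[X]} (h : σ ∈ Sos) : σ ∈ Preord S := by
  have := preord_term (Finset.empty_subset S) h
  simpa using this

lemma gen_preord {S : Finset ℚ[X]} {g : ℚ[X]} (h : g ∈ S) : g ∈ Preord S := by
  have := preord_term (Finset.singleton_subset_iff.2 h) one_mem
  simpa using this

/-- the preordering as a subsemiring -/
def preordSR (S : Finset ℚ[X]) : Subsemiring ℚ[X] where
  carrier := Preord S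
  mul_mem' := preord_mul
  one_mem' := sos_preord one_mem
  add_mem' := preord_add
  zero_mem' := preord_zero S

lemma sos_nonneg {σ : ℚ[X]} (h : σ ∈ Sos) (t : ℝ) : 0 ≤ aeval t σ := by
  unfold Sos at h
  induction h using AddSubmonoid.closure_induction with
  | mem x hx =>
    obtain ⟨a, h, ha, rfl⟩ := hx
    rw [map_mul, map_pow, aeval_C]
    have : (0 : ℝ) ≤ algebraMap ℚ ℝ a := by
      have : (0 : ℝ) ≤ (a : ℝ) := by exact_mod_cast ha
      exact this
    positivity
  | zero => simp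
  | add y z _ _ ihy ihz => rw [map_add]; linarith

lemma preord_le_pos {S : Finset ℚ[X]} {K : Set ℝ} (hK : ∀ t ∈ K, ∀ g ∈ S, 0 ≤ aeval t g) :
    Preord S ⊆ Pos K := by
  rintro f ⟨σ, hσ, rfl⟩ t ht
  rw [map_sum]
  apply Finset.sum_nonneg
  intro e he
  rw [map_mul, map_prod]
  rw [Finset.mem_powerset] at he
  exact mul_nonneg (sos_nonneg (hσ e) t) (Finset.prod_nonneg fun g hg => hK t ht g (he hg))

/-- cancellation of a factor which is nonnegative on the open interval -/
lemma pos_cancel {a b : ℝ} (hab : a < b) {g q : ℚ[X]} (hg0 : g ≠ 0)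
    (hg : ∀ t ∈ Set.Ioo a b, 0 ≤ aeval t g) (h : g * q ∈ Pos (Set.Icc a b)) :
    q ∈ Pos (Set.Icc a b) := by
  intro t ht
  by_contra hneg
  rw [not_le] at hneg
  have hc : Continuous fun t : ℝ => aeval t q := q.continuous_aeval
  have hopen : IsOpen {s : ℝ | aeval s q < 0} := isOpen_lt hc continuous_const
  -- infinitely many points of `Ioo a b` with `q < 0`
  have hcl : t ∈ closure (Set.Ioo a b) := by rw [closure_Ioo hab.ne]; exact ht
  obtain ⟨s, hs1, hs2⟩ := mem_closure_iff.1 hcl _ hopen hneg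
  have hopen2 : IsOpen ({s : ℝ | aeval s q < 0} ∩ Set.Ioo a b) := hopen.inter isOpen_Ioo
  have hinf : ({s : ℝ | aeval s q < 0} ∩ Set.Ioo a b).Infinite :=
    infinite_of_mem_nhds s (hopen2.mem_nhds ⟨hs1, hs2⟩)
  have hfin : {s : ℝ | aeval s g = 0}.Finite := by
    have h1 : (g.map (algebraMap ℚ ℝ)) ≠ 0 := by
      rwa [Ne, Polynomial.map_eq_zero]
    refine (Polynomial.finite_setOfPred_isRoot h1).subset ?_
    intro s hs
    show (g.map (algebraMap ℚ ℝ)).eval s = 0
    rw [eval_map_algebraMap]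
    exact hs
  obtain ⟨s', hs', hs'g⟩ := hinf.exists_notMem_finite hfin
  have h3 : 0 < aeval s' g := lt_of_le_of_ne (hg s' hs'.2) (Ne.symm hs'g)
  have h4 := h s' (Set.Ioo_subset_Icc_self hs'.2)
  rw [map_mul] at h4
  have h5 : aeval s' q < 0 := hs'.1
  nlinarith

/-- Saturation: every polynomial nonnegative on `[a,b]` is in `T`. -/
theorem saturated (T : Subsemiring ℚ[X]) (hC : ∀ a : ℚ, 0 ≤ a → C a ∈ T)
    (hsq : ∀ p : ℚ[X], p ^ 2 ∈ T) {N : ℚ} (hN : 0 < N)
    (h1 : C N + X ∈ T) (h2 : C N - X ∈ T) (S : Finset ℚ[X]) (hS : ∀ g ∈ S, g ∈ T)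
    {a b : ℝ} (hab : a < b)
    (hK : ∀ t : ℝ, t ∈ Set.Icc (-(N : ℝ)) N → (∀ g ∈ S, 0 ≤ aeval t g) → t ∈ Set.Icc a b)
    (hg : ∀ g ∈ S, ∀ t ∈ Set.Icc a b, 0 ≤ aeval t g)
    (hend : ∀ c : ℝ, c = a ∨ c = b → ∃ g ∈ S, 0 < g.natDegree ∧
      ∀ f : ℚ[X], aeval c f = 0 → g ∣ f) :
    Pos (Set.Icc a b) ⊆ T := by
  suffices H : ∀ n : ℕ, ∀ f ∈ Pos (Set.Icc a b), f.natDegree = n → f ∈ T from
    fun f hf => H _ f hf rfl
  intro n
  induction n using Nat.strong_induction_on with
  | _ n ih =>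
    intro f hf hn
    by_cases hf0 : f = 0
    · rw [hf0]; exact T.zero_mem
    by_cases hpos : ∀ t ∈ Set.Icc a b, 0 < aeval t f
    · exact strict_cert T hC hsq hN h1 h2 S hS f fun t ht hgt => hpos t (hK t ht hgt)
    · push Not at hpos
      obtain ⟨c, hc, hfc⟩ := hpos
      have hfc0 : aeval c f = 0 := le_antisymm hfc (hf c hc)
      by_cases hcab : c = a ∨ c = b
      · obtain ⟨g, hgS, hgdeg, hgdvd⟩ := hend c hcab
        obtain ⟨q, hq⟩ := hgdvd f hfc0
        have hg0 : g ≠ 0 := by rintro rfl; simp at hgdeg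
        have hq0 : q ≠ 0 := by rintro rfl; rw [mul_zero] at hq; exact hf0 hq
        have hdeg : q.natDegree < n := by
          rw [← hn, hq, natDegree_mul hg0 hq0]; omega
        have hqpos : q ∈ Pos (Set.Icc a b) := by
          apply pos_cancel hab hg0 (fun t ht => hg g hgS t (Set.Ioo_subset_Icc_self ht))
          rw [← hq]; exact hf
        rw [hq]
        exact T.mul_mem (hS g hgS) (ih _ hdeg q hqpos rfl)
      · -- interior zero
        push Not at hcab
        have hcI : c ∈ Set.Ioo a b :=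
          ⟨lt_of_le_of_ne hc.1 (Ne.symm hcab.1), lt_of_le_of_ne hc.2 hcab.2⟩
        have halg : IsIntegral ℚ c := (show IsAlgebraic ℚ c from ⟨f, hf0, hfc0⟩).isIntegral
        set p := minpoly ℚ c with hp
        obtain ⟨q, hq⟩ := minpoly.dvd ℚ c hfc0
        have hirr := minpoly.irreducible halg
        have hp0 : p ≠ 0 := minpoly.ne_zero halg
        -- the derivative vanishes
        have hder : aeval c (derivative f) = 0 := by
          have hmin : IsLocalMin (fun t : ℝ => (f.map (algebraMap ℚ ℝ)).eval t) c := by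
            have : ∀ᶠ t in nhds c, t ∈ Set.Ioo a b := isOpen_Ioo.mem_nhds hcI
            filter_upwards [this] with t ht
            rw [eval_map_algebraMap, eval_map_algebraMap, hfc0]
            exact hf t (Set.Ioo_subset_Icc_self ht)
          have h3 := hmin.deriv_eq_zero
          rw [Polynomial.deriv, derivative_map, eval_map_algebraMap] at h3
          exact h3
        have hq' : aeval c q = 0 := by
          have e1 : derivative f = derivative p * q + p * derivative q := by
            rw [hq, derivative_mul]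
          rw [e1, map_add, map_mul, map_mul, minpoly.aeval, zero_mul, add_zero] at hder
          rcases mul_eq_zero.1 hder with h | h
          · exfalso
            exact (hirr.separable.aeval_derivative_ne_zero (minpoly.aeval ℚ c)) h
          · exact h
        obtain ⟨r, hr⟩ := minpoly.dvd ℚ c hq'
        have hfr : f = p ^ 2 * r := by rw [hq, hr]; ring
        have hr0 : r ≠ 0 := by rintro rfl; rw [mul_zero] at hfr; exact hf0 hfr
        have hpdeg : 0 < p.natDegree := minpoly.natDegree_pos halg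
        have hdeg : r.natDegree < n := by
          rw [← hn, hfr, natDegree_mul (pow_ne_zero 2 hp0) hr0, natDegree_pow]; omega
        have hrpos : r ∈ Pos (Set.Icc a b) := by
          apply pos_cancel hab (pow_ne_zero 2 hp0)
          · intro t _
            rw [map_pow]; positivity
          · rw [← hfr]; exact hf
        rw [hfr]
        exact T.mul_mem (hsq p) (ih _ hdeg r hrpos rfl)

/-- Eisenstein: `X^n - p` is irreducible over `ℚ`. -/
lemma irred {n p : ℕ} (hn : 0 < n) (hp : p.Prime) : Irreducible (X ^ n - C (p : ℚ) : ℚ[X]) := by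
  have h1 : Irreducible (X ^ n - C (p : ℤ) : ℤ[X]) := by
    have hmonic : (X ^ n - C (p : ℤ) : ℤ[X]).Monic := monic_X_pow_sub_C _ hn.ne'
    have hdeg : (X ^ n - C (p : ℤ) : ℤ[X]).natDegree = n := natDegree_X_pow_sub_C
    have hprime : (Ideal.span {(p : ℤ)}).IsPrime := by
      rw [Ideal.span_singleton_prime (by exact_mod_cast hp.ne_zero)]
      exact Nat.prime_iff_prime_int.1 hp
    apply Polynomial.IsEisensteinAt.irreducible (𝓟 := Ideal.span {(p : ℤ)}) _ hprime
      hmonic.isPrimitive (by rw [hdeg]; exact hn)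
    constructor
    · rw [hmonic.leadingCoeff]
      intro h
      rw [Ideal.mem_span_singleton] at h
      have := Int.natAbs_dvd_natAbs.2 h
      simp at this
      exact hp.one_lt.ne' this
    · intro m hm
      rw [hdeg] at hm
      rw [coeff_sub, coeff_X_pow, coeff_C, if_neg hm.ne]
      split_ifs
      · rw [zero_sub, Ideal.neg_mem_iff]; exact Ideal.mem_span_singleton_self _
      · simp
    · rw [coeff_sub, coeff_X_pow, coeff_C, if_neg hn.ne, if_pos rfl, zero_sub, Ideal.neg_mem_iff,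
        Ideal.span_singleton_pow, Ideal.mem_span_singleton]
      intro h
      have h2 : p ^ 2 ∣ p := by exact_mod_cast h
      have h3 := Nat.le_of_dvd hp.pos h2
      have := hp.one_lt
      nlinarith
  have h2 := (Polynomial.Monic.irreducible_iff_irreducible_map_fraction_map (K := ℚ)
    (monic_X_pow_sub_C (p : ℤ) hn.ne')).1 h1
  simpa using h2

/-- divisibility of polynomials vanishing at a root of `X^n - p` -/
lemma dvd_of_root {n p : ℕ} (hn : 0 < n) (hp : p.Prime) {c : ℝ} (hc : c ^ n = p) (f : ℚ[X])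
    (hf : aeval c f = 0) : (X ^ n - C (p : ℚ) : ℚ[X]) ∣ f := by
  have h1 : minpoly ℚ c = X ^ n - C (p : ℚ) := by
    symm
    apply minpoly.eq_of_irreducible_of_monic (irred hn hp)
    · rw [map_sub, map_pow, aeval_X, aeval_C, hc]; simp
    · exact monic_X_pow_sub_C _ hn.ne'
  rw [← h1]
  exact minpoly.dvd ℚ c hf

end Pool.Agent.R950.PS
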