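import Mathlib

/-! Definitions: Cohen–Macaulay local rings and canonical modules, via `Ext`. -/

open CategoryTheory

namespace Pool.Agent.R950.SD

/-- A (Noetherian) local ring `R` with residue field `k` is Cohen–Macaulay: `Ext^i(k, R) = 0` for all
`i < dim R` (i.e. `depth R ≥ dim R`). -/
def IsCM (R : Type) [CommRing R] [IsLocalRing R] : Prop :=
  ∀ i : ℕ, (i : WithBot ℕ∞) < ringKrullDim R →
    Subsingleton (Abelian.Ext (ModuleCat.of R (IsLocalRing.ResidueField R)) (ModuleCat.of R R) i)

/-- `ω` is a canonical module of the Cohen–Macaulay local ring `R` with residue field `k`: it is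
finitely generated, `Ext^i(k, ω) = 0` for `i ≠ dim R`, and `Ext^i(k, ω)` has length one for
`i = dim R`. -/
structure IsCanonical (R : Type) [CommRing R] [IsLocalRing R] (ω : Type) [AddCommGroup ω]
    [Module R ω] : Prop where
  finite : Module.Finite R ω
  ext_ne : ∀ i : ℕ, (i : WithBot ℕ∞) ≠ ringKrullDim R →
    Subsingleton (Abelian.Ext (ModuleCat.of R (IsLocalRing.ResidueField R)) (ModuleCat.of R ω) i)
  ext_eq : ∀ i : ℕ, (i : WithBot ℕ∞) = ringKrullDim R →
    Module.length R
      (Abelian.Ext (ModuleCat.of R (IsLocalRing.ResidueField R)) (ModuleCat.of R ω) i) = 1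

end Pool.Agent.R950.SD
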