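import Pool.Agent.R950.SDMain

/-! The counterexample. -/

open CategoryTheory TensorProduct

namespace Pool.Agent.R950.SD

/-- `S = k[x,y]/(x,y)²`, `k = ZMod 2` -/
abbrev S : Type := Tr (ZMod 2)
/-- `R = S[u,v]/(u,v)²` -/
abbrev R : Type := Tr S
/-- canonical module of `S` -/
abbrev ES : Type := Co (ZMod 2)
/-- the module `M = E_S ⊗_S R` -/
abbrev M : Type := Base ES
/-- the canonical module of `R` -/
abbrev Om : Type := Co ES

instance : Finite S := inferInstanceAs (Finite (ZMod 2 × (Fin 2 → ZMod 2)))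
instance : Finite R := inferInstanceAs (Finite (S × (Fin 2 → S)))

lemma local_tr (A : Type) [CommRing A] [IsLocalRing A] : IsLocalRing (Tr A) := by
  apply IsLocalRing.of_nonunits_add
  intro a b ha hb
  rw [mem_nonunits_iff, TrivSqZeroExt.isUnit_iff_isUnit_fst] at *
  exact IsLocalRing.nonunits_add ha hb

instance : IsLocalRing S := local_tr (ZMod 2)
instance : IsLocalRing R := local_tr S

lemma two_eq_zero : (2 : R) = 0 := by
  apply TrivSqZeroExt.ext
  · apply TrivSqZeroExt.ext
    · rfl
    · rfl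
  · rfl

/-- the functional -/
def eps : Om →+ ZMod 2 :=
  ((AddMonoidHom.id (ZMod 2)).comp (AddMonoidHom.fst (ZMod 2) (Fin 2 → ZMod 2))).comp
    (AddMonoidHom.fst ES (Fin 2 → ES))

lemma dual_Om : Dual R Om eps := dual_co (dual_co dual_base_field)

lemma endIs_k : EndIs (ZMod 2) (ZMod 2) := fun f => ⟨f 1, fun x => by
  have := f.map_smul x 1
  rw [smul_eq_mul, mul_one, smul_eq_mul, mul_comm] at this
  exact this⟩

lemma faith_k : Faith (ZMod 2) (ZMod 2) := fun r h => by simpa using h 1

lemma endIs_M : EndIs R M := endIs_base (endIs_co endIs_k)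
lemma endIs_Om : EndIs R Om := endIs_co (endIs_co endIs_k)
lemma faith_M : Faith R M := faith_base (faith_co faith_k)

lemma M_ne_R (e : M ≃ₗ[R] R) : False := by
  have key : ∀ m : M, ∃ r : R, m = r • e.symm 1 := fun m => ⟨e m, by
    apply e.injective
    rw [map_smul, e.apply_symm_apply, smul_eq_mul, mul_one]⟩
  set g := e.symm 1
  obtain ⟨r, hr⟩ := key (Base.inj (Co.injS 0 1))
  obtain ⟨s, hs⟩ := key (Base.inj (Co.injS 1 1))
  have h1 : (Co.injS 0 1 : ES) = r.fst • g.1 := congrArg Prod.fst hr
  have h2 : (Co.injS 1 1 : ES) = s.fst • g.1 := congrArg Prod.fst hs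
  have e1 := congrFun (congrArg Prod.snd h1) 0
  have e2 := congrFun (congrArg Prod.snd h1) 1
  have e3 := congrFun (congrArg Prod.snd h2) 0
  have e4 := congrFun (congrArg Prod.snd h2) 1
  have e1' : (1 : ZMod 2) = r.fst.fst * g.1.2 0 := e1
  have e2' : (0 : ZMod 2) = r.fst.fst * g.1.2 1 := e2
  have e4' : (1 : ZMod 2) = s.fst.fst * g.1.2 1 := e4
  have hr0 : r.fst.fst ≠ 0 := by
    intro h; rw [h, zero_mul] at e1'; exact one_ne_zero e1'
  have hg1 : g.1.2 1 = 0 := by
    rcases mul_eq_zero.1 e2'.symm with h | h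
    · exact absurd h hr0
    · exact h
  rw [hg1, mul_zero] at e4'
  exact one_ne_zero e4'

lemma M_ne_Om (e : M ≃ₗ[R] Om) : False := by
  have hti : ∀ (i : Fin 2) (y : Om), (t i : R) • y = Co.inj (y.2 i) := by
    intro i y
    refine Co.ext ?_ fun j => ?_
    · fin_cases i <;> simp
    · simp
  set w : Om := Co.injS 1 (Co.inj 1) with hw
  set m := e.symm w with hm
  have h0 : (t 0 : R) • m = 0 := by
    rw [hm, ← map_smul, hti]
    have : (Co.inj (w.2 0) : Om) = 0 := by
      rw [hw]; ext <;> simp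
    rw [this, map_zero]
  have h1 : m.1 = 0 := by
    have h2 : ((t 0 : R) • m).2 0 = 0 := by rw [h0]; rfl
    simpa using h2
  have h3 : (t 1 : R) • m = 0 := by
    refine Base.ext ?_ fun i => ?_
    · simp
    · simp [h1]
  have h4 : (t 1 : R) • w = 0 := by
    have : w = e m := by rw [hm, e.apply_symm_apply]
    rw [this, ← map_smul, h3, map_zero]
  rw [hti] at h4
  have h5 : (w.2 1) = 0 := congrArg Prod.fst h4
  rw [hw] at h5
  have h6 : (Co.inj 1 : ES) = 0 := by simpa using h5
  have h7 : (1 : ZMod 2) = 0 := congrArg Prod.fst h6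
  exact one_ne_zero h7


section generic

variable {R ω : Type} [CommRing R] [IsLocalRing R] [Finite R] [AddCommGroup ω] [Module R ω]
  {ε : ω →+ ZMod 2}

lemma dim_zero : ringKrullDim R = 0 := by
  rw [← ringKrullDimZero_iff_ringKrullDim_eq_zero]
  infer_instance

omit [Finite R] in
lemma hom_ext (f g : IsLocalRing.ResidueField R →ₗ[R] ω) (h : f 1 = g 1) : f = g := by
  ext x
  obtain ⟨r, rfl⟩ := IsLocalRing.residue_surjective x
  have : IsLocalRing.residue R r = r • (1 : IsLocalRing.ResidueField R) := by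
    rw [Algebra.smul_def, mul_one]; rfl
  rw [this, map_smul, map_smul, h]

omit [Finite R] in
lemma simple_hom (h2 : (2 : R) = 0) (h : Dual R ω ε)
    (hsoc : ∀ w : ω, (∀ r ∈ IsLocalRing.maximalIdeal R, r • w = 0) → ε w = 0 → w = 0) :
    IsSimpleModule R (IsLocalRing.ResidueField R →ₗ[R] ω) := by
  have hk : ∀ f : IsLocalRing.ResidueField R →ₗ[R] ω,
      ∀ r ∈ IsLocalRing.maximalIdeal R, r • f 1 = 0 := by
    intro f r hr
    rw [← map_smul]
    have : r • (1 : IsLocalRing.ResidueField R) = 0 := by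
      rw [Algebra.smul_def, mul_one]
      exact (IsLocalRing.residue_eq_zero_iff r).2 hr
    rw [this, map_zero]
  rw [isSimpleModule_iff_toSpanSingleton_surjective]
  constructor
  · have two : ∀ x : IsLocalRing.ResidueField R, 2 • x = 0 := by
      intro x
      have : (2 • x : IsLocalRing.ResidueField R) = (2 : R) • x := by
        rw [two_smul, two_smul]
      rw [this, h2, zero_smul]
    by_contra hne
    rw [not_nontrivial_iff_subsingleton] at hne
    have h1 : (1 : IsLocalRing.ResidueField R) = 0 := by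
      apply separate two
      intro ψ
      obtain ⟨f, hf⟩ := lift h ψ
      rw [← hf, Subsingleton.elim f 0]
      simp
    exact one_ne_zero h1
  · intro f hf g
    have hf1 : ε (f 1) ≠ 0 := by
      intro h0
      apply hf
      apply hom_ext
      rw [hsoc _ (hk f) h0]
      rfl
    have two : ∀ c : ZMod 2, c = 0 ∨ c = 1 := by decide
    rcases two (ε (g 1)) with h0 | h0
    · refine ⟨0, ?_⟩
      rw [LinearMap.toSpanSingleton_apply, zero_smul]
      apply hom_ext
      rw [hsoc _ (hk g) h0]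
      rfl
    · refine ⟨1, ?_⟩
      rw [LinearMap.toSpanSingleton_apply, one_smul]
      have h1 : ε (f 1) = 1 := by
        rcases two (ε (f 1)) with h' | h'
        · exact absurd h' hf1
        · exact h'
      apply hom_ext
      have h3 : (f - g) 1 = 0 := by
        apply hsoc _ (hk (f - g))
        rw [LinearMap.sub_apply, map_sub, h0, h1, sub_self]
      rw [LinearMap.sub_apply] at h3
      exact sub_eq_zero.1 h3

lemma canonical_of [Finite ω] (h2 : (2 : R) = 0) (h : Dual R ω ε)
    (hsoc : ∀ w : ω, (∀ r ∈ IsLocalRing.maximalIdeal R, r • w = 0) → ε w = 0 → w = 0) :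
    IsCanonical R ω := by
  constructor
  · exact Module.Finite.of_finite
  · intro i hi
    rw [dim_zero] at hi
    obtain ⟨j, rfl⟩ : ∃ j, i = j + 1 := by
      cases i with
      | zero => exact absurd rfl hi
      | succ j => exact ⟨j, rfl⟩
    have : Module.Injective R ω := (baer h2 h).injective
    have : Injective (ModuleCat.of R ω) := Module.injective_object_of_injective_module R ω
    exact Abelian.Ext.subsingleton_of_injective _ _ _
  · intro i hi
    rw [dim_zero] at hi
    obtain rfl : i = 0 := by exact_mod_cast hi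
    have e1 := (Abelian.Ext.linearEquiv₀ (R := R)
      (X := ModuleCat.of R (IsLocalRing.ResidueField R)) (Y := ModuleCat.of R ω))
    have e2 := (ModuleCat.homLinearEquiv (S := R)
      (M := ModuleCat.of R (IsLocalRing.ResidueField R)) (N := ModuleCat.of R ω))
    rw [(e1.trans e2).length_eq, Module.length_eq_one_iff]
    exact simple_hom h2 h hsoc

lemma cm_of : IsCM R := by
  intro i hi
  rw [dim_zero] at hi
  exact absurd hi (by simp)

end generic

lemma t_mem (i : Fin 2) : (t i : R) ∈ IsLocalRing.maximalIdeal R := by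
  rw [IsLocalRing.mem_maximalIdeal, mem_nonunits_iff, TrivSqZeroExt.isUnit_iff_isUnit_fst]
  simp

lemma inl_mem (i : Fin 2) : (mk (t i : S) 0 : R) ∈ IsLocalRing.maximalIdeal R := by
  rw [IsLocalRing.mem_maximalIdeal, mem_nonunits_iff, TrivSqZeroExt.isUnit_iff_isUnit_fst]
  simp [TrivSqZeroExt.isUnit_iff_isUnit_fst]

/-- the socle of `Om` -/
lemma socle (w : Om) (hk : ∀ r ∈ IsLocalRing.maximalIdeal R, r • w = 0) (h0 : eps w = 0) :
    w = 0 := by
  have h2 : ∀ i, w.2 i = 0 := by
    intro i
    have := congrArg Prod.fst (hk _ (t_mem i))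
    have h3 : ((t i : R) • w).1 = 0 := this
    fin_cases i <;> simpa [Fin.sum_univ_two] using h3
  have h3 : ∀ i, w.1.2 i = 0 := by
    intro i
    have h4 : ((mk (t i : S) 0 : R) • w).1 = 0 := congrArg Prod.fst (hk _ (inl_mem i))
    have h5 : (t i : S) • w.1 = 0 := by simpa using h4
    have h6 : ((t i : S) • w.1).1 = 0 := congrArg Prod.fst h5
    fin_cases i <;> simpa [Fin.sum_univ_two] using h6
  refine Co.ext (Co.ext h0 fun i => ?_) fun i => ?_
  · rw [h3]; rfl
  · rw [h2]; rfl

lemma canonical_Om : IsCanonical R Om := canonical_of two_eq_zero dual_Om socle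

lemma cm_R : IsCM R := cm_of

theorem counterexample : Nonempty ((M ⊗[R] (M →ₗ[R] Om)) ≃ₗ[R] Om) ∧
    ¬ Nonempty (M ≃ₗ[R] R) ∧ ¬ Nonempty (M ≃ₗ[R] Om) :=
  ⟨⟨LinearEquiv.ofBijective (ev R Om M) (ev_bijective two_eq_zero dual_Om endIs_Om endIs_M faith_M)⟩,
    fun ⟨e⟩ => M_ne_R e, fun ⟨e⟩ => M_ne_Om e⟩

end Pool.Agent.R950.SD
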