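import Pool.Agent.R950.SDDef

/-! A nontrivial semidualizing module over `k[x,y]/(x,y)² ⊗ k[u,v]/(u,v)²`, `k = ZMod 2`. -/

open CategoryTheory TensorProduct

namespace Pool.Agent.R950.SD

/-! ### The two module constructions over a trivial extension `A ⋉ A²` -/

/-- the trivial extension `A ⋉ A²` (which is `A[u,v]/(u,v)²`) -/
abbrev Tr (A : Type) [CommRing A] : Type := TrivSqZeroExt A (Fin 2 → A)

/-- base change of the `A`-module `N` to `A ⋉ A²` -/
def Base (N : Type) : Type := N × (Fin 2 → N)

/-- the coinduced module `Hom_A(A ⋉ A², N)` -/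
def Co (N : Type) : Type := N × (Fin 2 → N)

section
variable (N : Type) [AddCommGroup N]

instance : AddCommGroup (Base N) := inferInstanceAs (AddCommGroup (N × (Fin 2 → N)))
instance : AddCommGroup (Co N) := inferInstanceAs (AddCommGroup (N × (Fin 2 → N)))
instance [Finite N] : Finite (Base N) := inferInstanceAs (Finite (N × (Fin 2 → N)))
instance [Finite N] : Finite (Co N) := inferInstanceAs (Finite (N × (Fin 2 → N)))

end

variable {A : Type} [CommRing A] {N : Type} [AddCommGroup N] [Module A N]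

@[ext] lemma Base.ext {x y : Base N} (h1 : x.1 = y.1) (h2 : ∀ i, x.2 i = y.2 i) : x = y :=
  Prod.ext h1 (funext h2)
@[ext] lemma Co.ext {x y : Co N} (h1 : x.1 = y.1) (h2 : ∀ i, x.2 i = y.2 i) : x = y :=
  Prod.ext h1 (funext h2)

@[simp] lemma Base.add_fst (x y : Base N) : (x + y).1 = x.1 + y.1 := rfl
@[simp] lemma Base.add_snd (x y : Base N) (i : Fin 2) : (x + y).2 i = x.2 i + y.2 i := rfl
@[simp] lemma Co.add_fst (x y : Co N) : (x + y).1 = x.1 + y.1 := rfl
@[simp] lemma Co.add_snd (x y : Co N) (i : Fin 2) : (x + y).2 i = x.2 i + y.2 i := rfl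
@[simp] lemma Base.zero_fst : (0 : Base N).1 = 0 := rfl
@[simp] lemma Base.zero_snd (i : Fin 2) : (0 : Base N).2 i = 0 := rfl
@[simp] lemma Co.zero_fst : (0 : Co N).1 = 0 := rfl
@[simp] lemma Co.zero_snd (i : Fin 2) : (0 : Co N).2 i = 0 := rfl

instance Base.instSMul : SMul (Tr A) (Base N) :=
  ⟨fun r x => (r.fst • x.1, fun i => r.fst • x.2 i + r.snd i • x.1)⟩
instance Co.instSMul : SMul (Tr A) (Co N) :=
  ⟨fun r x => (r.fst • x.1 + ∑ i, r.snd i • x.2 i, fun i => r.fst • x.2 i)⟩

@[simp] lemma Base.smul_fst (r : Tr A) (x : Base N) : (r • x).1 = r.fst • x.1 := rfl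
@[simp] lemma Base.smul_snd (r : Tr A) (x : Base N) (i : Fin 2) :
    (r • x).2 i = r.fst • x.2 i + r.snd i • x.1 := rfl
@[simp] lemma Co.smul_fst (r : Tr A) (x : Co N) :
    (r • x).1 = r.fst • x.1 + ∑ i, r.snd i • x.2 i := rfl
@[simp] lemma Co.smul_snd (r : Tr A) (x : Co N) (i : Fin 2) : (r • x).2 i = r.fst • x.2 i := rfl

instance Base.instModule : Module (Tr A) (Base N) where
  one_smul x := by ext <;> simp
  mul_smul r s x := by
    ext i
    · simp [mul_smul]
    · simp [mul_smul, smul_add, add_smul]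
      module
  smul_zero r := by ext <;> simp
  smul_add r x y := by
    ext i
    · simp
    · simp; module
  add_smul r s x := by
    ext i
    · simp [add_smul]
    · simp [add_smul]; module
  zero_smul x := by ext <;> simp

instance Co.instModule : Module (Tr A) (Co N) where
  one_smul x := by ext <;> simp
  mul_smul r s x := by
    ext i
    · simp [mul_smul, smul_add, add_smul, Fin.sum_univ_two]
      module
    · simp [mul_smul]
  smul_zero r := by ext <;> simp
  smul_add r x y := by
    ext i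
    · simp [Fin.sum_univ_two]; module
    · simp
  add_smul r s x := by
    ext i
    · simp [Fin.sum_univ_two, add_smul]; module
    · simp [add_smul]
  zero_smul x := by ext <;> simp

/-- the element `a + b₀ u + b₁ v` -/
def mk (a : A) (b : Fin 2 → A) : Tr A := (a, b)

@[simp] lemma mk_fst (a : A) (b : Fin 2 → A) : (mk a b).fst = a := rfl
@[simp] lemma mk_snd (a : A) (b : Fin 2 → A) : (mk a b).snd = b := rfl

/-- the elements `u, v` -/
def t (i : Fin 2) : Tr A := TrivSqZeroExt.inr (Pi.single i 1)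

/-- `N → Base N` -/
def Base.inj (n : N) : Base N := (n, 0)
/-- `N → Co N` (socle part) -/
def Co.inj (n : N) : Co N := (n, 0)
/-- `N → Co N` (i-th part) -/
def Co.injS (i : Fin 2) (n : N) : Co N := (0, Pi.single i n)

@[simp] lemma Base.inj_fst (n : N) : (Base.inj n).1 = n := rfl
@[simp] lemma Base.inj_snd (n : N) (i : Fin 2) : (Base.inj n).2 i = 0 := rfl
@[simp] lemma Co.inj_fst (n : N) : (Co.inj n).1 = n := rfl
@[simp] lemma Co.inj_snd (n : N) (i : Fin 2) : (Co.inj n).2 i = 0 := rfl
@[simp] lemma Co.injS_fst (i : Fin 2) (n : N) : (Co.injS i n).1 = 0 := rfl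
@[simp] lemma Co.injS_snd (i j : Fin 2) (n : N) :
    (Co.injS i n).2 j = if j = i then n else 0 := by
  show (Pi.single i n : Fin 2 → N) j = _
  rw [Pi.single_apply]

@[simp] lemma t_fst (i : Fin 2) : (t (A := A) i).fst = 0 := rfl
@[simp] lemma t_snd (i j : Fin 2) : (t (A := A) i).snd j = if j = i then 1 else 0 := by
  show (Pi.single i 1 : Fin 2 → A) j = _
  rw [Pi.single_apply]

/-- All endomorphisms are homotheties. -/
def EndIs (R X : Type) [CommRing R] [AddCommGroup X] [Module R X] : Prop :=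
  ∀ f : X →ₗ[R] X, ∃ r : R, ∀ x, f x = r • x

lemma endIs_base (h : EndIs A N) : EndIs (Tr A) (Base N) := by
  intro f
  -- `α n = (f (n,0)).1`
  have hlin : ∀ a : A, ∀ n : N, f (Base.inj (a • n)) = (TrivSqZeroExt.inl a : Tr A) • f (Base.inj n) := by
    intro a n
    rw [← map_smul]
    congr 1
    ext i <;> simp
  have hadd : ∀ n m : N, f (Base.inj (n + m)) = f (Base.inj n) + f (Base.inj m) := by
    intro n m
    rw [← map_add]
    congr 1
    ext i <;> simp
  let α : N →ₗ[A] N :=
    { toFun := fun n => (f (Base.inj n)).1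
      map_add' := fun n m => by rw [hadd]; rfl
      map_smul' := fun a n => by rw [hlin]; simp }
  let β : Fin 2 → (N →ₗ[A] N) := fun i =>
    { toFun := fun n => (f (Base.inj n)).2 i
      map_add' := fun n m => by rw [hadd]; rfl
      map_smul' := fun a n => by rw [hlin]; simp }
  obtain ⟨a, ha⟩ := h α
  choose b hb using fun i => h (β i)
  refine ⟨mk a b, ?_⟩
  have h1 : ∀ n, f (Base.inj n) = mk a b • Base.inj n := by
    intro n
    ext i
    · have : (f (Base.inj n)).1 = a • n := ha n
      simpa using this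
    · have : (f (Base.inj n)).2 i = b i • n := hb i n
      simpa using this
  intro x
  have hx : x = Base.inj x.1 + ∑ i, (t i : Tr A) • Base.inj (x.2 i) := by
    rw [Fin.sum_univ_two]
    ext i
    · simp
    · fin_cases i <;> simp
  rw [hx, map_add, map_sum]
  simp only [map_smul, h1, smul_add, Finset.smul_sum]
  congr 1
  apply Finset.sum_congr rfl
  intro i _
  rw [smul_smul, smul_smul, mul_comm]

lemma endIs_co (h : EndIs A N) : EndIs (Tr A) (Co N) := by
  intro f
  have hti : ∀ (i : Fin 2) (y : Co N), (t i : Tr A) • y = Co.inj (y.2 i) := by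
    intro i y
    ext j
    · fin_cases i <;> simp
    · simp
  have hinj0 : ∀ n i, (f (Co.inj n)).2 i = 0 := by
    intro n i
    have h1 : (t i : Tr A) • Co.inj n = 0 := by
      rw [hti]; ext <;> simp
    have h2 : (t i : Tr A) • f (Co.inj n) = 0 := by rw [← map_smul, h1, map_zero]
    rw [hti] at h2
    have := congrArg Prod.fst h2
    exact this
  have hlin : ∀ a : A, ∀ n : N, f (Co.inj (a • n)) = (TrivSqZeroExt.inl a : Tr A) • f (Co.inj n) := by
    intro a n
    rw [← map_smul]
    congr 1
    ext i <;> simp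
  have hadd : ∀ n m : N, f (Co.inj (n + m)) = f (Co.inj n) + f (Co.inj m) := by
    intro n m
    rw [← map_add]
    congr 1
    ext i <;> simp
  have hlin2 : ∀ j, ∀ a : A, ∀ n : N,
      f (Co.injS j (a • n)) = (TrivSqZeroExt.inl a : Tr A) • f (Co.injS j n) := by
    intro j a n
    rw [← map_smul]
    congr 1
    ext i <;> simp
  have hadd2 : ∀ j, ∀ n m : N, f (Co.injS j (n + m)) = f (Co.injS j n) + f (Co.injS j m) := by
    intro j n m
    rw [← map_add]
    congr 1
    ext i
    · simp
    · simp only [Co.injS_snd, Co.add_snd]; split_ifs <;> simp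
  let α : N →ₗ[A] N :=
    { toFun := fun n => (f (Co.inj n)).1
      map_add' := fun n m => by rw [hadd]; rfl
      map_smul' := fun a n => by rw [hlin]; simp }
  let β : Fin 2 → (N →ₗ[A] N) := fun i =>
    { toFun := fun n => (f (Co.injS i n)).1
      map_add' := fun n m => by rw [hadd2]; rfl
      map_smul' := fun a n => by rw [hlin2]; simp }
  obtain ⟨a, ha⟩ := h α
  choose b hb using fun i => h (β i)
  refine ⟨mk a b, ?_⟩
  have h1 : ∀ n, f (Co.inj n) = Co.inj (a • n) := by
    intro n
    ext i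
    · exact ha n
    · rw [hinj0]; simp
  have h2 : ∀ i n, f (Co.injS i n) = Co.inj (b i • n) + Co.injS i (a • n) := by
    intro i n
    ext j
    · have : (f (Co.injS i n)).1 = b i • n := hb i n
      simpa using this
    · have h3 : (t j : Tr A) • f (Co.injS i n) = f ((t j : Tr A) • Co.injS i n) := (map_smul _ _ _).symm
      rw [hti, hti] at h3
      have h4 := congrArg Prod.fst h3
      simp only [Co.injS_snd] at h4
      have h5 : (Co.inj ((f (Co.injS i n)).2 j) : Co N).1 = (f (Co.injS i n)).2 j := rfl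
      rw [h5] at h4
      rw [h4]
      split_ifs with hji
      · rw [h1]; simp [hji]
      · have : (Co.inj (0 : N) : Co N) = 0 := by ext <;> simp
        rw [this, map_zero]; simp [hji]
  intro x
  have hx : x = Co.inj x.1 + ∑ i, Co.injS i (x.2 i) := by
    rw [Fin.sum_univ_two]
    ext i
    · simp
    · fin_cases i <;> simp
  conv_lhs => rw [hx]
  rw [map_add, map_sum]
  simp only [h1, h2]
  rw [Fin.sum_univ_two]
  ext i
  · show _ = a • x.1 + ∑ i, b i • x.2 i
    rw [Fin.sum_univ_two]
    simp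
  · show _ = a • x.2 i
    fin_cases i <;> simp


/-- faithfulness -/
def Faith (R X : Type) [CommRing R] [AddCommGroup X] [Module R X] : Prop :=
  ∀ r : R, (∀ x : X, r • x = 0) → r = 0

lemma faith_base (h : Faith A N) : Faith (Tr A) (Base N) := by
  intro r hr
  have h1 : r.fst = 0 := h _ fun n => by simpa using congrArg Prod.fst (hr (Base.inj n))
  have h2 : ∀ i, r.snd i = 0 := fun i => h _ fun n => by
    have := congrFun (congrArg Prod.snd (hr (Base.inj n))) i
    have h3 : (r • Base.inj n).2 i = 0 := this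
    simpa using h3
  apply TrivSqZeroExt.ext
  · exact h1
  · funext i; exact h2 i

lemma faith_co (h : Faith A N) : Faith (Tr A) (Co N) := by
  intro r hr
  have h1 : r.fst = 0 := h _ fun n => by simpa using congrArg Prod.fst (hr (Co.inj n))
  have h2 : ∀ i, r.snd i = 0 := fun i => h _ fun n => by
    have h3 : (r • Co.injS i n).1 = 0 := congrArg Prod.fst (hr (Co.injS i n))
    simpa using h3
  apply TrivSqZeroExt.ext
  · exact h1
  · funext i; exact h2 i

/-! ### Duality -/

/-- `ω` represents the dual of `R`, through the functional `ε`. -/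
structure Dual (R ω : Type) [CommRing R] [AddCommGroup ω] [Module R ω] (ε : ω →+ ZMod 2) :
    Prop where
  ex : ∀ F : R →+ ZMod 2, ∃ w : ω, ∀ r, ε (r • w) = F r
  nd : ∀ w : ω, (∀ r : R, ε (r • w) = 0) → w = 0

lemma dual_base_field : Dual (ZMod 2) (ZMod 2) (AddMonoidHom.id _) := by
  constructor
  · intro F
    refine ⟨F 1, fun r => ?_⟩
    have h := (AddMonoidHom.toZModLinearMap 2 F).map_smul r 1
    rw [smul_eq_mul, mul_one] at h
    exact h.symm
  · intro w h
    simpa using h 1

lemma dual_co {ε : N →+ ZMod 2} (h : Dual A N ε) :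
    Dual (Tr A) (Co N) (ε.comp (AddMonoidHom.fst N (Fin 2 → N))) := by
  constructor
  · intro F
    obtain ⟨w0, hw0⟩ := h.ex (F.comp (AddMonoidHom.mk' (fun a : A => (mk a 0 : Tr A))
      (fun a b => by apply TrivSqZeroExt.ext <;> simp)))
    choose w hw using fun i : Fin 2 => h.ex (F.comp (AddMonoidHom.mk'
      (fun a : A => (mk 0 (Pi.single i a) : Tr A))
      (fun a b => by apply TrivSqZeroExt.ext <;> simp [Pi.single_add])))
    refine ⟨((w0, w) : N × (Fin 2 → N)), ?_⟩
    intro r
    have hr : r = mk r.fst 0 + (mk 0 (Pi.single 0 (r.snd 0)) + mk 0 (Pi.single 1 (r.snd 1))) := by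
      apply TrivSqZeroExt.ext
      · simp
      · funext i
        fin_cases i <;> simp
    show ε (r.fst • w0 + ∑ i, r.snd i • w i) = F r
    rw [Fin.sum_univ_two, map_add, map_add, hw0, hw, hw]
    conv_rhs => rw [hr]
    rw [map_add, map_add]
    rfl
  · intro w hw
    have h0 : ∀ i, w.2 i = 0 := by
      intro i
      apply h.nd
      intro a
      have h3 : ε ((mk 0 (Pi.single i a) : Tr A).fst • w.1 +
        ∑ j, (mk 0 (Pi.single i a) : Tr A).snd j • w.2 j) = 0 := hw (mk 0 (Pi.single i a))
      rw [Fin.sum_univ_two] at h3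
      fin_cases i <;> simpa using h3
    ext i
    · apply h.nd
      intro a
      have h3 : ε ((mk a 0 : Tr A).fst • w.1 +
        ∑ j, (mk a 0 : Tr A).snd j • w.2 j) = 0 := hw (mk a 0)
      simpa using h3
    · exact h0 i

section duality

variable {R ω : Type} [CommRing R] [AddCommGroup ω] [Module R ω] {ε : ω →+ ZMod 2}

/-- additive functionals lift to homomorphisms to `ω` -/
lemma lift (h : Dual R ω ε) {X : Type} [AddCommGroup X] [Module R X] (ψ : X →+ ZMod 2) :
    ∃ f : X →ₗ[R] ω, ∀ x, ε (f x) = ψ x := by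
  choose w hw using fun x : X => h.ex (ψ.comp (AddMonoidHom.mk' (fun r : R => r • x)
    (fun r s => add_smul r s x)))
  have hw' : ∀ x r, ε (r • w x) = ψ (r • x) := fun x r => hw x r
  refine ⟨{ toFun := w, map_add' := ?_, map_smul' := ?_ }, ?_⟩
  · intro x y
    rw [← sub_eq_zero]
    apply h.nd
    intro r
    rw [smul_sub, smul_add, map_sub, map_add, hw', hw', hw', smul_add, map_add, sub_self]
  · intro s x
    rw [← sub_eq_zero]
    apply h.nd
    intro r
    show ε (r • (w (s • x) - s • w x)) = 0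
    rw [smul_sub, map_sub, hw', smul_smul, smul_smul, hw', sub_self]
  · intro x
    have := hw' x 1
    simpa using this

lemma ext_of (h : Dual R ω ε) {X : Type} [AddCommGroup X] [Module R X] {f g : X →ₗ[R] ω}
    (hfg : ∀ x, ε (f x) = ε (g x)) : f = g := by
  ext x
  rw [← sub_eq_zero]
  apply h.nd
  intro r
  rw [smul_sub, map_sub, ← map_smul, ← map_smul, hfg, sub_self]

/-- functionals on an elementary abelian 2-group separate points -/
lemma separate {X : Type} [AddCommGroup X] (h2 : ∀ x : X, 2 • x = 0) {x : X}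
    (hx : ∀ ψ : X →+ ZMod 2, ψ x = 0) : x = 0 := by
  letI : Module (ZMod 2) X := AddCommGroup.zmodModule h2
  exact (Module.forall_dual_apply_eq_zero_iff (ZMod 2) x).1 fun φ => hx φ.toAddMonoidHom

/-- separation from a subgroup -/
lemma separate' {X : Type} [AddCommGroup X] (h2 : ∀ x : X, 2 • x = 0) (S : AddSubgroup X) {x : X}
    (hx : x ∉ S) : ∃ ψ : X →+ ZMod 2, ψ x ≠ 0 ∧ ∀ s ∈ S, ψ s = 0 := by
  letI : Module (ZMod 2) X := AddCommGroup.zmodModule h2
  obtain ⟨f, hf, hS⟩ := Submodule.exists_le_ker_of_notMem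
    (p := AddSubgroup.toZModSubmodule 2 S) (v := x) hx
  exact ⟨f.toAddMonoidHom, hf, fun s hs => hS hs⟩

/-- extension of functionals -/
lemma extend {X : Type} [AddCommGroup X] (h2 : ∀ x : X, 2 • x = 0) (S : AddSubgroup X)
    (ψ : S →+ ZMod 2) : ∃ χ : X →+ ZMod 2, ∀ s : S, χ s = ψ s := by
  letI : Module (ZMod 2) X := AddCommGroup.zmodModule h2
  obtain ⟨g, hg⟩ := LinearMap.exists_extend (p := AddSubgroup.toZModSubmodule 2 S)
    (AddMonoidHom.toZModLinearMap 2 (ψ : (AddSubgroup.toZModSubmodule 2 S) →+ ZMod 2))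
  refine ⟨g.toAddMonoidHom, fun s => ?_⟩
  exact LinearMap.congr_fun hg s

/-- reflexivity for finite groups of exponent two -/
lemma reflexive {X : Type} [AddCommGroup X] [Finite X] (h2 : ∀ x : X, 2 • x = 0)
    (Ψ : (X →+ ZMod 2) →+ ZMod 2) : ∃ x, ∀ φ, Ψ φ = φ x := by
  letI : Module (ZMod 2) X := AddCommGroup.zmodModule h2
  haveI : Module.Finite (ZMod 2) X := Module.Finite.of_finite
  let Ψ' : Module.Dual (ZMod 2) (Module.Dual (ZMod 2) X) :=
    AddMonoidHom.toZModLinearMap 2
      (Ψ.comp (AddMonoidHom.mk' (fun φ : Module.Dual (ZMod 2) X => φ.toAddMonoidHom)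
        (fun _ _ => rfl)))
  obtain ⟨x, hx⟩ := (Module.bijective_dual_eval (ZMod 2) X).2 Ψ'
  refine ⟨x, fun φ => ?_⟩
  have := LinearMap.congr_fun hx (AddMonoidHom.toZModLinearMap 2 φ)
  exact this.symm

lemma baer (h2 : (2 : R) = 0) (h : Dual R ω ε) : Module.Baer R ω := by
  intro I g
  have h2' : ∀ x : R, 2 • x = 0 := fun x => by
    rw [nsmul_eq_mul]; push_cast; rw [h2, zero_mul]
  obtain ⟨F, hF⟩ := extend h2' I.toAddSubgroup (ε.comp (g.toAddMonoidHom :
    I.toAddSubgroup →+ ω))
  obtain ⟨w, hw⟩ := h.ex F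
  refine ⟨LinearMap.toSpanSingleton R ω w, fun x hx => ?_⟩
  rw [LinearMap.toSpanSingleton_apply, ← sub_eq_zero]
  apply h.nd
  intro r
  have e1 : ε (r • x • w) = F (r * x) := by rw [smul_smul]; exact hw _
  have hrx : r * x ∈ I := I.mul_mem_left r hx
  have e2 : F (r * x) = ε (g ⟨r * x, hrx⟩) := hF ⟨r * x, hrx⟩
  have e3 : g ⟨r * x, hrx⟩ = r • g ⟨x, hx⟩ := by rw [← map_smul]; rfl
  rw [smul_sub, map_sub, e1, e2, e3, sub_self]

/-- The evaluation map `M ⊗ Hom(M, ω) → ω` -/
noncomputable def ev (R ω M : Type) [CommRing R] [AddCommGroup ω] [Module R ω] [AddCommGroup M]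
    [Module R M] : M ⊗[R] (M →ₗ[R] ω) →ₗ[R] ω :=
  TensorProduct.lift LinearMap.applyₗ

lemma ev_bijective (h2 : (2 : R) = 0) (h : Dual R ω ε) (hω : EndIs R ω) {M : Type}
    [AddCommGroup M] [Module R M] [Finite M] (hM : EndIs R M) (hf : Faith R M) :
    Function.Bijective (ev R ω M) := by
  have two : ∀ {X : Type} [AddCommGroup X] [Module R X], ∀ x : X, 2 • x = 0 := by
    intro X _ _ x
    have : (2 • x : X) = (2 : R) • x := by
      rw [two_smul, two_smul]
    rw [this, h2, zero_smul]
  have sep : ∀ m : M, (∀ φ : M →ₗ[R] ω, φ m = 0) → m = 0 := by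
    intro m hm
    apply separate two
    intro ψ
    obtain ⟨f, hfψ⟩ := lift h ψ
    rw [← hfψ, hm, map_zero]
  constructor
  · rw [← LinearMap.ker_eq_bot, LinearMap.ker_eq_bot']
    intro x hx
    apply separate two
    intro ψ
    obtain ⟨f, hfψ⟩ := lift h ψ
    -- double duality
    have key : ∀ m : M, ∃ m' : M, ∀ φ : M →ₗ[R] ω, f (m ⊗ₜ φ) = φ m' := by
      intro m
      choose L hL using fun ψ : M →+ ZMod 2 => lift h ψ
      have hLadd : ∀ a b, L (a + b) = L a + L b := by
        intro a b
        apply ext_of h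
        intro x
        rw [hL, LinearMap.add_apply, map_add, hL, hL]; rfl
      obtain ⟨m', hm'⟩ := reflexive (X := M) two (AddMonoidHom.mk' (fun a => ε (f (m ⊗ₜ L a)))
        (fun a b => by rw [hLadd, TensorProduct.tmul_add, map_add, map_add]))
      refine ⟨m', fun φ => ?_⟩
      have hLφ : ∀ φ : M →ₗ[R] ω, L (ε.comp φ.toAddMonoidHom) = φ := by
        intro φ
        apply ext_of h
        intro x
        rw [hL]; rfl
      have e1 : ∀ φ : M →ₗ[R] ω, ε (f (m ⊗ₜ φ)) = ε (φ m') := by
        intro φ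
        have := hm' (ε.comp φ.toAddMonoidHom)
        change ε (f (m ⊗ₜ L (ε.comp φ.toAddMonoidHom))) = ε (φ m') at this
        rwa [hLφ] at this
      rw [← sub_eq_zero]
      apply h.nd
      intro r
      rw [smul_sub, map_sub, ← map_smul, ← TensorProduct.tmul_smul, e1]
      rw [LinearMap.smul_apply, sub_self]
    choose g hg using key
    have hguniq : ∀ m m' : M, (∀ φ : M →ₗ[R] ω, φ m = φ m') → m = m' := by
      intro m m' hmm
      rw [← sub_eq_zero]
      apply sep
      intro φ
      rw [map_sub, hmm, sub_self]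
    obtain ⟨r, hr⟩ := hM
      { toFun := g
        map_add' := fun a b => hguniq _ _ fun φ => by
          rw [← hg, map_add, ← hg, ← hg, TensorProduct.add_tmul, map_add]
        map_smul' := fun s a => hguniq _ _ fun φ => by
          rw [← hg, RingHom.id_apply, map_smul, ← hg, ← map_smul, TensorProduct.smul_tmul'] }
    have hr' : ∀ m, g m = r • m := hr
    have hfe : f = r • ev R ω M := by
      apply TensorProduct.ext'
      intro m φ
      rw [hg, hr', map_smul, LinearMap.smul_apply]
      rfl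
    rw [← hfψ, hfe, LinearMap.smul_apply, hx, smul_zero, map_zero]
  · rw [← LinearMap.range_eq_top]
    by_contra hne
    obtain ⟨w, hw⟩ : ∃ w, w ∉ LinearMap.range (ev R ω M) := by
      by_contra hcon
      push Not at hcon
      exact hne (Submodule.eq_top_iff'.2 hcon)
    obtain ⟨ψ, hψ, hψ0⟩ := separate' two (LinearMap.range (ev R ω M)).toAddSubgroup hw
    obtain ⟨f, hfψ⟩ := lift h ψ
    obtain ⟨r, hr⟩ := hω f
    apply hψ
    have hr0 : r = 0 := by
      apply hf
      intro m
      apply separate two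
      intro χ
      obtain ⟨φ, hφ⟩ := lift h χ
      rw [← hφ, map_smul, ← hr, hfψ]
      exact hψ0 _ ⟨m ⊗ₜ φ, by simp [ev]⟩
    rw [← hfψ, hr, hr0, zero_smul, map_zero]

end duality

end Pool.Agent.R950.SD
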