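import Mathlib

/-!
# Distances to algebraically closed subfields

`Ω` is a complete algebraically closed field with a non-archimedean absolute value, `F ⊆ L` are
algebraically closed subfields and `z ∈ Ω` has the same distance to `F` and to `L`. Then every `w ∈ Ω`
which is algebraic over `F(z)` has the same distance to `F` and to `L`.
-/

set_option autoImplicit false

namespace Pool.Agent.R950.TA

open Polynomial

section Conj

variable {Ω : Type*} [NormedField Ω] [IsUltrametricDist Ω]

/-- An integral element over a trivially valued subfield has norm at most one. -/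
theorem norm_le_one_of_trivial (E : Subfield Ω) (hE : ∀ x : E, x ≠ 0 → ‖(x : Ω)‖ = 1) (y : Ω)
    (hy : IsIntegral E y) : ‖y‖ ≤ 1 := by
  by_contra hlt
  push Not at hlt
  obtain ⟨p, hp, hp0⟩ := hy
  have hn : ∀ i, ‖((p.coeff i : E) : Ω)‖ ≤ 1 := by
    intro i
    by_cases h : p.coeff i = 0
    · rw [h]; simp
    · rw [hE _ h]
  have h1 : y ^ p.natDegree = - ∑ i ∈ Finset.range p.natDegree, ((p.coeff i : E) : Ω) * y ^ i := by
    rw [eval₂_eq_sum_range, Finset.sum_range_succ, coeff_natDegree, hp, map_one, one_mul] at hp0
    exact eq_neg_of_add_eq_zero_right hp0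
  have hpos : 0 < ‖y‖ := by linarith
  rcases Nat.eq_zero_or_pos p.natDegree with h0 | h0
  · rw [h0] at h1
    simp at h1
  have h2 : ‖y ^ p.natDegree‖ ≤ ‖y‖ ^ (p.natDegree - 1) := by
    rw [h1, norm_neg]
    apply IsUltrametricDist.norm_sum_le_of_forall_le_of_nonneg (by positivity)
    intro i hi
    rw [norm_mul, norm_pow]
    calc ‖((p.coeff i : E) : Ω)‖ * ‖y‖ ^ i ≤ 1 * ‖y‖ ^ i := by gcongr; exact hn i
      _ ≤ ‖y‖ ^ (p.natDegree - 1) := by
        rw [one_mul]
        apply pow_le_pow_right₀ hlt.le
        have := Finset.mem_range.1 hi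
        omega
  rw [norm_pow] at h2
  have h3 : ‖y‖ ^ (p.natDegree - 1) < ‖y‖ ^ p.natDegree := by
    apply pow_lt_pow_right₀ hlt
    omega
  linarith

variable [CompleteSpace Ω]

/-- Conjugate elements over a closed subfield have the same norm. -/
theorem norm_eq_of_conj (E : Subfield Ω) (hE : IsClosed (E : Set Ω)) (y y' : Ω)
    (hy : IsIntegral E y) (hc : minpoly E y = minpoly E y') : ‖y‖ = ‖y'‖ := by
  have hy' : IsIntegral E y' := by
    by_contra h
    rw [minpoly.eq_zero h] at hc
    exact minpoly.ne_zero hy hc
  by_cases htriv : ∀ x : E, x ≠ 0 → ‖(x : Ω)‖ = 1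
  · by_cases h0 : y = 0
    · subst h0
      have : y' = 0 := by
        have h1 := minpoly.aeval E y'
        rw [← hc] at h1
        simpa using h1
      rw [this]
    · have h0' : y' ≠ 0 := by
        rintro rfl
        have h1 := minpoly.aeval E y
        rw [hc] at h1
        simp at h1
        exact h0 h1
      have key : ∀ t : Ω, t ≠ 0 → IsIntegral E t → ‖t‖ = 1 := by
        intro t ht hti
        apply le_antisymm (norm_le_one_of_trivial E htriv t hti)
        have h2 := norm_le_one_of_trivial E htriv t⁻¹ hti.inv
        rw [norm_inv] at h2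
        exact (inv_le_one₀ (norm_pos_iff.2 ht)).1 h2
      rw [key y h0 hy, key y' h0' hy']
  · push Not at htriv
    obtain ⟨x, hx0, hx1⟩ := htriv
    letI : NontriviallyNormedField E :=
      { (inferInstance : NormedField E) with
        non_trivial := by
          rcases lt_or_gt_of_ne hx1 with h | h
          · refine ⟨x⁻¹, ?_⟩
            show 1 < ‖((x⁻¹ : E) : Ω)‖
            rw [Subfield.coe_inv, norm_inv]
            exact (one_lt_inv₀ (norm_pos_iff.2 (by simpa using hx0))).2 h
          · exact ⟨x, h⟩ }
    haveI : CompleteSpace E := hE.completeSpace_coe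
    haveI : IsUltrametricDist E := inferInstance
    have key : ∀ t : Ω, IsIntegral E t → ‖t‖ = spectralValue (minpoly E t) := by
      intro t ht
      let T := IntermediateField.adjoin E {t}
      letI : NormedField T := inferInstance
      letI : NormedAlgebra E T :=
        { (inferInstance : Algebra E T) with
          norm_smul_le := fun r s => by
            rw [Algebra.smul_def]
            exact norm_mul_le _ _ }
      haveI : FiniteDimensional E T := IntermediateField.adjoin.finiteDimensional ht
      haveI : Algebra.IsAlgebraic E T := inferInstance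
      let g : T := IntermediateField.AdjoinSimple.gen E t
      have h1 := NormedAlgebra.norm_eq_spectralNorm E g
      have h2 : ‖g‖ = ‖t‖ := rfl
      rw [← h2, h1, spectralNorm]
      congr 1
      exact (minpoly.algebraMap_eq (algebraMap T Ω).injective g).symm
    rw [key y hy, key y' hy', hc]

end Conj

end Pool.Agent.R950.TA
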