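import Pool.Agent.R950.TA1

set_option autoImplicit false

namespace Pool.Agent.R950.TA

open Polynomial

variable {Ω : Type*} [NormedField Ω] [IsUltrametricDist Ω]

theorem add_le (x y : Ω) (t : ℝ) (hx : ‖x‖ ≤ t) (hy : ‖y‖ ≤ t) : ‖x + y‖ ≤ t :=
  (IsUltrametricDist.norm_add_le_max x y).trans (max_le hx hy)

theorem sub_le (x y : Ω) (t : ℝ) (hx : ‖x‖ ≤ t) (hy : ‖y‖ ≤ t) : ‖x - y‖ ≤ t := by
  rw [sub_eq_add_neg]
  exact add_le _ _ t hx (by rwa [norm_neg])

/-- `‖x - z‖ ≤ max ‖x - y‖ ‖y - z‖` -/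
theorem tri (x y z : Ω) (t : ℝ) (hx : ‖x - y‖ ≤ t) (hy : ‖y - z‖ ≤ t) : ‖x - z‖ ≤ t := by
  have : x - z = (x - y) + (y - z) := by ring
  rw [this]
  exact add_le _ _ t hx hy

theorem multB (F : Subfield Ω) (x y : Ω) (C : ℝ) (hC : 0 ≤ C)
    (h : ∀ a : F, ‖y - a‖ ≤ C * ‖x - a‖) (m : Multiset F) :
    ‖(m.map fun a : F => y - (a : Ω)).prod‖ ≤
      C ^ Multiset.card m * ‖(m.map fun a : F => x - (a : Ω)).prod‖ := by
  induction m using Multiset.induction_on with
  | empty => simp
  | cons a m ih =>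
    rw [Multiset.map_cons, Multiset.prod_cons, Multiset.map_cons, Multiset.prod_cons,
      Multiset.card_cons, norm_mul, norm_mul]
    calc ‖y - a‖ * ‖(m.map fun a : F => y - (a : Ω)).prod‖
        ≤ (C * ‖x - a‖) * (C ^ Multiset.card m * ‖(m.map fun a : F => x - (a : Ω)).prod‖) := by
          gcongr
          exact h a
      _ = _ := by ring

theorem lemB (F : Subfield Ω) [IsAlgClosed F] (g : F[X]) (x y : Ω) (C : ℝ) (hC : 0 ≤ C)
    (h : ∀ a : F, ‖y - a‖ ≤ C * ‖x - a‖) :
    ‖aeval y g‖ ≤ C ^ g.natDegree * ‖aeval x g‖ := by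
  have hs := IsAlgClosed.splits g
  have hcard : Multiset.card g.roots = g.natDegree := hs.natDegree_eq_card_roots.symm
  have e : ∀ t : Ω, aeval t g = (g.leadingCoeff : Ω) * (g.roots.map fun a : F => t - (a : Ω)).prod := by
    intro t
    conv_lhs => rw [hs.eq_prod_roots]
    rw [map_mul, aeval_C, map_multiset_prod, Multiset.map_map]
    congr 2
    apply Multiset.map_congr rfl
    intro a _
    simp
    rfl
  rw [e, e, norm_mul, norm_mul, ← hcard]
  calc ‖(g.leadingCoeff : Ω)‖ * ‖(g.roots.map fun a : F => y - (a : Ω)).prod‖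
      ≤ ‖(g.leadingCoeff : Ω)‖ * (C ^ Multiset.card g.roots *
        ‖(g.roots.map fun a : F => x - (a : Ω)).prod‖) := by
        gcongr
        exact multB F x y C hC h _
    _ = _ := by ring

theorem multC (L : Subfield Ω) (z : Ω) (c : L) (C : ℝ) (hC : 1 ≤ C)
    (h : ∀ a : L, ‖z - c‖ ≤ C * ‖z - a‖) (m : Multiset L) (j : ℕ) :
    ‖((((taylor c (m.map fun a => X - Polynomial.C a).prod).coeff j : L)) : Ω)‖ * ‖z - c‖ ^ j ≤
      C ^ Multiset.card m * ‖(m.map fun a : L => z - (a : Ω)).prod‖ := by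
  induction m using Multiset.induction_on generalizing j with
  | empty =>
    simp only [Multiset.map_zero, Multiset.prod_zero, Multiset.card_zero, pow_zero, norm_one,
      mul_one]
    rw [← Polynomial.C_1, taylor_C, coeff_C]
    split_ifs with hj
    · subst hj
      simp
    · simp
  | cons a m ih =>
    rw [Multiset.map_cons, Multiset.prod_cons, Multiset.map_cons, Multiset.prod_cons,
      Multiset.card_cons, norm_mul, taylor_mul, map_sub, taylor_X, taylor_C]
    set T := taylor c (m.map fun a => X - Polynomial.C a).prod with hT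
    have hb : ‖(c : Ω) - a‖ ≤ C * ‖z - a‖ := by
      apply tri (c : Ω) z a
      · rw [norm_sub_rev]
        exact h a
      · nlinarith [norm_nonneg (z - (a : Ω))]
    have e : (X + Polynomial.C c - Polynomial.C a) * T = X * T + Polynomial.C (c - a) * T := by
      rw [Polynomial.C_sub]; ring
    rw [e, coeff_add, coeff_C_mul]
    have hP := norm_nonneg (m.map fun a : L => z - (a : Ω)).prod
    have hz := norm_nonneg (z - (a : Ω))
    have hpow : 0 ≤ C ^ Multiset.card m := by positivity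
    have h2 : ‖(((c - a) * T.coeff j : L) : Ω)‖ * ‖z - c‖ ^ j ≤
        C ^ (Multiset.card m + 1) * (‖z - a‖ * ‖(m.map fun a : L => z - (a : Ω)).prod‖) := by
      have := ih j
      have e2 : (((c - a) * T.coeff j : L) : Ω) = ((c : Ω) - a) * (T.coeff j : Ω) := by
        push_cast; ring
      rw [e2, norm_mul]
      calc ‖(c : Ω) - a‖ * ‖((T.coeff j : L) : Ω)‖ * ‖z - c‖ ^ j
          = ‖(c : Ω) - a‖ * (‖((T.coeff j : L) : Ω)‖ * ‖z - c‖ ^ j) := by ring
        _ ≤ (C * ‖z - a‖) * (C ^ Multiset.card m * ‖(m.map fun a : L => z - (a : Ω)).prod‖) := by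
          gcongr
        _ = _ := by ring
    have h1 : ‖(((X * T).coeff j : L) : Ω)‖ * ‖z - c‖ ^ j ≤
        C ^ (Multiset.card m + 1) * (‖z - a‖ * ‖(m.map fun a : L => z - (a : Ω)).prod‖) := by
      rcases j with _ | j
      · simp only [coeff_X_mul_zero, ZeroMemClass.coe_zero, norm_zero, zero_mul]
        positivity
      · rw [coeff_X_mul]
        have := ih j
        calc ‖((T.coeff j : L) : Ω)‖ * ‖z - c‖ ^ (j + 1)
            = ‖z - c‖ * (‖((T.coeff j : L) : Ω)‖ * ‖z - c‖ ^ j) := by ring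
          _ ≤ (C * ‖z - a‖) * (C ^ Multiset.card m * ‖(m.map fun a : L => z - (a : Ω)).prod‖) := by
            gcongr
            exact h a
          _ = _ := by ring
    have hR : 0 ≤ ‖z - c‖ ^ j := by positivity
    have h3 : ‖(((X * T).coeff j + (c - a) * T.coeff j : L) : Ω)‖ ≤
        max ‖(((X * T).coeff j : L) : Ω)‖ ‖(((c - a) * T.coeff j : L) : Ω)‖ := by
      rw [Subfield.coe_add]
      exact IsUltrametricDist.norm_add_le_max _ _
    calc _ ≤ max ‖(((X * T).coeff j : L) : Ω)‖ ‖(((c - a) * T.coeff j : L) : Ω)‖ * ‖z - c‖ ^ j := by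
          gcongr
      _ ≤ _ := by
        rw [max_mul_of_nonneg _ _ hR]
        exact max_le h1 h2

theorem lemC (L : Subfield Ω) [IsAlgClosed L] (P : L[X]) (z : Ω) (c : L) (C : ℝ) (hC : 1 ≤ C)
    (h : ∀ a : L, ‖z - c‖ ≤ C * ‖z - a‖) (j : ℕ) :
    ‖((((taylor c P).coeff j : L)) : Ω)‖ * ‖z - c‖ ^ j ≤ C ^ P.natDegree * ‖aeval z P‖ := by
  have hs := IsAlgClosed.splits P
  have hcard : Multiset.card P.roots = P.natDegree := hs.natDegree_eq_card_roots.symm
  have e : aeval z P = (P.leadingCoeff : Ω) * (P.roots.map fun a : L => z - (a : Ω)).prod := by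
    conv_lhs => rw [hs.eq_prod_roots]
    rw [map_mul, aeval_C, map_multiset_prod, Multiset.map_map]
    congr 2
    apply Multiset.map_congr rfl
    intro a _
    simp
    rfl
  have e2 : (taylor c P).coeff j = P.leadingCoeff *
      (taylor c (P.roots.map fun a => X - Polynomial.C a).prod).coeff j := by
    conv_lhs => rw [hs.eq_prod_roots]
    rw [taylor_mul, taylor_C, coeff_C_mul]
  rw [e2, e, ← hcard, norm_mul, Subfield.coe_mul, norm_mul]
  calc ‖(P.leadingCoeff : Ω)‖ * ‖((((taylor c (P.roots.map fun a => X - Polynomial.C a).prod).coeff j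
        : L)) : Ω)‖ * ‖z - c‖ ^ j
      = ‖(P.leadingCoeff : Ω)‖ * (‖((((taylor c
        (P.roots.map fun a => X - Polynomial.C a).prod).coeff j : L)) : Ω)‖ * ‖z - c‖ ^ j) := by ring
    _ ≤ ‖(P.leadingCoeff : Ω)‖ * (C ^ Multiset.card P.roots *
        ‖(P.roots.map fun a : L => z - (a : Ω)).prod‖) :=
        mul_le_mul_of_nonneg_left (multC L z c C hC h _ j) (norm_nonneg _)
    _ = _ := by ring

end Pool.Agent.R950.TA
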