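import Pool.Agent.R950.TA2

set_option autoImplicit false

namespace Pool.Agent.R950.TA

open Polynomial

variable {Ω : Type*} [NormedField Ω]

theorem exists_frac (F : Subfield Ω) (z x : Ω) (hx : x ∈ Subfield.closure ((F : Set Ω) ∪ {z})) :
    ∃ a b : F[X], aeval z b ≠ 0 ∧ x = aeval z a / aeval z b := by
  induction hx using Subfield.closure_induction with
  | mem x hx =>
    rcases hx with hx | hx
    · exact ⟨Polynomial.C ⟨x, hx⟩, 1, by simp, by simp; rfl⟩
    · rw [Set.mem_singleton_iff] at hx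
      subst hx
      exact ⟨X, 1, by simp, by simp⟩
  | one => exact ⟨1, 1, by simp, by simp⟩
  | add x y _ _ hx hy =>
    obtain ⟨a, b, hb, rfl⟩ := hx
    obtain ⟨a', b', hb', rfl⟩ := hy
    refine ⟨a * b' + b * a', b * b', ?_, ?_⟩
    · rw [map_mul]; exact mul_ne_zero hb hb'
    · rw [map_mul, map_add, map_mul, map_mul, div_add_div _ _ hb hb']
  | neg x _ hx =>
    obtain ⟨a, b, hb, rfl⟩ := hx
    exact ⟨-a, b, hb, by rw [map_neg, neg_div]⟩
  | inv x _ hx =>
    obtain ⟨a, b, hb, rfl⟩ := hx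
    by_cases ha : aeval z a = 0
    · refine ⟨0, 1, by simp, ?_⟩
      rw [ha]
      simp
    · exact ⟨b, a, ha, by rw [inv_div]⟩
  | mul x y _ _ hx hy =>
    obtain ⟨a, b, hb, rfl⟩ := hx
    obtain ⟨a', b', hb', rfl⟩ := hy
    refine ⟨a * a', b * b', ?_, ?_⟩
    · rw [map_mul]; exact mul_ne_zero hb hb'
    · rw [map_mul, map_mul, div_mul_div_comm]

theorem exists_approx (F : Subfield Ω) (z : Ω) (q : ℕ → Ω) (n : ℕ)
    (hq : ∀ i < n, q i ∈ closure ((Subfield.closure ((F : Set Ω) ∪ {z}) : Subfield Ω) : Set Ω))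
    (η : ℝ) (hη : 0 < η) :
    ∃ (A : ℕ → F[X]) (b : F[X]), aeval z b ≠ 0 ∧
      ∀ i < n, ‖q i - aeval z (A i) / aeval z b‖ ≤ η := by
  induction n with
  | zero => exact ⟨fun _ => 0, 1, by simp, by simp⟩
  | succ n ih =>
    obtain ⟨A, b, hb, hA⟩ := ih (fun i hi => hq i (by omega))
    obtain ⟨x, hx, hxq⟩ := Metric.mem_closure_iff.1 (hq n (by omega)) η hη
    obtain ⟨a', b', hb', rfl⟩ := exists_frac F z x hx
    refine ⟨fun i => if i = n then a' * b else A i * b', b * b', ?_, ?_⟩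
    · rw [map_mul]; exact mul_ne_zero hb hb'
    · intro i hi
      by_cases h : i = n
      · subst h
        simp only [if_true]
        rw [map_mul, map_mul, mul_comm (aeval z b) (aeval z b'), mul_div_mul_right _ _ hb,
          ← dist_eq_norm]
        exact hxq.le
      · simp only [if_neg h]
        rw [map_mul, map_mul, mul_div_mul_right _ _ hb']
        exact hA i (by omega)

variable [IsUltrametricDist Ω]

theorem norm_aeval_le (L : Subfield Ω) (P : L[X]) (z : Ω) (c : L) (t : ℝ) (ht : 0 ≤ t)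
    (h : ∀ j, ‖((((taylor c P).coeff j : L)) : Ω)‖ * ‖z - c‖ ^ j ≤ t) : ‖aeval z P‖ ≤ t := by
  have e : aeval z P = aeval (z - (c : Ω)) (taylor c P) := by
    have h1 : z = algebraMap L Ω c + (z - (c : Ω)) := by
      show z = (c : Ω) + (z - (c : Ω))
      ring
    rw [taylor_apply, aeval_comp]
    simp only [map_add, aeval_X, aeval_C]
    have h2 : z - (c : Ω) + algebraMap L Ω c = z := by
      show z - (c : Ω) + (c : Ω) = z
      ring
    rw [h2]
  rw [e, aeval_eq_sum_range]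
  apply IsUltrametricDist.norm_sum_le_of_forall_le_of_nonneg ht
  intro j _
  rw [Algebra.smul_def, norm_mul, norm_pow]
  exact h j

omit [IsUltrametricDist Ω] in
theorem norm_prod_eq (m : Multiset Ω) (y : Ω) (D : ℝ) (h : ∀ x ∈ m, ‖y - x‖ = D) :
    ‖(m.map (y - ·)).prod‖ = D ^ Multiset.card m := by
  induction m using Multiset.induction_on with
  | empty => simp
  | cons a m ih =>
    rw [Multiset.map_cons, Multiset.prod_cons, norm_mul, Multiset.card_cons, pow_succ',
      h a (Multiset.mem_cons_self _ _), ih (fun x hx => h x (Multiset.mem_cons_of_mem hx))]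

omit [IsUltrametricDist Ω] in
theorem norm_prod_le (m : Multiset Ω) (y : Ω) (D : ℝ) (hD : 0 ≤ D) (h : ∀ x ∈ m, ‖y - x‖ ≤ D) :
    ‖(m.map (y - ·)).prod‖ ≤ D ^ Multiset.card m := by
  induction m using Multiset.induction_on with
  | empty => simp
  | cons a m ih =>
    rw [Multiset.map_cons, Multiset.prod_cons, norm_mul, Multiset.card_cons, pow_succ']
    exact mul_le_mul (h a (Multiset.mem_cons_self _ _))
      (ih (fun x hx => h x (Multiset.mem_cons_of_mem hx))) (norm_nonneg _) hD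

/-- The polynomial `∑_{i < n} y^i A_i(X) + y^n b(X)`. -/
noncomputable def P {F L : Subfield Ω} (hFL : F ≤ L) (A : ℕ → F[X]) (b : F[X]) (n : ℕ) (y : L) : L[X] :=
  ∑ i ∈ Finset.range n, Polynomial.C (y ^ i) * (A i).map (Subfield.inclusion hFL) +
    Polynomial.C (y ^ n) * b.map (Subfield.inclusion hFL)

/-- The polynomial `∑_{i < n} A_{ij} X^i + b_j X^n`, where `A_{ij}`, `b_j` are the Taylor coefficients
of `A_i` and `b` at `c`. -/
noncomputable def G {F : Subfield Ω} (A : ℕ → F[X]) (b : F[X]) (n : ℕ) (c : F) (j : ℕ) : F[X] :=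
  ∑ i ∈ Finset.range n, Polynomial.C ((taylor c (A i)).coeff j) * X ^ i +
    Polynomial.C ((taylor c b).coeff j) * X ^ n

omit [IsUltrametricDist Ω] in
theorem aeval_inclusion {F L : Subfield Ω} (hFL : F ≤ L) (a : F[X]) (z : Ω) :
    aeval z (a.map (Subfield.inclusion hFL)) = aeval z a := by
  rw [aeval_def, eval₂_map]
  rfl

omit [IsUltrametricDist Ω] in
theorem aeval_P {F L : Subfield Ω} (hFL : F ≤ L) (A : ℕ → F[X]) (b : F[X]) (n : ℕ) (y : L) (z : Ω) :
    aeval z (P hFL A b n y) = ∑ i ∈ Finset.range n, (y : Ω) ^ i * aeval z (A i) +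
      (y : Ω) ^ n * aeval z b := by
  unfold P
  rw [map_add, map_sum, map_mul, aeval_C, aeval_inclusion]
  congr 1
  · apply Finset.sum_congr rfl
    intro i _
    rw [map_mul, aeval_C, aeval_inclusion]
    rfl

omit [IsUltrametricDist Ω] in
theorem natDegree_G {F : Subfield Ω} (A : ℕ → F[X]) (b : F[X]) (n : ℕ) (c : F) (j : ℕ) :
    (G A b n c j).natDegree ≤ n := by
  unfold G
  apply natDegree_add_le_of_degree_le
  · apply natDegree_sum_le_of_forall_le
    intro i hi
    apply (natDegree_C_mul_X_pow_le _ _).trans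
    exact (Finset.mem_range.1 hi).le
  · exact natDegree_C_mul_X_pow_le _ _

omit [IsUltrametricDist Ω] in
theorem coeff_P {F L : Subfield Ω} (hFL : F ≤ L) (A : ℕ → F[X]) (b : F[X]) (n : ℕ) (y : L) (c : F)
    (j : ℕ) : ((((taylor (Subfield.inclusion hFL c) (P hFL A b n y)).coeff j : L)) : Ω) =
      aeval (y : Ω) (G A b n c j) := by
  have e1 : (taylor (Subfield.inclusion hFL c) (P hFL A b n y)).coeff j =
      ∑ x ∈ Finset.range n, y ^ x * (Subfield.inclusion hFL) (((taylor c) (A x)).coeff j) +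
        y ^ n * (Subfield.inclusion hFL) ((taylor c b).coeff j) := by
    unfold P
    rw [map_add, map_sum, coeff_add, finsetSum_coeff, taylor_mul, taylor_C, ← map_taylor,
      coeff_C_mul, coeff_map]
    congr 1
    apply Finset.sum_congr rfl
    intro i _
    rw [taylor_mul, taylor_C, ← map_taylor, coeff_C_mul, coeff_map]
  rw [e1]
  unfold G
  simp only [map_add, map_sum, map_mul, aeval_C, aeval_X, map_pow]
  rw [Subfield.coe_add, Subfield.coe_mul]
  congr 1
  · rw [show ((∑ x ∈ Finset.range n, y ^ x * (Subfield.inclusion hFL) (((taylor c) (A x)).coeff j) :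
      L) : Ω) = ∑ x ∈ Finset.range n, ((y : Ω) ^ x * ((((taylor c) (A x)).coeff j : F) : Ω)) by
      rw [← Subfield.coe_subtype, map_sum]; rfl]
    apply Finset.sum_congr rfl
    intro i _
    rw [mul_comm]
    rfl
  · rw [mul_comm]
    rfl

variable [CompleteSpace Ω] [IsAlgClosed Ω]

/-- **Key lemma.** -/
theorem key (F L : Subfield Ω) [IsAlgClosed F] [IsAlgClosed L] (hFL : F ≤ L) (z : Ω) (r : ℝ)
    (hr : 0 < r) (hz1 : ∀ ε > 0, ∃ c : F, ‖z - c‖ ≤ (1 + ε) * r) (hz2 : ∀ l : L, r ≤ ‖z - l‖)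
    (w : Ω) (hw : IsAlgebraic (Subfield.closure ((F : Set Ω) ∪ {z}) : Subfield Ω) w)
    (s : ℝ) (hs : 0 < s) (hs1 : ∀ c : F, s ≤ ‖w - c‖)
    (hs2 : ∀ ε > 0, ∃ c : F, ‖w - c‖ ≤ (1 + ε) * s) (l : L) : s ≤ ‖w - l‖ := by
  by_contra hlt
  push Not at hlt
  obtain ⟨ρ, hρ1, hρ2⟩ := exists_between hlt
  have hρ0 : 0 < ρ := (norm_nonneg _).trans_lt hρ1
  set E0 : Subfield Ω := Subfield.closure ((F : Set Ω) ∪ {z}) with hE0
  set E : Subfield Ω := E0.topologicalClosure with hE
  have hEcl : IsClosed (E : Set Ω) := E0.isClosed_topologicalClosure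
  have hFE0 : ∀ c : F, (c : Ω) ∈ E0 := fun c => Subfield.subset_closure (Or.inl c.2)
  have hE0E : ∀ x : Ω, x ∈ E0 → x ∈ E := fun x hx => E0.le_topologicalClosure hx
  have hwE : IsIntegral E w := by
    obtain ⟨p, hp, hp0⟩ := hw.isIntegral
    refine ⟨p.map (Subfield.inclusion E0.le_topologicalClosure), hp.map _, ?_⟩
    rw [eval₂_map]
    exact hp0
  set Q := minpoly E w with hQ
  have hQm : Q.Monic := minpoly.monic hwE
  set n := Q.natDegree with hn
  have hn0 : 0 < n := minpoly.natDegree_pos hwE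
  have hspl : (Q.map (algebraMap E Ω)).Splits := IsAlgClosed.splits _
  have hcard : Multiset.card (Q.aroots Ω) = n := by
    rw [hn, aroots, ← hspl.natDegree_eq_card_roots, natDegree_map]
  have hQe : ∀ y : Ω, aeval y Q = ((Q.aroots Ω).map (y - ·)).prod := fun y =>
    Splits.aeval_eq_prod_aroots_of_monic hspl hQm y
  -- the roots of `Q` have the same distances to the elements of `F`
  have hiso : ∀ w' ∈ Q.aroots Ω, ∀ c : F, ‖w' - c‖ = ‖w - c‖ := by
    intro w' hw' c
    have hroot : aeval w' Q = 0 := by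
      rw [mem_aroots] at hw'
      exact hw'.2
    have hmin : minpoly E w' = Q :=
      (minpoly.eq_of_irreducible_of_monic (minpoly.irreducible hwE) hroot hQm).symm
    have hcE : (c : Ω) ∈ E := hE0E _ (hFE0 c)
    have h1 := minpoly.sub_algebraMap (A := E) w (⟨c, hcE⟩ : E)
    have h2 := minpoly.sub_algebraMap (A := E) w' (⟨c, hcE⟩ : E)
    have hci : IsIntegral E (c : Ω) := isIntegral_algebraMap (R := E) (x := ⟨c, hcE⟩)
    symm
    apply norm_eq_of_conj E hEcl (w - c) (w' - c) (hwE.sub hci)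
    change minpoly E (w - (c : Ω)) = _ at h1
    change minpoly E (w' - (c : Ω)) = _ at h2
    rw [h1, h2, hmin]
  -- approximation of the coefficients of `Q` by rational functions in `z`
  set B : ℝ := max 1 (max ‖(l : Ω)‖ (2 * s)) with hB
  have hB1 : 1 ≤ B := le_max_left _ _
  have hM : 0 < B ^ n := by positivity
  set η : ℝ := ρ * s ^ (n - 1) / B ^ n with hη
  have hη0 : 0 < η := by positivity
  obtain ⟨A, b, hb, hA⟩ := exists_approx F z (fun i => ((Q.coeff i : E) : Ω)) n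
    (fun i _ => (Q.coeff i).2) η hη0
  set d := (P hFL A b n l).natDegree with hd
  obtain ⟨ε, hε0, hε1, hε2⟩ : ∃ ε : ℝ, 0 < ε ∧ ε ≤ 1 ∧ (1 + ε) ^ (n + d) * ρ < s := by
    have h1 : Filter.Tendsto (fun t : ℝ => (1 + t) ^ (n + d) * ρ) (nhdsWithin 0 (Set.Ioi 0))
        (nhds ((1 + 0) ^ (n + d) * ρ)) := by
      apply Filter.Tendsto.mono_left _ nhdsWithin_le_nhds
      apply Continuous.tendsto
      fun_prop
    rw [add_zero, one_pow, one_mul] at h1
    have h2 := h1.eventually (gt_mem_nhds hρ2)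
    have h3 : ∀ᶠ t : ℝ in nhdsWithin 0 (Set.Ioi 0), t < 1 :=
      nhdsWithin_le_nhds (gt_mem_nhds one_pos)
    have h4 : ∀ᶠ t : ℝ in nhdsWithin 0 (Set.Ioi 0), 0 < t := self_mem_nhdsWithin
    obtain ⟨t, ht1, ht2, ht3⟩ := (h2.and (h3.and h4)).exists
    exact ⟨t, ht3, ht2.le, ht1⟩
  have hC1 : (1 : ℝ) ≤ 1 + ε := by linarith
  obtain ⟨c, hc⟩ := hs2 ε hε0
  obtain ⟨c', hc'⟩ := hz1 ε hε0
  set D := ‖w - c‖ with hD
  have hsD : s ≤ D := hs1 c
  have hD0 : 0 < D := hs.trans_le hsD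
  have hlc : ‖(l : Ω) - c‖ ≤ D := tri (l : Ω) w c D (by rw [norm_sub_rev]; linarith) le_rfl
  have hla : ∀ a : F, s ≤ ‖(l : Ω) - a‖ := by
    intro a
    by_contra h
    push Not at h
    have h1 := hs1 a
    have h2 : ‖w - a‖ ≤ max ‖w - l‖ ‖(l : Ω) - a‖ :=
      tri w l a _ (le_max_left _ _) (le_max_right _ _)
    have h3 := max_lt hlt h
    linarith
  have hca : ∀ a : F, ‖(c : Ω) - a‖ ≤ (1 + ε) * ‖(l : Ω) - a‖ := by
    intro a
    have h1 := hla a
    apply tri (c : Ω) l a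
    · rw [norm_sub_rev]
      calc ‖(l : Ω) - c‖ ≤ D := hlc
        _ ≤ (1 + ε) * s := hc
        _ ≤ (1 + ε) * ‖(l : Ω) - a‖ := by gcongr
    · nlinarith [norm_nonneg ((l : Ω) - a)]
  have hzc : ∀ a : L, ‖z - ((Subfield.inclusion hFL c' : L) : Ω)‖ ≤ (1 + ε) * ‖z - a‖ := by
    intro a
    calc ‖z - (c' : Ω)‖ ≤ (1 + ε) * r := hc'
      _ ≤ (1 + ε) * ‖z - a‖ := by
        gcongr
        exact hz2 a
  -- norms of `Q(c)` and `Q(l)`
  have hQc : ‖aeval (c : Ω) Q‖ = D ^ n := by
    rw [hQe, norm_prod_eq _ _ D, hcard]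
    intro x hx
    rw [norm_sub_rev]
    exact hiso x hx c
  have hwr : w ∈ Q.aroots Ω := by
    rw [mem_aroots]
    exact ⟨hQm.ne_zero, minpoly.aeval _ _⟩
  have hQl : ‖aeval (l : Ω) Q‖ ≤ ρ * D ^ (n - 1) := by
    obtain ⟨m, hm⟩ := Multiset.exists_cons_of_mem hwr
    have hcm : Multiset.card m = n - 1 := by
      have := hcard
      rw [hm, Multiset.card_cons] at this
      omega
    rw [hQe, hm, Multiset.map_cons, Multiset.prod_cons, norm_mul, ← hcm]
    apply mul_le_mul
    · rw [norm_sub_rev]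
      exact hρ1.le
    · apply norm_prod_le _ _ D hD0.le
      intro x hx
      apply tri (l : Ω) c x D hlc
      rw [norm_sub_rev, hiso x (by rw [hm]; exact Multiset.mem_cons_of_mem hx) c]
    · exact norm_nonneg _
    · exact hρ0.le
  -- comparison of `Q(y)` and `P_y(z) / b(z)`
  have hcmp : ∀ y : L, ‖(y : Ω)‖ ≤ B →
      ‖aeval (y : Ω) Q - aeval z (P hFL A b n y) / aeval z b‖ ≤ ρ * s ^ (n - 1) := by
    intro y hy
    have e1 : aeval (y : Ω) Q = (y : Ω) ^ n + ∑ i ∈ Finset.range n, ((Q.coeff i : E) : Ω) * (y : Ω) ^ i := by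
      rw [aeval_eq_sum_range, Finset.sum_range_succ, ← hn, hQm.coeff_natDegree, one_smul, add_comm]
      congr 1
    have e2 : aeval z (P hFL A b n y) / aeval z b = (y : Ω) ^ n +
        ∑ i ∈ Finset.range n, (aeval z (A i) / aeval z b) * (y : Ω) ^ i := by
      rw [aeval_P, add_div, mul_div_assoc, div_self hb, mul_one, add_comm, Finset.sum_div]
      congr 1
      apply Finset.sum_congr rfl
      intro i _
      ring
    rw [e1, e2, add_sub_add_left_eq_sub, ← Finset.sum_sub_distrib]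
    apply IsUltrametricDist.norm_sum_le_of_forall_le_of_nonneg (by positivity)
    intro i hi
    have hi' := Finset.mem_range.1 hi
    rw [← sub_mul, norm_mul, norm_pow]
    calc ‖((Q.coeff i : E) : Ω) - aeval z (A i) / aeval z b‖ * ‖(y : Ω)‖ ^ i
        ≤ η * B ^ n := by
          apply mul_le_mul (hA i hi') _ (by positivity) hη0.le
          calc ‖(y : Ω)‖ ^ i ≤ B ^ i := by gcongr
            _ ≤ B ^ n := pow_le_pow_right₀ hB1 hi'.le
      _ = ρ * s ^ (n - 1) := by
          rw [hη]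
          field_simp
  have hpow : ρ * s ^ (n - 1) ≤ ρ * D ^ (n - 1) := by gcongr
  have hpow2 : ρ * D ^ (n - 1) < D ^ n := by
    calc ρ * D ^ (n - 1) < D * D ^ (n - 1) := by
          apply mul_lt_mul_of_pos_right (hρ2.trans_le hsD) (by positivity)
      _ = D ^ n := by rw [← pow_succ']; congr 1; omega
  have hbn : 0 < ‖aeval z b‖ := norm_pos_iff.2 hb
  have hl1 : ‖aeval z (P hFL A b n l) / aeval z b‖ ≤ ρ * D ^ (n - 1) := by
    have h1 := hcmp l ((le_max_left _ _).trans (le_max_right _ _))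
    have e : aeval z (P hFL A b n l) / aeval z b = aeval (l : Ω) Q -
      (aeval (l : Ω) Q - aeval z (P hFL A b n l) / aeval z b) := by ring
    rw [e]
    exact sub_le _ _ _ hQl (h1.trans hpow)
  set cL : L := Subfield.inclusion hFL c with hcL
  have hcB : ‖(cL : Ω)‖ ≤ B := by
    have e : (cL : Ω) = (l : Ω) - ((l : Ω) - c) := by
      show (c : Ω) = _
      ring
    rw [e]
    apply sub_le
    · exact (le_max_left _ _).trans (le_max_right _ _)
    · calc ‖(l : Ω) - c‖ ≤ D := hlc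
        _ ≤ (1 + ε) * s := hc
        _ ≤ 2 * s := by nlinarith
        _ ≤ B := (le_max_right _ _).trans (le_max_right _ _)
  have hc1 : D ^ n ≤ ‖aeval z (P hFL A b n cL) / aeval z b‖ := by
    have h1 := hcmp cL hcB
    by_contra h
    push Not at h
    have h2 : ‖aeval (c : Ω) Q‖ ≤ max ‖aeval z (P hFL A b n cL) / aeval z b‖ (ρ * s ^ (n - 1)) := by
      have e : aeval (c : Ω) Q = aeval z (P hFL A b n cL) / aeval z b +
        (aeval (cL : Ω) Q - aeval z (P hFL A b n cL) / aeval z b) := by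
        show aeval (c : Ω) Q = aeval z (P hFL A b n cL) / aeval z b +
          (aeval (c : Ω) Q - aeval z (P hFL A b n cL) / aeval z b)
        ring
      rw [e]
      exact add_le _ _ _ (le_max_left _ _) (h1.trans (le_max_right _ _))
    rw [hQc] at h2
    have h3 := max_lt h (hpow.trans_lt hpow2)
    linarith
  -- comparison of `P_c(z)` and `P_l(z)`
  have hPP : ‖aeval z (P hFL A b n cL)‖ ≤ (1 + ε) ^ (n + d) * ‖aeval z (P hFL A b n l)‖ := by
    apply norm_aeval_le L _ z (Subfield.inclusion hFL c') _ (by positivity)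
    intro j
    rw [coeff_P]
    have h1 := lemC L (P hFL A b n l) z (Subfield.inclusion hFL c') (1 + ε) hC1 hzc j
    rw [coeff_P] at h1
    have h2 := lemB F (G A b n c' j) (l : Ω) (c : Ω) (1 + ε) (by linarith) hca
    have h3 : ‖aeval (cL : Ω) (G A b n c' j)‖ ≤ (1 + ε) ^ n * ‖aeval (l : Ω) (G A b n c' j)‖ := by
      apply h2.trans
      exact mul_le_mul_of_nonneg_right (pow_le_pow_right₀ hC1 (natDegree_G A b n c' j))
        (norm_nonneg _)
    calc ‖aeval (cL : Ω) (G A b n c' j)‖ * ‖z - ((Subfield.inclusion hFL c' : L) : Ω)‖ ^ j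
        ≤ (1 + ε) ^ n * ‖aeval (l : Ω) (G A b n c' j)‖ *
          ‖z - ((Subfield.inclusion hFL c' : L) : Ω)‖ ^ j := by gcongr
      _ = (1 + ε) ^ n * (‖aeval (l : Ω) (G A b n c' j)‖ *
          ‖z - ((Subfield.inclusion hFL c' : L) : Ω)‖ ^ j) := by ring
      _ ≤ (1 + ε) ^ n * ((1 + ε) ^ d * ‖aeval z (P hFL A b n l)‖) := by gcongr
      _ = _ := by rw [pow_add]; ring
  rw [norm_div, div_le_iff₀ hbn] at hl1
  rw [norm_div, le_div_iff₀ hbn] at hc1
  have hfin : D ^ n * ‖aeval z b‖ ≤ ((1 + ε) ^ (n + d) * ρ) * D ^ (n - 1) * ‖aeval z b‖ := by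
    calc D ^ n * ‖aeval z b‖ ≤ ‖aeval z (P hFL A b n cL)‖ := hc1
      _ ≤ (1 + ε) ^ (n + d) * ‖aeval z (P hFL A b n l)‖ := hPP
      _ ≤ (1 + ε) ^ (n + d) * (ρ * D ^ (n - 1) * ‖aeval z b‖) := by gcongr
      _ = _ := by ring
  have h5 : D ^ n ≤ ((1 + ε) ^ (n + d) * ρ) * D ^ (n - 1) := le_of_mul_le_mul_right hfin hbn
  have h6 : ((1 + ε) ^ (n + d) * ρ) * D ^ (n - 1) < D ^ n := by
    calc ((1 + ε) ^ (n + d) * ρ) * D ^ (n - 1) < D * D ^ (n - 1) := by
          apply mul_lt_mul_of_pos_right (hε2.trans_le hsD) (by positivity)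
      _ = D ^ n := by rw [← pow_succ']; congr 1; omega
  linarith

end Pool.Agent.R950.TA
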