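import Pool.Agent.R950.TA3

set_option autoImplicit false

namespace Pool.Agent.R950.TA

open Polynomial

/-! ## The relative algebraic closure -/

section Acl

variable {k Ω : Type*} [Field k] [Field Ω] [Algebra k Ω]

variable (k) in
/-- The algebraic closure of `k(S)` in `Ω`. -/
noncomputable def acl (S : Set Ω) : Subfield Ω :=
  (algebraicClosure (IntermediateField.adjoin k S) Ω).toSubfield

theorem mem_acl (S : Set Ω) (x : Ω) :
    x ∈ acl k S ↔ IsAlgebraic (IntermediateField.adjoin k S) x :=
  mem_algebraicClosure_iff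

instance [IsAlgClosed Ω] (S : Set Ω) : IsAlgClosed (acl k S) :=
  (algebraicClosure.isAlgClosure (IntermediateField.adjoin k S) Ω).isAlgClosed

/-- Algebraicity only depends on the underlying sets. -/
theorem isAlgebraic_mono {A B : Type*} [Field A] [Field B] [Algebra A Ω] [Algebra B Ω]
    (h : ∀ a : A, ∃ b : B, algebraMap B Ω b = algebraMap A Ω a) {x : Ω} (hx : IsAlgebraic A x) :
    IsAlgebraic B x := by
  obtain ⟨p, hp, hp0⟩ := hx
  have h1 : p.map (algebraMap A Ω) ∈ lifts (algebraMap B Ω) := by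
    rw [lifts_iff_coeff_lifts]
    intro n
    rw [coeff_map]
    obtain ⟨b, hb⟩ := h (p.coeff n)
    exact ⟨b, hb⟩
  obtain ⟨q, hq⟩ := (mem_lifts _).1 h1
  refine ⟨q, ?_, ?_⟩
  · rintro rfl
    rw [Polynomial.map_zero] at hq
    exact hp ((Polynomial.map_eq_zero_iff (algebraMap A Ω).injective).1 hq.symm)
  · rw [← eval_map_algebraMap, hq, eval_map_algebraMap, hp0]

theorem acl_mono {S T : Set Ω} (h : S ⊆ T) : acl k S ≤ acl k T := by
  intro x hx
  rw [mem_acl] at hx ⊢
  apply isAlgebraic_mono _ hx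
  rintro ⟨a, ha⟩
  exact ⟨⟨a, IntermediateField.adjoin.mono k S T h ha⟩, rfl⟩

theorem adjoin_le_acl (S : Set Ω) (x : Ω) (hx : x ∈ IntermediateField.adjoin k S) : x ∈ acl k S := by
  rw [mem_acl]
  exact isAlgebraic_algebraMap (⟨x, hx⟩ : IntermediateField.adjoin k S)

theorem subset_acl (S : Set Ω) {x : Ω} (hx : x ∈ S) : x ∈ acl k S :=
  adjoin_le_acl S x (IntermediateField.subset_adjoin k S hx)

/-- Finite character. -/
theorem exists_finset (S : Set Ω) (x : Ω) (hx : x ∈ acl k S) :
    ∃ T : Finset Ω, (T : Set Ω) ⊆ S ∧ x ∈ acl k (T : Set Ω) := by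
  rw [mem_acl] at hx
  obtain ⟨p, hp, hp0⟩ := hx
  have h1 : ∀ n : ℕ, ∃ T : Finset Ω, (T : Set Ω) ⊆ S ∧
      ((p.coeff n : IntermediateField.adjoin k S) : Ω) ∈ IntermediateField.adjoin k (T : Set Ω) :=
    fun n => IntermediateField.exists_finset_of_mem_adjoin (p.coeff n).2
  classical
  choose T hT1 hT2 using h1
  let U : Finset Ω := (Finset.range (p.natDegree + 1)).biUnion T
  have hU : (U : Set Ω) ⊆ S := by
    intro y hy
    rw [Finset.mem_coe, Finset.mem_biUnion] at hy
    obtain ⟨n, _, hn⟩ := hy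
    exact hT1 n hn
  refine ⟨U, hU, ?_⟩
  rw [mem_acl]
  have h2 : p.map (algebraMap (IntermediateField.adjoin k S) Ω) ∈
      lifts (algebraMap (IntermediateField.adjoin k (U : Set Ω)) Ω) := by
    rw [lifts_iff_coeff_lifts]
    intro n
    rw [coeff_map]
    by_cases hn : n ≤ p.natDegree
    · have : ((p.coeff n : IntermediateField.adjoin k S) : Ω) ∈
          IntermediateField.adjoin k (U : Set Ω) := by
        apply IntermediateField.adjoin.mono k (T n : Set Ω) U _ (hT2 n)
        intro y hy
        rw [Finset.mem_coe, Finset.mem_biUnion]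
        exact ⟨n, Finset.mem_range.2 (by omega), hy⟩
      exact ⟨⟨_, this⟩, rfl⟩
    · rw [coeff_eq_zero_of_natDegree_lt (by omega), map_zero]
      exact ⟨0, map_zero _⟩
  obtain ⟨q, hq⟩ := (mem_lifts _).1 h2
  refine ⟨q, ?_, ?_⟩
  · rintro rfl
    rw [Polynomial.map_zero] at hq
    exact hp ((Polynomial.map_eq_zero_iff
      (algebraMap (IntermediateField.adjoin k S) Ω).injective).1 hq.symm)
  · rw [← eval_map_algebraMap, hq, eval_map_algebraMap, hp0]

theorem algebraic_over_closure (S : Set Ω) (z x : Ω) (hx : x ∈ acl k (insert z S)) :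
    IsAlgebraic (Subfield.closure ((acl k S : Set Ω) ∪ {z}) : Subfield Ω) x := by
  rw [mem_acl] at hx
  apply isAlgebraic_mono _ hx
  rintro ⟨a, ha⟩
  refine ⟨⟨a, ?_⟩, rfl⟩
  have h1 : IntermediateField.adjoin k (insert z S) ≤
      (Subfield.closure ((acl k S : Set Ω) ∪ {z})).toIntermediateField (fun r => by
        apply Subfield.subset_closure
        left
        exact adjoin_le_acl S _ ((IntermediateField.adjoin k S).algebraMap_mem r)) := by
    rw [IntermediateField.adjoin_le_iff]
    rintro y (hy | hy)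
    · apply Subfield.subset_closure
      right
      exact hy
    · apply Subfield.subset_closure
      left
      exact subset_acl S hy
  exact h1 ha

end Acl

end Pool.Agent.R950.TA
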