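import Pool.Agent.R950.TA4

set_option autoImplicit false

universe u

namespace Pool.Agent.R950.TA

open Polynomial Cardinal

/-! ## The completion of an algebraic closure -/

/-- `Ω` is a completion of an algebraic closure of `K`, with the absolute value extending the one of
`K` (the latter is part of `NormedAlgebra K Ω`): `Ω` is complete and non-archimedean, every polynomial
over `K` splits in `Ω` (so that the elements algebraic over `K` form an algebraic closure of `K`), and
the elements algebraic over `K` are dense in `Ω`. -/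
structure IsCompletedAlgClosure (K Ω : Type*) [NormedField K] [NormedField Ω] [NormedAlgebra K Ω] :
    Prop where
  ultrametric : IsUltrametricDist Ω
  complete : CompleteSpace Ω
  splits : ∀ p : K[X], (p.map (algebraMap K Ω)).Splits
  dense : Dense {x : Ω | IsAlgebraic K x}

section Roots

variable {Ω : Type*} [NormedField Ω] [IsUltrametricDist Ω]

/-- If `∏ (x - a_i)` is small then some `x - a_i` is small. -/
theorem exists_root_near (m : Multiset Ω) (x : Ω) (t : ℝ) (ht : 0 ≤ t)
    (h : ‖(m.map (x - ·)).prod‖ < t ^ Multiset.card m) : ∃ a ∈ m, ‖x - a‖ < t := by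
  by_contra hcon
  push Not at hcon
  have : t ^ Multiset.card m ≤ ‖(m.map (x - ·)).prod‖ := by
    clear h
    induction m using Multiset.induction_on with
    | empty => simp
    | cons a m ih =>
      rw [Multiset.map_cons, Multiset.prod_cons, norm_mul, Multiset.card_cons, pow_succ']
      exact mul_le_mul (hcon a (Multiset.mem_cons_self _ _))
        (ih (fun y hy => hcon y (Multiset.mem_cons_of_mem hy))) (by positivity) (norm_nonneg _)
  linarith

/-- Polynomials of the same degree with close coefficients have close values. -/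
theorem eval_close (p q : Polynomial Ω) (n : ℕ) (hp : p.natDegree ≤ n) (hq : q.natDegree ≤ n) (x : Ω) (B δ : ℝ)
    (hB : 1 ≤ B) (hx : ‖x‖ ≤ B) (hδ : 0 ≤ δ) (h : ∀ i, ‖p.coeff i - q.coeff i‖ ≤ δ) :
    ‖p.eval x - q.eval x‖ ≤ δ * B ^ n := by
  rw [← eval_sub, eval_eq_sum_range' (n := n + 1)]
  · apply IsUltrametricDist.norm_sum_le_of_forall_le_of_nonneg (by positivity)
    intro i hi
    rw [norm_mul, norm_pow, coeff_sub]
    apply mul_le_mul (h i) _ (by positivity) hδ
    calc ‖x‖ ^ i ≤ B ^ i := by gcongr
      _ ≤ B ^ n := pow_le_pow_right₀ hB (by have := Finset.mem_range.1 hi; omega)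
  · have := natDegree_sub_le p q
    have h1 : max p.natDegree q.natDegree ≤ n := max_le hp hq
    omega

/-- A polynomial whose coefficients are approximated. -/
theorem exists_approx_poly (s : Set Ω) (p : Polynomial Ω) (hs : ∀ i, p.coeff i ∈ closure s)
    (hp : p.Monic) (δ : ℝ) (hδ : 0 < δ) :
    ∃ q : Polynomial Ω, q.Monic ∧ q.natDegree = p.natDegree ∧ (∀ i, i < p.natDegree → q.coeff i ∈ s) ∧
      ∀ i, ‖p.coeff i - q.coeff i‖ ≤ δ := by
  have h1 : ∀ i, ∃ a ∈ s, ‖p.coeff i - a‖ ≤ δ := by
    intro i
    obtain ⟨a, ha, hda⟩ := Metric.mem_closure_iff.1 (hs i) δ hδ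
    exact ⟨a, ha, by rw [← dist_eq_norm]; exact hda.le⟩
  choose a ha hda using h1
  set n := p.natDegree with hn
  let r : Polynomial Ω := ∑ i ∈ Finset.range n, C (a i) * X ^ i
  have hrc : ∀ i, r.coeff i = if i < n then a i else 0 := by
    intro i
    simp only [r, finsetSum_coeff, coeff_C_mul, coeff_X_pow, mul_ite, mul_one, mul_zero,
      Finset.sum_ite_eq, Finset.mem_range]
  have hr : r.degree < n := by
    rw [degree_lt_iff_coeff_zero]
    intro i hi
    rw [hrc, if_neg (by omega)]
  have hm : (X ^ n + r).Monic := monic_X_pow_add hr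
  have hd : (X ^ n + r).natDegree = n := by
    apply natDegree_eq_of_degree_eq_some
    rw [degree_add_eq_left_of_degree_lt (by rwa [degree_X_pow]), degree_X_pow]
  refine ⟨X ^ n + r, hm, hd, ?_, ?_⟩
  · intro i hi
    rw [coeff_add, coeff_X_pow, if_neg (by omega), zero_add, hrc, if_pos hi]
    exact ha i
  · intro i
    rw [coeff_add, coeff_X_pow, hrc]
    rcases lt_trichotomy i n with hi | hi | hi
    · rw [if_neg (by omega), if_pos hi, zero_add]
      exact hda i
    · rw [if_pos hi, if_neg (by omega), add_zero, hi, hn, hp.coeff_natDegree, sub_self, norm_zero]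
      exact hδ.le
    · rw [if_neg (by omega), if_neg (by omega), add_zero, coeff_eq_zero_of_natDegree_lt (by omega),
        sub_zero, norm_zero]
      exact hδ.le

/-- If the polynomials with coefficients (below the leading one) in a dense set split and `Ω` is
complete then `Ω` is algebraically closed. -/
theorem isAlgClosed_of_dense [CompleteSpace Ω] (s : Set Ω) (hs : Dense s)
    (hsp : ∀ q : Polynomial Ω, q.Monic → (∀ i, i < q.natDegree → q.coeff i ∈ s) → q.Splits) :
    IsAlgClosed Ω := by
  apply IsAlgClosed.of_exists_root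
  intro p hp hirr
  set n := p.natDegree with hn
  have hn0 : n ≠ 0 := by
    intro h
    have := natDegree_pos_iff_degree_pos.2 (degree_pos_of_irreducible hirr)
    omega
  -- one step
  have step : ∀ (x : Ω) (t t' : ℝ), 0 < t → 0 < t' → ‖p.eval x‖ < t ^ n →
      ∃ x' : Ω, ‖x - x'‖ < t ∧ ‖p.eval x'‖ < t' := by
    intro x t t' ht ht' hx
    set B := max 1 (max ‖x‖ t) with hB
    have hB1 : 1 ≤ B := le_max_left _ _
    have hBn : 0 < B ^ n := by positivity
    set δ := min (t ^ n) t' / 2 / B ^ n with hδ
    have hmin : 0 < min (t ^ n) t' := lt_min (by positivity) ht'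
    have hδ0 : 0 < δ := by positivity
    have hδB : δ * B ^ n < min (t ^ n) t' := by
      rw [hδ, div_mul_cancel₀ _ hBn.ne']
      linarith
    obtain ⟨q, hqm, hqd, hqs, hqc⟩ := exists_approx_poly s p (fun i => hs _) hp δ hδ0
    have hq := hsp q hqm (fun i hi => hqs i (by rw [← hqd]; exact hi))
    have hcard : Multiset.card q.roots = n := by
      rw [← hq.natDegree_eq_card_roots, hqd]
    have h1 : ‖q.eval x‖ < t ^ n := by
      have h2 := eval_close p q n le_rfl (by omega) x B δ hB1
        ((le_max_left _ _).trans (le_max_right _ _)) hδ0.le hqc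
      have e : q.eval x = p.eval x - (p.eval x - q.eval x) := by ring
      rw [e]
      exact (sub_le _ _ _ (le_max_left _ _) (le_max_right _ _)).trans_lt
        (max_lt hx (h2.trans_lt (hδB.trans_le (min_le_left _ _))))
    rw [hq.eval_eq_prod_roots_of_monic hqm, ← hcard] at h1
    obtain ⟨a, ha, hxa⟩ := exists_root_near q.roots x t ht.le h1
    refine ⟨a, hxa, ?_⟩
    have hqa : q.eval a = 0 := (mem_roots'.1 ha).2
    have haB : ‖a‖ ≤ B := by
      have e : a = x - (x - a) := by ring
      rw [e]
      exact sub_le _ _ _ ((le_max_left _ _).trans (le_max_right _ _))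
        (hxa.le.trans ((le_max_right _ _).trans (le_max_right _ _)))
    have h4 := eval_close p q n le_rfl (by omega) a B δ hB1 haB hδ0.le hqc
    rw [hqa, sub_zero] at h4
    exact h4.trans_lt (hδB.trans_le (min_le_right _ _))
  obtain ⟨T, hT0, hT⟩ : ∃ T : ℝ, 0 < T ∧ ‖p.eval 0‖ < T ^ n := by
    refine ⟨‖p.eval 0‖ + 1, by positivity, ?_⟩
    have h1 : (1 : ℝ) ≤ ‖p.eval 0‖ + 1 := by linarith [norm_nonneg (p.eval 0)]
    calc ‖p.eval 0‖ < ‖p.eval 0‖ + 1 := by linarith
      _ = (‖p.eval 0‖ + 1) ^ 1 := (pow_one _).symm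
      _ ≤ (‖p.eval 0‖ + 1) ^ n := pow_le_pow_right₀ h1 (by omega)
  let t : ℕ → ℝ := fun j => T * (1 / 2) ^ j
  have ht : ∀ j, 0 < t j := fun j => by positivity
  -- the sequence
  have hnext : ∀ (j : ℕ) (x : {x : Ω // ‖p.eval x‖ < t j ^ n}),
      ∃ x' : {x : Ω // ‖p.eval x‖ < t (j + 1) ^ n}, ‖x.1 - x'.1‖ < t j := by
    intro j x
    obtain ⟨x', h1, h2⟩ := step x.1 (t j) (t (j + 1) ^ n) (ht j) (pow_pos (ht _) _) x.2
    exact ⟨⟨x', h2⟩, h1⟩
  choose next hnext' using hnext
  let seq : (j : ℕ) → {x : Ω // ‖p.eval x‖ < t j ^ n} := fun j =>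
    Nat.rec ⟨0, by simpa [t] using hT⟩ (fun j x => next j x) j
  have hseq : ∀ j, dist (seq j).1 (seq (j + 1)).1 ≤ T * (1 / 2) ^ j := by
    intro j
    rw [dist_eq_norm]
    exact (hnext' j (seq j)).le
  have hc : CauchySeq (fun j => (seq j).1) :=
    cauchySeq_of_le_geometric (1 / 2) T (by norm_num) hseq
  obtain ⟨x, hx⟩ := cauchySeq_tendsto_of_complete hc
  refine ⟨x, ?_⟩
  have h1 : Filter.Tendsto (fun j => p.eval (seq j).1) Filter.atTop (nhds (p.eval x)) :=
    (p.continuous.tendsto x).comp hx
  have h2 : Filter.Tendsto (fun j => p.eval (seq j).1) Filter.atTop (nhds 0) := by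
    apply squeeze_zero_norm (a := fun j => t j ^ n)
    · intro j
      exact (seq j).2.le
    · have h3 : Filter.Tendsto t Filter.atTop (nhds (T * 0)) :=
        (tendsto_pow_atTop_nhds_zero_of_lt_one (by norm_num) (by norm_num)).const_mul T
      rw [mul_zero] at h3
      have h4 := h3.pow n
      rwa [zero_pow hn0] at h4
  exact tendsto_nhds_unique h1 h2

end Roots

section Closed

variable {K Ω : Type*} [NormedField K] [NormedField Ω] [NormedAlgebra K Ω]

theorem IsCompletedAlgClosure.isAlgClosed (h : IsCompletedAlgClosure K Ω) : IsAlgClosed Ω := by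
  have := h.ultrametric
  have := h.complete
  let D := algebraicClosure K Ω
  have hD : IsAlgClosure K D := by
    apply IsAlgClosure.of_splits
    intro p _ _
    apply IntermediateField.splits_of_splits (h.splits p)
    intro x hx
    show x ∈ algebraicClosure K Ω
    rw [mem_algebraicClosure_iff]
    rw [mem_rootSet] at hx
    exact ⟨p, hx.1, hx.2⟩
  have hDc : IsAlgClosed D := hD.isAlgClosed
  apply isAlgClosed_of_dense {x : Ω | IsAlgebraic K x} h.dense
  intro q hq hqc
  have h1 : q ∈ lifts (algebraMap D Ω) := by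
    rw [lifts_iff_coeff_lifts]
    intro n
    rcases lt_trichotomy n q.natDegree with hn | hn | hn
    · exact ⟨⟨q.coeff n, mem_algebraicClosure_iff.2 (hqc n hn)⟩, rfl⟩
    · rw [hn, hq.coeff_natDegree]
      exact ⟨1, map_one _⟩
    · rw [coeff_eq_zero_of_natDegree_lt hn]
      exact ⟨0, map_zero _⟩
  obtain ⟨r, hr⟩ := (mem_lifts _).1 h1
  rw [← hr]
  exact (IsAlgClosed.splits r).map _

/-- If `K` lies in the closure of an algebraically closed subfield then so does `Ω`. -/
theorem IsCompletedAlgClosure.closure_eq_univ (h : IsCompletedAlgClosure K Ω) (A : Subfield Ω)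
    [IsAlgClosed A] (hA : ∀ x : K, algebraMap K Ω x ∈ closure (A : Set Ω)) :
    closure (A : Set Ω) = Set.univ := by
  have := h.ultrametric
  have := h.isAlgClosed
  rw [Set.eq_univ_iff_forall]
  intro y
  have h1 : closure {x : Ω | IsAlgebraic K x} ⊆ closure (closure (A : Set Ω)) := by
    apply closure_mono
    intro x hx
    change IsAlgebraic K x at hx
    have hint := hx.isIntegral
    let p := (minpoly K x).map (algebraMap K Ω)
    have hpm : p.Monic := (minpoly.monic hint).map _
    have hp0 : p.eval x = 0 := by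
      rw [eval_map_algebraMap, minpoly.aeval]
    rw [Metric.mem_closure_iff]
    intro ε hε
    set n := p.natDegree with hn
    set B := max 1 ‖x‖ with hB
    have hB1 : 1 ≤ B := le_max_left _ _
    have hBn : 0 < B ^ n := by positivity
    set δ := ε ^ n / 2 / B ^ n with hδ
    have hδ0 : 0 < δ := by positivity
    have hδB : δ * B ^ n < ε ^ n := by
      rw [hδ, div_mul_cancel₀ _ hBn.ne']
      have : 0 < ε ^ n := by positivity
      linarith
    obtain ⟨q, hqm, hqd, hqs, hqc⟩ := exists_approx_poly (A : Set Ω) p (fun i => by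
      rw [coeff_map]
      exact hA _) hpm δ hδ0
    have hq : q.Splits := by
      have h2 : q ∈ lifts (algebraMap A Ω) := by
        rw [lifts_iff_coeff_lifts]
        intro m
        rcases lt_trichotomy m q.natDegree with hm | hm | hm
        · exact ⟨⟨q.coeff m, hqs m (by rw [← hqd]; exact hm)⟩, rfl⟩
        · rw [hm, hqm.coeff_natDegree]
          exact ⟨1, map_one _⟩
        · rw [coeff_eq_zero_of_natDegree_lt hm]
          exact ⟨0, map_zero _⟩
      obtain ⟨r, hr⟩ := (mem_lifts _).1 h2
      rw [← hr]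
      exact (IsAlgClosed.splits r).map _
    have hqA : ∀ a ∈ q.roots, a ∈ A := by
      intro a ha
      have h2 : q ∈ lifts (algebraMap A Ω) := by
        rw [lifts_iff_coeff_lifts]
        intro m
        rcases lt_trichotomy m q.natDegree with hm | hm | hm
        · exact ⟨⟨q.coeff m, hqs m (by rw [← hqd]; exact hm)⟩, rfl⟩
        · rw [hm, hqm.coeff_natDegree]
          exact ⟨1, map_one _⟩
        · rw [coeff_eq_zero_of_natDegree_lt hm]
          exact ⟨0, map_zero _⟩
      obtain ⟨r, hr⟩ := (mem_lifts _).1 h2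
      rw [← hr, (IsAlgClosed.splits r).roots_map, Multiset.mem_map] at ha
      obtain ⟨b, _, rfl⟩ := ha
      exact b.2
    have hcard : Multiset.card q.roots = n := by
      rw [← hq.natDegree_eq_card_roots, hqd]
    have h3 := eval_close p q n le_rfl (by omega) x B δ hB1 (le_max_right _ _) hδ0.le hqc
    rw [hp0, zero_sub, norm_neg] at h3
    have h4 := h3.trans_lt hδB
    rw [hq.eval_eq_prod_roots_of_monic hqm, ← hcard] at h4
    obtain ⟨a, ha, hxa⟩ := exists_root_near q.roots x ε hε.le h4
    exact ⟨a, hqA a ha, by rwa [dist_eq_norm]⟩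
  rw [closure_closure] at h1
  exact h1 (h.dense y)

end Closed

end Pool.Agent.R950.TA
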