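import Pool.Agent.R950.TA5

set_option autoImplicit false

universe u v w

namespace Pool.Agent.R950.TA

open Polynomial Cardinal Metric

section Defs

variable (k : Type u) {Ω : Type w} [Field k] [NormedField Ω] [Algebra k Ω]

/-- The closure in `Ω` of the algebraic closure of `k(S)` in `Ω`. -/
def taClosure (S : Set Ω) : Set Ω :=
  closure {x : Ω | IsAlgebraic (IntermediateField.adjoin k S) x}

/-- `S` is topologically-algebraically independent over `k`: every proper subset of `S` generates a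
strictly smaller closed algebraically closed field. -/
def TAIndep (S : Set Ω) : Prop := ∀ S' : Set Ω, S' ⊂ S → taClosure k S' ⊂ taClosure k S

/-- `S` is topologically-algebraically generating over `k`. -/
def TAGenerates (S : Set Ω) : Prop := taClosure k S = Set.univ

variable (K : Type v) (Ω) [NormedField K] [Algebra K Ω]

/-- The topological transcendence degree: the supremum of the cardinalities of the t.a. independent
subsets of `K`. -/
noncomputable def topdeg : Cardinal.{v} :=
  ⨆ S : {S : Set K // TAIndep k (algebraMap K Ω '' S)}, #S.1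

/-- The topological generating degree: the minimum of the cardinalities of the t.a. generating
subsets of `K`. -/
noncomputable def Topdeg : Cardinal.{v} :=
  sInf {c : Cardinal.{v} | ∃ S : Set K, TAGenerates k (algebraMap K Ω '' S) ∧ #S = c}

end Defs

section Orth

variable {k : Type u} {K : Type v} {Ω : Type w} [Field k] [NormedField K] [NormedField Ω]
  [Algebra k Ω] [Algebra K Ω]

variable (k Ω) in
/-- the algebraic closure of `k(S)` in `Ω`, for a subset `S` of `K` -/
noncomputable def A (S : Set K) : Subfield Ω := acl k (algebraMap K Ω '' S)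

theorem A_mono {S T : Set K} (h : S ⊆ T) : A k Ω S ≤ A k Ω T := acl_mono (Set.image_mono h)

theorem mem_A {S : Set K} {x : K} (hx : x ∈ S) : algebraMap K Ω x ∈ A k Ω S :=
  subset_acl _ ⟨x, hx, rfl⟩

theorem taClosure_eq (S : Set K) : taClosure k (algebraMap K Ω '' S) = closure (A k Ω S : Set Ω) := by
  unfold taClosure
  congr 1
  ext x
  exact (mem_acl _ x).symm

/-- finite character -/
theorem exists_finset_A (S : Set K) (x : Ω) (hx : x ∈ A k Ω S) :
    ∃ T : Finset K, (T : Set K) ⊆ S ∧ x ∈ A k Ω (T : Set K) := by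
  classical
  obtain ⟨U, hU, hxU⟩ := exists_finset _ x hx
  have : ∀ y : U, ∃ s ∈ S, algebraMap K Ω s = y := fun y => hU y.2
  choose f hf1 hf2 using this
  refine ⟨Finset.univ.image f, ?_, ?_⟩
  · intro s hs
    rw [Finset.mem_coe, Finset.mem_image] at hs
    obtain ⟨y, _, rfl⟩ := hs
    exact hf1 y
  · apply acl_mono _ hxU
    intro y hy
    exact ⟨f ⟨y, hy⟩, by simp, hf2 ⟨y, hy⟩⟩

/-- a directed union -/
theorem mem_A_iUnion {ι : Type*} [LinearOrder ι] [Nonempty ι] (S : ι → Set K) (hS : Monotone S)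
    (x : Ω) (hx : x ∈ A k Ω (⋃ i, S i)) : ∃ i, x ∈ A k Ω (S i) := by
  obtain ⟨T, hT, hxT⟩ := exists_finset_A _ x hx
  have : ∃ i, (T : Set K) ⊆ S i := by
    classical
    clear hxT
    induction T using Finset.induction_on with
    | empty => exact ⟨Classical.arbitrary ι, by simp⟩
    | insert a T _ ih =>
      obtain ⟨i, hi⟩ := ih (fun y hy => hT (by simp [Finset.mem_coe.1 hy]))
      obtain ⟨j, hj⟩ := Set.mem_iUnion.1 (hT (by simp : a ∈ _))
      refine ⟨max i j, ?_⟩
      intro y hy
      rw [Finset.coe_insert, Set.mem_insert_iff] at hy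
      rcases hy with rfl | hy
      · exact hS (le_max_right _ _) hj
      · exact hS (le_max_left _ _) (hi hy)
  obtain ⟨i, hi⟩ := this
  exact ⟨i, A_mono hi hxT⟩

variable (k Ω) in
/-- `E` is orthogonal over `S₀`: for all `s ∈ E` the distance of `s` to the algebraically closed field
generated by `S₀` is positive and equal to the distance to the one generated by `S₀` and `E - s`. -/
def Orth (S₀ E : Set K) : Prop :=
  ∀ s ∈ E, 0 < infDist (algebraMap K Ω s) (A k Ω S₀ : Set Ω) ∧
    ∀ x ∈ A k Ω (S₀ ∪ (E \ {s})), infDist (algebraMap K Ω s) (A k Ω S₀ : Set Ω) ≤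
      ‖algebraMap K Ω s - x‖

theorem Orth.indep {S₀ E : Set K} (h : Orth k Ω S₀ E) : TAIndep k (algebraMap K Ω '' E) := by
  intro S' hS'
  obtain ⟨hsub, y, hy, hyS'⟩ := Set.ssubset_iff_exists.1 hS'
  obtain ⟨s, hs, rfl⟩ := hy
  refine ⟨closure_mono (fun x hx => (mem_acl _ x).1 (acl_mono hsub ((mem_acl _ x).2 hx))),
    fun hcon => ?_⟩
  have h1 : algebraMap K Ω s ∈ taClosure k (algebraMap K Ω '' E) :=
    subset_closure ((mem_acl _ _).1 (subset_acl _ ⟨s, hs, rfl⟩))
  have h2 := hcon h1
  have h3 : taClosure k S' ⊆ closure (A k Ω (S₀ ∪ (E \ {s})) : Set Ω) := by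
    apply closure_mono
    intro x hx
    apply acl_mono _ ((mem_acl _ x).2 hx)
    intro z hz
    obtain ⟨t, ht, rfl⟩ := hsub hz
    refine ⟨t, Or.inr ⟨ht, ?_⟩, rfl⟩
    rintro rfl
    exact hyS' hz
  obtain ⟨x, hx, hdx⟩ := Metric.mem_closure_iff.1 (h3 h2) _ (h s hs).1
  have := (h s hs).2 x hx
  rw [dist_eq_norm] at hdx
  linarith

/-- Existence of maximal orthogonal sets. -/
theorem exists_maximal (S₀ : Set K) : ∃ E : Set K, Maximal (Orth k Ω S₀) E := by
  apply zorn_subset
  intro c hc hchain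
  refine ⟨⋃₀ c, ?_, fun s hs => Set.subset_sUnion_of_mem hs⟩
  rintro s ⟨E, hE, hs⟩
  refine ⟨(hc hE s hs).1, ?_⟩
  intro x hx
  obtain ⟨T, hT, hxT⟩ := exists_finset_A _ x hx
  have : ∃ E' ∈ c, s ∈ E' ∧ (T : Set K) ⊆ S₀ ∪ (E' \ {s}) := by
    classical
    clear hxT
    induction T using Finset.induction_on with
    | empty => exact ⟨E, hE, hs, by simp⟩
    | insert a T _ ih =>
      obtain ⟨E1, hE1, hs1, hT1⟩ := ih (fun y hy => hT (by simp [Finset.mem_coe.1 hy]))
      have ha : a ∈ S₀ ∪ (⋃₀ c \ {s}) := hT (by simp)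
      rcases ha with ha | ⟨⟨E2, hE2, ha2⟩, has⟩
      · refine ⟨E1, hE1, hs1, ?_⟩
        intro y hy
        rw [Finset.coe_insert, Set.mem_insert_iff] at hy
        rcases hy with rfl | hy
        · exact Or.inl ha
        · exact hT1 hy
      · rcases hchain.total hE1 hE2 with h12 | h12
        · refine ⟨E2, hE2, h12 hs1, ?_⟩
          intro y hy
          rw [Finset.coe_insert, Set.mem_insert_iff] at hy
          rcases hy with rfl | hy
          · exact Or.inr ⟨ha2, has⟩
          · rcases hT1 hy with h | h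
            · exact Or.inl h
            · exact Or.inr ⟨h12 h.1, h.2⟩
        · refine ⟨E1, hE1, hs1, ?_⟩
          intro y hy
          rw [Finset.coe_insert, Set.mem_insert_iff] at hy
          rcases hy with rfl | hy
          · exact Or.inr ⟨h12 ha2, has⟩
          · exact hT1 hy
  obtain ⟨E', hE', hs', hT'⟩ := this
  exact (hc hE' s hs').2 x (A_mono hT' hxT)

end Orth

section Chain

/-- The transfinite chain `S_i = ⋃_{j < i} (S_j ∪ E(S_j))`. -/
noncomputable def chain {K : Type v} (E : Set K → Set K) {I : Type v} [LinearOrder I]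
    [WellFoundedLT I] : I → Set K :=
  IsWellFounded.fix (· < ·) fun i S => ⋃ j : Set.Iio i, (S j.1 j.2 ∪ E (S j.1 j.2))

variable {K : Type v} (E : Set K → Set K) {I : Type v} [LinearOrder I] [WellFoundedLT I]

theorem chain_eq (i : I) : chain E i = ⋃ j : Set.Iio i, (chain E j.1 ∪ E (chain E j.1)) := by
  rw [chain, IsWellFounded.fix_eq]

theorem chain_lt {i j : I} (h : j < i) : chain E j ∪ E (chain E j) ⊆ chain E i := by
  rw [chain_eq E i]
  exact Set.subset_iUnion (fun j : Set.Iio i => chain E j.1 ∪ E (chain E j.1)) ⟨j, h⟩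

theorem chain_mono : Monotone (chain E : I → Set K) := by
  intro j i h
  rcases h.lt_or_eq with h | h
  · exact Set.subset_union_left.trans (chain_lt E h)
  · rw [h]

theorem chain_card (κ : Cardinal.{v}) (hκ : ℵ₀ ≤ κ) (hI : ∀ i : I, #(Set.Iio i) ≤ κ)
    (hE : ∀ S, #(E S) ≤ κ) (i : I) : #(chain E i) ≤ κ := by
  induction i using WellFoundedLT.induction with
  | ind i ih =>
    rw [chain_eq]
    calc #(⋃ j : Set.Iio i, (chain E j.1 ∪ E (chain E j.1)) : Set K)
        ≤ #(Set.Iio i) * ⨆ j : Set.Iio i, #(chain E j.1 ∪ E (chain E j.1) : Set K) :=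
          mk_iUnion_le _
      _ ≤ κ * κ := by
        apply mul_le_mul' (hI i)
        apply ciSup_le'
        intro j
        calc #(chain E j.1 ∪ E (chain E j.1) : Set K) ≤ #(chain E j.1) + #(E (chain E j.1)) :=
              mk_union_le _ _
          _ ≤ κ + κ := add_le_add (ih j.1 j.2) (hE _)
          _ = κ := add_eq_self hκ
      _ = κ := mul_eq_self hκ

end Chain

section Exchange

variable {k : Type u} {K : Type v} {Ω : Type w} [Field k] [NormedField K] [NormedField Ω]
  [IsUltrametricDist Ω] [CompleteSpace Ω] [IsAlgClosed Ω]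

/-- The key lemma in terms of distances. -/
theorem key' (F L : Subfield Ω) [IsAlgClosed F] [IsAlgClosed L] (hFL : F ≤ L) (z : Ω)
    (hz0 : 0 < infDist z (F : Set Ω)) (hz : ∀ l ∈ L, infDist z (F : Set Ω) ≤ ‖z - l‖)
    (w : Ω) (hw : IsAlgebraic (Subfield.closure ((F : Set Ω) ∪ {z}) : Subfield Ω) w)
    (l : Ω) (hl : l ∈ L) : infDist w (F : Set Ω) ≤ ‖w - l‖ := by
  have hne : (F : Set Ω).Nonempty := ⟨0, F.zero_mem⟩
  have hex : ∀ y : Ω, 0 < infDist y (F : Set Ω) → ∀ ε > 0, ∃ c : F,
      ‖y - c‖ ≤ (1 + ε) * infDist y (F : Set Ω) := by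
    intro y hy ε hε
    obtain ⟨c, hc, hcy⟩ := (infDist_lt_iff hne (r := (1 + ε) * infDist y (F : Set Ω))).1 (by nlinarith)
    exact ⟨⟨c, hc⟩, by rw [← dist_eq_norm]; exact hcy.le⟩
  rcases (infDist_nonneg (x := w) (s := (F : Set Ω))).eq_or_lt with h0 | h0
  · rw [← h0]
    exact norm_nonneg _
  · exact key F L hFL z _ hz0 (hex z hz0) (fun l => hz l l.2) w hw _ h0
      (fun c => by rw [← dist_eq_norm]; exact infDist_le_dist_of_mem c.2) (hex w h0) ⟨l, hl⟩

variable [Algebra k Ω] [Algebra K Ω]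

/-- A new element can be added to an orthogonal set. -/
theorem Orth.insert {S₀ E : Set K} (h : Orth k Ω S₀ E) (L : Subfield Ω) [IsAlgClosed L]
    (hL : A k Ω (S₀ ∪ E) ≤ L) (z : K) (hz0 : 0 < infDist (algebraMap K Ω z) (A k Ω S₀ : Set Ω))
    (hz : ∀ l ∈ L, infDist (algebraMap K Ω z) (A k Ω S₀ : Set Ω) ≤ ‖algebraMap K Ω z - l‖) :
    Orth k Ω S₀ (insert z E) := by
  have hzL : algebraMap K Ω z ∉ L := by
    intro hcon
    have := hz _ hcon
    rw [sub_self, norm_zero] at this
    linarith
  have hzE : z ∉ E := fun hcon => hzL (hL (mem_A (Or.inr hcon)))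
  rintro s (rfl | hs)
  · refine ⟨hz0, fun x hx => hz x (hL (A_mono ?_ hx))⟩
    apply Set.union_subset_union_right
    rintro y ⟨hy | hy, hys⟩
    · exact absurd hy hys
    · exact hy
  · refine ⟨(h s hs).1, fun x hx => ?_⟩
    have hsz : s ≠ z := by
      rintro rfl
      exact hzE hs
    -- the field generated by `S₀` and `E - s`
    set F' := A k Ω (S₀ ∪ (E \ {s})) with hF'
    haveI : IsAlgClosed F' := inferInstanceAs (IsAlgClosed (acl k _))
    have hF'L : F' ≤ L := (A_mono (Set.union_subset_union_right _ Set.sdiff_subset)).trans hL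
    have hFF' : A k Ω S₀ ≤ F' := A_mono Set.subset_union_left
    have hne : (A k Ω S₀ : Set Ω).Nonempty := ⟨0, (A k Ω S₀).zero_mem⟩
    have hne' : (F' : Set Ω).Nonempty := ⟨0, F'.zero_mem⟩
    have hd1 : infDist (algebraMap K Ω z) (F' : Set Ω) ≤
        infDist (algebraMap K Ω z) (A k Ω S₀ : Set Ω) := infDist_le_infDist_of_subset hFF' hne
    have hd2 : infDist (algebraMap K Ω z) (A k Ω S₀ : Set Ω) ≤
        infDist (algebraMap K Ω z) (F' : Set Ω) := by
      rw [le_infDist hne']
      intro y hy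
      rw [dist_eq_norm]
      exact hz y (hF'L hy)
    have hd := le_antisymm hd1 hd2
    by_contra hcon
    push Not at hcon
    have hxalg : IsAlgebraic (Subfield.closure ((F' : Set Ω) ∪ {algebraMap K Ω z}) : Subfield Ω)
        x := by
      apply algebraic_over_closure
      apply acl_mono _ hx
      rintro _ ⟨y, hy, rfl⟩
      rcases hy with hy | ⟨hy | hy, hys⟩
      · exact Or.inr ⟨y, Or.inl hy, rfl⟩
      · left
        rw [hy]
      · exact Or.inr ⟨y, Or.inr ⟨hy, hys⟩, rfl⟩
    have hsL : algebraMap K Ω s ∈ L := hL (mem_A (Or.inr hs))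
    have h1 := key' F' L hF'L (algebraMap K Ω z) (by rw [hd]; exact hz0)
      (fun l hl => by rw [hd]; exact hz l hl) x hxalg _ hsL
    rw [norm_sub_rev] at h1
    obtain ⟨y, hy, hxy⟩ := (infDist_lt_iff hne').1 (h1.trans_lt hcon)
    have h2 := (h s hs).2 y hy
    have h3 : ‖algebraMap K Ω s - y‖ < infDist (algebraMap K Ω s) (A k Ω S₀ : Set Ω) := by
      apply lt_of_le_of_lt (tri (algebraMap K Ω s) x y _ (le_max_left _ _) (le_max_right _ _))
      exact max_lt hcon (by rwa [dist_eq_norm] at hxy)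
    linarith

end Exchange

section Main

variable (k : Type u) (K : Type v) (Ω : Type w) [NormedField k] [NormedField K] [NormedField Ω]
  [NormedAlgebra k K] [NormedAlgebra k Ω] [NormedAlgebra K Ω] [IsScalarTower k K Ω]

theorem main (h : IsCompletedAlgClosure K Ω) : Topdeg k Ω K ≤ max (topdeg k Ω K) ℵ₁ := by
  classical
  have := h.ultrametric
  have := h.complete
  have := h.isAlgClosed
  set κ := max (topdeg k Ω K) ℵ₁ with hκ
  have hκ1 : ℵ₁ ≤ κ := le_max_right _ _
  have hκ0 : ℵ₀ ≤ κ := (aleph0_le_aleph 1).trans hκ1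
  by_contra hcon
  push Not at hcon
  -- the maximal orthogonal sets
  choose E hE using fun S₀ : Set K => exists_maximal (k := k) (Ω := Ω) S₀
  have hEcard : ∀ S, #(E S) ≤ κ := by
    intro S
    have h1 : TAIndep k (algebraMap K Ω '' E S) := (hE S).prop.indep
    refine le_trans ?_ (le_max_left _ _)
    exact le_ciSup (f := fun S : {S : Set K // TAIndep k (algebraMap K Ω '' S)} => #S.1)
      bddAbove_of_small ⟨E S, h1⟩
  -- the index set
  let I := (ℵ₁ : Cardinal.{v}).ord.ToType
  have hI : #I = ℵ₁ := mk_ord_toType _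
  have hIio : ∀ i : I, #(Set.Iio i) < ℵ₁ := fun i => by
    have := mk_Iio_lt i (by simp [I])
    rwa [hI] at this
  have hIcount : ∀ i : I, #(Set.Iic i) ≤ ℵ₀ := fun i => by
    have h1 : (Set.Iio i).Countable := by
      rw [← le_aleph0_iff_set_countable]
      exact lt_aleph_one_iff.1 (hIio i)
    rw [le_aleph0_iff_set_countable, ← Set.Iio_insert]
    exact h1.insert i
  have hbound : ∀ f : ℕ → I, ∃ i : I, ∀ n, f n < i := by
    intro f
    by_contra hb
    push Not at hb
    have h1 : (Set.univ : Set I) ⊆ ⋃ n, Set.Iic (f n) := by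
      intro i _
      obtain ⟨n, hn⟩ := hb i
      exact Set.mem_iUnion.2 ⟨n, hn⟩
    have h2 : (⋃ n, Set.Iic (f n)).Countable :=
      Set.countable_iUnion fun n => mk_le_aleph0_iff.1 (hIcount (f n))
    have h3 := mk_le_aleph0_iff.2 (h2.mono h1)
    rw [mk_univ, hI] at h3
    exact absurd h3 (not_le.2 (aleph0_lt_aleph_one))
  have hIne : Nonempty I := by
    rw [← mk_ne_zero_iff, hI]
    exact (aleph_pos 1).ne'
  -- the chain
  let C : I → Set K := chain E
  have hC : Monotone C := chain_mono E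
  let S : Set K := ⋃ i, C i
  have hCcard : ∀ i, #(C i) ≤ κ :=
    chain_card E κ hκ0 (fun i => (hIio i).le.trans hκ1) hEcard
  have hScard : #S ≤ κ := by
    calc #S ≤ #I * ⨆ i, #(C i) := mk_iUnion_le _
      _ ≤ κ * κ := mul_le_mul' (hI.le.trans hκ1) (ciSup_le' hCcard)
      _ = κ := mul_eq_self hκ0
  have hSgen : ¬ TAGenerates k (algebraMap K Ω '' S) := by
    intro hg
    have h1 : Topdeg k Ω K ≤ #S := csInf_le' ⟨S, hg, rfl⟩
    exact absurd (h1.trans hScard) (not_le.2 hcon)
  obtain ⟨z, hz⟩ : ∃ z : K, algebraMap K Ω z ∉ closure (A k Ω S : Set Ω) := by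
    by_contra hb
    push Not at hb
    apply hSgen
    have : IsAlgClosed (A k Ω S) := inferInstanceAs (IsAlgClosed (acl k _))
    show taClosure k _ = _
    rw [taClosure_eq]
    exact h.closure_eq_univ _ hb
  have hne : ∀ T : Set K, (A k Ω T : Set Ω).Nonempty := fun T => ⟨0, (A k Ω T).zero_mem⟩
  set r := infDist (algebraMap K Ω z) (A k Ω S : Set Ω) with hr
  have hr0 : 0 < r := by
    rcases (infDist_nonneg (x := algebraMap K Ω z) (s := (A k Ω S : Set Ω))).eq_or_lt with h0 | h0
    · exact absurd ((mem_closure_iff_infDist_zero (hne S)).2 h0.symm) hz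
    · exact h0
  -- the distance is already attained at some stage of the chain
  have happ : ∀ n : ℕ, ∃ i : I, ∃ x ∈ A k Ω (C i), ‖algebraMap K Ω z - x‖ < r + 1 / ((n : ℝ) + 1) := by
    intro n
    have hlt : r < r + 1 / ((n : ℝ) + 1) := by
      have : 0 < 1 / ((n : ℝ) + 1) := by positivity
      linarith
    obtain ⟨x, hx, hxz⟩ := (infDist_lt_iff (hne S)).1 hlt
    obtain ⟨i, hi⟩ := mem_A_iUnion C hC x hx
    exact ⟨i, x, hi, by rwa [dist_eq_norm] at hxz⟩
  choose f x hx hxz using happ
  obtain ⟨i, hi⟩ := hbound f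
  have hri : infDist (algebraMap K Ω z) (A k Ω (C i) : Set Ω) ≤ r := by
    apply le_of_forall_pos_le_add
    intro ε hε
    obtain ⟨n, hn⟩ := exists_nat_one_div_lt hε
    have h1 : x n ∈ A k Ω (C i) := A_mono (hC (hi n).le) (hx n)
    have h2 := infDist_le_dist_of_mem (x := algebraMap K Ω z) (s := (A k Ω (C i) : Set Ω)) h1
    rw [dist_eq_norm] at h2
    linarith [hxz n]
  have hCS : C i ⊆ S := Set.subset_iUnion C i
  have hri' : infDist (algebraMap K Ω z) (A k Ω (C i) : Set Ω) = r :=
    le_antisymm hri (infDist_le_infDist_of_subset (A_mono hCS) (hne _))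
  obtain ⟨j, hj⟩ := hbound (fun _ => i)
  have hES : C i ∪ E (C i) ⊆ S := (chain_lt E (hj 0)).trans (Set.subset_iUnion C j)
  have : IsAlgClosed (A k Ω S) := inferInstanceAs (IsAlgClosed (acl k _))
  have hins := (hE (C i)).prop.insert (A k Ω S) (A_mono hES) z (by rw [hri']; exact hr0)
    (fun l hl => by
      rw [hri', ← dist_eq_norm]
      exact infDist_le_dist_of_mem hl)
  have hmem : z ∈ E (C i) := (hE (C i)).le_of_ge hins (Set.subset_insert _ _) (Set.mem_insert _ _)
  apply hz
  exact subset_closure (mem_A (hES (Or.inr hmem)))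

end Main

end Pool.Agent.R950.TA
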