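import Pool.Agent.R950.TMStab

/-! Theta series near `τ₀`. -/

open Matrix Filter Topology

namespace Pool.Agent.R950.TM

noncomputable section

variable {g : ℕ}

/-! ### Summability -/

lemma summable_prod_fin : ∀ (g : ℕ) (h : Fin g → ℤ → ℝ), (∀ j n, 0 ≤ h j n) →
    (∀ j, Summable (h j)) → Summable (fun n : Fin g → ℤ => ∏ j, h j (n j)) := by
  intro g
  induction g with
  | zero =>
    intro h _ _
    exact Summable.of_finite
  | succ g ih =>
    intro h h0 hs
    have h1 : Summable (fun p : ℤ × (Fin g → ℤ) => h 0 p.1 * ∏ j : Fin g, h j.succ (p.2 j)) :=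
      Summable.mul_of_nonneg (f := h 0) (g := fun m : Fin g → ℤ => ∏ j : Fin g, h j.succ (m j))
        (hs 0) (ih (fun j => h j.succ) (fun j n => h0 j.succ n) (fun j => hs j.succ))
        (fun n => h0 0 n) (fun m => Finset.prod_nonneg fun j _ => h0 j.succ (m j))
    have key : (fun n : Fin (g + 1) → ℤ => ∏ j, h j (n j)) ∘
        (Fin.consEquiv (fun _ : Fin (g + 1) => ℤ)) =
        fun p : ℤ × (Fin g → ℤ) => h 0 p.1 * ∏ j : Fin g, h j.succ (p.2 j) := by
      funext p
      simp [Fin.prod_univ_succ, Fin.consEquiv]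
    rw [← (Fin.consEquiv (fun _ : Fin (g + 1) => ℤ)).summable_iff, key]
    exact h1

/-- `v = n + e/2` -/
def v (e : Fin g → Fin 2) (n : Fin g → ℤ) (j : Fin g) : ℝ := (n j : ℝ) + ((e j : ℕ) : ℝ) / 2

lemma summable_int : Summable (fun n : ℤ => 1 / (1 + (n : ℝ) ^ 2)) := by
  have h1 : Summable (fun n : ℤ => 1 / (n : ℝ) ^ 2) :=
    Real.summable_one_div_int_pow.2 one_lt_two
  have h2 : Summable (fun n : ℤ => if n = 0 then (1 : ℝ) else 0) :=
    (hasSum_ite_eq 0 (1 : ℝ)).summable
  refine Summable.of_nonneg_of_le (fun n => by positivity) (fun n => ?_) (h1.add h2)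
  by_cases h : n = 0
  · subst h; simp
  · simp only [if_neg h, add_zero]
    have : (0 : ℝ) < (n : ℝ) ^ 2 := by positivity
    apply one_div_le_one_div_of_le this
    linarith

/-- one-dimensional dominating terms -/
def h1 (e : Fin 2) (n : ℤ) : ℝ :=
  Real.exp (-((n : ℝ) + ((e : ℕ) : ℝ) / 2) ^ 2) * (1 + ((n : ℝ) + ((e : ℕ) : ℝ) / 2) ^ 2) ^ 4

lemma h1_nonneg (e : Fin 2) (n : ℤ) : 0 ≤ h1 e n := by
  unfold h1; positivity

lemma summable_h1 (e : Fin 2) : Summable (h1 e) := by
  refine Summable.of_nonneg_of_le (fun n => h1_nonneg e n) (fun n => ?_)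
    (summable_int.mul_left (2 * (120 * Real.exp 1)))
  unfold h1
  set c : ℝ := ((e : ℕ) : ℝ) / 2 with hc
  have hc0 : 0 ≤ c := by positivity
  have hc1 : c ≤ 1 / 2 := by
    have : (e : ℕ) ≤ 1 := by omega
    have : ((e : ℕ) : ℝ) ≤ 1 := by exact_mod_cast this
    rw [hc]; linarith
  set x : ℝ := ((n : ℝ) + c) ^ 2 with hx
  have hx0 : 0 ≤ x := sq_nonneg _
  have h3 : (1 + x) ^ 5 ≤ 120 * Real.exp (1 + x) := by
    have := Real.pow_div_factorial_le_exp (1 + x) (by positivity) 5
    have h5 : ((Nat.factorial 5 : ℕ) : ℝ) = 120 := by norm_num [Nat.factorial]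
    rw [h5] at this
    rw [div_le_iff₀ (by norm_num)] at this
    linarith
  have h4 : Real.exp (-x) * (1 + x) ^ 5 ≤ 120 * Real.exp 1 := by
    calc Real.exp (-x) * (1 + x) ^ 5 ≤ Real.exp (-x) * (120 * Real.exp (1 + x)) := by gcongr
      _ = 120 * (Real.exp (-x) * Real.exp (1 + x)) := by ring
      _ = 120 * Real.exp 1 := by rw [← Real.exp_add]; ring_nf
  have h5 : (1 + (n : ℝ) ^ 2) ≤ 2 * (1 + x) := by
    rw [hx]
    nlinarith [sq_nonneg ((n : ℝ) + 2 * c)]
  have h6 : (0 : ℝ) < 1 + (n : ℝ) ^ 2 := by positivity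
  rw [mul_one_div, le_div_iff₀ h6]
  calc Real.exp (-x) * (1 + x) ^ 4 * (1 + (n : ℝ) ^ 2) ≤
      Real.exp (-x) * (1 + x) ^ 4 * (2 * (1 + x)) := by gcongr
    _ = 2 * (Real.exp (-x) * (1 + x) ^ 5) := by ring
    _ ≤ _ := by linarith

/-- Gaussian weight -/
def W (u : Fin g → ℝ) : ℝ := Real.exp (-(2 * Real.pi * ∑ j, y j * u j ^ 2))

/-- polynomial weight -/
def Q (u : Fin g → ℝ) : ℝ := ∏ j, (1 + u j ^ 2)

lemma W_pos (u : Fin g → ℝ) : 0 < W u := Real.exp_pos _

lemma Q_ge (u : Fin g → ℝ) (j : Fin g) : u j ^ 2 ≤ Q u := by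
  unfold Q
  rw [← Finset.mul_prod_erase Finset.univ (fun j => 1 + u j ^ 2) (Finset.mem_univ j)]
  have : 1 ≤ ∏ x ∈ Finset.univ.erase j, (1 + u x ^ 2) :=
    Finset.one_le_prod (fun i _ => by have := sq_nonneg (u i); linarith)
  nlinarith [sq_nonneg (u j)]

lemma one_le_Q (u : Fin g → ℝ) : 1 ≤ Q u := by
  unfold Q
  exact Finset.one_le_prod (fun i _ => by have := sq_nonneg (u i); linarith)

lemma summable_WQ (e : Fin g → Fin 2) : Summable (fun n => W (v e n) * Q (v e n) ^ 4) := by
  have h := summable_prod_fin g (fun j n => h1 (e j) n) (fun j n => h1_nonneg _ _)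
    (fun j => summable_h1 _)
  refine Summable.of_nonneg_of_le (fun n => ?_) (fun n => ?_) h
  · have := W_pos (v e n); have := one_le_Q (v e n); positivity
  · unfold W Q h1
    rw [Finset.prod_mul_distrib, ← Real.exp_sum, ← Finset.prod_pow]
    have h2 : -(2 * Real.pi * ∑ j, y j * v e n j ^ 2) ≤
        ∑ x, -((n x : ℝ) + ((e x : ℕ) : ℝ) / 2) ^ 2 := by
      rw [Finset.mul_sum, ← Finset.sum_neg_distrib]
      apply Finset.sum_le_sum
      intro j _
      have e1 := one_le_y j
      have e2 := Real.pi_gt_three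
      have e3 : 1 ≤ 2 * Real.pi * y j := by nlinarith
      have e4 := sq_nonneg (v e n j)
      show -(2 * Real.pi * (y j * v e n j ^ 2)) ≤ -(v e n j) ^ 2
      nlinarith
    apply mul_le_mul (Real.exp_le_exp.2 h2) (le_refl _) _ (Real.exp_pos _).le
    exact Finset.prod_nonneg fun j _ => by positivity

lemma summable_W (e : Fin g → Fin 2) : Summable (fun n => W (v e n)) := by
  refine Summable.of_nonneg_of_le (fun n => (W_pos _).le) (fun n => ?_) (summable_WQ e)
  have h1 := W_pos (v e n)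
  have h2 := one_le_Q (v e n)
  have h3 : 1 ≤ Q (v e n) ^ 4 := one_le_pow₀ h2
  nlinarith

/-! ### Sign changes -/

/-- the involution of the lattice inducing `v_j ↦ -v_j` -/
def flip (e : Fin g → Fin 2) (j : Fin g) : (Fin g → ℤ) ≃ (Fin g → ℤ) where
  toFun n := Function.update n j (-(n j) - (e j : ℕ))
  invFun n := Function.update n j (-(n j) - (e j : ℕ))
  left_inv n := by simp
  right_inv n := by simp

lemma v_flip (e : Fin g → Fin 2) (j : Fin g) (n : Fin g → ℤ) :
    v e (flip e j n) = Function.update (v e n) j (-(v e n j)) := by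
  funext k
  unfold v flip
  by_cases h : k = j
  · subst h
    simp
    ring
  · simp [Function.update_of_ne h]

lemma flip_avg (e : Fin g → Fin 2) (j : Fin g) (H H' : (Fin g → ℝ) → ℂ)
    (hs : Summable (fun n => H (v e n)))
    (h : ∀ u, H u + H (Function.update u j (-(u j))) = 2 * H' u) :
    ∑' n, H (v e n) = ∑' n, H' (v e n) := by
  have h1 : ∑' n, H (v e n) = ∑' n, H (Function.update (v e n) j (-(v e n j))) := by
    rw [← (flip e j).tsum_eq (fun n => H (v e n))]
    simp only [v_flip]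
  have h2 : Summable (fun n => H (Function.update (v e n) j (-(v e n j)))) := by
    have key : (fun n => H (v e n)) ∘ (flip e j) =
        fun n => H (Function.update (v e n) j (-(v e n j))) := by
      funext n
      simp only [Function.comp_apply, v_flip]
    rw [← key]
    exact (flip e j).summable_iff.2 hs
  have h3 : 2 * ∑' n, H (v e n) = 2 * ∑' n, H' (v e n) := by
    calc 2 * ∑' n, H (v e n) = ∑' n, H (v e n) + ∑' n, H (v e n) := by ring
      _ = ∑' n, H (v e n) + ∑' n, H (Function.update (v e n) j (-(v e n j))) := by rw [← h1]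
      _ = ∑' n, (H (v e n) + H (Function.update (v e n) j (-(v e n j)))) := (hs.tsum_add h2).symm
      _ = ∑' n, 2 * H' (v e n) := by simp only [h]
      _ = 2 * ∑' n, H' (v e n) := tsum_mul_left
  exact mul_left_cancel₀ two_ne_zero h3

lemma W_update (u : Fin g → ℝ) (j : Fin g) : W (Function.update u j (-(u j))) = W u := by
  unfold W
  congr 3
  apply Finset.sum_congr rfl
  intro k _
  by_cases h : k = j
  · subst h; simp
  · rw [Function.update_of_ne h]

/-- `exp(iθ)` for real `θ` -/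
def E (x : ℝ) : ℂ := Complex.exp (Complex.I * (x : ℂ))

lemma norm_E (x : ℝ) : ‖E x‖ = 1 := by
  unfold E
  rw [mul_comm]
  exact Complex.norm_exp_ofReal_mul_I x

lemma E_add (x y : ℝ) : E (x + y) = E x * E y := by
  unfold E
  rw [← Complex.exp_add]
  push_cast
  ring_nf

lemma E_eq (x : ℝ) : E x = (Real.cos x : ℂ) + Complex.I * (Real.sin x : ℂ) := by
  unfold E
  rw [mul_comm, Complex.exp_mul_I]
  push_cast
  ring

lemma E_neg (x : ℝ) : E (-x) = (Real.cos x : ℂ) - Complex.I * (Real.sin x : ℂ) := by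
  rw [E_eq, Real.cos_neg, Real.sin_neg]
  push_cast
  ring

end

end Pool.Agent.R950.TM
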