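import Mathlib

/-!
# The second-order theta constant map on `A_g(2,4)`: definitions

Everything follows the problem file MP_2bf81a_ag.  Points of `A_g(2,4)` are represented by points of
the Siegel upper half-space, holomorphic functions on open subsets of `A_g(2,4)` by holomorphic
functions on open subsets of the Siegel upper half-space which take the same value at
`Γ_g(2,4)`-equivalent points, and germs of holomorphic functions on projective space by germs of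
holomorphic functions on the affine cone which are homogeneous of degree `0`.
-/

open Matrix Filter Topology

namespace Pool.Agent.R950.TM

noncomputable section

/-- The Siegel upper half-space `H_g`: complex symmetric `g × g` matrices with positive definite
imaginary part. -/
def Siegel (g : ℕ) : Set (Matrix (Fin g) (Fin g) ℂ) :=
  {τ | τ.IsSymm ∧ (τ.map Complex.im).PosDef}

/-- The group `Γ_g(2,4)`: integral symplectic matrices `γ = (a b; c d)` with `γ ≡ 1 mod 2` and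
`diag(aᵗb) ≡ diag(cᵗd) ≡ 0 mod 4`. -/
def Gamma24 (g : ℕ) : Set (Matrix (Fin g ⊕ Fin g) (Fin g ⊕ Fin g) ℤ) :=
  {γ | γ ∈ Matrix.symplecticGroup (Fin g) ℤ ∧ (∀ i j, (2 : ℤ) ∣ (γ - 1) i j) ∧
    (∀ i, (4 : ℤ) ∣ (γ.toBlocks₁₁ᵀ * γ.toBlocks₁₂) i i) ∧
    (∀ i, (4 : ℤ) ∣ (γ.toBlocks₂₁ᵀ * γ.toBlocks₂₂) i i)}

/-- An integer matrix viewed as a complex matrix. -/
def toC {g : ℕ} (m : Matrix (Fin g) (Fin g) ℤ) : Matrix (Fin g) (Fin g) ℂ :=
  m.map (fun x : ℤ => (x : ℂ))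

/-- The action `τ ↦ (aτ + b)(cτ + d)⁻¹`. -/
def act {g : ℕ} (γ : Matrix (Fin g ⊕ Fin g) (Fin g ⊕ Fin g) ℤ) (τ : Matrix (Fin g) (Fin g) ℂ) :
    Matrix (Fin g) (Fin g) ℂ :=
  (toC γ.toBlocks₁₁ * τ + toC γ.toBlocks₁₂) * (toC γ.toBlocks₂₁ * τ + toC γ.toBlocks₂₂)⁻¹

/-- The theta function with characteristic
`θ[ε, δ](τ, z) = ∑_{n ∈ ℤ^g} exp(π i (n+ε)ᵗ (τ (n+ε) + 2 (z+δ)))`. -/
def theta {g : ℕ} (ε δ : Fin g → ℂ) (τ : Matrix (Fin g) (Fin g) ℂ) (z : Fin g → ℂ) : ℂ :=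
  ∑' n : Fin g → ℤ, Complex.exp (Real.pi * Complex.I *
    ((fun j => (n j : ℂ) + ε j) ⬝ᵥ
      (τ *ᵥ (fun j => (n j : ℂ) + ε j) + (2 : ℂ) • (z + δ))))

/-- The second-order theta constant `Θ[ε](τ) = θ[ε, 0](2τ, 0)`, where
`ε ∈ ½ℤ^g/ℤ^g` is represented by `e/2`, `e ∈ {0,1}^g`. -/
def Theta {g : ℕ} (e : Fin g → Fin 2) (τ : Matrix (Fin g) (Fin g) ℂ) : ℂ :=
  theta (fun j => (((e j : Fin 2) : ℕ) : ℂ) / 2) 0 ((2 : ℂ) • τ) 0

/-- The vector of all `2^g` second-order theta constants: homogeneous coordinates of `Th(τ)`. -/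
def ThVec {g : ℕ} (τ : Matrix (Fin g) (Fin g) ℂ) : (Fin g → Fin 2) → ℂ := fun e => Theta e τ

/-- `τ` and `τ'` represent the same point of `A_g(2,4) = H_g/Γ_g(2,4)`. -/
def SamePoint (g : ℕ) (τ τ' : Matrix (Fin g) (Fin g) ℂ) : Prop :=
  ∃ γ ∈ Gamma24 g, act γ τ = τ'

/-- `f` is (represents) a holomorphic function on the open subset `π(O ∩ H_g)` of `A_g(2,4)`,
where `O` is an open set of matrices and `π : H_g → A_g(2,4)` is the projection: `f` is holomorphic on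
the open subset `O ∩ H_g` of `H_g`, and takes equal values at points of `O ∩ H_g` with the same
image in `A_g(2,4)`. -/
def HolOn (g : ℕ) (O : Set (Matrix (Fin g) (Fin g) ℂ)) (f : Matrix (Fin g) (Fin g) ℂ → ℂ) : Prop :=
  DifferentiableOn ℂ f (O ∩ Siegel g) ∧
    ∀ τ ∈ O ∩ Siegel g, ∀ τ' ∈ O ∩ Siegel g, SamePoint g τ τ' → f τ = f τ'

/-- Near the point `π(τ₀)` of `A_g(2,4)` the function `f` is the pull-back under `Th` of a
holomorphic function on a neighbourhood of `Th(τ₀)` in projective space, i.e. of a holomorphic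
function `Φ` on a neighbourhood of the vector `ThVec τ₀` which is homogeneous of degree `0`. -/
def IsPullback (g : ℕ) (τ₀ : Matrix (Fin g) (Fin g) ℂ) (f : Matrix (Fin g) (Fin g) ℂ → ℂ) : Prop :=
  ∃ Φ : ((Fin g → Fin 2) → ℂ) → ℂ, AnalyticAt ℂ Φ (ThVec τ₀) ∧
    (∀ᶠ x in 𝓝 (ThVec τ₀), ∀ᶠ c in 𝓝 (1 : ℂ), Φ (c • x) = Φ x) ∧
    ∀ᶠ τ in 𝓝[Siegel g] τ₀, f τ = Φ (ThVec τ)

/-- The pull-back map on germs of holomorphic functions
`O_{P, Th(τ₀)} → O_{A_g(2,4), π(τ₀)}` is surjective. (If `Th` is an isomorphism of complex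
analytic spaces onto its image near `π(τ₀)` this holds, since germs of holomorphic functions on an
analytic subspace of projective space are restrictions of germs on projective space.) -/
def GermSurjective (g : ℕ) (τ₀ : Matrix (Fin g) (Fin g) ℂ) : Prop :=
  ∀ O : Set (Matrix (Fin g) (Fin g) ℂ), IsOpen O → τ₀ ∈ O →
    ∀ f : Matrix (Fin g) (Fin g) ℂ → ℂ, HolOn g O f → IsPullback g τ₀ f

/-- `Th : A_g(2,4) → P^{2^g-1}` is an embedding: it is injective and an isomorphism of complex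
analytic spaces onto its image, i.e. it is a homeomorphism onto its image and all germs of
holomorphic functions on `A_g(2,4)` are pull-backs. -/
structure IsEmbedding (g : ℕ) : Prop where
  /-- `Th` is injective. -/
  injective : ∀ τ ∈ Siegel g, ∀ τ' ∈ Siegel g,
    (∃ c : ℂ, c ≠ 0 ∧ ThVec τ' = c • ThVec τ) → SamePoint g τ τ'
  /-- `Th` is open onto its image. -/
  isOpen : ∀ τ₀ ∈ Siegel g, ∀ O : Set (Matrix (Fin g) (Fin g) ℂ), IsOpen O → τ₀ ∈ O →
    ∃ N : Set ((Fin g → Fin 2) → ℂ), IsOpen N ∧ ThVec τ₀ ∈ N ∧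
      ∀ τ ∈ Siegel g, (∃ c : ℂ, c ≠ 0 ∧ c • ThVec τ ∈ N) → ∃ τ' ∈ O ∩ Siegel g, SamePoint g τ τ'
  /-- Germs of holomorphic functions are pull-backs. -/
  germs : ∀ τ₀ ∈ Siegel g, GermSurjective g τ₀

end

end Pool.Agent.R950.TM
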