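import Pool.Agent.R950.TMStab

/-! Proper discontinuity near `τ₀`. -/

open Matrix Filter Topology

namespace Pool.Agent.R950.TM

noncomputable section

variable {g : ℕ}

/-- closeness to `τ₀` -/
def Near (τ : Matrix (Fin g) (Fin g) ℂ) : Prop :=
  ∀ j k, ‖τ j k - tau0 g j k‖ ≤ 1 / (2 * g : ℝ)

lemma tau0_im (j k : Fin g) : (tau0 g j k).im = if j = k then y j else 0 := by
  unfold tau0
  by_cases h : j = k
  · subst h; simp
  · rw [diagonal_apply_ne _ h, if_neg h]; simp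

lemma tau0_re (j k : Fin g) : (tau0 g j k).re = 0 := by
  unfold tau0
  by_cases h : j = k
  · subst h; simp
  · rw [diagonal_apply_ne _ h]; simp

lemma quad_lower {τ : Matrix (Fin g) (Fin g) ℂ} (hτ : Near τ) (u : Fin g → ℝ) :
    (1 / 2 : ℝ) * ∑ j, u j ^ 2 ≤ ∑ j, ∑ k, u j * (τ j k).im * u k := by
  rcases Nat.eq_zero_or_pos g with rfl | hg
  · simp
  have hg' : (0 : ℝ) < g := by exact_mod_cast hg
  have h1 : ∀ j k, (if j = k then u j ^ 2 else 0) - 1 / (2 * g : ℝ) * ((u j ^ 2 + u k ^ 2) / 2) ≤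
      u j * (τ j k).im * u k := by
    intro j k
    have h2 : |(τ j k).im - (tau0 g j k).im| ≤ 1 / (2 * g : ℝ) := by
      rw [← Complex.sub_im]
      exact (Complex.abs_im_le_norm _).trans (hτ j k)
    have h3 : |((τ j k).im - (tau0 g j k).im) * (u j * u k)| ≤
        1 / (2 * g : ℝ) * ((u j ^ 2 + u k ^ 2) / 2) := by
      rw [abs_mul]
      apply mul_le_mul h2 _ (abs_nonneg _) (by positivity)
      rw [abs_le]; constructor <;> nlinarith [sq_nonneg (u j - u k), sq_nonneg (u j + u k)]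
    have h4 := (abs_le.1 h3).1
    rw [tau0_im] at h4
    by_cases h : j = k
    · subst h
      simp only [if_true] at h4 ⊢
      have := one_le_y j
      nlinarith [mul_nonneg (sub_nonneg.2 this) (sq_nonneg (u j))]
    · simp only [if_neg h] at h4 ⊢
      nlinarith
  have h5 : ∑ j, ∑ k, ((if j = k then u j ^ 2 else 0) -
      1 / (2 * g : ℝ) * ((u j ^ 2 + u k ^ 2) / 2)) ≤ ∑ j, ∑ k, u j * (τ j k).im * u k :=
    Finset.sum_le_sum fun j _ => Finset.sum_le_sum fun k _ => h1 j k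
  refine le_trans (le_of_eq ?_) h5
  simp only [Finset.sum_sub_distrib, Finset.sum_ite_eq, Finset.mem_univ, if_true,
    ← Finset.mul_sum, ← Finset.sum_div, Finset.sum_add_distrib, Finset.sum_const,
    Finset.card_univ, Fintype.card_fin, nsmul_eq_mul]
  field_simp
  ring

/-- bounding integer matrices `p, q` from a bound for `pτ + q` -/
lemma int_bound {τ : Matrix (Fin g) (Fin g) ℂ} (hτ : Near τ) (p q : Matrix (Fin g) (Fin g) ℤ)
    {B : ℝ} (hB : 0 ≤ B) (h : ∀ j k, ‖(toC p * τ + toC q) j k‖ ≤ B) :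
    (∀ j k, |(p j k : ℝ)| ≤ 4 * g * B ^ 2) ∧ (∀ j k, |(q j k : ℝ)| ≤ B + g * (4 * g * B ^ 2)) := by
  rcases Nat.eq_zero_or_pos g with rfl | hg
  · exact ⟨fun j => j.elim0, fun j => j.elim0⟩
  have hg' : (1 : ℝ) ≤ g := by exact_mod_cast hg
  have hp : ∀ j k, |(p j k : ℝ)| ≤ 4 * g * B ^ 2 := by
    intro j k
    have h1 := quad_lower hτ (fun l => (p j l : ℝ))
    have h2 : ∀ k, (∑ l, (p j l : ℝ) * (τ l k).im) = ((toC p * τ + toC q) j k).im := by
      intro k
      simp [Matrix.mul_apply, toC]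
    have h3 : ∑ l, ∑ k, (p j l : ℝ) * (τ l k).im * (p j k : ℝ) ≤
        ∑ k, (1 / 4 * (p j k : ℝ) ^ 2 + B ^ 2) := by
      rw [Finset.sum_comm]
      apply Finset.sum_le_sum
      intro k _
      rw [← Finset.sum_mul, h2]
      have h4 : |((toC p * τ + toC q) j k).im| ≤ B :=
        (Complex.abs_im_le_norm _).trans (h j k)
      have h5 : |((toC p * τ + toC q) j k).im| ^ 2 ≤ B ^ 2 :=
        pow_le_pow_left₀ (abs_nonneg _) h4 2
      rw [sq_abs] at h5
      nlinarith [sq_nonneg ((1 / 2 : ℝ) * (p j k : ℝ) - ((toC p * τ + toC q) j k).im)]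
    rw [Finset.sum_add_distrib, ← Finset.mul_sum, Finset.sum_const, Finset.card_univ,
      Fintype.card_fin, nsmul_eq_mul] at h3
    have h6 : ∑ l, (p j l : ℝ) ^ 2 ≤ 4 * g * B ^ 2 := by linarith
    have h7 : (p j k : ℝ) ^ 2 ≤ ∑ l, (p j l : ℝ) ^ 2 :=
      Finset.single_le_sum (f := fun l => (p j l : ℝ) ^ 2) (fun l _ => sq_nonneg _)
        (Finset.mem_univ k)
    have h8 : |(p j k : ℝ)| ≤ (p j k : ℝ) ^ 2 := by
      have : |p j k| ≤ (p j k) ^ 2 := by
        rcases eq_or_ne (p j k) 0 with h | h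
        · rw [h]; simp
        · have h9 := Int.one_le_abs h
          rw [← sq_abs]; nlinarith
      exact_mod_cast this
    linarith
  refine ⟨hp, ?_⟩
  intro j k
  have h1 : (q j k : ℝ) = ((toC p * τ + toC q) j k).re - ∑ l, (p j l : ℝ) * (τ l k).re := by
    simp [Matrix.mul_apply, toC]
  rw [h1]
  have h2 : |((toC p * τ + toC q) j k).re| ≤ B := (Complex.abs_re_le_norm _).trans (h j k)
  have h3 : |∑ l, (p j l : ℝ) * (τ l k).re| ≤ g * (4 * g * B ^ 2) := by
    refine (Finset.abs_sum_le_sum_abs _ _).trans ?_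
    have : ∀ l ∈ (Finset.univ : Finset (Fin g)), |(p j l : ℝ) * (τ l k).re| ≤ 4 * g * B ^ 2 := by
      intro l _
      rw [abs_mul]
      have h4 : |(τ l k).re| ≤ 1 := by
        have h5 : |(τ l k).re - (tau0 g l k).re| ≤ 1 / (2 * g : ℝ) := by
          rw [← Complex.sub_re]
          exact (Complex.abs_re_le_norm _).trans (hτ l k)
        rw [tau0_re, sub_zero] at h5
        refine h5.trans ?_
        rw [div_le_one (by positivity)]
        linarith
      calc _ ≤ 4 * g * B ^ 2 * 1 := mul_le_mul (hp j l) h4 (abs_nonneg _) (by positivity)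
        _ = _ := by ring
    refine (Finset.sum_le_sum this).trans ?_
    simp
  calc _ ≤ |((toC p * τ + toC q) j k).re| + |∑ l, (p j l : ℝ) * (τ l k).re| := abs_sub _ _
    _ ≤ _ := by linarith

/-- bound for `cτ + d` -/
lemma M_bound {γ : Matrix (Fin g ⊕ Fin g) (Fin g ⊕ Fin g) ℤ}
    (h : γ ∈ Matrix.symplecticGroup (Fin g) ℤ) {τ τ' : Matrix (Fin g) (Fin g) ℂ}
    (hs : τ.IsSymm) (hs' : τ'.IsSymm) (hτ : Near τ) (hτ' : Near τ')
    (hr : Rel γ τ τ') (j k : Fin g) :
    ‖(toC γ.toBlocks₂₁ * τ + toC γ.toBlocks₂₂) j k‖ ≤ 2 * (∑ l : Fin g, y l + 1) := by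
  have h1 := im_rel h hr
  set M := toC γ.toBlocks₂₁ * τ + toC γ.toBlocks₂₂ with hM
  have hsub : ∀ {σ : Matrix (Fin g) (Fin g) ℂ}, σ.IsSymm → ∀ j k,
      (σ - σᴴ) j k = 2 * Complex.I * ((σ j k).im : ℂ) := by
    intro σ hσ j k
    rw [Matrix.sub_apply, Matrix.conjTranspose_apply, hσ.apply]
    apply Complex.ext <;> simp
    ring
  have h2 := congrFun (congrFun h1 k) k
  rw [hsub hs, Matrix.mul_apply] at h2
  simp only [Matrix.mul_apply, Matrix.conjTranspose_apply, hsub hs'] at h2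
  have h3 : ∑ l, ∑ m, (star (M m k)) * ((τ' m l).im : ℂ) * M l k = ((τ k k).im : ℂ) := by
    have hne : (2 * Complex.I) ≠ 0 := by simp
    apply mul_left_cancel₀ hne
    rw [← h2, Finset.mul_sum]
    apply Finset.sum_congr rfl
    intro l _
    rw [Finset.mul_sum, Finset.sum_mul]
    apply Finset.sum_congr rfl
    intro m _
    ring
  have h4 := congrArg Complex.re h3
  simp only [Complex.re_sum, Complex.ofReal_re] at h4
  have h5 : ∀ l m, (star (M m k) * ((τ' m l).im : ℂ) * M l k).re =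
      (M m k).re * (τ' m l).im * (M l k).re + (M m k).im * (τ' m l).im * (M l k).im := by
    intro l m
    simp
  simp only [h5] at h4
  rw [Finset.sum_comm] at h4
  simp only [Finset.sum_add_distrib] at h4
  have q1 := quad_lower hτ' (fun l => (M l k).re)
  have q2 := quad_lower hτ' (fun l => (M l k).im)
  have s1 : (M j k).re ^ 2 ≤ ∑ l, (M l k).re ^ 2 :=
    Finset.single_le_sum (f := fun l => (M l k).re ^ 2) (fun l _ => sq_nonneg _)
      (Finset.mem_univ j)
  have s2 : (M j k).im ^ 2 ≤ ∑ l, (M l k).im ^ 2 :=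
    Finset.single_le_sum (f := fun l => (M l k).im ^ 2) (fun l _ => sq_nonneg _)
      (Finset.mem_univ j)
  have hk : (τ k k).im ≤ ∑ l : Fin g, y l + 1 := by
    have h6 : |(τ k k).im - (tau0 g k k).im| ≤ 1 / (2 * g : ℝ) := by
      rw [← Complex.sub_im]
      exact (Complex.abs_im_le_norm _).trans (hτ k k)
    rw [tau0_im, if_pos rfl] at h6
    have h7 : y k ≤ ∑ l : Fin g, y l :=
      Finset.single_le_sum (f := fun l : Fin g => y l)
        (fun l _ => by have := one_le_y l; linarith) (Finset.mem_univ k)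
    have hg : 0 < g := k.pos
    have hg' : (1 : ℝ) ≤ g := by exact_mod_cast hg
    have h8 : 1 / (2 * g : ℝ) ≤ 1 := by
      rw [div_le_one (by positivity)]
      linarith
    have := (abs_le.1 h6).2
    linarith
  have hn : ‖M j k‖ ^ 2 ≤ 2 * (∑ l : Fin g, y l + 1) := by
    rw [← Complex.normSq_eq_norm_sq, Complex.normSq_apply]
    nlinarith
  have hS : 0 ≤ ∑ l : Fin g, y l := Finset.sum_nonneg
    (fun l _ => by have := one_le_y l; linarith)
  have : ‖M j k‖ ^ 2 ≤ (2 * (∑ l : Fin g, y l + 1)) ^ 2 := by nlinarith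
  exact le_of_sq_le_sq this (by positivity)

/-- bound for `aτ + b` -/
lemma N_bound {γ : Matrix (Fin g ⊕ Fin g) (Fin g ⊕ Fin g) ℤ}
    (h : γ ∈ Matrix.symplecticGroup (Fin g) ℤ) {τ τ' : Matrix (Fin g) (Fin g) ℂ}
    (hs : τ.IsSymm) (hs' : τ'.IsSymm) (hτ : Near τ) (hτ' : Near τ')
    (hr : Rel γ τ τ') (j k : Fin g) :
    ‖(toC γ.toBlocks₁₁ * τ + toC γ.toBlocks₁₂) j k‖ ≤
      g * ((∑ l : Fin g, y l + 1) * (2 * (∑ l : Fin g, y l + 1))) := by
  have h1 := M_bound h hs hs' hτ hτ' hr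
  unfold Rel at hr
  rw [← hr, Matrix.mul_apply]
  refine (norm_sum_le _ _).trans ?_
  have : ∀ l ∈ (Finset.univ : Finset (Fin g)),
      ‖τ' j l * (toC γ.toBlocks₂₁ * τ + toC γ.toBlocks₂₂) l k‖ ≤
      (∑ l : Fin g, y l + 1) * (2 * (∑ l : Fin g, y l + 1)) := by
    intro l _
    rw [norm_mul]
    apply mul_le_mul _ (h1 l k) (norm_nonneg _) _
    · have h2 : ‖tau0 g j l‖ ≤ ∑ l : Fin g, y l := by
        unfold tau0
        by_cases h : j = l
        · subst h
          have h7 : y j ≤ ∑ l : Fin g, y l :=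
            Finset.single_le_sum (f := fun l : Fin g => y l)
              (fun l _ => by have := one_le_y l; linarith) (Finset.mem_univ j)
          have : 0 ≤ y j := by have := one_le_y j; linarith
          simpa [abs_of_nonneg this] using h7
        · rw [diagonal_apply_ne _ h]
          simp only [norm_zero]
          exact Finset.sum_nonneg (fun l _ => by have := one_le_y l; linarith)
      have h3 := hτ' j l
      have hg : 0 < g := j.pos
      have hg' : (1 : ℝ) ≤ g := by exact_mod_cast hg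
      have h8 : 1 / (2 * g : ℝ) ≤ 1 := by
        rw [div_le_one (by positivity)]
        linarith
      calc ‖τ' j l‖ = ‖(τ' j l - tau0 g j l) + tau0 g j l‖ := by rw [sub_add_cancel]
        _ ≤ ‖τ' j l - tau0 g j l‖ + ‖tau0 g j l‖ := norm_add_le _ _
        _ ≤ _ := by linarith
    · have := Finset.sum_nonneg (s := (Finset.univ : Finset (Fin g))) (f := fun l => y l)
        (fun l _ => by have := one_le_y l; linarith)
      linarith
  refine (Finset.sum_le_sum this).trans ?_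
  simp

/-- all entries of `γ` are bounded -/
lemma gamma_bound (g : ℕ) : ∃ C : ℤ, ∀ γ : Matrix (Fin g ⊕ Fin g) (Fin g ⊕ Fin g) ℤ,
    γ ∈ Matrix.symplecticGroup (Fin g) ℤ → ∀ τ τ' : Matrix (Fin g) (Fin g) ℂ,
    τ.IsSymm → τ'.IsSymm → Near τ → Near τ' → Rel γ τ τ' → ∀ i j, γ i j ∈ Set.Icc (-C) C := by
  set S : ℝ := ∑ l : Fin g, y l + 1 with hS
  have hS0 : 0 ≤ S := by
    have := Finset.sum_nonneg (s := (Finset.univ : Finset (Fin g))) (f := fun l => y l)
      (fun l _ => by have := one_le_y l; linarith)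
    rw [hS]; linarith
  set B1 : ℝ := 2 * S
  set B2 : ℝ := g * (S * (2 * S))
  have hB1 : 0 ≤ B1 := by positivity
  have hB2 : 0 ≤ B2 := by positivity
  set D : ℝ := 4 * g * B1 ^ 2 + (B1 + g * (4 * g * B1 ^ 2)) + 4 * g * B2 ^ 2 +
    (B2 + g * (4 * g * B2 ^ 2)) with hD
  have p1 : 0 ≤ 4 * g * B1 ^ 2 := by positivity
  have p2 : 0 ≤ B1 + g * (4 * g * B1 ^ 2) := by positivity
  have p3 : 0 ≤ 4 * g * B2 ^ 2 := by positivity
  have p4 : 0 ≤ B2 + g * (4 * g * B2 ^ 2) := by positivity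
  refine ⟨⌈D⌉, ?_⟩
  intro γ h τ τ' hs hs' hτ hτ' hr
  obtain ⟨hc, hd⟩ := int_bound hτ γ.toBlocks₂₁ γ.toBlocks₂₂ hB1
    (fun j k => M_bound h hs hs' hτ hτ' hr j k)
  obtain ⟨ha, hb⟩ := int_bound hτ γ.toBlocks₁₁ γ.toBlocks₁₂ hB2
    (fun j k => N_bound h hs hs' hτ hτ' hr j k)
  have fin : ∀ x : ℤ, |(x : ℝ)| ≤ D → x ∈ Set.Icc (-⌈D⌉) ⌈D⌉ := by
    intro x hx
    obtain ⟨h1, h2⟩ := abs_le.1 hx
    constructor
    · have : (-x : ℤ) ≤ ⌈D⌉ := by
        have : ((-x : ℤ) : ℝ) ≤ ⌈D⌉ := by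
          push_cast
          have := Int.le_ceil D
          linarith
        exact_mod_cast this
      linarith
    · have : (x : ℝ) ≤ ⌈D⌉ := h2.trans (Int.le_ceil D)
      exact_mod_cast this
  intro i j
  apply fin
  rcases i with i | i <;> rcases j with j | j
  · have := ha i j
    simp only [toBlocks₁₁, of_apply] at this
    linarith
  · have := hb i j
    simp only [toBlocks₁₂, of_apply] at this
    linarith
  · have := hc i j
    simp only [toBlocks₂₁, of_apply] at this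
    linarith
  · have := hd i j
    simp only [toBlocks₂₂, of_apply] at this
    linarith

lemma near_eventually (g : ℕ) : ∀ᶠ τ in 𝓝 (tau0 g), Near τ := by
  unfold Near
  rw [eventually_all]
  intro j
  rw [eventually_all]
  intro k
  have hg : 0 < g := j.pos
  have hg' : (1 : ℝ) ≤ g := by exact_mod_cast hg
  have h1 : Tendsto (fun τ : Matrix (Fin g) (Fin g) ℂ => ‖τ j k - tau0 g j k‖) (𝓝 (tau0 g))
      (𝓝 0) := by
    have : Continuous (fun τ : Matrix (Fin g) (Fin g) ℂ => ‖τ j k - tau0 g j k‖) := by fun_prop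
    have := this.tendsto (tau0 g)
    simpa using this
  have h2 : (0 : ℝ) < 1 / (2 * g : ℝ) := by positivity
  filter_upwards [h1.eventually (gt_mem_nhds h2)] with τ hτ using hτ.le

/-- There is an open neighbourhood `O` of `τ₀` such that two points of `O ∩ H_g` can only be
equivalent under `Γ_g(2,4)` by a matrix of the stabilizer of `τ₀`. -/
lemma exists_open (g : ℕ) : ∃ O : Set (Matrix (Fin g) (Fin g) ℂ), IsOpen O ∧ tau0 g ∈ O ∧
    ∀ τ ∈ O, ∀ τ' ∈ O, τ.IsSymm → τ'.IsSymm → ∀ γ ∈ Gamma24 g, Rel γ τ τ' →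
      Rel γ (tau0 g) (tau0 g) := by
  obtain ⟨C, hC⟩ := gamma_bound g
  set F : Set (Matrix (Fin g ⊕ Fin g) (Fin g ⊕ Fin g) ℤ) :=
    {γ | ∀ i j, γ i j ∈ Set.Icc (-C) C} with hF
  have hfin : F.Finite := by
    have := Set.Finite.pi' (ι := Fin g ⊕ Fin g) (κ := fun _ => Fin g ⊕ Fin g → ℤ)
      (t := fun _ => {f | ∀ j, f j ∈ Set.Icc (-C) C})
      (fun i => Set.Finite.pi' fun j => Set.finite_Icc (-C) C)
    exact this
  have hcl : ∀ γ ∈ F, ∀ᶠ p in 𝓝 ((tau0 g), (tau0 g)),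
      (Rel γ p.1 p.2 → Rel γ (tau0 g) (tau0 g)) := by
    intro γ _
    by_cases h : Rel γ (tau0 g) (tau0 g)
    · exact Eventually.of_forall fun _ _ => h
    · have hcont : Continuous (fun p : Matrix (Fin g) (Fin g) ℂ × Matrix (Fin g) (Fin g) ℂ =>
          p.2 * (toC γ.toBlocks₂₁ * p.1 + toC γ.toBlocks₂₂) -
            (toC γ.toBlocks₁₁ * p.1 + toC γ.toBlocks₁₂)) := by fun_prop
      have hne : (tau0 g) * (toC γ.toBlocks₂₁ * (tau0 g) + toC γ.toBlocks₂₂) -
            (toC γ.toBlocks₁₁ * (tau0 g) + toC γ.toBlocks₁₂) ≠ 0 := by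
        rw [sub_ne_zero]; exact h
      have h2 := (hcont.tendsto ((tau0 g), (tau0 g))).eventually_ne hne
      filter_upwards [h2] with p hp hrel
      exact absurd (sub_eq_zero.2 hrel) hp
  have hall : ∀ᶠ p in 𝓝 ((tau0 g), (tau0 g)), ∀ γ ∈ F,
      (Rel γ p.1 p.2 → Rel γ (tau0 g) (tau0 g)) :=
    (eventually_all_finite hfin).2 hcl
  have hnear : ∀ᶠ p in 𝓝 ((tau0 g), (tau0 g)), Near p.1 ∧ Near p.2 := by
    rw [nhds_prod_eq]
    exact (near_eventually g).prod_mk (near_eventually g)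
  have hboth := hall.and hnear
  rw [nhds_prod_eq] at hboth
  obtain ⟨U, hU, hU2⟩ := (eventually_prod_self_iff (r := fun τ τ' =>
    (∀ γ ∈ F, (Rel γ τ τ' → Rel γ (tau0 g) (tau0 g))) ∧ Near τ ∧ Near τ')).1 hboth
  obtain ⟨O, hO1, hO2, hO3⟩ := mem_nhds_iff.1 hU
  refine ⟨O, hO2, hO3, ?_⟩
  intro τ hτ τ' hτ' hs hs' γ hγ hr
  obtain ⟨h1, h2, h3⟩ := hU2 τ (hO1 hτ) τ' (hO1 hτ')
  exact h1 γ (hC γ hγ.1 τ τ' hs hs' h2 h3 hr) hr

end

end Pool.Agent.R950.TM
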