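import Pool.Agent.R950.TMAn

/-! The four-cycle identity for second-order theta constants near `τ₀`. -/

open Matrix Filter Topology

namespace Pool.Agent.R950.TM

noncomputable section

variable {g : ℕ}

/-- The perturbation of `τ₀` along the edges of the cycle `α β γ δ`. -/
def pert (α β γ δ : Fin g) (s t : ℝ) : Matrix (Fin g) (Fin g) ℂ :=
  tau0 g + (t : ℂ) • ((s : ℂ) • (single α β (1 : ℂ) + single β α 1) +
    (single β γ 1 + single γ β 1) + (single γ δ 1 + single δ γ 1) + (single δ α 1 + single α δ 1))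

lemma dot_single (c : Fin g → ℂ) (α β : Fin g) :
    c ⬝ᵥ ((single α β (1 : ℂ)) *ᵥ c) = c α * c β := by
  rw [Matrix.single_mulVec]
  have : Function.update (0 : Fin g → ℂ) α (1 * c β) = Pi.single α (c β) := by
    rw [one_mul]; rfl
  rw [this, dotProduct_single]

lemma dot_tau0 (u : Fin g → ℝ) :
    (fun j => (u j : ℂ)) ⬝ᵥ (tau0 g *ᵥ (fun j => (u j : ℂ))) =
      Complex.I * ((∑ j, y j * u j ^ 2 : ℝ) : ℂ) := by
  unfold tau0
  simp only [dotProduct, mulVec_diagonal]
  push_cast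
  rw [Finset.mul_sum]
  apply Finset.sum_congr rfl
  intro j _
  ring

/-- general term -/
def T (α β γ δ : Fin g) (s t : ℝ) (u : Fin g → ℝ) : ℂ :=
  (W u : ℂ) * E (4 * Real.pi * t * (s * (u α * u β) + u β * u γ + u γ * u δ + u δ * u α))

lemma Theta_pert (α β γ δ : Fin g) (s t : ℝ) (e : Fin g → Fin 2) :
    Theta e (pert α β γ δ s t) = ∑' n, T α β γ δ s t (v e n) := by
  unfold Theta theta
  apply tsum_congr
  intro n
  have hv : (fun j => (n j : ℂ) + (((e j : Fin 2) : ℕ) : ℂ) / 2) = fun j => ((v e n j : ℝ) : ℂ) := by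
    funext j
    unfold v
    push_cast
    rfl
  rw [hv]
  set u := v e n
  have h1 : (fun j => (u j : ℂ)) ⬝ᵥ (((2 : ℂ) • pert α β γ δ s t) *ᵥ (fun j => (u j : ℂ)) +
      (2 : ℂ) • ((0 : Fin g → ℂ) + 0)) = 2 * (Complex.I * ((∑ j, y j * u j ^ 2 : ℝ) : ℂ)) +
      4 * t * (s * (u α * u β) + u β * u γ + u γ * u δ + u δ * u α) := by
    simp only [add_zero, smul_zero, pert]
    rw [Matrix.smul_mulVec, dotProduct_smul, Matrix.add_mulVec, dotProduct_add, dot_tau0,
      Matrix.smul_mulVec, dotProduct_smul]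
    simp only [Matrix.add_mulVec, dotProduct_add, Matrix.smul_mulVec, dotProduct_smul, dot_single,
      smul_eq_mul]
    ring
  rw [h1]
  unfold T W E
  rw [Complex.ofReal_exp, ← Complex.exp_add]
  congr 1
  push_cast
  linear_combination (2 * (Real.pi : ℂ) * (∑ x, (y x : ℂ) * (u x : ℂ) ^ 2)) * Complex.I_sq

lemma norm_T (α β γ δ : Fin g) (s t : ℝ) (u : Fin g → ℝ) : ‖T α β γ δ s t u‖ = W u := by
  unfold T
  rw [norm_mul, norm_E, mul_one, Complex.norm_real, Real.norm_of_nonneg (W_pos u).le]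

lemma summable_T (α β γ δ : Fin g) (s t : ℝ) (e : Fin g → Fin 2) :
    Summable (fun n => T α β γ δ s t (v e n)) :=
  Summable.of_norm_bounded (summable_W e) (fun n => (norm_T _ _ _ _ _ _ _).le)

lemma pert_zero (α β γ δ : Fin g) (s : ℝ) : pert α β γ δ s 0 = tau0 g := by
  unfold pert; simp

lemma cont_E : Continuous E := by
  unfold E
  fun_prop

lemma tendsto_Theta (α β γ δ : Fin g) (s : ℝ) (e : Fin g → Fin 2) :
    Tendsto (fun t : ℝ => Theta e (pert α β γ δ s t)) (𝓝 0) (𝓝 (Theta e (tau0 g))) := by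
  have h0 : Theta e (tau0 g) = ∑' n, T α β γ δ s 0 (v e n) := by
    rw [← Theta_pert, pert_zero]
  rw [h0]
  simp only [Theta_pert]
  refine tendsto_tsum_of_dominated_convergence (summable_W e) ?_ ?_
  · intro n
    have : Continuous (fun t => T α β γ δ s t (v e n)) := by
      unfold T
      exact continuous_const.mul (cont_E.comp (by fun_prop))
    exact this.tendsto 0
  · exact Eventually.of_forall fun t _ => (norm_T _ _ _ _ _ t _).le

/-- the identity after averaging over signs -/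
lemma cycle_identity {α β γ δ : Fin g} (hαβ : α ≠ β) (hαγ : α ≠ γ) (hαδ : α ≠ δ)
    (hβγ : β ≠ γ) (hβδ : β ≠ δ) (hγδ : γ ≠ δ) (t : ℝ) (e : Fin g → Fin 2) :
    Theta e (pert α β γ δ 1 t) - Theta e (pert α β γ δ (-1) t) =
      ∑' n, ((2 * W (v e n) * (Real.sin (4 * Real.pi * t * (v e n α * v e n β)) *
        Real.sin (4 * Real.pi * t * (v e n β * v e n γ)) *
        Real.sin (4 * Real.pi * t * (v e n γ * v e n δ)) *
        Real.sin (4 * Real.pi * t * (v e n δ * v e n α))) : ℝ) : ℂ) := by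
  set θ : ℝ := 4 * Real.pi * t with hθ
  set H0 : (Fin g → ℝ) → ℂ := fun u => (W u : ℂ) * (2 * Complex.I * (Real.sin (θ * (u α * u β)) : ℂ)) *
    (E (θ * (u β * u γ + u γ * u δ)) * E (θ * (u δ * u α))) with hH0
  set H1 : (Fin g → ℝ) → ℂ := fun u => (W u : ℂ) * (2 * Complex.I * (Real.sin (θ * (u α * u β)) : ℂ)) *
    ((Real.cos (θ * (u β * u γ + u γ * u δ)) : ℂ) * E (θ * (u δ * u α))) with hH1
  set H2 : (Fin g → ℝ) → ℂ := fun u => -((W u : ℂ) * (2 * Complex.I * (Real.sin (θ * (u α * u β)) : ℂ)) *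
    ((Real.sin (θ * (u β * u γ)) : ℂ) * (Real.sin (θ * (u γ * u δ)) : ℂ) * E (θ * (u δ * u α)))) with hH2
  set H3 : (Fin g → ℝ) → ℂ := fun u => ((2 * W u * (Real.sin (θ * (u α * u β)) *
        Real.sin (θ * (u β * u γ)) * Real.sin (θ * (u γ * u δ)) *
        Real.sin (θ * (u δ * u α))) : ℝ) : ℂ) with hH3
  have bsin : ∀ x : ℝ, ‖(Real.sin x : ℂ)‖ ≤ 1 := by
    intro x; rw [Complex.norm_real]; exact Real.abs_sin_le_one x
  have bcos : ∀ x : ℝ, ‖(Real.cos x : ℂ)‖ ≤ 1 := by
    intro x; rw [Complex.norm_real]; exact Real.abs_cos_le_one x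
  have nW : ∀ u : Fin g → ℝ, ‖(W u : ℂ)‖ = W u := by
    intro u; rw [Complex.norm_real, Real.norm_of_nonneg (W_pos u).le]
  have s2 : Summable (fun n => 2 * W (v e n)) := (summable_W e).mul_left 2
  have S0 : Summable (fun n => H0 (v e n)) := by
    refine Summable.of_norm_bounded s2 (fun n => ?_)
    simp only [hH0, norm_mul, nW, norm_E, Complex.norm_I, Complex.norm_ofNat, mul_one]
    have := bsin (θ * (v e n α * v e n β))
    have := W_pos (v e n)
    nlinarith
  have S1 : Summable (fun n => H1 (v e n)) := by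
    refine Summable.of_norm_bounded s2 (fun n => ?_)
    simp only [hH1, norm_mul, nW, norm_E, Complex.norm_I, Complex.norm_ofNat, mul_one]
    have e1 := bsin (θ * (v e n α * v e n β))
    have e2 := bcos (θ * (v e n β * v e n γ + v e n γ * v e n δ))
    have e3 := W_pos (v e n)
    have e4 := mul_le_one₀ e1 (norm_nonneg _) e2
    nlinarith
  have S2 : Summable (fun n => H2 (v e n)) := by
    refine Summable.of_norm_bounded s2 (fun n => ?_)
    simp only [hH2, norm_neg, norm_mul, nW, norm_E, Complex.norm_I, Complex.norm_ofNat, mul_one]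
    have e1 := bsin (θ * (v e n α * v e n β))
    have e2 := bsin (θ * (v e n β * v e n γ))
    have e2' := bsin (θ * (v e n γ * v e n δ))
    have e3 := W_pos (v e n)
    have e4 := mul_le_one₀ e1 (mul_nonneg (norm_nonneg _) (norm_nonneg _)) (mul_le_one₀ e2 (norm_nonneg _) e2')
    nlinarith
  have step1 : ∑' n, H0 (v e n) = ∑' n, H1 (v e n) := by
    apply flip_avg e γ H0 H1 S0
    intro u
    have f1 : Function.update u γ (-(u γ)) α = u α := Function.update_of_ne hαγ _ _
    have f2 : Function.update u γ (-(u γ)) β = u β := Function.update_of_ne hβγ _ _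
    have f3 : Function.update u γ (-(u γ)) δ = u δ := Function.update_of_ne hγδ.symm _ _
    have f4 : Function.update u γ (-(u γ)) γ = -(u γ) := Function.update_self _ _ _
    simp only [hH0, hH1, W_update, f1, f2, f3, f4]
    rw [show θ * (u β * -u γ + -u γ * u δ) = -(θ * (u β * u γ + u γ * u δ)) by ring]
    rw [E_neg, E_eq (θ * (u β * u γ + u γ * u δ))]
    ring
  have step2 : ∑' n, H1 (v e n) = ∑' n, H2 (v e n) := by
    apply flip_avg e β H1 H2 S1
    intro u
    have f1 : Function.update u β (-(u β)) α = u α := Function.update_of_ne hαβ _ _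
    have f2 : Function.update u β (-(u β)) γ = u γ := Function.update_of_ne hβγ.symm _ _
    have f3 : Function.update u β (-(u β)) δ = u δ := Function.update_of_ne hβδ.symm _ _
    have f4 : Function.update u β (-(u β)) β = -(u β) := Function.update_self _ _ _
    simp only [hH1, hH2, W_update, f1, f2, f3, f4]
    rw [show θ * (u α * -u β) = -(θ * (u α * u β)) by ring,
      show θ * (-u β * u γ + u γ * u δ) = -(θ * (u β * u γ)) + θ * (u γ * u δ) by ring,
      show θ * (u β * u γ + u γ * u δ) = θ * (u β * u γ) + θ * (u γ * u δ) by ring]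
    rw [Real.sin_neg, Real.cos_add, Real.cos_add, Real.cos_neg, Real.sin_neg]
    push_cast
    ring
  have step3 : ∑' n, H2 (v e n) = ∑' n, H3 (v e n) := by
    apply flip_avg e δ H2 H3 S2
    intro u
    have f1 : Function.update u δ (-(u δ)) α = u α := Function.update_of_ne hαδ _ _
    have f2 : Function.update u δ (-(u δ)) β = u β := Function.update_of_ne hβδ _ _
    have f3 : Function.update u δ (-(u δ)) γ = u γ := Function.update_of_ne hγδ _ _
    have f4 : Function.update u δ (-(u δ)) δ = -(u δ) := Function.update_self _ _ _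
    simp only [hH2, hH3, W_update, f1, f2, f3, f4]
    rw [show θ * (u γ * -u δ) = -(θ * (u γ * u δ)) by ring,
      show θ * (-u δ * u α) = -(θ * (u δ * u α)) by ring]
    rw [Real.sin_neg, E_neg, E_eq (θ * (u δ * u α))]
    push_cast
    linear_combination (-4 * (W u : ℂ) * Complex.sin (θ * (u α * u β)) * Complex.sin (θ * (u β * u γ)) *
      Complex.sin (θ * (u γ * u δ)) * Complex.sin (θ * (u δ * u α))) * Complex.I_sq
  rw [Theta_pert, Theta_pert, ← (summable_T _ _ _ _ _ _ _).tsum_sub (summable_T _ _ _ _ _ _ _)]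
  have step0 : ∑' n, (T α β γ δ 1 t (v e n) - T α β γ δ (-1) t (v e n)) = ∑' n, H0 (v e n) := by
    apply tsum_congr
    intro n
    set u := v e n
    simp only [T, hH0, ← hθ]
    rw [show θ * (1 * (u α * u β) + u β * u γ + u γ * u δ + u δ * u α) =
        θ * (u α * u β) + (θ * (u β * u γ + u γ * u δ) + θ * (u δ * u α)) by ring,
      show θ * (-1 * (u α * u β) + u β * u γ + u γ * u δ + u δ * u α) =
        -(θ * (u α * u β)) + (θ * (u β * u γ + u γ * u δ) + θ * (u δ * u α)) by ring]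
    rw [E_add (θ * (u α * u β)), E_add (-(θ * (u α * u β))), E_add (θ * (u β * u γ + u γ * u δ)),
      E_neg, E_eq (θ * (u α * u β))]
    ring
  rw [step0, step1, step2, step3]

/-- the limit vector -/
def D (α β γ δ : Fin g) (e : Fin g → Fin 2) : ℂ :=
  ∑' n, ((2 * W (v e n) * ((4 * Real.pi) ^ 4 *
    (v e n α ^ 2 * v e n β ^ 2 * v e n γ ^ 2 * v e n δ ^ 2)) : ℝ) : ℂ)

/-- the quotient -/
def R (α β γ δ : Fin g) (t : ℝ) (e : Fin g → Fin 2) : ℂ :=
  ∑' n, ((2 * W (v e n) * ((4 * Real.pi) ^ 4 *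
    (v e n α ^ 2 * v e n β ^ 2 * v e n γ ^ 2 * v e n δ ^ 2)) *
    (Real.sinc (4 * Real.pi * t * (v e n α * v e n β)) *
        Real.sinc (4 * Real.pi * t * (v e n β * v e n γ)) *
        Real.sinc (4 * Real.pi * t * (v e n γ * v e n δ)) *
        Real.sinc (4 * Real.pi * t * (v e n δ * v e n α))) : ℝ) : ℂ)

lemma sin_eq_sinc (x : ℝ) : Real.sin x = x * Real.sinc x := by
  by_cases h : x = 0
  · subst h; simp
  · rw [Real.sinc_of_ne_zero h]; field_simp

lemma diff_eq_R {α β γ δ : Fin g} (hαβ : α ≠ β) (hαγ : α ≠ γ) (hαδ : α ≠ δ)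
    (hβγ : β ≠ γ) (hβδ : β ≠ δ) (hγδ : γ ≠ δ) (t : ℝ) (e : Fin g → Fin 2) :
    Theta e (pert α β γ δ 1 t) - Theta e (pert α β γ δ (-1) t) =
      (t : ℂ) ^ 4 * R α β γ δ t e := by
  rw [cycle_identity hαβ hαγ hαδ hβγ hβδ hγδ, R, ← tsum_mul_left]
  apply tsum_congr
  intro n
  set u := v e n
  rw [sin_eq_sinc (4 * Real.pi * t * (u α * u β)), sin_eq_sinc (4 * Real.pi * t * (u β * u γ)),
    sin_eq_sinc (4 * Real.pi * t * (u γ * u δ)), sin_eq_sinc (4 * Real.pi * t * (u δ * u α))]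
  push_cast
  ring

lemma tendsto_R (α β γ δ : Fin g) (e : Fin g → Fin 2) :
    Tendsto (fun t : ℝ => R α β γ δ t e) (𝓝 0) (𝓝 (D α β γ δ e)) := by
  unfold R D
  refine tendsto_tsum_of_dominated_convergence
    ((summable_WQ e).mul_left (2 * (4 * Real.pi) ^ 4)) ?_ ?_
  · intro n
    set u := v e n
    have hc : Continuous (fun t : ℝ => ((2 * W u * ((4 * Real.pi) ^ 4 *
        (u α ^ 2 * u β ^ 2 * u γ ^ 2 * u δ ^ 2)) *
        (Real.sinc (4 * Real.pi * t * (u α * u β)) *
        Real.sinc (4 * Real.pi * t * (u β * u γ)) *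
        Real.sinc (4 * Real.pi * t * (u γ * u δ)) *
        Real.sinc (4 * Real.pi * t * (u δ * u α))) : ℝ) : ℂ)) := by
      apply Complex.continuous_ofReal.comp
      have := Real.continuous_sinc
      fun_prop
    have := hc.tendsto 0
    simpa using this
  · refine Eventually.of_forall fun t n => ?_
    set u := v e n
    have b : ∀ x : ℝ, |Real.sinc x| ≤ 1 := fun x => abs_le.2 ⟨Real.neg_one_le_sinc x, Real.sinc_le_one x⟩
    have hW := W_pos u
    have hb : |Real.sinc (4 * Real.pi * t * (u α * u β)) *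
        Real.sinc (4 * Real.pi * t * (u β * u γ)) *
        Real.sinc (4 * Real.pi * t * (u γ * u δ)) *
        Real.sinc (4 * Real.pi * t * (u δ * u α))| ≤ 1 := by
      rw [abs_mul, abs_mul, abs_mul]
      exact mul_le_one₀ (mul_le_one₀ (mul_le_one₀ (b _) (abs_nonneg _) (b _)) (abs_nonneg _) (b _))
        (abs_nonneg _) (b _)
    have hQ : u α ^ 2 * u β ^ 2 * u γ ^ 2 * u δ ^ 2 ≤ Q u ^ 4 := by
      have q1 := Q_ge u α
      have q2 := Q_ge u β
      have q3 := Q_ge u γ
      have q4 := Q_ge u δ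
      have hq := one_le_Q u
      calc u α ^ 2 * u β ^ 2 * u γ ^ 2 * u δ ^ 2 ≤ Q u * Q u * Q u * Q u := by gcongr
        _ = Q u ^ 4 := by ring
    rw [Complex.norm_real, Real.norm_eq_abs, abs_mul]
    have hp : 0 ≤ 2 * W u * ((4 * Real.pi) ^ 4 * (u α ^ 2 * u β ^ 2 * u γ ^ 2 * u δ ^ 2)) := by
      positivity
    rw [abs_of_nonneg hp]
    calc 2 * W u * ((4 * Real.pi) ^ 4 * (u α ^ 2 * u β ^ 2 * u γ ^ 2 * u δ ^ 2)) * _
        ≤ 2 * W u * ((4 * Real.pi) ^ 4 * (u α ^ 2 * u β ^ 2 * u γ ^ 2 * u δ ^ 2)) * 1 :=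
          mul_le_mul_of_nonneg_left hb hp
      _ ≤ 2 * W u * ((4 * Real.pi) ^ 4 * Q u ^ 4) * 1 := by gcongr
      _ = 2 * (4 * Real.pi) ^ 4 * (W u * Q u ^ 4) := by ring

end

end Pool.Agent.R950.TM
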