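import Pool.Agent.R950.TMDisc
import Pool.Agent.R950.TMLim

/-! For `g ≥ 4` the germ map of `Th` is not surjective at `τ₀`. -/

open Matrix Filter Topology Asymptotics

namespace Pool.Agent.R950.TM

noncomputable section

variable {g : ℕ}

/-- The local holomorphic function on `A_g(2,4)` which is not a pull-back:
`τ_{01} τ_{23} (τ_{12} τ_{30} - τ_{13} τ_{20})`. -/
def f (i0 i1 i2 i3 : Fin g) (τ : Matrix (Fin g) (Fin g) ℂ) : ℂ :=
  τ i0 i1 * τ i2 i3 * (τ i1 i2 * τ i3 i0 - τ i1 i3 * τ i2 i0)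

lemma act_rel {γ : Matrix (Fin g ⊕ Fin g) (Fin g ⊕ Fin g) ℤ} {τ τ' : Matrix (Fin g) (Fin g) ℂ}
    (hg : 0 < g) (hτ' : τ' ∈ Siegel g) (h : act γ τ = τ') : Rel γ τ τ' := by
  unfold act at h
  unfold Rel
  by_cases hdet : IsUnit (toC γ.toBlocks₂₁ * τ + toC γ.toBlocks₂₂).det
  · rw [← h, Matrix.mul_assoc, Matrix.nonsing_inv_mul _ hdet, Matrix.mul_one]
  · exfalso
    rw [Matrix.nonsing_inv_apply_not_isUnit _ hdet, Matrix.mul_zero] at h
    have h2 := hτ'.2.diag_pos (i := (⟨0, hg⟩ : Fin g))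
    rw [← h] at h2
    simp at h2

lemma holOn_f (hg : 0 < g) (i0 i1 i2 i3 : Fin g) {O : Set (Matrix (Fin g) (Fin g) ℂ)}
    (hO : ∀ τ ∈ O, ∀ τ' ∈ O, τ.IsSymm → τ'.IsSymm → ∀ γ ∈ Gamma24 g, Rel γ τ τ' →
      Rel γ (tau0 g) (tau0 g)) : HolOn g O (f i0 i1 i2 i3) := by
  constructor
  · have hd : Differentiable ℂ (fun τ : Fin g → Fin g → ℂ =>
        τ i0 i1 * τ i2 i3 * (τ i1 i2 * τ i3 i0 - τ i1 i3 * τ i2 i0)) := by
      fun_prop
    exact hd.differentiableOn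
  · rintro τ hτ τ' hτ' ⟨γ, hγ, hact⟩
    have hr := act_rel hg hτ'.2 hact
    have h0 := hO τ hτ.1 τ' hτ'.1 hτ.2.1 hτ'.2.1 γ hγ hr
    obtain ⟨s, hs, ha, hd, hb, hc⟩ := stab hγ h0
    unfold Rel at hr
    rw [ha, hb, hc, hd] at hr
    have key : ∀ j k, τ' j k = (s j : ℂ) * (s k : ℂ) * τ j k := by
      intro j k
      have h1 := congrFun (congrFun hr j) k
      have e1 : toC (0 : Matrix (Fin g) (Fin g) ℤ) = 0 := by ext; simp [toC]
      have e2 : toC (diagonal s) = diagonal (fun j => (s j : ℂ)) := by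
        ext i j
        by_cases hij : i = j
        · subst hij; simp [toC]
        · simp [toC, diagonal_apply_ne _ hij]
      rw [e1, e2, Matrix.zero_mul, zero_add, add_zero, mul_diagonal, diagonal_mul] at h1
      have h2 : (s k : ℂ) * (s k : ℂ) = 1 := by exact_mod_cast hs k
      calc τ' j k = τ' j k * ((s k : ℂ) * (s k : ℂ)) := by rw [h2, mul_one]
        _ = (τ' j k * (s k : ℂ)) * (s k : ℂ) := by ring
        _ = _ := by rw [h1]; ring
    have hs' : ∀ j, (s j : ℂ) * (s j : ℂ) = 1 := fun j => by exact_mod_cast hs j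
    unfold f
    rw [key, key, key, key, key, key]
    have e0 := hs' i0
    have e1 := hs' i1
    have e2 := hs' i2
    have e3 := hs' i3
    have : ((s i0 : ℂ) * s i0) * ((s i1 : ℂ) * s i1) * ((s i2 : ℂ) * s i2) * ((s i3 : ℂ) * s i3) = 1 := by
      rw [e0, e1, e2, e3]; ring
    linear_combination (-(τ i0 i1 * τ i2 i3 * (τ i1 i2 * τ i3 i0 - τ i1 i3 * τ i2 i0))) * this

lemma pert_mem (α β γ δ : Fin g) (s t : ℝ) : pert α β γ δ s t ∈ Siegel g := by
  have him : (pert α β γ δ s t).map Complex.im = Matrix.diagonal (fun j => y j) := by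
    ext j k
    have : ∀ (a b : Fin g) (z : ℂ), z.im = 0 → ((single a b z) j k).im = 0 := by
      intro a b z hz
      rw [Matrix.single_apply]
      split_ifs <;> simp [hz]
    simp [pert, this, tau0_im, Matrix.diagonal_apply]
  refine ⟨?_, ?_⟩
  · unfold pert tau0 Matrix.IsSymm
    simp only [Matrix.transpose_add, Matrix.transpose_smul, Matrix.diagonal_transpose,
      Matrix.transpose_single]
    congr 1
    congr 1
    congr 1
    · congr 1
      · congr 1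
        · rw [add_comm]
        · rw [add_comm]
      · rw [add_comm]
    · rw [add_comm]
  · rw [him]
    exact Matrix.PosDef.diagonal (fun j => by have := one_le_y j; linarith)

lemma tau0_mem (g : ℕ) : tau0 g ∈ Siegel g := by
  refine ⟨?_, ?_⟩
  · unfold tau0 Matrix.IsSymm
    rw [Matrix.diagonal_transpose]
  · have him : (tau0 g).map Complex.im = Matrix.diagonal (fun j => y j) := by
      ext j k
      simp [tau0_im, Matrix.diagonal_apply]
    rw [him]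
    exact Matrix.PosDef.diagonal (fun j => by have := one_le_y j; linarith)

lemma tendsto_pert (α β γ δ : Fin g) (s : ℝ) :
    Tendsto (fun t : ℝ => pert α β γ δ s t) (𝓝 0) (𝓝[Siegel g] (tau0 g)) := by
  apply tendsto_nhdsWithin_of_tendsto_nhds_of_eventually_within
  · have hc : Continuous (fun t : ℝ => pert α β γ δ s t) := by
      unfold pert
      have := Complex.continuous_ofReal
      fun_prop
    have := hc.tendsto 0
    rwa [pert_zero] at this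
  · exact Eventually.of_forall fun t => pert_mem _ _ _ _ _ _

lemma tendsto_ThVec (α β γ δ : Fin g) (s : ℝ) :
    Tendsto (fun t : ℝ => ThVec (pert α β γ δ s t)) (𝓝 0) (𝓝 (ThVec (tau0 g))) := by
  rw [tendsto_pi_nhds]
  intro e
  exact tendsto_Theta α β γ δ s e

/-- If `f₀ = Φ ∘ Θ` near `τ₀` with `Φ` differentiable at `Θ(τ₀)` in the strict sense, then the
quotient of differences along a four-cycle is governed by `Φ'` and the limit vector `D`. -/
lemma cycle_limit {α β γ δ : Fin g} (hαβ : α ≠ β) (hαγ : α ≠ γ) (hαδ : α ≠ δ)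
    (hβγ : β ≠ γ) (hβδ : β ≠ δ) (hγδ : γ ≠ δ)
    {Φ : ((Fin g → Fin 2) → ℂ) → ℂ} {L : ((Fin g → Fin 2) → ℂ) →L[ℂ] ℂ}
    (hΦ : HasStrictFDerivAt Φ L (ThVec (tau0 g))) {F : Matrix (Fin g) (Fin g) ℂ → ℂ}
    (hF : ∀ᶠ τ in 𝓝[Siegel g] (tau0 g), F τ = Φ (ThVec τ)) {c : ℂ}
    (hc : ∀ t : ℝ, F (pert α β γ δ 1 t) - F (pert α β γ δ (-1) t) = c * (t : ℂ) ^ 4) :
    L (D α β γ δ) = c := by
  have h1 := hΦ.isLittleO
  have hpair : Tendsto (fun t : ℝ => (ThVec (pert α β γ δ 1 t), ThVec (pert α β γ δ (-1) t)))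
      (𝓝[≠] 0) (𝓝 (ThVec (tau0 g), ThVec (tau0 g))) := by
    rw [nhds_prod_eq]
    exact ((tendsto_ThVec α β γ δ 1).prodMk (tendsto_ThVec α β γ δ (-1))).mono_left
      nhdsWithin_le_nhds
  have h2 := h1.comp_tendsto hpair
  have hdiff : ∀ t : ℝ, ThVec (pert α β γ δ 1 t) - ThVec (pert α β γ δ (-1) t) =
      ((t : ℂ) ^ 4) • R α β γ δ t := by
    intro t
    funext e
    exact diff_eq_R hαβ hαγ hαδ hβγ hβδ hγδ t e
  have hR : Tendsto (fun t : ℝ => R α β γ δ t) (𝓝[≠] 0) (𝓝 (D α β γ δ)) := by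
    rw [tendsto_pi_nhds]
    intro e
    exact (tendsto_R α β γ δ e).mono_left nhdsWithin_le_nhds
  have hO : (fun t : ℝ => ((t : ℂ) ^ 4) • R α β γ δ t) =O[𝓝[≠] 0] (fun t : ℝ => (t : ℂ) ^ 4) := by
    have e1 : (fun t : ℝ => R α β γ δ t) =O[𝓝[≠] 0] (fun _ => (1 : ℂ)) := hR.isBigO_one ℂ
    have e2 := (isBigO_refl (fun t : ℝ => (t : ℂ) ^ 4) (𝓝[≠] 0)).smul e1
    simpa using e2
  have h3 : (fun t : ℝ => Φ (ThVec (pert α β γ δ 1 t)) - Φ (ThVec (pert α β γ δ (-1) t)) -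
      L (ThVec (pert α β γ δ 1 t) - ThVec (pert α β γ δ (-1) t))) =o[𝓝[≠] 0]
      (fun t : ℝ => (t : ℂ) ^ 4) := by
    refine IsLittleO.trans_isBigO (h2 : (fun t : ℝ => Φ (ThVec (pert α β γ δ 1 t)) -
      Φ (ThVec (pert α β γ δ (-1) t)) - L (ThVec (pert α β γ δ 1 t) -
        ThVec (pert α β γ δ (-1) t))) =o[𝓝[≠] 0]
      (fun t : ℝ => ThVec (pert α β γ δ 1 t) - ThVec (pert α β γ δ (-1) t))) ?_
    have hdiff' : ((fun p : ((Fin g → Fin 2) → ℂ) × ((Fin g → Fin 2) → ℂ) => p.1 - p.2) ∘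
        fun t : ℝ => (ThVec (pert α β γ δ 1 t), ThVec (pert α β γ δ (-1) t))) =
        fun t : ℝ => ((t : ℂ) ^ 4) • R α β γ δ t := funext hdiff
    rw [hdiff']
    exact hO
  have hne : ∀ᶠ t : ℝ in 𝓝[≠] 0, t ≠ 0 := eventually_mem_nhdsWithin
  have h4 : Tendsto (fun t : ℝ => (Φ (ThVec (pert α β γ δ 1 t)) - Φ (ThVec (pert α β γ δ (-1) t)) -
      L (ThVec (pert α β γ δ 1 t) - ThVec (pert α β γ δ (-1) t))) / (t : ℂ) ^ 4) (𝓝[≠] 0) (𝓝 0) :=
    h3.tendsto_div_nhds_zero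
  have h5 : ∀ᶠ t : ℝ in 𝓝[≠] 0, (Φ (ThVec (pert α β γ δ 1 t)) - Φ (ThVec (pert α β γ δ (-1) t)) -
      L (ThVec (pert α β γ δ 1 t) - ThVec (pert α β γ δ (-1) t))) / (t : ℂ) ^ 4 =
      c - L (R α β γ δ t) := by
    have f1 := ((tendsto_pert α β γ δ 1).eventually hF).filter_mono
      (nhdsWithin_le_nhds : 𝓝[≠] (0 : ℝ) ≤ 𝓝 0)
    have f2 := ((tendsto_pert α β γ δ (-1)).eventually hF).filter_mono
      (nhdsWithin_le_nhds : 𝓝[≠] (0 : ℝ) ≤ 𝓝 0)
    filter_upwards [hne, f1, f2] with t ht g1 g2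
    rw [← g1, ← g2, hc, hdiff, map_smul, smul_eq_mul]
    have : (t : ℂ) ^ 4 ≠ 0 := pow_ne_zero _ (by exact_mod_cast ht)
    rw [div_eq_iff this]
    ring
  have h6 : Tendsto (fun t : ℝ => c - L (R α β γ δ t)) (𝓝[≠] 0) (𝓝 0) :=
    h4.congr' h5
  have h7 : Tendsto (fun t : ℝ => c - L (R α β γ δ t)) (𝓝[≠] 0) (𝓝 (c - L (D α β γ δ))) :=
    tendsto_const_nhds.sub ((L.continuous.tendsto _).comp hR)
  have h8 := tendsto_nhds_unique h6 h7
  linear_combination h8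

lemma D_comm (α β γ δ : Fin g) : D α β δ γ = D α β γ δ := by
  funext e
  unfold D
  apply tsum_congr
  intro n
  congr 2
  ring

theorem not_pullback {i0 i1 i2 i3 : Fin g} (h01 : i0 ≠ i1) (h02 : i0 ≠ i2) (h03 : i0 ≠ i3)
    (h12 : i1 ≠ i2) (h13 : i1 ≠ i3) (h23 : i2 ≠ i3) :
    ¬ IsPullback g (tau0 g) (f i0 i1 i2 i3) := by
  rintro ⟨Φ, hΦ, -, hF⟩
  have hs := hΦ.hasStrictFDerivAt
  have t0 : ∀ {a b : Fin g}, a ≠ b → tau0 g a b = 0 := by
    intro a b hab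
    unfold tau0
    exact diagonal_apply_ne _ hab
  have A : fderiv ℂ Φ (ThVec (tau0 g)) (D i0 i1 i2 i3) = 2 := by
    refine cycle_limit h01 h02 h03 h12 h13 h23 hs hF ?_
    intro t
    simp only [f, pert, Matrix.add_apply, Matrix.smul_apply, Matrix.single_apply, t0 h01, t0 h23,
      t0 h12, t0 h03.symm, t0 h13, t0 h02.symm, h01, h02, h03, h12, h13, h23, h01.symm, h02.symm,
      h03.symm, h12.symm, h13.symm, h23.symm]
    simp
    ring
  have B : fderiv ℂ Φ (ThVec (tau0 g)) (D i0 i1 i3 i2) = -2 := by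
    refine cycle_limit h01 h03 h02 h13 h12 h23.symm hs hF ?_
    intro t
    simp only [f, pert, Matrix.add_apply, Matrix.smul_apply, Matrix.single_apply, t0 h01, t0 h23,
      t0 h12, t0 h03.symm, t0 h13, t0 h02.symm, h01, h02, h03, h12, h13, h23, h01.symm, h02.symm,
      h03.symm, h12.symm, h13.symm, h23.symm]
    simp
    ring
  rw [D_comm, A] at B
  norm_num at B

theorem main {g : ℕ} (hg : 4 ≤ g) : ¬ GermSurjective g (tau0 g) := by
  intro h
  obtain ⟨O, hO1, hO2, hO3⟩ := exists_open g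
  have h01 : (⟨0, by omega⟩ : Fin g) ≠ ⟨1, by omega⟩ := by simp [Fin.ext_iff]
  have h02 : (⟨0, by omega⟩ : Fin g) ≠ ⟨2, by omega⟩ := by simp [Fin.ext_iff]
  have h03 : (⟨0, by omega⟩ : Fin g) ≠ ⟨3, by omega⟩ := by simp [Fin.ext_iff]
  have h12 : (⟨1, by omega⟩ : Fin g) ≠ ⟨2, by omega⟩ := by simp [Fin.ext_iff]
  have h13 : (⟨1, by omega⟩ : Fin g) ≠ ⟨3, by omega⟩ := by simp [Fin.ext_iff]
  have h23 : (⟨2, by omega⟩ : Fin g) ≠ ⟨3, by omega⟩ := by simp [Fin.ext_iff]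
  exact not_pullback h01 h02 h03 h12 h13 h23 (h O hO1 hO2 _ (holOn_f (by omega) _ _ _ _ hO3))

end

end Pool.Agent.R950.TM
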