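import Pool.Agent.R950.TMDef

/-! Stabilizers: near the point `τ₀ = i·diag(√p_j)` two points are `Γ_g(2,4)`-equivalent only via sign
matrices. -/

open Matrix Filter Topology

namespace Pool.Agent.R950.TM

noncomputable section

variable {g : ℕ}

/-- `y_j = √(p_j)`, `p_j` the `j`-th prime. -/
def y (j : Fin g) : ℝ := Real.sqrt ((Nat.nth Nat.Prime j : ℕ) : ℝ)

/-- The base point `τ₀ = i·diag(√p_j)`. -/
def tau0 (g : ℕ) : Matrix (Fin g) (Fin g) ℂ :=
  Matrix.diagonal (fun j : Fin g => Complex.I * ((y j : ℝ) : ℂ))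

lemma prime_nth (j : Fin g) : (Nat.nth Nat.Prime j).Prime := Nat.prime_nth_prime _

lemma y_sq (j : Fin g) : y j * y j = ((Nat.nth Nat.Prime j : ℕ) : ℝ) :=
  Real.mul_self_sqrt (Nat.cast_nonneg _)

lemma one_le_y (j : Fin g) : 1 ≤ y j := by
  unfold y
  rw [show (1 : ℝ) = Real.sqrt 1 by simp]
  apply Real.sqrt_le_sqrt
  have := (prime_nth j).two_le
  have h : (2 : ℝ) ≤ ((Nat.nth Nat.Prime j : ℕ) : ℝ) := by exact_mod_cast this
  linarith

lemma not_sq {p q : ℕ} (hp : p.Prime) (hq : q.Prime) (h : p ≠ q) : ¬ IsSquare (p * q) := by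
  rintro ⟨r, hr⟩
  have h1 : p ∣ r * r := ⟨q, hr.symm⟩
  have h2 : p ∣ r := by
    rcases (Nat.Prime.dvd_mul hp).1 h1 with h | h <;> exact h
  obtain ⟨s, rfl⟩ := h2
  have h3 : q = p * (s * s) := by
    have : p * q = p * (p * (s * s)) := by rw [hr]; ring
    exact Nat.eq_of_mul_eq_mul_left hp.pos this
  have h4 : p ∣ q := ⟨s * s, h3⟩
  exact h ((Nat.prime_dvd_prime_iff_eq hp hq).1 h4)

lemma irr {j k : Fin g} (h : j ≠ k) : Irrational (y j * y k) := by
  unfold y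
  rw [← Real.sqrt_mul (Nat.cast_nonneg _), ← Nat.cast_mul, irrational_sqrt_natCast_iff]
  refine not_sq (prime_nth j) (prime_nth k) ?_
  intro h'
  apply h
  have := Nat.nth_injective Nat.infinite_setOfPred_prime h'
  exact Fin.ext this

/-- block relations of a symplectic matrix -/
lemma symp {γ : Matrix (Fin g ⊕ Fin g) (Fin g ⊕ Fin g) ℤ}
    (h : γ ∈ Matrix.symplecticGroup (Fin g) ℤ) :
    γ.toBlocks₁₁ᵀ * γ.toBlocks₂₁ = γ.toBlocks₂₁ᵀ * γ.toBlocks₁₁ ∧
    γ.toBlocks₁₂ᵀ * γ.toBlocks₂₂ = γ.toBlocks₂₂ᵀ * γ.toBlocks₁₂ ∧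
    γ.toBlocks₁₁ᵀ * γ.toBlocks₂₂ - γ.toBlocks₂₁ᵀ * γ.toBlocks₁₂ = 1 := by
  rw [SymplecticGroup.mem_iff'] at h
  obtain ⟨a, b, c, d, rfl⟩ : ∃ a b c d, γ = fromBlocks a b c d :=
    ⟨_, _, _, _, (fromBlocks_toBlocks γ).symm⟩
  simp only [toBlocks_fromBlocks₁₁, toBlocks_fromBlocks₁₂, toBlocks_fromBlocks₂₁,
    toBlocks_fromBlocks₂₂]
  rw [fromBlocks_transpose, Matrix.J, fromBlocks_multiply, fromBlocks_multiply,
    fromBlocks_inj] at h
  obtain ⟨h1, h2, h3, h4⟩ := h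
  simp at h1 h2 h3 h4
  refine ⟨?_, ?_, ?_⟩
  · rw [← sub_eq_zero]
    rw [← neg_eq_zero]
    rw [← h1]; abel
  · rw [← sub_eq_zero]
    rw [← neg_eq_zero]
    rw [← h4]; abel
  · rw [← neg_inj, ← h2]; abel

/-- the stabilizer of `τ₀` consists of sign matrices -/
lemma stab {γ : Matrix (Fin g ⊕ Fin g) (Fin g ⊕ Fin g) ℤ} (h : γ ∈ Gamma24 g)
    (h0 : tau0 g * (toC γ.toBlocks₂₁ * tau0 g + toC γ.toBlocks₂₂) =
      toC γ.toBlocks₁₁ * tau0 g + toC γ.toBlocks₁₂) :
    ∃ s : Fin g → ℤ, (∀ j, s j * s j = 1) ∧ γ.toBlocks₁₁ = diagonal s ∧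
      γ.toBlocks₂₂ = diagonal s ∧ γ.toBlocks₁₂ = 0 ∧ γ.toBlocks₂₁ = 0 := by
  obtain ⟨-, -, hs⟩ := symp h.1
  set a := γ.toBlocks₁₁
  set b := γ.toBlocks₁₂
  set c := γ.toBlocks₂₁
  set d := γ.toBlocks₂₂
  have key : ∀ j k, (b j k : ℝ) = - (y j * y k * c j k) ∧ y j * (d j k : ℝ) = a j k * y k := by
    intro j k
    have h1 := congrFun (congrFun h0 j) k
    simp only [tau0, toC, diagonal_mul, Matrix.add_apply, mul_diagonal, Matrix.map_apply] at h1
    have hre := congrArg Complex.re h1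
    have him := congrArg Complex.im h1
    simp at hre him
    constructor
    · linarith
    · linarith
  have off : ∀ j k, j ≠ k → a j k = 0 ∧ b j k = 0 ∧ c j k = 0 ∧ d j k = 0 := by
    intro j k hjk
    obtain ⟨h1, h2⟩ := key j k
    have hirr := irr hjk
    have hc : c j k = 0 := by
      by_contra hc
      apply (hirr.mul_intCast hc).ne_int (- b j k)
      push_cast
      linarith
    have hb : b j k = 0 := by
      rw [hc] at h1; simp at h1; exact h1
    have hd : d j k = 0 := by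
      by_contra hd
      apply (hirr.mul_intCast hd).ne_int (a j k * (Nat.nth Nat.Prime k : ℕ))
      push_cast
      rw [← y_sq k]
      linear_combination (y k) * h2
    have ha : a j k = 0 := by
      rw [hd] at h2
      have hy : y k ≠ 0 := by have := one_le_y k; linarith
      simp [hy] at h2
      exact h2
    exact ⟨ha, hb, hc, hd⟩
  have diag : ∀ j, a j j * a j j = 1 ∧ b j j = 0 ∧ c j j = 0 ∧ d j j = a j j := by
    intro j
    obtain ⟨h1, h2⟩ := key j j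
    rw [y_sq] at h1
    have hy : y j ≠ 0 := by have := one_le_y j; linarith
    have hd : d j j = a j j := by
      have : (d j j : ℝ) = a j j := by
        apply mul_left_cancel₀ hy
        linarith
      exact_mod_cast this
    have hb : b j j = - ((Nat.nth Nat.Prime j : ℕ) * c j j) := by
      have : (b j j : ℝ) = ((- ((Nat.nth Nat.Prime j : ℕ) * c j j) : ℤ) : ℝ) := by
        rw [h1]; push_cast; ring
      exact_mod_cast this
    have h3 := congrFun (congrFun hs j) j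
    simp only [Matrix.sub_apply, Matrix.mul_apply, Matrix.transpose_apply, Matrix.one_apply_eq] at h3
    rw [Finset.sum_eq_single j, Finset.sum_eq_single j] at h3
    · rw [hd, hb] at h3
      have hp := (prime_nth j).two_le
      have hp' : (2 : ℤ) ≤ (Nat.nth Nat.Prime j : ℕ) := by exact_mod_cast hp
      have hc : c j j = 0 := by
        by_contra hc
        have h4 : 1 ≤ c j j * c j j := by
          have : 0 < c j j * c j j := mul_self_pos.2 hc
          omega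
        nlinarith [mul_self_nonneg (a j j)]
      refine ⟨?_, ?_, hc, hd⟩
      · rw [hc] at h3; linarith
      · rw [hb, hc]; simp
    · intro l _ hl
      rw [(off l j hl).2.1]; ring
    · intro h; exact absurd (Finset.mem_univ _) h
    · intro l _ hl
      rw [(off l j hl).1]; ring
    · intro h; exact absurd (Finset.mem_univ _) h
  refine ⟨fun j => a j j, fun j => (diag j).1, ?_, ?_, ?_, ?_⟩
  · ext j k
    by_cases hjk : j = k
    · subst hjk; simp
    · rw [diagonal_apply_ne _ hjk, (off j k hjk).1]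
  · ext j k
    by_cases hjk : j = k
    · subst hjk; simp [(diag j).2.2.2]
    · rw [diagonal_apply_ne _ hjk, (off j k hjk).2.2.2]
  · ext j k
    by_cases hjk : j = k
    · subst hjk; simp [(diag j).2.1]
    · simp [(off j k hjk).2.1]
  · ext j k
    by_cases hjk : j = k
    · subst hjk; simp [(diag j).2.2.1]
    · simp [(off j k hjk).2.2.1]

/-- The equation `τ'(cτ+d) = aτ+b`. -/
def Rel (γ : Matrix (Fin g ⊕ Fin g) (Fin g ⊕ Fin g) ℤ) (τ τ' : Matrix (Fin g) (Fin g) ℂ) : Prop :=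
  τ' * (toC γ.toBlocks₂₁ * τ + toC γ.toBlocks₂₂) = toC γ.toBlocks₁₁ * τ + toC γ.toBlocks₁₂

lemma toC_mul (a b : Matrix (Fin g) (Fin g) ℤ) : toC (a * b) = toC a * toC b := by
  ext i j
  simp [toC, Matrix.mul_apply]

lemma toC_transpose (a : Matrix (Fin g) (Fin g) ℤ) : toC aᵀ = (toC a)ᴴ := by
  ext i j
  simp [toC]

lemma toC_sub (a b : Matrix (Fin g) (Fin g) ℤ) : toC (a - b) = toC a - toC b := by
  ext i j
  simp [toC]

lemma toC_one : toC (1 : Matrix (Fin g) (Fin g) ℤ) = 1 := by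
  ext i j
  simp only [toC, Matrix.map_apply, Matrix.one_apply]
  split_ifs <;> simp

/-- `(cτ+d)^* (Im τ') (cτ+d) = Im τ` -/
lemma im_rel {γ : Matrix (Fin g ⊕ Fin g) (Fin g ⊕ Fin g) ℤ}
    (h : γ ∈ Matrix.symplecticGroup (Fin g) ℤ) {τ τ' : Matrix (Fin g) (Fin g) ℂ}
    (hr : Rel γ τ τ') :
    (toC γ.toBlocks₂₁ * τ + toC γ.toBlocks₂₂)ᴴ * (τ' - τ'ᴴ) *
      (toC γ.toBlocks₂₁ * τ + toC γ.toBlocks₂₂) = τ - τᴴ := by
  obtain ⟨h1, h2, h3⟩ := symp h
  unfold Rel at hr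
  set a := γ.toBlocks₁₁
  set b := γ.toBlocks₁₂
  set c := γ.toBlocks₂₁
  set d := γ.toBlocks₂₂
  set M := toC c * τ + toC d with hM
  set N := toC a * τ + toC b with hN
  have e1 : (toC a)ᴴ * toC c = (toC c)ᴴ * toC a := by
    rw [← toC_transpose, ← toC_transpose, ← toC_mul, ← toC_mul, h1]
  have e2 : (toC b)ᴴ * toC d = (toC d)ᴴ * toC b := by
    rw [← toC_transpose, ← toC_transpose, ← toC_mul, ← toC_mul, h2]
  have e3 : (toC a)ᴴ * toC d - (toC c)ᴴ * toC b = 1 := by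
    rw [← toC_transpose, ← toC_transpose, ← toC_mul, ← toC_mul, ← toC_sub, h3, toC_one]
  have e4 : (toC d)ᴴ * toC a - (toC b)ᴴ * toC c = 1 := by
    have := congrArg Matrix.conjTranspose e3
    simpa [Matrix.conjTranspose_sub, Matrix.conjTranspose_mul] using this
  have s1 : Mᴴ * (τ' - τ'ᴴ) * M = Mᴴ * N - Nᴴ * M := by
    rw [← hr, Matrix.conjTranspose_mul]
    noncomm_ring
  rw [s1, hM, hN]
  simp only [Matrix.conjTranspose_add, Matrix.conjTranspose_mul]
  have : (τᴴ * (toC c)ᴴ + (toC d)ᴴ) * (toC a * τ + toC b) -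
      (τᴴ * (toC a)ᴴ + (toC b)ᴴ) * (toC c * τ + toC d) =
      - (τᴴ * ((toC a)ᴴ * toC c - (toC c)ᴴ * toC a) * τ)
      - τᴴ * ((toC a)ᴴ * toC d - (toC c)ᴴ * toC b) + ((toC d)ᴴ * toC a - (toC b)ᴴ * toC c) * τ
      - ((toC b)ᴴ * toC d - (toC d)ᴴ * toC b) := by noncomm_ring
  rw [this, e1, e2, e3, e4]
  simp
  abel

end

end Pool.Agent.R950.TM
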