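import Mathlib

/-!
Abstract Koszul complexes of commuting operators, indexed by finite subsets of `Fin n`.
-/

set_option autoImplicit false

namespace Pool.Agent.R950.WC

variable {n : ℕ} {A : Type*} [AddCommGroup A]

/-- Koszul differential with respect to the operators `x t`, `t ∈ V`. -/
def kz (x : Fin n → A →+ A) (V : Finset (Fin n)) (f : Finset (Fin n) → A)
    (T : Finset (Fin n)) : A :=
  ∑ t ∈ V \ T, ((-1 : ℤ) ^ (T.filter (· < t)).card) • x t (f (insert t T))

/-- commuting operators of degree one -/
structure Ops (x : Fin n → A →+ A) (P : ℕ → AddSubgroup A) : Prop where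
  comm : ∀ s t a, x s (x t a) = x t (x s a)
  deg : ∀ t e a, a ∈ P e → x t a ∈ P (e + 1)

/-- `f` is supported on the subsets of `V` with `a` elements -/
def Spt (V : Finset (Fin n)) (a : ℕ) (f : Finset (Fin n) → A) : Prop :=
  ∀ T, ¬ (T ⊆ V ∧ T.card = a) → f T = 0

/-- vanishing of the Koszul homology -/
def Van (x : Fin n → A →+ A) (P : ℕ → AddSubgroup A) (V : Finset (Fin n)) (a e : ℕ) : Prop :=
  ∀ f : Finset (Fin n) → A, Spt V a f → (∀ T, f T ∈ P (e + 1)) → (∀ T, kz x V f T = 0) →
    ∃ w : Finset (Fin n) → A, Spt V (a + 1) w ∧ (∀ U, w U ∈ P e) ∧ ∀ T, f T = kz x V w T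

lemma kz_not_sub {x : Fin n → A →+ A} {V : Finset (Fin n)} {a : ℕ} {f : Finset (Fin n) → A}
    (hf : Spt V a f) {T : Finset (Fin n)} (hT : ¬ T ⊆ V) : kz x V f T = 0 := by
  unfold kz
  refine Finset.sum_eq_zero fun t _ => ?_
  rw [hf (insert t T), map_zero, smul_zero]
  rintro ⟨h1, _⟩
  exact hT ((Finset.subset_insert t T).trans h1)

lemma kz_card {x : Fin n → A →+ A} {V : Finset (Fin n)} {a : ℕ} {f : Finset (Fin n) → A}
    (hf : Spt V (a + 1) f) {T : Finset (Fin n)} (hT : T.card ≠ a) : kz x V f T = 0 := by
  unfold kz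
  refine Finset.sum_eq_zero fun t ht => ?_
  rw [Finset.mem_sdiff] at ht
  rw [hf (insert t T), map_zero, smul_zero]
  rintro ⟨_, h1⟩
  rw [Finset.card_insert_of_notMem ht.2] at h1
  omega

lemma kz_add (x : Fin n → A →+ A) (V : Finset (Fin n)) (f g : Finset (Fin n) → A)
    (T : Finset (Fin n)) : kz x V (fun U => f U + g U) T = kz x V f T + kz x V g T := by
  unfold kz
  rw [← Finset.sum_add_distrib]
  exact Finset.sum_congr rfl fun t _ => by rw [map_add, smul_add]

lemma kz_sub (x : Fin n → A →+ A) (V : Finset (Fin n)) (f g : Finset (Fin n) → A)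
    (T : Finset (Fin n)) : kz x V (fun U => f U - g U) T = kz x V f T - kz x V g T := by
  unfold kz
  rw [← Finset.sum_sub_distrib]
  exact Finset.sum_congr rfl fun t _ => by rw [map_sub, smul_sub]

lemma kz_mem {x : Fin n → A →+ A} {P : ℕ → AddSubgroup A} (hx : Ops x P) {V : Finset (Fin n)}
    {e : ℕ} {f : Finset (Fin n) → A} (hf : ∀ T, f T ∈ P e) (T : Finset (Fin n)) :
    kz x V f T ∈ P (e + 1) := by
  unfold kz
  exact AddSubgroup.sum_mem _ fun t _ => AddSubgroup.zsmul_mem _ (hx.deg _ _ _ (hf _)) _

/-- equivariant maps -/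
lemma map_kz {B : Type*} [AddCommGroup B] {x : Fin n → A →+ A} {y : Fin n → B →+ B} (φ : A →+ B)
    (h : ∀ t a, φ (x t a) = y t (φ a)) (V : Finset (Fin n)) (f : Finset (Fin n) → A)
    (T : Finset (Fin n)) : φ (kz x V f T) = kz y V (fun U => φ (f U)) T := by
  unfold kz
  rw [map_sum]
  exact Finset.sum_congr rfl fun t _ => by rw [map_zsmul, h]

/-- the differential splits over the last variable, first case -/
lemma kz_insert_notMem {x : Fin n → A →+ A} {V : Finset (Fin n)} {v : Fin n} (hv : v ∉ V)
    (f : Finset (Fin n) → A) {T : Finset (Fin n)} (hT : v ∉ T) :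
    kz x (insert v V) f T =
      ((-1 : ℤ) ^ (T.filter (· < v)).card) • x v (f (insert v T)) + kz x V f T := by
  unfold kz
  have : insert v V \ T = insert v (V \ T) := Finset.insert_sdiff_of_notMem _ hT
  rw [this, Finset.sum_insert]
  intro h
  exact hv (Finset.mem_sdiff.1 h).1

/-- the differential splits over the last variable, second case -/
lemma kz_insert_mem {x : Fin n → A →+ A} {V : Finset (Fin n)} {v : Fin n}
    (hv : ∀ t ∈ V, t < v) (f g : Finset (Fin n) → A) {T : Finset (Fin n)} (_hT : v ∉ T)
    (hfg : ∀ t ∈ V \ T, f (insert t (insert v T)) = g (insert t T)) :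
    kz x (insert v V) f (insert v T) = kz x V g T := by
  unfold kz
  have hvV : v ∉ V := fun h => lt_irrefl v (hv v h)
  have h1 : insert v V \ insert v T = V \ T := by
    ext t
    simp only [Finset.mem_sdiff, Finset.mem_insert, not_or]
    constructor
    · rintro ⟨h1, h2, h3⟩
      exact ⟨h1.resolve_left h2, h3⟩
    · rintro ⟨h1, h2⟩
      exact ⟨Or.inr h1, fun h => hvV (h ▸ h1), h2⟩
  rw [h1]
  refine Finset.sum_congr rfl fun t ht => ?_
  rw [hfg t ht]
  have h2 : (insert v T).filter (· < t) = T.filter (· < t) := by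
    rw [Finset.filter_insert, if_neg]
    exact not_lt.2 (hv t (Finset.mem_sdiff.1 ht).1).le
  rw [h2]

/-- adding a variable -/
theorem add_var {x : Fin n → A →+ A} {P : ℕ → AddSubgroup A} (hx : Ops x P)
    {V : Finset (Fin n)} {v : Fin n} (hv : ∀ t ∈ V, t < v) (a e : ℕ)
    (h1 : Van x P V (a + 1) e) (f : Finset (Fin n) → A) (hf : Spt (insert v V) (a + 1) f)
    (hfP : ∀ T, f T ∈ P (e + 1)) (hc : ∀ T, kz x (insert v V) f T = 0)
    (w₂ : Finset (Fin n) → A) (hw₂ : Spt V (a + 1) w₂) (hw₂P : ∀ U, w₂ U ∈ P e)
    (hw₂c : ∀ T ⊆ V, f (insert v T) = kz x V w₂ T) :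
    ∃ w : Finset (Fin n) → A, Spt (insert v V) (a + 2) w ∧ (∀ U, w U ∈ P e) ∧
      ∀ T, f T = kz x (insert v V) w T := by
  classical
  have hvV : v ∉ V := fun h => lt_irrefl v (hv v h)
  set f' : Finset (Fin n) → A := fun T =>
    if T ⊆ V then f T + ((-1 : ℤ) ^ a) • x v (w₂ T) else 0 with hf'
  have f'1 : Spt V (a + 1) f' := by
    intro T hT
    simp only [hf']
    split_ifs with h
    · have h2 : T.card ≠ a + 1 := fun h3 => hT ⟨h, h3⟩
      rw [hf T (fun h3 => h2 h3.2), hw₂ T hT, map_zero, smul_zero, add_zero]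
    · rfl
  have f'2 : ∀ T, f' T ∈ P (e + 1) := by
    intro T
    simp only [hf']
    split_ifs with h
    · exact AddSubgroup.add_mem _ (hfP T)
        (AddSubgroup.zsmul_mem _ (hx.deg _ _ _ (hw₂P T)) _)
    · exact AddSubgroup.zero_mem _
  have hfilt : ∀ T ⊆ V, T.filter (· < v) = T := fun T hT =>
    Finset.filter_true_of_mem fun t ht => hv t (hT ht)
  have f'3 : ∀ T, kz x V f' T = 0 := by
    intro T
    by_cases hT : T ⊆ V
    · by_cases hTa : T.card = a
      · have hvT : v ∉ T := fun h => hvV (hT h)
        have e1 : kz x V f' T = kz x V f T + ((-1 : ℤ) ^ a) • x v (kz x V w₂ T) := by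
          have e2 : x v (kz x V w₂ T) = kz x V (fun U => x v (w₂ U)) T :=
            map_kz (x v) (fun t b => hx.comm _ _ _) V w₂ T
          rw [e2]
          unfold kz
          rw [Finset.smul_sum, ← Finset.sum_add_distrib]
          refine Finset.sum_congr rfl fun t ht => ?_
          have e3 : insert t T ⊆ V :=
            Finset.insert_subset (Finset.mem_sdiff.1 ht).1 hT
          simp only [hf', if_pos e3]
          rw [map_add, smul_add, map_zsmul, smul_comm]
        have e4 := hc T
        rw [kz_insert_notMem hvV f hvT, hfilt T hT, hTa, hw₂c T hT] at e4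
        rw [e1, add_comm]
        exact e4
      · exact kz_card f'1 hTa
    · exact kz_not_sub f'1 hT
  obtain ⟨w', w'1, w'2, w'3⟩ := h1 f' f'1 f'2 f'3
  refine ⟨fun U => if v ∈ U then w₂ (U.erase v) else w' U, ?_, ?_, ?_⟩
  · intro U hU
    show (if v ∈ U then w₂ (U.erase v) else w' U) = 0
    split_ifs with h
    · apply hw₂
      rintro ⟨h2, h3⟩
      apply hU
      refine ⟨?_, ?_⟩
      · rw [← Finset.insert_erase h]
        exact Finset.insert_subset_insert v h2
      · rw [Finset.card_erase_of_mem h] at h3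
        have := Finset.card_pos.2 ⟨v, h⟩
        omega
    · apply w'1
      rintro ⟨h2, h3⟩
      exact hU ⟨h2.trans (Finset.subset_insert v V), h3⟩
  · intro U
    show (if v ∈ U then w₂ (U.erase v) else w' U) ∈ P e
    split_ifs
    · exact hw₂P _
    · exact w'2 _
  · intro T
    by_cases hvT : v ∈ T
    · obtain ⟨T', hT', rfl⟩ : ∃ T', v ∉ T' ∧ insert v T' = T :=
        ⟨T.erase v, Finset.notMem_erase v T, Finset.insert_erase hvT⟩
      rw [kz_insert_mem hv _ w₂ hT' (by
        intro t ht
        have ht' : t ≠ v := fun h => hvV (h ▸ (Finset.mem_sdiff.1 ht).1)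
        have : v ∈ insert t (insert v T') := by simp
        rw [if_pos this]
        congr 1
        ext u
        simp only [Finset.mem_erase, Finset.mem_insert]
        constructor
        · rintro ⟨h2, h3 | h3 | h3⟩
          · exact Or.inl h3
          · exact absurd h3 h2
          · exact Or.inr h3
        · rintro (h2 | h2)
          · exact ⟨h2 ▸ ht', Or.inl h2⟩
          · exact ⟨fun h3 => hT' (h3 ▸ h2), Or.inr (Or.inr h2)⟩)]
      by_cases hTV : T' ⊆ V
      · exact hw₂c T' hTV
      · rw [kz_not_sub hw₂ hTV]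
        apply hf
        rintro ⟨h2, _⟩
        apply hTV
        intro u hu
        have := h2 (Finset.mem_insert_of_mem hu)
        rw [Finset.mem_insert] at this
        exact this.resolve_left fun h3 => hT' (h3 ▸ hu)
    · rw [kz_insert_notMem hvV _ hvT]
      have e1 : (if v ∈ insert v T then w₂ ((insert v T).erase v) else w' (insert v T)) = w₂ T := by
        rw [if_pos (Finset.mem_insert_self v T), Finset.erase_insert hvT]
      have e2 : kz x V (fun U => if v ∈ U then w₂ (U.erase v) else w' U) T = kz x V w' T := by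
        unfold kz
        refine Finset.sum_congr rfl fun t ht => ?_
        have ht' : t ≠ v := fun h => hvV (h ▸ (Finset.mem_sdiff.1 ht).1)
        beta_reduce
        rw [if_neg]
        rw [Finset.mem_insert, not_or]
        exact ⟨fun h => ht' h.symm, hvT⟩
      rw [e1, e2, ← w'3]
      by_cases hTV : T ⊆ V
      · simp only [hf', if_pos hTV]
        rw [hfilt T hTV]
        by_cases hTa : T.card = a + 1
        · rw [hTa, pow_succ]
          simp
        · rw [hw₂ T (fun h => hTa h.2)]
          simp
      · simp only [hf', if_neg hTV]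
        rw [hw₂ T (fun h => hTV h.1), map_zero, smul_zero, add_zero]
        apply hf
        rintro ⟨h2, _⟩
        apply hTV
        intro u hu
        have := h2 hu
        rw [Finset.mem_insert] at this
        exact this.resolve_left fun h3 => hvT (h3 ▸ hu)

/-- the part of a cycle on the sets containing the last variable is a cycle -/
lemma part_cycle {x : Fin n → A →+ A} {V : Finset (Fin n)} {v : Fin n} (hv : ∀ t ∈ V, t < v)
    (f : Finset (Fin n) → A) (hc : ∀ T, kz x (insert v V) f T = 0) (T : Finset (Fin n))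
    (hT : T ⊆ V) : kz x V (fun T => if T ⊆ V then f (insert v T) else 0) T = 0 := by
  classical
  have hvV : v ∉ V := fun h => lt_irrefl v (hv v h)
  rw [← kz_insert_mem hv f (fun T => if T ⊆ V then f (insert v T) else 0)
    (fun h => hvV (hT h))]
  · exact hc _
  · intro t ht
    have e3 : insert t T ⊆ V := Finset.insert_subset (Finset.mem_sdiff.1 ht).1 hT
    simp only [if_pos e3]
    rw [Finset.insert_comm]

/-- adding a variable: vanishing in positions `a + 1` and `a` -/
theorem van_add {x : Fin n → A →+ A} {P : ℕ → AddSubgroup A} (hx : Ops x P)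
    {V : Finset (Fin n)} {v : Fin n} (hv : ∀ t ∈ V, t < v) (a e : ℕ)
    (h1 : Van x P V (a + 1) e) (h2 : Van x P V a e) : Van x P (insert v V) (a + 1) e := by
  classical
  intro f f1 f2 f3
  have hvV : v ∉ V := fun h => lt_irrefl v (hv v h)
  obtain ⟨w, w1, w2, w3⟩ := h2 (fun T => if T ⊆ V then f (insert v T) else 0) (by
    intro T hT
    show (if T ⊆ V then f (insert v T) else 0) = 0
    split_ifs with h
    · apply f1
      rintro ⟨_, h3⟩
      apply hT
      rw [Finset.card_insert_of_notMem (fun h4 => hvV (h h4))] at h3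
      exact ⟨h, by omega⟩
    · rfl) (by
    intro T
    show (if T ⊆ V then f (insert v T) else 0) ∈ P (e + 1)
    split_ifs
    · exact f2 _
    · exact AddSubgroup.zero_mem _) (by
    intro T
    by_cases hT : T ⊆ V
    · exact part_cycle hv f f3 T hT
    · unfold kz
      refine Finset.sum_eq_zero fun t _ => ?_
      beta_reduce
      rw [if_neg, map_zero, smul_zero]
      exact fun h => hT ((Finset.subset_insert t T).trans h))
  refine add_var hx hv a e h1 f f1 f2 f3 w w1 w2 ?_
  intro T hT
  have := w3 T
  simp only [if_pos hT] at this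
  exact this

/-- adding a variable, position `0` -/
theorem van_zero {x : Fin n → A →+ A} {P : ℕ → AddSubgroup A}
    {V : Finset (Fin n)} {v : Fin n} (hv : ∀ t ∈ V, t < v) (e : ℕ)
    (h : Van x P V 0 e) : Van x P (insert v V) 0 e := by
  classical
  intro f f1 f2 f3
  have hvV : v ∉ V := fun h => lt_irrefl v (hv v h)
  have f1' : Spt V 0 f := by
    intro T hT
    apply f1
    rintro ⟨_, h2⟩
    apply hT
    rw [Finset.card_eq_zero] at h2
    subst h2
    exact ⟨Finset.empty_subset _, rfl⟩
  obtain ⟨w, w1, w2, w3⟩ := h f f1' f2 (by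
    intro T
    unfold kz
    refine Finset.sum_eq_zero fun t ht => ?_
    rw [f1' (insert t T), map_zero, smul_zero]
    rintro ⟨_, h2⟩
    rw [Finset.card_eq_zero] at h2
    exact Finset.insert_ne_empty t T h2)
  refine ⟨w, ?_, w2, ?_⟩
  · intro U hU
    apply w1
    rintro ⟨h1, h2⟩
    exact hU ⟨h1.trans (Finset.subset_insert v V), h2⟩
  · intro T
    rw [w3 T]
    by_cases hvT : v ∈ T
    · rw [kz_not_sub w1 (fun h => hvV (h hvT))]
      unfold kz
      refine (Finset.sum_eq_zero fun t ht => ?_).symm
      rw [w1 (insert t T), map_zero, smul_zero]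
      rintro ⟨h1, _⟩
      exact hvV (h1 (Finset.mem_insert_of_mem hvT))
    · rw [kz_insert_notMem hvV _ hvT, w1 (insert v T), map_zero, smul_zero, zero_add]
      rintro ⟨h1, _⟩
      exact hvV (h1 (Finset.mem_insert_self v T))

/-- the empty set of variables -/
theorem van_empty {x : Fin n → A →+ A} {P : ℕ → AddSubgroup A} (a e : ℕ) (ha : 1 ≤ a) :
    Van x P ∅ a e := by
  intro f f1 _ _
  refine ⟨fun _ => 0, fun _ _ => rfl, fun _ => AddSubgroup.zero_mem _, ?_⟩
  intro T
  rw [f1 T]
  · unfold kz
    simp
  · rintro ⟨h1, h2⟩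
    rw [Finset.subset_empty] at h1
    subst h1
    simp at h2
    omega

/-- adding a variable, position `1`, for a regular element -/
theorem van_one {x : Fin n → A →+ A} {P : ℕ → AddSubgroup A} (hx : Ops x P)
    {V : Finset (Fin n)} {v : Fin n} (hv : ∀ t ∈ V, t < v) (e : ℕ)
    (h1 : Van x P V 1 e)
    (hr : ∀ z ∈ P (e + 1), (∃ u : Fin n → A, x v z = ∑ t ∈ V, x t (u t)) →
      ∃ u : Fin n → A, (∀ t, u t ∈ P e) ∧ z = ∑ t ∈ V, x t (u t)) :
    Van x P (insert v V) 1 e := by
  classical
  intro f f1 f2 f3
  have hvV : v ∉ V := fun h => lt_irrefl v (hv v h)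
  obtain ⟨u, u1, u2⟩ := hr (f {v}) (f2 _) (by
    refine ⟨fun t => - f {t}, ?_⟩
    have h2 := f3 ∅
    rw [kz_insert_notMem hvV f (Finset.notMem_empty v)] at h2
    unfold kz at h2
    simp only [Finset.filter_empty, Finset.card_empty, pow_zero, one_smul,
      Finset.sdiff_empty, insert_empty_eq] at h2
    simp only [map_neg, Finset.sum_neg_distrib]
    exact eq_neg_of_add_eq_zero_left h2)
  refine add_var hx hv 0 e h1 f f1 f2 f3
    (fun T => ∑ t ∈ V, if T = {t} then u t else 0) ?_ ?_ ?_
  · intro T hT
    refine Finset.sum_eq_zero fun t ht => ?_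
    rw [if_neg]
    rintro rfl
    exact hT ⟨Finset.singleton_subset_iff.2 ht, by simp⟩
  · intro T
    refine AddSubgroup.sum_mem _ fun t _ => ?_
    split_ifs
    · exact u1 t
    · exact AddSubgroup.zero_mem _
  · intro T hT
    by_cases hT0 : T = ∅
    · subst hT0
      unfold kz
      simp only [Finset.filter_empty, Finset.card_empty, pow_zero, one_smul,
        Finset.sdiff_empty, insert_empty_eq]
      rw [u2]
      refine Finset.sum_congr rfl fun t ht => ?_
      rw [Finset.sum_eq_single t]
      · rw [if_pos rfl]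
      · intro s _ hs
        rw [if_neg]
        intro h
        exact hs (Finset.singleton_injective h).symm
      · intro h
        exact absurd ht h
    · rw [f1]
      · symm
        unfold kz
        refine Finset.sum_eq_zero fun t ht => ?_
        beta_reduce
        rw [Finset.sum_eq_zero, map_zero, smul_zero]
        intro s _
        rw [if_neg]
        intro h
        obtain ⟨r, hr⟩ := Finset.nonempty_iff_ne_empty.2 hT0
        have h3 : r ∈ insert t T := Finset.mem_insert_of_mem hr
        have h4 : t ∈ insert t T := Finset.mem_insert_self t T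
        rw [h, Finset.mem_singleton] at h3 h4
        subst h3
        subst h4
        exact (Finset.mem_sdiff.1 ht).2 hr
      · rintro ⟨_, h3⟩
        rw [Finset.card_insert_of_notMem (fun h => hvV (hT h))] at h3
        apply hT0
        rw [← Finset.card_eq_zero]
        omega

/-- adding a variable in the top position, for a divisible operator -/
theorem van_top {x : Fin n → A →+ A} {P : ℕ → AddSubgroup A} (hx : Ops x P)
    {V : Finset (Fin n)} {v : Fin n} (hv : ∀ t ∈ V, t < v) (a e : ℕ) (ha : V.card = a + 1)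
    (h2 : Van x P V a e)
    (hd : ∀ z ∈ P (e + 1), (∀ t ∈ V, x t z = 0) →
      ∃ u ∈ P e, (∀ t ∈ V, x t u = 0) ∧ x v u = z) :
    Van x P (insert v V) (a + 1) e := by
  classical
  intro f f1 f2 f3
  have hvV : v ∉ V := fun h => lt_irrefl v (hv v h)
  obtain ⟨w, w1, w2, w3⟩ := h2 (fun T => if T ⊆ V then f (insert v T) else 0) (by
    intro T hT
    show (if T ⊆ V then f (insert v T) else 0) = 0
    split_ifs with h
    · apply f1
      rintro ⟨_, h3⟩
      apply hT
      rw [Finset.card_insert_of_notMem (fun h4 => hvV (h h4))] at h3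
      exact ⟨h, by omega⟩
    · rfl) (by
    intro T
    show (if T ⊆ V then f (insert v T) else 0) ∈ P (e + 1)
    split_ifs
    · exact f2 _
    · exact AddSubgroup.zero_mem _) (by
    intro T
    by_cases hT : T ⊆ V
    · exact part_cycle hv f f3 T hT
    · unfold kz
      refine Finset.sum_eq_zero fun t _ => ?_
      beta_reduce
      rw [if_neg, map_zero, smul_zero]
      exact fun h => hT ((Finset.subset_insert t T).trans h))
  have w3' : ∀ T ⊆ V, f (insert v T) = kz x V w T := by
    intro T hT
    have := w3 T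
    simp only [if_pos hT] at this
    exact this
  -- subsets of V with a + 1 elements are V
  have hVt : ∀ T ⊆ V, T.card = a + 1 → T = V := fun T h1 h2 =>
    Finset.eq_of_subset_of_card_le h1 (by omega)
  have hV0 : ∀ t ∈ V, ∃ T, T ⊆ V ∧ T.card = a ∧ t ∉ T ∧ insert t T = V ∧ V \ T = {t} := by
    intro t ht
    refine ⟨V.erase t, Finset.erase_subset _ _, ?_, Finset.notMem_erase _ _,
      Finset.insert_erase ht, ?_⟩
    · rw [Finset.card_erase_of_mem ht, ha]; rfl
    · ext s
      simp only [Finset.mem_sdiff, Finset.mem_erase, Finset.mem_singleton, not_and, ne_eq]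
      constructor
      · rintro ⟨h1, h2⟩
        by_contra h3
        exact h2 h3 h1
      · rintro rfl
        exact ⟨ht, fun h => absurd rfl h⟩
  have hfilt : ∀ T ⊆ V, T.filter (· < v) = T := fun T hT =>
    Finset.filter_true_of_mem fun t ht => hv t (hT ht)
  -- the remaining obstruction
  set z : A := f V + ((-1 : ℤ) ^ a) • x v (w V) with hz
  have hzt : ∀ t ∈ V, x t z = 0 := by
    intro t ht
    obtain ⟨T, T1, T2, T3, T4, T5⟩ := hV0 t ht
    have e1 := f3 T
    rw [kz_insert_notMem hvV f (fun h => hvV (T1 h)), hfilt T T1, T2, w3' T T1] at e1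
    have e2 : ∀ g : Finset (Fin n) → A, kz x V g T =
        ((-1 : ℤ) ^ (T.filter (· < t)).card) • x t (g V) := by
      intro g
      unfold kz
      rw [T5, Finset.sum_singleton, T4]
    rw [e2, e2] at e1
    have e3 : ((-1 : ℤ) ^ (T.filter (· < t)).card) • x t z = 0 := by
      rw [hz, map_add, smul_add, map_zsmul, ← hx.comm v t, add_comm]
      rw [map_zsmul] at e1
      rw [smul_comm]
      exact e1
    rcases neg_one_pow_eq_or ℤ (T.filter (· < t)).card with h | h
    · rw [h, one_smul] at e3
      exact e3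
    · rw [h, neg_smul, one_smul, neg_eq_zero] at e3
      exact e3
  obtain ⟨u, u1, u2, u3⟩ := hd z (AddSubgroup.add_mem _ (f2 V)
    (AddSubgroup.zsmul_mem _ (hx.deg _ _ _ (w2 V)) _)) hzt
  -- correction of w
  have hu' : ∃ u' ∈ P e, (∀ t ∈ V, x t u' = 0) ∧ ((-1 : ℤ) ^ (a + 1)) • x v u' = z := by
    rcases neg_one_pow_eq_or ℤ (a + 1) with h | h
    · exact ⟨u, u1, u2, by rw [h, one_smul, u3]⟩
    · exact ⟨-u, AddSubgroup.neg_mem _ u1, fun t ht => by rw [map_neg, u2 t ht, neg_zero],
        by rw [h, map_neg, u3, neg_smul, one_smul, neg_neg]⟩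
  obtain ⟨u', u'1, u'2, u'3⟩ := hu'
  set w₂ : Finset (Fin n) → A := fun T => w T + if T = V then u' else 0 with hw₂
  have hw₂1 : Spt V (a + 1) w₂ := by
    intro T hT
    simp only [hw₂]
    rw [w1 T hT, if_neg, add_zero]
    rintro rfl
    exact hT ⟨subset_rfl, ha⟩
  have hw₂2 : ∀ U, w₂ U ∈ P e := by
    intro U
    simp only [hw₂]
    refine AddSubgroup.add_mem _ (w2 U) ?_
    split_ifs
    · exact u'1
    · exact AddSubgroup.zero_mem _
  have hw₂3 : ∀ T ⊆ V, f (insert v T) = kz x V w₂ T := by
    intro T hT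
    rw [w3' T hT, hw₂, kz_add]
    have : kz x V (fun U => if U = V then u' else 0) T = 0 := by
      unfold kz
      refine Finset.sum_eq_zero fun t ht => ?_
      beta_reduce
      split_ifs with h
      · rw [u'2 t (Finset.mem_sdiff.1 ht).1, smul_zero]
      · rw [map_zero, smul_zero]
    rw [this, add_zero]
  -- the first part is now zero
  have hfV : f V + ((-1 : ℤ) ^ a) • x v (w₂ V) = 0 := by
    simp only [hw₂, if_true]
    rw [map_add, smul_add, ← add_assoc, ← hz, ← u'3, pow_succ]
    simp
  refine ⟨fun U => if v ∈ U then w₂ (U.erase v) else 0, ?_, ?_, ?_⟩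
  · intro U hU
    show (if v ∈ U then w₂ (U.erase v) else 0) = 0
    split_ifs with h
    · apply hw₂1
      rintro ⟨h2, h3⟩
      apply hU
      refine ⟨?_, ?_⟩
      · rw [← Finset.insert_erase h]
        exact Finset.insert_subset_insert v h2
      · rw [Finset.card_erase_of_mem h] at h3
        have := Finset.card_pos.2 ⟨v, h⟩
        omega
    · rfl
  · intro U
    show (if v ∈ U then w₂ (U.erase v) else 0) ∈ P e
    split_ifs
    · exact hw₂2 _
    · exact AddSubgroup.zero_mem _
  · intro T
    by_cases hvT : v ∈ T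
    · obtain ⟨T', hT', rfl⟩ : ∃ T', v ∉ T' ∧ insert v T' = T :=
        ⟨T.erase v, Finset.notMem_erase v T, Finset.insert_erase hvT⟩
      rw [kz_insert_mem hv _ w₂ hT' (by
        intro t ht
        have ht' : t ≠ v := fun h => hvV (h ▸ (Finset.mem_sdiff.1 ht).1)
        have : v ∈ insert t (insert v T') := by simp
        rw [if_pos this]
        congr 1
        ext u
        simp only [Finset.mem_erase, Finset.mem_insert]
        constructor
        · rintro ⟨h2, h3 | h3 | h3⟩
          · exact Or.inl h3
          · exact absurd h3 h2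
          · exact Or.inr h3
        · rintro (h2 | h2)
          · exact ⟨h2 ▸ ht', Or.inl h2⟩
          · exact ⟨fun h3 => hT' (h3 ▸ h2), Or.inr (Or.inr h2)⟩)]
      by_cases hTV : T' ⊆ V
      · exact hw₂3 T' hTV
      · rw [kz_not_sub hw₂1 hTV]
        apply f1
        rintro ⟨h2, _⟩
        apply hTV
        intro u hu
        have := h2 (Finset.mem_insert_of_mem hu)
        rw [Finset.mem_insert] at this
        exact this.resolve_left fun h3 => hT' (h3 ▸ hu)
    · rw [kz_insert_notMem hvV _ hvT]
      have e1 : (if v ∈ insert v T then w₂ ((insert v T).erase v) else 0) = w₂ T := by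
        rw [if_pos (Finset.mem_insert_self v T), Finset.erase_insert hvT]
      have e2 : kz x V (fun U => if v ∈ U then w₂ (U.erase v) else 0) T = 0 := by
        unfold kz
        refine Finset.sum_eq_zero fun t ht => ?_
        have ht' : t ≠ v := fun h => hvV (h ▸ (Finset.mem_sdiff.1 ht).1)
        beta_reduce
        rw [if_neg, map_zero, smul_zero]
        rw [Finset.mem_insert, not_or]
        exact ⟨fun h => ht' h.symm, hvT⟩
      rw [e1, e2, add_zero]
      by_cases hTV : T ⊆ V ∧ T.card = a + 1
      · have hTe := hVt T hTV.1 hTV.2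
        subst hTe
        rw [hfilt T subset_rfl, hTV.2, pow_succ]
        have := eq_neg_of_add_eq_zero_left hfV
        rw [this]
        simp
      · rw [hw₂1 T hTV, map_zero, smul_zero]
        apply f1
        rintro ⟨h2, h3⟩
        apply hTV
        refine ⟨?_, h3⟩
        intro u hu
        have := h2 hu
        rw [Finset.mem_insert] at this
        exact this.resolve_left fun h3 => hvT (h3 ▸ hu)

end Pool.Agent.R950.WC
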