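import Pool.Agent.R950.WCA

/-!
Koszul homology of the module of all functions on the exponents (the dual of the polynomial ring).
-/

set_option autoImplicit false

namespace Pool.Agent.R950.WC

variable {n : ℕ} {K : Type*} [AddCommGroup K]

/-- the shift operator -/
noncomputable def shift (t : Fin n) : ((Fin n →₀ ℕ) → K) →+ ((Fin n →₀ ℕ) → K) where
  toFun φ := fun e => φ (e + Finsupp.single t 1)
  map_zero' := rfl
  map_add' _ _ := rfl

lemma shift_apply (t : Fin n) (φ : (Fin n →₀ ℕ) → K) (e : Fin n →₀ ℕ) :
    shift t φ e = φ (e + Finsupp.single t 1) := rfl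

lemma shift_ops : Ops (shift (n := n) (K := K)) (fun _ => ⊤) where
  comm s t a := by
    funext e
    simp only [shift_apply]
    rw [add_right_comm]
  deg _ _ _ _ := trivial

lemma shift_div (V : Finset (Fin n)) (v : Fin n) (hv : v ∉ V) (z : (Fin n →₀ ℕ) → K)
    (hz : ∀ t ∈ V, shift t z = 0) : ∃ u : (Fin n →₀ ℕ) → K, (∀ t ∈ V, shift t u = 0) ∧
      shift v u = z := by
  classical
  refine ⟨fun e => if 1 ≤ e v then z (e - Finsupp.single v 1) else 0, ?_, ?_⟩
  · intro t ht
    have htv : t ≠ v := fun h => hv (h ▸ ht)
    funext e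
    rw [shift_apply]
    have h1 : (e + Finsupp.single t 1 : Fin n →₀ ℕ) v = e v := by
      rw [Finsupp.add_apply, Finsupp.single_eq_of_ne (Ne.symm htv), add_zero]
    simp only [h1]
    split_ifs with h
    · have h2 : e + Finsupp.single t 1 - Finsupp.single v 1 =
          (e - Finsupp.single v 1) + Finsupp.single t 1 := by
        ext s
        simp only [Finsupp.tsub_apply, Finsupp.add_apply]
        by_cases hs : s = v
        · subst hs
          rw [Finsupp.single_eq_of_ne (Ne.symm htv), Finsupp.single_eq_same]
          omega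
        · rw [Finsupp.single_eq_of_ne hs]
          omega
      rw [h2]
      exact congrFun (hz t ht) _
    · rfl
  · funext e
    rw [shift_apply]
    have h1 : 1 ≤ (e + Finsupp.single v 1 : Fin n →₀ ℕ) v := by
      rw [Finsupp.add_apply, Finsupp.single_eq_same]
      omega
    rw [if_pos h1, add_tsub_cancel_right]

/-- one variable -/
lemma van_single {A : Type*} [AddCommGroup A] {x : Fin n → A →+ A} {P : ℕ → AddSubgroup A}
    (v : Fin n) (e : ℕ) (hd : ∀ z ∈ P (e + 1), ∃ u ∈ P e, x v u = z) :
    Van x P {v} 0 e := by
  classical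
  intro f f1 f2 f3
  obtain ⟨u, u1, u2⟩ := hd (f ∅) (f2 ∅)
  refine ⟨fun T => if T = {v} then u else 0, ?_, ?_, ?_⟩
  · intro T hT
    beta_reduce
    rw [if_neg]
    rintro rfl
    exact hT ⟨subset_rfl, by simp⟩
  · intro T
    beta_reduce
    split_ifs
    · exact u1
    · exact AddSubgroup.zero_mem _
  · intro T
    by_cases hT : T = ∅
    · subst hT
      unfold kz
      simp only [Finset.sdiff_empty, Finset.sum_singleton, Finset.filter_empty,
        Finset.card_empty, pow_zero, one_smul, insert_empty_eq, if_true]
      exact u2.symm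
    · rw [f1 T]
      · symm
        unfold kz
        refine Finset.sum_eq_zero fun t ht => ?_
        beta_reduce
        rw [if_neg, map_zero, smul_zero]
        intro h
        rw [Finset.mem_sdiff, Finset.mem_singleton] at ht
        obtain ⟨r, hr⟩ := Finset.nonempty_iff_ne_empty.2 hT
        have h3 : r ∈ insert t T := Finset.mem_insert_of_mem hr
        rw [h, Finset.mem_singleton] at h3
        subst h3
        exact ht.2 (ht.1 ▸ hr)
      · rintro ⟨_, h⟩
        exact hT (Finset.card_eq_zero.1 h)

theorem van_shift (V : Finset (Fin n)) : ∀ a < V.card, ∀ e,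
    Van (shift (n := n) (K := K)) (fun _ => ⊤) V a e := by
  classical
  induction V using Finset.induction_on_max with
  | empty => intro a ha; simp at ha
  | insert v V hv ih =>
    have hvV : v ∉ V := fun h => lt_irrefl v (hv v h)
    intro a ha e
    rw [Finset.card_insert_of_notMem hvV] at ha
    rcases a with _ | a
    · by_cases hV : V = ∅
      · subst hV
        rw [insert_empty_eq]
        refine van_single v e fun z _ => ?_
        obtain ⟨u, _, h2⟩ := shift_div ∅ v (Finset.notMem_empty v) z
          (fun t ht => absurd ht (Finset.notMem_empty t))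
        exact ⟨u, trivial, h2⟩
      · exact van_zero hv e (ih 0 (Finset.card_pos.2 (Finset.nonempty_iff_ne_empty.2 hV)) e)
    · by_cases ha' : a + 1 < V.card
      · exact van_add shift_ops hv a e (ih _ ha' e) (ih _ (by omega) e)
      · refine van_top shift_ops hv a e (by omega) (ih _ (by omega) e) ?_
        intro z _ hz
        obtain ⟨u, h1, h2⟩ := shift_div V v hvV z hz
        exact ⟨u, trivial, h1, h2⟩

end Pool.Agent.R950.WC
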