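import Mathlib

/-!
Points in four-space imposing independent conditions on forms.
-/

set_option autoImplicit false

namespace Pool.Agent.R950.WC

open MvPolynomial Module

section count

variable (K : Type*) [Field K]

lemma finrank_homog (d : ℕ) :
    finrank K (homogeneousSubmodule (Fin 4) K d) = (d + 3).choose 3 := by
  classical
  have h1 : {e : Fin 4 →₀ ℕ | e.degree = d} =
      ((Finset.univ : Finset (Fin 4)).finsuppAntidiag d : Set (Fin 4 →₀ ℕ)) := by
    ext e
    simp only [Set.mem_ofPred_eq, Finset.mem_coe, Finset.mem_finsuppAntidiag,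
      Finset.subset_univ, and_true]
    rw [Finsupp.degree_eq_sum]
  have h2 : finrank K (homogeneousSubmodule (Fin 4) K d) =
      finrank K ({e : Fin 4 →₀ ℕ | e.degree = d} →₀ K) := by
    rw [homogeneousSubmodule_eq_finsupp_supported]
    exact (AddMonoidAlgebra.supportedEquivFinsupp _).finrank_eq
  rw [h2, h1, finrank_finsupp_self]
  simp only [Finset.coe_sort_coe, Fintype.card_coe]
  rw [Finset.card_finsuppAntidiag_nat_eq_choose]
  simp only [Finset.card_univ, Fintype.card_fin]
  have : 4 + d - 1 = d + 3 := by omega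
  rw [this, ← Nat.choose_symm_add]

instance (d : ℕ) : Module.Finite K (homogeneousSubmodule (Fin 4) K d) :=
  Module.Finite.iff_fg.2 (homogeneousSubmodule_fg (Fin 4) K d)

end count

section points

variable {K : Type*} [Field K]

/-- polynomials vanishing at the points -/
def Vn {N : ℕ} (p : Fin N → Fin 4 → K) : Submodule K (MvPolynomial (Fin 4) K) where
  carrier := {f | ∀ i, eval (p i) f = 0}
  add_mem' := by
    intro a b ha hb i
    rw [map_add, ha i, hb i, add_zero]
  zero_mem' := fun i => map_zero _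
  smul_mem' := by
    intro c a ha i
    rw [smul_eval, ha i, mul_zero]

lemma mem_Vn {N : ℕ} {p : Fin N → Fin 4 → K} {f : MvPolynomial (Fin 4) K} :
    f ∈ Vn p ↔ ∀ i, eval (p i) f = 0 := Iff.rfl

variable [Infinite K]

lemma new_pt (f g : MvPolynomial (Fin 4) K) (hf : f ≠ 0) (hg : g ≠ 0) :
    ∃ p : Fin 4 → K, eval p f ≠ 0 ∧ eval p g ≠ 0 ∧ p 0 ≠ 0 := by
  have h1 : f * g * X 0 ≠ 0 := mul_ne_zero (mul_ne_zero hf hg) (X_ne_zero 0)
  by_contra hno
  apply h1
  apply MvPolynomial.funext
  intro p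
  rw [map_mul, map_mul, eval_X, map_zero]
  by_contra h2
  apply hno
  refine ⟨p, ?_, ?_, ?_⟩
  · intro h3; rw [h3] at h2; simp at h2
  · intro h3; rw [h3] at h2; simp at h2
  · intro h3; rw [h3] at h2; simp at h2

lemma greedy (U₁ U₂ : Submodule K (MvPolynomial (Fin 4) K)) [Module.Finite K U₁]
    [Module.Finite K U₂] (N : ℕ) : ∃ p : Fin N → Fin 4 → K, (∀ i, p i 0 ≠ 0) ∧
      finrank K (U₁ ⊓ Vn p : Submodule K (MvPolynomial (Fin 4) K)) ≤ finrank K U₁ - N ∧
      finrank K (U₂ ⊓ Vn p : Submodule K (MvPolynomial (Fin 4) K)) ≤ finrank K U₂ - N := by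
  classical
  induction N with
  | zero =>
    refine ⟨Fin.elim0, fun i => i.elim0, ?_, ?_⟩
    · rw [Nat.sub_zero]
      exact Submodule.finrank_mono inf_le_left
    · rw [Nat.sub_zero]
      exact Submodule.finrank_mono inf_le_left
  | succ N ih =>
    obtain ⟨p, p1, p2, p3⟩ := ih
    have key : ∀ U : Submodule K (MvPolynomial (Fin 4) K), ∃ f : MvPolynomial (Fin 4) K,
        f ≠ 0 ∧ (U ≠ ⊥ → f ∈ U) := by
      intro U
      by_cases hU : U = ⊥
      · exact ⟨1, one_ne_zero, fun h => absurd hU h⟩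
      · obtain ⟨f, h1, h2⟩ := Submodule.exists_mem_ne_zero_of_ne_bot hU
        exact ⟨f, h2, fun _ => h1⟩
    obtain ⟨f, f1, f2⟩ := key (U₁ ⊓ Vn p)
    obtain ⟨g, g1, g2⟩ := key (U₂ ⊓ Vn p)
    obtain ⟨q, q1, q2, q3⟩ := new_pt f g f1 g1
    have step : ∀ (U : Submodule K (MvPolynomial (Fin 4) K)) [Module.Finite K U]
        (f : MvPolynomial (Fin 4) K), (U ⊓ Vn p ≠ ⊥ → f ∈ U ⊓ Vn p) → eval q f ≠ 0 →
        finrank K (U ⊓ Vn p : Submodule K (MvPolynomial (Fin 4) K)) ≤ finrank K U - N →
        finrank K (U ⊓ Vn (Fin.cons q p : Fin (N + 1) → Fin 4 → K) :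
          Submodule K (MvPolynomial (Fin 4) K)) ≤ finrank K U - (N + 1) := by
      intro U _ f h1 h2 h3
      have : Module.Finite K (U ⊓ Vn p : Submodule K (MvPolynomial (Fin 4) K)) :=
        Submodule.finiteDimensional_inf_left _ _
      have hle : U ⊓ Vn (Fin.cons q p : Fin (N + 1) → Fin 4 → K) ≤ U ⊓ Vn p := by
        intro x hx
        refine ⟨hx.1, ?_⟩
        intro i
        have := mem_Vn.1 hx.2 i.succ
        rw [Fin.cons_succ] at this
        exact this
      by_cases hb : U ⊓ Vn p = ⊥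
      · rw [hb, le_bot_iff] at hle
        rw [hle, finrank_bot]
        exact Nat.zero_le _
      · have hlt : U ⊓ Vn (Fin.cons q p : Fin (N + 1) → Fin 4 → K) < U ⊓ Vn p := by
          refine lt_of_le_of_ne hle ?_
          intro h
          have h4 := h1 hb
          rw [← h] at h4
          have := mem_Vn.1 h4.2 0
          rw [Fin.cons_zero] at this
          exact h2 this
        have := Submodule.finrank_lt_finrank_of_lt hlt
        omega
    refine ⟨Fin.cons q p, ?_, step U₁ f f2 q1 p2, step U₂ g g2 q2 p3⟩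
    intro i
    refine Fin.cases ?_ (fun i => ?_) i
    · rw [Fin.cons_zero]; exact q3
    · rw [Fin.cons_succ]; exact p1 i

lemma exists_points (c k : ℕ) (h : finrank K (homogeneousSubmodule (Fin 4) K k) ≤
    2 * finrank K (homogeneousSubmodule (Fin 4) K c)) :
    ∃ z : Fin 2 → Fin (finrank K (homogeneousSubmodule (Fin 4) K c)) → Fin 4 → K,
      (∀ j i, z j i 0 ≠ 0) ∧
      (∀ j, ∀ g : MvPolynomial (Fin 4) K, g.IsHomogeneous c → (∀ i, eval (z j i) g = 0) → g = 0) ∧
      (∀ g : MvPolynomial (Fin 4) K, g.IsHomogeneous k → (∀ j i, eval (z j i) g = 0) → g = 0) := by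
  classical
  set N := finrank K (homogeneousSubmodule (Fin 4) K c) with hN
  obtain ⟨p, p1, p2, p3⟩ := greedy (homogeneousSubmodule (Fin 4) K c)
    (homogeneousSubmodule (Fin 4) K k) N
  have : Module.Finite K (homogeneousSubmodule (Fin 4) K k ⊓ Vn p :
    Submodule K (MvPolynomial (Fin 4) K)) := Submodule.finiteDimensional_inf_left _ _
  obtain ⟨q, q1, q2, q3⟩ := greedy (homogeneousSubmodule (Fin 4) K c)
    (homogeneousSubmodule (Fin 4) K k ⊓ Vn p) N
  have : Module.Finite K (homogeneousSubmodule (Fin 4) K c ⊓ Vn p :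
    Submodule K (MvPolynomial (Fin 4) K)) := Submodule.finiteDimensional_inf_left _ _
  have : Module.Finite K (homogeneousSubmodule (Fin 4) K c ⊓ Vn q :
    Submodule K (MvPolynomial (Fin 4) K)) := Submodule.finiteDimensional_inf_left _ _
  have : Module.Finite K (homogeneousSubmodule (Fin 4) K k ⊓ Vn p ⊓ Vn q :
    Submodule K (MvPolynomial (Fin 4) K)) := Submodule.finiteDimensional_inf_left _ _
  have b1 : homogeneousSubmodule (Fin 4) K c ⊓ Vn p = ⊥ := by
    rw [← Submodule.finrank_eq_zero (R := K)]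
    omega
  have b2 : homogeneousSubmodule (Fin 4) K c ⊓ Vn q = ⊥ := by
    rw [← Submodule.finrank_eq_zero (R := K)]
    omega
  have b3 : homogeneousSubmodule (Fin 4) K k ⊓ Vn p ⊓ Vn q = ⊥ := by
    rw [← Submodule.finrank_eq_zero (R := K)]
    omega
  refine ⟨![p, q], ?_, ?_, ?_⟩
  · intro j i
    fin_cases j
    · exact p1 i
    · exact q1 i
  · intro j g hg hz
    fin_cases j
    · have : g ∈ homogeneousSubmodule (Fin 4) K c ⊓ Vn p := ⟨hg, hz⟩
      rw [b1] at this
      exact this
    · have : g ∈ homogeneousSubmodule (Fin 4) K c ⊓ Vn q := ⟨hg, hz⟩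
      rw [b2] at this
      exact this
  · intro g hg hz
    have : g ∈ homogeneousSubmodule (Fin 4) K k ⊓ Vn p ⊓ Vn q := ⟨⟨hg, hz 0⟩, hz 1⟩
    rw [b3] at this
    exact this

end points

/-- numerical condition -/
lemma choose_ineq (m : ℕ) : (4 * m + m + 3).choose 3 ≤ 2 * (4 * m + 3).choose 3 := by
  have h1 : ∀ x : ℕ, 6 * (x + 3).choose 3 = (x + 3) * (x + 2) * (x + 1) := by
    intro x
    have := Nat.descFactorial_eq_factorial_mul_choose (x + 3) 3
    simp [Nat.descFactorial_succ, Nat.factorial] at this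
    rw [← this]
    ring
  have h2 := h1 (4 * m + m)
  have h3 := h1 (4 * m)
  have h4 : (4 * m + m + 3) * (4 * m + m + 2) * (4 * m + m + 1) ≤
      2 * ((4 * m + 3) * (4 * m + 2) * (4 * m + 1)) := by
    nlinarith [sq_nonneg (m : ℤ), mul_nonneg (Nat.zero_le m) (Nat.zero_le m),
      mul_nonneg (mul_nonneg (Nat.zero_le m) (Nat.zero_le m)) (Nat.zero_le m)]
  omega

end Pool.Agent.R950.WC
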