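import Pool.Agent.R950.WCA
import Pool.Agent.R950.WCB
import Pool.Agent.R950.WCC

/-!
The linear functional, the ideal, and the surjectivity onto the dual in high degrees.
-/

set_option autoImplicit false

namespace Pool.Agent.R950.WC

open MvPolynomial Module

variable {K : Type*} [Field K]

/-- the embedding of the first four variables -/
def io (i : Fin 4) : Fin 6 := Fin.castLE (by omega) i

/-- the last two variables -/
def yo (j : Fin 2) : Fin 6 := Fin.natAdd 4 j

lemma io_inj : Function.Injective io := Fin.castLE_injective (by omega)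

lemma io_lt (i : Fin 4) : (io i : ℕ) < 4 := i.isLt

lemma yo_val (j : Fin 2) : (yo j : ℕ) = 4 + j := rfl

lemma io_ne_yo (i : Fin 4) (j : Fin 2) : io i ≠ yo j := by
  intro h
  have h1 := congrArg Fin.val h
  have h2 := io_lt i
  rw [yo_val] at h1
  omega

lemma yo_inj : Function.Injective yo := Fin.natAdd_injective _ _

lemma six_cases (t : Fin 6) : (∃ i, t = io i) ∨ ∃ j, t = yo j := by
  by_cases h : (t : ℕ) < 4
  · exact Or.inl ⟨⟨t, h⟩, by ext; rfl⟩
  · refine Or.inr ⟨⟨t - 4, by omega⟩, ?_⟩
    ext
    rw [yo_val]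
    show (t : ℕ) = 4 + (t - 4)
    omega

/-- points of the subspace `y = 0` -/
def pt (z : Fin 4 → K) (t : Fin 6) : K := if h : (t : ℕ) < 4 then z ⟨t, h⟩ else 0

lemma pt_io (z : Fin 4 → K) (i : Fin 4) : pt z (io i) = z i := by
  unfold pt
  rw [dif_pos (io_lt i)]
  rfl

lemma pt_yo (z : Fin 4 → K) (j : Fin 2) : pt z (yo j) = 0 := by
  unfold pt
  rw [dif_neg]
  rw [yo_val]
  omega

lemma eval_pt_rename (z : Fin 4 → K) (h : MvPolynomial (Fin 4) K) :
    eval (pt z) (rename io h) = eval z h := by
  rw [eval_rename]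
  congr 1
  congr 1
  funext i
  exact pt_io z i

variable {N : ℕ}

/-- the functional -/
noncomputable def lam (z : Fin 2 → Fin N → Fin 4 → K) (s : ℕ) : MvPolynomial (Fin 6) K →ₗ[K] K :=
  ∑ j, ∑ i, (MvPolynomial.aeval (R := K) (pt (z j i))).toLinearMap ∘ₗ
    (pderiv (yo j)).toLinearMap ∘ₗ homogeneousComponent (s + 1)

lemma lam_apply (z : Fin 2 → Fin N → Fin 4 → K) (s : ℕ) (f : MvPolynomial (Fin 6) K) :
    lam z s f = ∑ j, ∑ i, eval (pt (z j i)) (pderiv (yo j) (homogeneousComponent (s + 1) f)) := by
  unfold lam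
  simp only [LinearMap.sum_apply, LinearMap.comp_apply]
  rfl

lemma lam_comp (z : Fin 2 → Fin N → Fin 4 → K) (s : ℕ) (f : MvPolynomial (Fin 6) K) :
    lam z s (homogeneousComponent (s + 1) f) = lam z s f := by
  rw [lam_apply, lam_apply,
    homogeneousComponent_eq_self (homogeneousComponent_isHomogeneous (s + 1) f)]

lemma lam_of_ne (z : Fin 2 → Fin N → Fin 4 → K) (s d : ℕ) (f : MvPolynomial (Fin 6) K)
    (hf : f.IsHomogeneous d) (hd : d ≠ s + 1) : lam z s f = 0 := by
  rw [← lam_comp, homogeneousComponent_of_mem hf, if_neg (Ne.symm hd), map_zero]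

lemma comp_X_mul (d : ℕ) (t : Fin 6) (w : MvPolynomial (Fin 6) K) :
    homogeneousComponent (d + 1) (X t * w) = X t * homogeneousComponent d w := by
  have h5 : w = ∑ i ∈ Finset.range (w.totalDegree + 1), homogeneousComponent i w :=
    (sum_homogeneousComponent w).symm
  have h6 : ∀ i, homogeneousComponent (d + 1) (X t * homogeneousComponent i w) =
      if d + 1 = 1 + i then X t * homogeneousComponent i w else 0 := fun i =>
    homogeneousComponent_of_mem ((isHomogeneous_X K t).mul
      (homogeneousComponent_isHomogeneous i w))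
  conv_lhs => rw [h5]
  rw [Finset.mul_sum, map_sum, Finset.sum_congr rfl fun i _ => h6 i]
  by_cases hd : d < w.totalDegree + 1
  · rw [Finset.sum_eq_single d]
    · rw [if_pos (by omega)]
    · intro i _ hi
      rw [if_neg (by omega)]
    · intro h
      exact absurd (Finset.mem_range.2 hd) h
  · rw [homogeneousComponent_eq_zero _ _ (by omega), mul_zero]
    refine Finset.sum_eq_zero fun i hi => ?_
    rw [Finset.mem_range] at hi
    rw [if_neg (by omega)]

lemma lam_yy (z : Fin 2 → Fin N → Fin 4 → K) (s : ℕ) (a b : Fin 2)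
    (f : MvPolynomial (Fin 6) K) : lam z s (X (yo a) * (X (yo b) * f)) = 0 := by
  rw [← lam_comp, lam_apply]
  refine Finset.sum_eq_zero fun j _ => Finset.sum_eq_zero fun i _ => ?_
  have h1 : homogeneousComponent (s + 1) (homogeneousComponent (s + 1)
      (X (yo a) * (X (yo b) * f))) = homogeneousComponent (s + 1) (X (yo a) * (X (yo b) * f)) :=
    homogeneousComponent_eq_self (homogeneousComponent_isHomogeneous _ _)
  rw [h1]
  have h2 : ∃ g : MvPolynomial (Fin 6) K, homogeneousComponent (s + 1)
      (X (yo a) * (X (yo b) * f)) = X (yo a) * (X (yo b) * g) := by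
    rcases s with _ | s
    · refine ⟨0, ?_⟩
      rw [comp_X_mul, mul_zero, mul_zero]
      have h7 : homogeneousComponent 0 (X (yo b) * f) = 0 := by
        rw [homogeneousComponent_zero, ← constantCoeff_eq, map_mul, constantCoeff_X, zero_mul,
          C_0]
      rw [h7, mul_zero]
    · exact ⟨_, by rw [comp_X_mul, comp_X_mul]⟩
  obtain ⟨g, hg⟩ := h2
  rw [hg, Derivation.leibniz, Derivation.leibniz]
  simp only [smul_eq_mul, map_add, map_mul, eval_X, pt_yo, zero_mul, mul_zero, add_zero]

lemma lam_y (z : Fin 2 → Fin N → Fin 4 → K) (s : ℕ) (j : Fin 2)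
    (h : MvPolynomial (Fin 4) K) (hh : h.IsHomogeneous s) :
    lam z s (X (yo j) * rename io h) = ∑ i, eval (z j i) h := by
  have h1 : (X (yo j) * rename io h : MvPolynomial (Fin 6) K).IsHomogeneous (s + 1) := by
    rw [add_comm]
    exact (isHomogeneous_X K _).mul hh.rename_isHomogeneous
  rw [lam_apply, homogeneousComponent_eq_self h1]
  rw [Finset.sum_eq_single j]
  · refine Finset.sum_congr rfl fun i _ => ?_
    rw [Derivation.leibniz, pderiv_X_self]
    simp only [smul_eq_mul, map_add, map_mul, eval_X, pt_yo, zero_mul, zero_add, mul_one]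
    exact eval_pt_rename _ _
  · intro b _ hb
    refine Finset.sum_eq_zero fun i _ => ?_
    rw [Derivation.leibniz, pderiv_X_of_ne (fun h => hb (yo_inj h).symm)]
    simp only [smul_eq_mul, map_add, map_mul, eval_X, pt_yo, zero_mul, mul_zero, add_zero]
  · intro h
    exact absurd (Finset.mem_univ j) h

/-- the annihilator of the functional -/
noncomputable def annL (z : Fin 2 → Fin N → Fin 4 → K) (s : ℕ) : Ideal (MvPolynomial (Fin 6) K) where
  carrier := {f | ∀ g, lam z s (f * g) = 0}
  add_mem' := by
    intro a b ha hb g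
    rw [add_mul, map_add, ha g, hb g, add_zero]
  zero_mem' := fun g => by rw [zero_mul, map_zero]
  smul_mem' := by
    intro c a ha g
    rw [smul_eq_mul, mul_comm c a, mul_assoc]
    exact ha _

lemma mem_annL {z : Fin 2 → Fin N → Fin 4 → K} {s : ℕ} {f : MvPolynomial (Fin 6) K} :
    f ∈ annL z s ↔ ∀ g, lam z s (f * g) = 0 := Iff.rfl

/-- the linear ideal -/
noncomputable def Jy (K : Type*) [Field K] : Ideal (MvPolynomial (Fin 6) K) :=
  Ideal.span (X '' {t : Fin 6 | 4 ≤ (t : ℕ)})

lemma mem_Jy {f : MvPolynomial (Fin 6) K} :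
    f ∈ Jy K ↔ ∀ m ∈ f.support, ∃ t : Fin 6, 4 ≤ (t : ℕ) ∧ m t ≠ 0 := by
  unfold Jy
  rw [mem_ideal_span_X_image]
  rfl

lemma yo_mem (j : Fin 2) : (X (yo j) : MvPolynomial (Fin 6) K) ∈ Jy K :=
  Ideal.subset_span ⟨yo j, by show 4 ≤ (yo j : ℕ); rw [yo_val]; omega, rfl⟩

/-- the ideal -/
noncomputable def II (z : Fin 2 → Fin N → Fin 4 → K) (s : ℕ) : Ideal (MvPolynomial (Fin 6) K) :=
  Jy K ⊓ annL z s

lemma comp_mul_comp (z : Fin 2 → Fin N → Fin 4 → K) (s d : ℕ) (f g : MvPolynomial (Fin 6) K)
    (hd : d ≤ s + 1) : lam z s (homogeneousComponent d f * g) =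
      lam z s (f * homogeneousComponent (s + 1 - d) g) := by
  have h1 : ∀ (a b : ℕ) (p q : MvPolynomial (Fin 6) K), a + b ≠ s + 1 →
      lam z s (homogeneousComponent a p * homogeneousComponent b q) = 0 := by
    intro a b p q hab
    exact lam_of_ne z s (a + b) _ ((homogeneousComponent_isHomogeneous a p).mul
      (homogeneousComponent_isHomogeneous b q)) hab
  have hl : lam z s (homogeneousComponent d f * g) =
      lam z s (homogeneousComponent d f * homogeneousComponent (s + 1 - d) g) := by
    have h5 : g = ∑ i ∈ Finset.range (g.totalDegree + 1), homogeneousComponent i g :=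
      (sum_homogeneousComponent g).symm
    conv_lhs => rw [h5]
    rw [Finset.mul_sum, map_sum]
    by_cases hb : s + 1 - d < g.totalDegree + 1
    · rw [Finset.sum_eq_single (s + 1 - d)]
      · intro i _ hi
        exact h1 _ _ _ _ (by omega)
      · intro h
        exact absurd (Finset.mem_range.2 hb) h
    · rw [homogeneousComponent_eq_zero _ g (by omega), mul_zero, map_zero]
      refine Finset.sum_eq_zero fun i hi => ?_
      rw [Finset.mem_range] at hi
      exact h1 _ _ _ _ (by omega)
  have hr : lam z s (f * homogeneousComponent (s + 1 - d) g) =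
      lam z s (homogeneousComponent d f * homogeneousComponent (s + 1 - d) g) := by
    have h5 : f = ∑ i ∈ Finset.range (f.totalDegree + 1), homogeneousComponent i f :=
      (sum_homogeneousComponent f).symm
    conv_lhs => rw [h5]
    rw [Finset.sum_mul, map_sum]
    by_cases hb : d < f.totalDegree + 1
    · rw [Finset.sum_eq_single d]
      · intro i _ hi
        exact h1 _ _ _ _ (by omega)
      · intro h
        exact absurd (Finset.mem_range.2 hb) h
    · rw [homogeneousComponent_eq_zero _ f (by omega), zero_mul, map_zero]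
      refine Finset.sum_eq_zero fun i hi => ?_
      rw [Finset.mem_range] at hi
      exact h1 _ _ _ _ (by omega)
  rw [hl, hr]

lemma annL_comp (z : Fin 2 → Fin N → Fin 4 → K) (s d : ℕ) (f : MvPolynomial (Fin 6) K)
    (hf : f ∈ annL z s) : homogeneousComponent d f ∈ annL z s := by
  intro g
  by_cases hd : d ≤ s + 1
  · rw [comp_mul_comp z s d f g hd]
    exact hf _
  · have h5 : g = ∑ i ∈ Finset.range (g.totalDegree + 1), homogeneousComponent i g :=
      (sum_homogeneousComponent g).symm
    rw [h5, Finset.mul_sum, map_sum]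
    refine Finset.sum_eq_zero fun i _ => ?_
    exact lam_of_ne z s (d + i) _ ((homogeneousComponent_isHomogeneous d f).mul
      (homogeneousComponent_isHomogeneous i g)) (by omega)

lemma Jy_comp (d : ℕ) (f : MvPolynomial (Fin 6) K) (hf : f ∈ Jy K) :
    homogeneousComponent d f ∈ Jy K := by
  rw [mem_Jy] at hf ⊢
  intro m hm
  apply hf m
  rw [MvPolynomial.mem_support_iff, coeff_homogeneousComponent] at hm
  rw [MvPolynomial.mem_support_iff]
  intro h
  apply hm
  rw [h]
  simp

lemma II_comp (z : Fin 2 → Fin N → Fin 4 → K) (s d : ℕ) (f : MvPolynomial (Fin 6) K)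
    (hf : f ∈ II z s) : homogeneousComponent d f ∈ II z s :=
  ⟨Jy_comp d f hf.1, annL_comp z s d f hf.2⟩

attribute [local instance] MvPolynomial.gradedAlgebra

lemma II_homog (z : Fin 2 → Fin N → Fin 4 → K) (s : ℕ) :
    (II z s).IsHomogeneous (homogeneousSubmodule (Fin 6) K) := by
  intro d f hf
  have := II_comp z s d f hf
  rw [← MvPolynomial.decomposition.decompose'_apply] at this
  exact this

end Pool.Agent.R950.WC
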