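import Pool.Agent.R950.WCD

/-!
The map to the functions on exponents and its surjectivity.
-/

set_option autoImplicit false

namespace Pool.Agent.R950.WC

open MvPolynomial Module

variable {K : Type*} [Field K] {N : ℕ}

/-- the map to the functions on exponents -/
noncomputable def Psi (z : Fin 2 → Fin N → Fin 4 → K) (s : ℕ) :
    MvPolynomial (Fin 6) K →+ ((Fin 6 →₀ ℕ) → K) where
  toFun f := fun ε => lam z s (f * monomial ε 1)
  map_zero' := by
    funext ε
    rw [zero_mul, map_zero]
    rfl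
  map_add' f g := by
    funext ε
    rw [add_mul, map_add]
    rfl

lemma Psi_apply (z : Fin 2 → Fin N → Fin 4 → K) (s : ℕ) (f : MvPolynomial (Fin 6) K)
    (ε : Fin 6 →₀ ℕ) : Psi z s f ε = lam z s (f * monomial ε 1) := rfl

lemma Psi_X (z : Fin 2 → Fin N → Fin 4 → K) (s : ℕ) (t : Fin 6) (f : MvPolynomial (Fin 6) K) :
    Psi z s (X t * f) = shift t (Psi z s f) := by
  funext ε
  rw [Psi_apply, shift_apply, Psi_apply]
  congr 1
  rw [X, mul_comm (monomial (Finsupp.single t 1) (1 : K)) f, mul_assoc, monomial_mul, one_mul,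
    add_comm]

lemma Psi_eq_zero {z : Fin 2 → Fin N → Fin 4 → K} {s : ℕ} {f : MvPolynomial (Fin 6) K} :
    Psi z s f = 0 ↔ f ∈ annL z s := by
  constructor
  · intro h g
    have h1 : g = ∑ ε ∈ g.support, coeff ε g • monomial ε (1 : K) := by
      conv_lhs => rw [← support_sum_monomial_coeff g]
      refine Finset.sum_congr rfl fun ε _ => ?_
      rw [smul_monomial, smul_eq_mul, mul_one]
    rw [h1, Finset.mul_sum, map_sum]
    refine Finset.sum_eq_zero fun ε _ => ?_
    rw [mul_smul_comm, map_smul, ← Psi_apply, h]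
    simp
  · intro h
    funext ε
    exact h _

/-- the exponents without the last two variables, of degree `s - d` -/
def Ex (s d : ℕ) : Set (Fin 6 →₀ ℕ) := {ε | (∀ j, ε (yo j) = 0) ∧ ε.degree + d = s}

lemma exists_rename {ε : Fin 6 →₀ ℕ} (h : ∀ j, ε (yo j) = 0) :
    ∃ δ : Fin 4 →₀ ℕ, δ.mapDomain io = ε ∧ δ.degree = ε.degree := by
  classical
  have h1 : (ε.comapDomain io io_inj.injOn).mapDomain io = ε := by
    apply Finsupp.mapDomain_comapDomain _ io_inj
    intro t ht
    rcases six_cases t with ⟨i, rfl⟩ | ⟨j, rfl⟩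
    · exact ⟨i, rfl⟩
    · exfalso
      rw [Finset.mem_coe, Finsupp.mem_support_iff] at ht
      exact ht (h j)
  refine ⟨ε.comapDomain io io_inj.injOn, h1, ?_⟩
  conv_rhs => rw [← h1]
  rw [Finsupp.degree_mapDomain]

lemma rename_mono (δ : Fin 4 →₀ ℕ) :
    rename io (monomial δ (1 : K)) = monomial (δ.mapDomain io) 1 := rename_monomial _ _ _

lemma Jy_exists {f : MvPolynomial (Fin 6) K} (hf : f ∈ Jy K) :
    ∃ q : Fin 2 → MvPolynomial (Fin 6) K, f = ∑ j, X (yo j) * q j := by
  unfold Jy at hf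
  have h1 : (X '' {t : Fin 6 | 4 ≤ (t : ℕ)} : Set (MvPolynomial (Fin 6) K)) =
      Set.range (fun j : Fin 2 => (X (yo j) : MvPolynomial (Fin 6) K)) := by
    ext p
    constructor
    · rintro ⟨t, ht, rfl⟩
      rcases six_cases t with ⟨i, rfl⟩ | ⟨j, rfl⟩
      · exfalso
        have h2 := io_lt i
        have h3 : 4 ≤ (io i : ℕ) := ht
        omega
      · exact ⟨j, rfl⟩
    · rintro ⟨j, rfl⟩
      exact ⟨yo j, by show 4 ≤ (yo j : ℕ); rw [yo_val]; omega, rfl⟩
  rw [h1, Ideal.mem_span_range_iff_exists_fun] at hf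
  obtain ⟨q, hq⟩ := hf
  exact ⟨q, by rw [← hq]; exact Finset.sum_congr rfl fun j _ => mul_comm _ _⟩

/-- `Psi` is supported on `Ex` -/
lemma Psi_supp {z : Fin 2 → Fin N → Fin 4 → K} {s d : ℕ} {f : MvPolynomial (Fin 6) K}
    (hf : f ∈ Jy K) (hd : f.IsHomogeneous (d + 1)) {ε : Fin 6 →₀ ℕ} (hε : ε ∉ Ex s d) :
    Psi z s f ε = 0 := by
  classical
  rw [Psi_apply]
  by_cases h1 : ε.degree + d = s
  · have h2 : ∃ j, ε (yo j) ≠ 0 := by
      by_contra hno
      push Not at hno
      exact hε ⟨hno, h1⟩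
    obtain ⟨b, hb⟩ := h2
    obtain ⟨q, rfl⟩ := Jy_exists hf
    have h3 : (monomial ε (1 : K)) =
        X (yo b) * monomial (ε - Finsupp.single (yo b) 1) 1 := by
      rw [X, monomial_mul, one_mul]
      congr 1
      rw [add_tsub_cancel_of_le]
      rw [Finsupp.single_le_iff]
      omega
    rw [h3, Finset.sum_mul, map_sum]
    refine Finset.sum_eq_zero fun j _ => ?_
    have h4 : X (yo j) * q j * (X (yo b) * monomial (ε - Finsupp.single (yo b) 1) (1 : K)) =
        X (yo j) * (X (yo b) * (q j * monomial (ε - Finsupp.single (yo b) 1) 1)) := by ring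
    rw [h4, lam_yy]
  · apply lam_of_ne z s (d + 1 + ε.degree) _ (hd.mul (isHomogeneous_monomial 1 rfl))
    omega

/-- evaluation data -/
structure Pts (z : Fin 2 → Fin N → Fin 4 → K) (c k : ℕ) : Prop where
  hN : N = finrank K (homogeneousSubmodule (Fin 4) K c)
  h0 : ∀ j i, z j i 0 ≠ 0
  h1 : ∀ j, ∀ g : MvPolynomial (Fin 4) K, g.IsHomogeneous c → (∀ i, eval (z j i) g = 0) → g = 0
  h2 : ∀ g : MvPolynomial (Fin 4) K, g.IsHomogeneous k → (∀ j i, eval (z j i) g = 0) → g = 0

/-- interpolation -/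
lemma Pts.interp {z : Fin 2 → Fin N → Fin 4 → K} {c k : ℕ} (hz : Pts z c k) (j : Fin 2)
    {d : ℕ} (hd : c ≤ d) (a : Fin N → K) :
    ∃ g : MvPolynomial (Fin 4) K, g.IsHomogeneous d ∧ ∀ i, eval (z j i) g = a i := by
  classical
  let ev : homogeneousSubmodule (Fin 4) K c →ₗ[K] (Fin N → K) :=
    { toFun := fun g i => eval (z j i) g.1
      map_add' := fun g h => by
        funext i
        show eval (z j i) (g.1 + h.1) = _
        rw [map_add]; rfl
      map_smul' := fun r g => by
        funext i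
        show eval (z j i) (r • g.1) = _
        rw [smul_eval]; rfl }
  have hev : ∀ g i, ev g i = eval (z j i) g.1 := fun _ _ => rfl
  have hinj : Function.Injective ev := by
    rw [← LinearMap.ker_eq_bot, LinearMap.ker_eq_bot']
    intro g hg
    apply Subtype.ext
    exact hz.h1 j g.1 g.2 fun i => by rw [← hev, hg]; rfl
  have hfr : finrank K (homogeneousSubmodule (Fin 4) K c) = finrank K (Fin N → K) := by
    rw [Module.finrank_fin_fun, ← hz.hN]
  have hsurj : Function.Surjective ev :=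
    (LinearMap.injective_iff_surjective_of_finrank_eq_finrank hfr).1 hinj
  obtain ⟨g, hg⟩ := hsurj fun i => a i * ((z j i 0) ^ (d - c))⁻¹
  refine ⟨X 0 ^ (d - c) * g.1, ?_, ?_⟩
  · have h1 : (X 0 ^ (d - c) * g.1 : MvPolynomial (Fin 4) K).IsHomogeneous (1 * (d - c) + c) :=
      ((isHomogeneous_X K _).pow _).mul g.2
    have h2 : 1 * (d - c) + c = d := by omega
    rw [h2] at h1
    exact h1
  · intro i
    rw [map_mul, map_pow, eval_X, ← hev, hg]
    have h3 : (z j i 0) ^ (d - c) ≠ 0 := pow_ne_zero _ (hz.h0 j i)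
    field_simp

/-- representation of functionals -/
lemma Pts.repr {z : Fin 2 → Fin N → Fin 4 → K} {c k : ℕ} (hz : Pts z c k) {l : ℕ} (hl : l ≤ k)
    (φ : MvPolynomial (Fin 4) K →ₗ[K] K) :
    ∃ a : Fin 2 → Fin N → K, ∀ g : MvPolynomial (Fin 4) K, g.IsHomogeneous l →
      φ g = ∑ j, ∑ i, a j i * eval (z j i) g := by
  classical
  let ev : homogeneousSubmodule (Fin 4) K l →ₗ[K] (Fin 2 × Fin N → K) :=
    { toFun := fun g i => eval (z i.1 i.2) g.1
      map_add' := fun g h => by
        funext i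
        show eval (z i.1 i.2) (g.1 + h.1) = _
        rw [map_add]; rfl
      map_smul' := fun r g => by
        funext i
        show eval (z i.1 i.2) (r • g.1) = _
        rw [smul_eval]; rfl }
  have hev : ∀ g i, ev g i = eval (z i.1 i.2) g.1 := fun _ _ => rfl
  have hinj : LinearMap.ker ev = ⊥ := by
    rw [LinearMap.ker_eq_bot']
    intro g hg
    apply Subtype.ext
    have h1 : (X 0 ^ (k - l) * g.1 : MvPolynomial (Fin 4) K) = 0 := by
      apply hz.h2
      · have h1 : (X 0 ^ (k - l) * g.1 : MvPolynomial (Fin 4) K).IsHomogeneous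
            (1 * (k - l) + l) := ((isHomogeneous_X K _).pow _).mul g.2
        have h2 : 1 * (k - l) + l = k := by omega
        rw [h2] at h1
        exact h1
      · intro j i
        rw [map_mul, ← hev g (j, i), hg]
        simp
    rcases mul_eq_zero.1 h1 with h2 | h2
    · exact absurd h2 (pow_ne_zero _ (X_ne_zero _))
    · exact h2
  obtain ⟨r, hr⟩ := LinearMap.exists_leftInverse_of_injective ev hinj
  refine ⟨fun j i => φ (r (Pi.single (j, i) 1)).1, ?_⟩
  intro g hg
  have h1 : r (ev ⟨g, hg⟩) = ⟨g, hg⟩ := by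
    have := LinearMap.congr_fun hr ⟨g, hg⟩
    exact this
  have h2 : ev ⟨g, hg⟩ = ∑ p : Fin 2 × Fin N, eval (z p.1 p.2) g • Pi.single p (1 : K) := by
    funext p
    rw [Finset.sum_apply, Finset.sum_eq_single p]
    · rw [Pi.smul_apply, Pi.single_eq_same, smul_eq_mul, mul_one]
      rfl
    · intro b _ hb
      rw [Pi.smul_apply, Pi.single_eq_of_ne (Ne.symm hb), smul_zero]
    · intro h
      exact absurd (Finset.mem_univ p) h
  have h3 : φ g = φ (r (ev ⟨g, hg⟩)).1 := by rw [h1]
  rw [h3, h2, map_sum]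
  have h4 : ((∑ p : Fin 2 × Fin N, r (eval (z p.1 p.2) g • Pi.single p (1 : K)) :
      homogeneousSubmodule (Fin 4) K l) : MvPolynomial (Fin 4) K) =
      ∑ p : Fin 2 × Fin N, (r (eval (z p.1 p.2) g • Pi.single p (1 : K))).1 := by
    rw [Submodule.coe_sum]
  rw [h4, map_sum, Fintype.sum_prod_type]
  refine Finset.sum_congr rfl fun j _ => Finset.sum_congr rfl fun i _ => ?_
  rw [map_smul, Submodule.coe_smul, map_smul, smul_eq_mul, mul_comm]

/-- surjectivity onto the functions supported on `Ex` -/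
theorem Pts.surj {z : Fin 2 → Fin N → Fin 4 → K} {c k : ℕ} (hz : Pts z c k) {d : ℕ}
    (hd : c ≤ d) (φ : (Fin 6 →₀ ℕ) → K) (hφ : ∀ ε ∉ Ex (c + k) d, φ ε = 0) :
    ∃ g ∈ Jy K, g.IsHomogeneous (d + 1) ∧ Psi z (c + k) g = φ := by
  classical
  by_cases hds : d ≤ c + k
  · set l := c + k - d with hl
    obtain ⟨a, ha⟩ := hz.repr (l := l) (by omega)
      ((basisMonomials (Fin 4) K).constr K fun δ => φ (δ.mapDomain io))
    choose G G1 G2 using fun j => hz.interp j hd (a j)
    have hJ : ∑ j, X (yo j) * rename io (G j) ∈ Jy K :=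
      Ideal.sum_mem _ fun j _ => Ideal.mul_mem_right _ _ (yo_mem j)
    have hH : (∑ j, X (yo j) * rename io (G j) : MvPolynomial (Fin 6) K).IsHomogeneous
        (d + 1) := by
      refine IsHomogeneous.sum _ _ _ fun j _ => ?_
      rw [add_comm]
      exact (isHomogeneous_X K _).mul (G1 j).rename_isHomogeneous
    refine ⟨∑ j, X (yo j) * rename io (G j), hJ, hH, ?_⟩
    funext ε
    by_cases hε : ε ∈ Ex (c + k) d
    · obtain ⟨δ, δ1, δ2⟩ := exists_rename hε.1
      rw [Psi_apply, ← δ1, ← rename_mono, Finset.sum_mul, map_sum]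
      have hδ : δ.degree = l := by
        rw [δ2]
        have := hε.2
        omega
      have h1 := ha (monomial δ 1) (isHomogeneous_monomial 1 hδ)
      have h2 : (basisMonomials (Fin 4) K).constr K (fun δ => φ (δ.mapDomain io))
          (monomial δ 1) = φ (δ.mapDomain io) := by
        have := (basisMonomials (Fin 4) K).constr_basis K (fun δ => φ (δ.mapDomain io)) δ
        rw [coe_basisMonomials] at this
        exact this
      rw [h2] at h1
      rw [h1]
      refine Finset.sum_congr rfl fun j _ => ?_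
      rw [mul_assoc, ← map_mul, lam_y]
      · refine Finset.sum_congr rfl fun i _ => ?_
        rw [map_mul, G2]
      · have h3 := (G1 j).mul (isHomogeneous_monomial (1 : K) hδ)
        have h4 : d + l = c + k := by omega
        rw [h4] at h3
        exact h3
    · rw [Psi_supp hJ hH hε, hφ ε hε]
  · refine ⟨0, Ideal.zero_mem _, isHomogeneous_zero _ _ _, ?_⟩
    rw [map_zero]
    funext ε
    symm
    apply hφ
    rintro ⟨_, h⟩
    omega

end Pool.Agent.R950.WC
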