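import Pool.Agent.R950.WCE

/-!
Koszul homology of the quotient in high degrees.
-/

set_option autoImplicit false

namespace Pool.Agent.R950.WC

open MvPolynomial Module

section quot

variable {K : Type*} [Field K] {n : ℕ}

/-- multiplication by the variables on the quotient -/
noncomputable def xq (J : Ideal (MvPolynomial (Fin n) K)) (t : Fin n) :
    (MvPolynomial (Fin n) K ⧸ J) →+ (MvPolynomial (Fin n) K ⧸ J) :=
  AddMonoidHom.mulLeft (Ideal.Quotient.mk J (X t))

lemma xq_apply (J : Ideal (MvPolynomial (Fin n) K)) (t : Fin n)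
    (a : MvPolynomial (Fin n) K ⧸ J) : xq J t a = Ideal.Quotient.mk J (X t) * a := rfl

lemma xq_mk (J : Ideal (MvPolynomial (Fin n) K)) (t : Fin n) (a : MvPolynomial (Fin n) K) :
    xq J t (Ideal.Quotient.mk J a) = Ideal.Quotient.mk J (X t * a) := (map_mul _ _ _).symm

/-- homogeneous part of the quotient -/
noncomputable def Pq (J : Ideal (MvPolynomial (Fin n) K)) (e : ℕ) :
    AddSubgroup (MvPolynomial (Fin n) K ⧸ J) :=
  ((homogeneousSubmodule (Fin n) K e).toAddSubgroup).map (Ideal.Quotient.mk J).toAddMonoidHom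

lemma mem_Pq {J : Ideal (MvPolynomial (Fin n) K)} {e : ℕ} {a : MvPolynomial (Fin n) K ⧸ J} :
    a ∈ Pq J e ↔ ∃ g : MvPolynomial (Fin n) K, g.IsHomogeneous e ∧ Ideal.Quotient.mk J g = a :=
  Iff.rfl

lemma xq_ops (J : Ideal (MvPolynomial (Fin n) K)) : Ops (xq J) (Pq J) where
  comm s t a := by
    rw [xq_apply, xq_apply, xq_apply, xq_apply]
    ring
  deg t e a ha := by
    obtain ⟨g, h1, rfl⟩ := mem_Pq.1 ha
    rw [xq_mk]
    refine mem_Pq.2 ⟨_, ?_, rfl⟩
    rw [add_comm]
    exact (isHomogeneous_X K t).mul h1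

end quot

variable {K : Type*} [Field K]

theorem van_Jy (V : Finset (Fin 6)) : (∀ t ∈ V, (t : ℕ) < 4) → ∀ a ≥ 1, ∀ e,
    Van (xq (Jy K)) (Pq (Jy K)) V a e := by
  classical
  induction V using Finset.induction_on_max with
  | empty => intro _ a ha e; exact van_empty a e ha
  | insert v V hv ih =>
    intro hV4
    have hvV : v ∉ V := fun h => lt_irrefl v (hv v h)
    have hV4' : ∀ t ∈ V, (t : ℕ) < 4 := fun t ht => hV4 t (Finset.mem_insert_of_mem ht)
    have hv4 : (v : ℕ) < 4 := hV4 v (Finset.mem_insert_self v V)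
    have ih' := ih hV4'
    intro a ha e
    obtain ⟨a, rfl⟩ : ∃ a', a = a' + 1 := ⟨a - 1, by omega⟩
    rcases a with _ | a
    · refine van_one (xq_ops _) hv e (ih' 1 le_rfl e) ?_
      rintro z hz ⟨u, hu⟩
      obtain ⟨g, g1, rfl⟩ := mem_Pq.1 hz
      choose u' hu' using fun t => Ideal.Quotient.mk_surjective (u t)
      have h1 : X v * g - ∑ t ∈ V, X t * u' t ∈ Jy K := by
        rw [← Ideal.Quotient.eq_zero_iff_mem, map_sub, map_sum, ← xq_mk, hu, sub_eq_zero]
        refine Finset.sum_congr rfl fun t _ => ?_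
        rw [← xq_mk, hu']
      set W : Finset (Fin 6) := Finset.univ.filter fun t => t ∈ V ∨ 4 ≤ (t : ℕ) with hW
      have hW' : ∀ t, t ∈ W ↔ t ∈ V ∨ 4 ≤ (t : ℕ) := by
        intro t
        rw [hW, Finset.mem_filter]
        exact ⟨fun h => h.2, fun h => ⟨Finset.mem_univ t, h⟩⟩
      have hsub : Jy K ≤ Ideal.span (X '' (W : Set (Fin 6))) := by
        apply Ideal.span_mono
        apply Set.image_mono
        intro t ht
        exact (hW' t).2 (Or.inr ht)
      have h2 : X v * g ∈ (Ideal.span (X '' (W : Set (Fin 6))) :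
          Ideal (MvPolynomial (Fin 6) K)) := by
        have h3 : X v * g = (X v * g - ∑ t ∈ V, X t * u' t) + ∑ t ∈ V, X t * u' t := by ring
        rw [h3]
        refine Ideal.add_mem _ (hsub h1) (Ideal.sum_mem _ fun t ht => ?_)
        exact Ideal.mul_mem_right _ _ (Ideal.subset_span ⟨t, (hW' t).2 (Or.inl ht), rfl⟩)
      have h3 : g ∈ (Ideal.span (X '' (W : Set (Fin 6))) : Ideal (MvPolynomial (Fin 6) K)) := by
        rw [mem_ideal_span_X_image] at h2 ⊢
        intro m hm
        obtain ⟨t, t1, t2⟩ := h2 (Finsupp.single v 1 + m) (by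
          rw [MvPolynomial.mem_support_iff, coeff_X_mul]
          exact MvPolynomial.mem_support_iff.1 hm)
        refine ⟨t, t1, ?_⟩
        have htv : t ≠ v := by
          rintro rfl
          rcases (hW' t).1 t1 with h4 | h4
          · exact hvV h4
          · omega
        rw [Finsupp.add_apply, Finsupp.single_eq_of_ne htv, zero_add] at t2
        exact t2
      obtain ⟨q, hq⟩ := (Submodule.mem_span_image_finset_iff_exists_fun' _).1 h3
      have hg : g = ∑ t ∈ W, X t * homogeneousComponent e (q t) := by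
        conv_lhs => rw [← homogeneousComponent_eq_self g1, ← hq]
        rw [map_sum]
        refine Finset.sum_congr rfl fun t _ => ?_
        rw [smul_eq_mul, mul_comm, comp_X_mul]
      refine ⟨fun t => Ideal.Quotient.mk _ (homogeneousComponent e (q t)),
        fun t => mem_Pq.2 ⟨_, homogeneousComponent_isHomogeneous _ _, rfl⟩, ?_⟩
      conv_lhs => rw [hg]
      rw [map_sum]
      have hVW : V ⊆ W := fun t ht => (hW' t).2 (Or.inl ht)
      rw [← Finset.sum_subset hVW]
      · refine Finset.sum_congr rfl fun t _ => ?_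
        rw [xq_mk]
      · intro t ht1 ht2
        rw [Ideal.Quotient.eq_zero_iff_mem]
        have h4 : 4 ≤ (t : ℕ) := ((hW' t).1 ht1).resolve_left ht2
        exact Ideal.mul_mem_right _ _ (Ideal.subset_span ⟨t, h4, rfl⟩)
    · exact van_add (xq_ops _) hv (a + 1) e (ih' _ (by omega) e) (ih' _ (by omega) e)

variable {N : ℕ}

/-- `Psi` on the quotient -/
noncomputable def psi (z : Fin 2 → Fin N → Fin 4 → K) (s : ℕ) :
    (MvPolynomial (Fin 6) K ⧸ II z s) →+ ((Fin 6 →₀ ℕ) → K) :=
  AddMonoidHom.mk' (fun a => Psi z s (Ideal.Quotient.mk_surjective a).choose) (by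
    have key : ∀ f g : MvPolynomial (Fin 6) K, Ideal.Quotient.mk (II z s) f =
        Ideal.Quotient.mk (II z s) g → Psi z s f = Psi z s g := by
      intro f g h
      rw [Ideal.Quotient.mk_eq_mk_iff_sub_mem] at h
      have h2 := Psi_eq_zero.2 h.2
      rw [map_sub, sub_eq_zero] at h2
      exact h2
    intro a b
    rw [← map_add]
    apply key
    rw [(Ideal.Quotient.mk_surjective (a + b)).choose_spec, map_add,
      (Ideal.Quotient.mk_surjective a).choose_spec, (Ideal.Quotient.mk_surjective b).choose_spec])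

lemma psi_mk (z : Fin 2 → Fin N → Fin 4 → K) (s : ℕ) (f : MvPolynomial (Fin 6) K) :
    psi z s (Ideal.Quotient.mk _ f) = Psi z s f := by
  have h : Ideal.Quotient.mk (II z s)
      (Ideal.Quotient.mk_surjective (Ideal.Quotient.mk (II z s) f)).choose =
      Ideal.Quotient.mk (II z s) f := (Ideal.Quotient.mk_surjective _).choose_spec
  rw [Ideal.Quotient.mk_eq_mk_iff_sub_mem] at h
  have h2 := Psi_eq_zero.2 h.2
  rw [map_sub, sub_eq_zero] at h2
  exact h2

lemma psi_x (z : Fin 2 → Fin N → Fin 4 → K) (s : ℕ) (t : Fin 6)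
    (a : MvPolynomial (Fin 6) K ⧸ II z s) : psi z s (xq _ t a) = shift t (psi z s a) := by
  obtain ⟨f, rfl⟩ := Ideal.Quotient.mk_surjective a
  rw [xq_mk, psi_mk, psi_mk, Psi_X]

/-- the projection to the quotient by the linear ideal -/
noncomputable def pr (z : Fin 2 → Fin N → Fin 4 → K) (s : ℕ) :
    (MvPolynomial (Fin 6) K ⧸ II z s) →+* (MvPolynomial (Fin 6) K ⧸ Jy K) :=
  Ideal.Quotient.factor inf_le_left

lemma pr_mk (z : Fin 2 → Fin N → Fin 4 → K) (s : ℕ) (f : MvPolynomial (Fin 6) K) :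
    pr z s (Ideal.Quotient.mk _ f) = Ideal.Quotient.mk _ f := rfl

lemma pr_x (z : Fin 2 → Fin N → Fin 4 → K) (s : ℕ) (t : Fin 6)
    (a : MvPolynomial (Fin 6) K ⧸ II z s) : pr z s (xq _ t a) = xq _ t (pr z s a) := by
  obtain ⟨f, rfl⟩ := Ideal.Quotient.mk_surjective a
  rw [xq_mk, pr_mk, pr_mk, xq_mk]

lemma eq_zero_of {z : Fin 2 → Fin N → Fin 4 → K} {s : ℕ}
    {a : MvPolynomial (Fin 6) K ⧸ II z s} (h1 : pr z s a = 0) (h2 : psi z s a = 0) : a = 0 := by
  obtain ⟨f, rfl⟩ := Ideal.Quotient.mk_surjective a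
  rw [pr_mk, Ideal.Quotient.eq_zero_iff_mem] at h1
  rw [psi_mk, Psi_eq_zero] at h2
  exact Ideal.Quotient.eq_zero_iff_mem.2 ⟨h1, h2⟩

/-- vanishing for the first four variables -/
theorem van_four {z : Fin 2 → Fin N → Fin 4 → K} {c k : ℕ} (hz : Pts z c k)
    (V : Finset (Fin 6)) (hV : ∀ t ∈ V, (t : ℕ) < 4) (a e : ℕ) (ha1 : 1 ≤ a) (ha2 : a < V.card)
    (he : c + 1 ≤ e) : Van (xq (II z (c + k))) (Pq (II z (c + k))) V a e := by
  classical
  set s := c + k with hs
  intro f f1 f2 f3
  -- reduction modulo the linear ideal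
  obtain ⟨w, w1, w2, w3⟩ := van_Jy (K := K) V hV a ha1 e (fun T => pr z s (f T)) (by
    intro T hT
    beta_reduce
    rw [f1 T hT, map_zero]) (by
    intro T
    obtain ⟨g, g1, g2⟩ := mem_Pq.1 (f2 T)
    refine mem_Pq.2 ⟨g, g1, ?_⟩
    rw [← g2, pr_mk]) (by
    intro T
    have := map_kz (x := xq (II z s)) (y := xq (Jy K)) (pr z s).toAddMonoidHom
      (fun t b => pr_x z s t b) V f T
    rw [f3 T, map_zero] at this
    exact this.symm)
  have hlift : ∀ U, ∃ b ∈ Pq (II z s) e, pr z s b = w U ∧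
      (¬ (U ⊆ V ∧ U.card = a + 1) → b = 0) := by
    intro U
    by_cases hU : U ⊆ V ∧ U.card = a + 1
    · obtain ⟨g, g1, g2⟩ := mem_Pq.1 (w2 U)
      exact ⟨Ideal.Quotient.mk _ g, mem_Pq.2 ⟨g, g1, rfl⟩, by rw [pr_mk, g2],
        fun h => absurd hU h⟩
    · exact ⟨0, AddSubgroup.zero_mem _, by rw [w1 U hU, map_zero], fun _ => rfl⟩
  choose b b1 b2 b3 using hlift
  set f' : Finset (Fin 6) → (MvPolynomial (Fin 6) K ⧸ II z s) :=
    fun T => f T - kz (xq (II z s)) V b T with hf'
  have f'0 : ∀ T, pr z s (f' T) = 0 := by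
    intro T
    have h1 := map_kz (x := xq (II z s)) (y := xq (Jy K)) (pr z s).toAddMonoidHom
      (fun t b => pr_x z s t b) V b T
    have h2 : pr z s (kz (xq (II z s)) V b T) = kz (xq (Jy K)) V w T := by
      refine h1.trans ?_
      congr 1
      funext U
      exact b2 U
    rw [hf']
    beta_reduce
    rw [map_sub, h2, ← w3 T, sub_self]
  have f'2 : ∀ T, f' T ∈ Pq (II z s) (e + 1) := fun T =>
    AddSubgroup.sub_mem _ (f2 T) (kz_mem (xq_ops _) b1 T)
  have f'1 : Spt V a f' := by
    intro T hT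
    rw [hf']
    beta_reduce
    rw [f1 T hT, zero_sub, neg_eq_zero]
    by_cases h1 : T ⊆ V
    · exact kz_card (a := a) b3 (fun h2 => hT ⟨h1, h2⟩)
    · exact kz_not_sub (a := a + 1) b3 h1
  -- lifts of f'
  have hlift2 : ∀ T, ∃ g ∈ Jy K, g.IsHomogeneous (e + 1) ∧ Ideal.Quotient.mk (II z s) g = f' T := by
    intro T
    obtain ⟨g, g1, g2⟩ := mem_Pq.1 (f'2 T)
    refine ⟨g, ?_, g1, g2⟩
    rw [← Ideal.Quotient.eq_zero_iff_mem, ← pr_mk z s, g2, f'0]
  have hsupp : ∀ T, ∀ ε ∉ Ex s e, psi z s (f' T) ε = 0 := by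
    intro T ε hε
    obtain ⟨g, g1, g2, g3⟩ := hlift2 T
    rw [← g3, psi_mk]
    exact Psi_supp g1 g2 hε
  -- the double differential vanishes
  have hkk : ∀ T, kz (xq (II z s)) V (fun U => kz (xq (II z s)) V b U) T = 0 := by
    intro T
    unfold kz
    simp only [map_sum, map_zsmul, Finset.smul_sum]
    rw [Finset.sum_sigma']
    refine Finset.sum_involution (fun p _ => ⟨p.2, p.1⟩) ?_ ?_ ?_ ?_
    · rintro ⟨t, u⟩ h
      simp only [Finset.mem_sigma, Finset.mem_sdiff, Finset.mem_insert, not_or] at h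
      obtain ⟨⟨t1, t2⟩, u1, u2, u3⟩ := h
      simp only
      rw [Finset.insert_comm u t T, (xq_ops (II z s)).comm u t, smul_smul, smul_smul, ← add_smul]
      have key : ∀ (t u : Fin 6), t ∉ T → u ∉ T → t < u →
          (-1 : ℤ) ^ (T.filter (· < t)).card * (-1) ^ ((insert t T).filter (· < u)).card +
          (-1 : ℤ) ^ (T.filter (· < u)).card * (-1) ^ ((insert u T).filter (· < t)).card = 0 := by
        intro t u ht hu htu
        have e1 : ((insert t T).filter (· < u)).card = (T.filter (· < u)).card + 1 := by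
          rw [Finset.filter_insert, if_pos htu, Finset.card_insert_of_notMem]
          exact fun h => ht (Finset.mem_filter.1 h).1
        have e2 : (insert u T).filter (· < t) = T.filter (· < t) := by
          rw [Finset.filter_insert, if_neg (not_lt.2 htu.le)]
        rw [e1, e2, pow_succ]
        ring
      rcases lt_trichotomy t u with h | h | h
      · rw [key t u t2 u3 h, zero_smul]
      · exact absurd h.symm u2
      · rw [add_comm, key u t u3 t2 h, zero_smul]
    · rintro ⟨t, u⟩ h hne heq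
      simp only [Finset.mem_sigma, Finset.mem_sdiff, Finset.mem_insert, not_or] at h
      have : u = t := by
        have := congrArg Sigma.fst heq
        exact this
      exact h.2.2.1 this
    · rintro ⟨t, u⟩ h
      simp only [Finset.mem_sigma, Finset.mem_sdiff, Finset.mem_insert, not_or] at h ⊢
      exact ⟨⟨h.2.1, h.2.2.2⟩, h.1.1, fun h' => h.2.2.1 h'.symm, h.1.2⟩
    · rintro ⟨t, u⟩ _
      rfl
  have f'3 : ∀ T, kz (xq (II z s)) V f' T = 0 := by
    intro T
    rw [hf', kz_sub, f3, hkk, sub_zero]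
  -- the dual module
  obtain ⟨ω, ω1, -, ω3⟩ := van_shift (n := 6) (K := K) V a ha2 e
    (fun T => psi z s (f' T)) (by
    intro T hT
    beta_reduce
    rw [f'1 T hT, map_zero]) (fun _ => trivial) (by
    intro T
    have := map_kz (x := xq (II z s)) (y := shift) (psi z s) (fun t b => psi_x z s t b) V f' T
    rw [f'3 T, map_zero] at this
    exact this.symm)
  obtain ⟨d, rfl⟩ : ∃ d, e = d + 1 := ⟨e - 1, by omega⟩
  set ω' : Finset (Fin 6) → ((Fin 6 →₀ ℕ) → K) := fun U ε => if ε ∈ Ex s d then ω U ε else 0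
    with hω'
  have hω'3 : ∀ T, psi z s (f' T) = kz shift V ω' T := by
    intro T
    funext ε
    have e1 : ∀ g : Finset (Fin 6) → ((Fin 6 →₀ ℕ) → K), kz shift V g T ε =
        ∑ t ∈ V \ T, ((-1 : ℤ) ^ (T.filter (· < t)).card) •
          g (insert t T) (ε + Finsupp.single t 1) := by
      intro g
      unfold kz
      rw [Finset.sum_apply]
      rfl
    have hEx : ∀ t ∈ V, (ε + Finsupp.single t 1 ∈ Ex s d ↔ ε ∈ Ex s (d + 1)) := by
      intro t ht
      have ht4 := hV t ht
      unfold Ex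
      simp only [Set.mem_ofPred_eq]
      have h1 : ∀ j, (ε + Finsupp.single t 1 : Fin 6 →₀ ℕ) (yo j) = ε (yo j) := by
        intro j
        rw [Finsupp.add_apply, Finsupp.single_eq_of_ne, add_zero]
        rintro h
        rw [← h, yo_val] at ht4
        omega
      have h2 : (ε + Finsupp.single t 1 : Fin 6 →₀ ℕ).degree = ε.degree + 1 := by
        rw [map_add, Finsupp.degree_single]
      rw [h2]
      simp only [h1]
      constructor
      · rintro ⟨h3, h4⟩; exact ⟨h3, by omega⟩
      · rintro ⟨h3, h4⟩; exact ⟨h3, by omega⟩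
    by_cases hε : ε ∈ Ex s (d + 1)
    · have := congrFun (ω3 T) ε
      beta_reduce at this
      rw [this, e1, e1]
      refine Finset.sum_congr rfl fun t ht => ?_
      rw [hω']
      beta_reduce
      rw [if_pos ((hEx t (Finset.mem_sdiff.1 ht).1).2 hε)]
    · rw [hsupp T ε hε, e1]
      symm
      refine Finset.sum_eq_zero fun t ht => ?_
      rw [hω']
      beta_reduce
      rw [if_neg (fun h => hε ((hEx t (Finset.mem_sdiff.1 ht).1).1 h)), smul_zero]
  have hlift3 : ∀ U, ∃ b ∈ Pq (II z s) (d + 1), pr z s b = 0 ∧ psi z s b = ω' U ∧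
      (¬ (U ⊆ V ∧ U.card = a + 1) → b = 0) := by
    intro U
    by_cases hU : U ⊆ V ∧ U.card = a + 1
    · obtain ⟨g, g1, g2, g3⟩ := hz.surj (d := d) (by omega) (ω' U) (by
        intro ε hε
        rw [hω']
        beta_reduce
        rw [if_neg hε])
      refine ⟨Ideal.Quotient.mk _ g, mem_Pq.2 ⟨g, g2, rfl⟩, ?_, ?_, fun h => absurd hU h⟩
      · rw [pr_mk, Ideal.Quotient.eq_zero_iff_mem]
        exact g1
      · rw [psi_mk, g3]
    · refine ⟨0, AddSubgroup.zero_mem _, map_zero _, ?_, fun _ => rfl⟩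
      rw [map_zero, hω']
      funext ε
      beta_reduce
      rw [ω1 U hU]
      split_ifs <;> rfl
  choose b' b'1 b'2 b'3 b'4 using hlift3
  refine ⟨fun U => b U + b' U, ?_, fun U => AddSubgroup.add_mem _ (b1 U) (b'1 U), ?_⟩
  · intro U hU
    beta_reduce
    rw [b3 U hU, b'4 U hU, add_zero]
  · intro T
    rw [kz_add]
    have h1 : f' T = kz (xq (II z s)) V b' T := by
      rw [← sub_eq_zero]
      apply eq_zero_of
      · rw [map_sub, f'0, zero_sub, neg_eq_zero]
        have h1 := map_kz (x := xq (II z s)) (y := xq (Jy K)) (pr z s).toAddMonoidHom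
          (fun t b => pr_x z s t b) V b' T
        refine h1.trans ?_
        unfold kz
        refine Finset.sum_eq_zero fun t _ => ?_
        have : (pr z s).toAddMonoidHom (b' (insert t T)) = 0 := b'2 _
        beta_reduce
        rw [this, map_zero, smul_zero]
      · rw [map_sub, hω'3, map_kz (x := xq (II z s)) (y := shift) (psi z s)
          (fun t b => psi_x z s t b) V b' T, sub_eq_zero]
        congr 1
        funext U
        exact (b'3 U).symm
    rw [← h1, hf']
    beta_reduce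
    rw [add_sub_cancel]

/-- vanishing for all variables in position three -/
theorem van_three {z : Fin 2 → Fin N → Fin 4 → K} {c k : ℕ} (hz : Pts z c k) (e : ℕ)
    (he : c + 1 ≤ e) :
    Van (xq (II z (c + k))) (Pq (II z (c + k))) Finset.univ 3 e := by
  classical
  have h0 : (Finset.univ : Finset (Fin 6)) = insert 5 (insert 4 {0, 1, 2, 3}) := by decide
  have hc : ({0, 1, 2, 3} : Finset (Fin 6)).card = 4 := by decide
  have hV : ∀ t ∈ ({0, 1, 2, 3} : Finset (Fin 6)), (t : ℕ) < 4 := by decide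
  have h1 := van_four hz {0, 1, 2, 3} hV 1 e (by omega) (by omega) he
  have h2 := van_four hz {0, 1, 2, 3} hV 2 e (by omega) (by omega) he
  have h3 := van_four hz {0, 1, 2, 3} hV 3 e (by omega) (by omega) he
  have h4 : ∀ t ∈ ({0, 1, 2, 3} : Finset (Fin 6)), t < 4 := by decide
  have h5 : ∀ t ∈ (insert 4 {0, 1, 2, 3} : Finset (Fin 6)), t < 5 := by decide
  have g3 := van_add (xq_ops _) h4 2 e h3 h2
  have g2 := van_add (xq_ops _) h4 1 e h2 h1
  rw [h0]
  exact van_add (xq_ops _) h5 2 e g3 g2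

end Pool.Agent.R950.WC
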